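import Pool.Agent.H62.LV.Ineq

/-! window 17 M < 2 K, K < 10 M (generated case analysis) -/

set_option linter.unusedVariables false
set_option maxRecDepth 10000
set_option maxHeartbeats 4000000

namespace Pool.Agent.H62.LV

/-- lifts (0, 1) (3,) (5,), 7 target lifts -/
lemma wc_leaf0 {K M ζ em e0 e1 : ℤ} {R R' : ℤ → Prop} (hM : 0 < M) (hs : StepRel K M R R')
    (hem : em = 0 ∨ em = 1) (he0 : e0 = 0 ∨ e0 = 1) (he1 : e1 = 0 ∨ e1 = 1)
    (hx1 : -K ≤ 3 * ζ) (hx2 : 3 * (ζ - M) < -K)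
    (am1 : -K ≤ 3 * (4 * ζ + K + em))
    (am2 : 3 * (4 * ζ + K + em - 4 * M) < -K)
    (az1 : -K ≤ 3 * (4 * ζ + e0 + 4 * M * 3))
    (az2 : 3 * (4 * ζ + e0 + 4 * M * 3 - 4 * M) < -K)
    (ap1 : -K ≤ 3 * (4 * ζ - K + e1 + 4 * M * 5))
    (ap2 : 3 * (4 * ζ - K + e1 + 4 * M * 5 - 4 * M) < -K)
    (cm0 : 3 * (4 * ζ + K + em + 4 * M) ≤ K + 4 * M - 1)
    (cm1 : ¬ -K ≤ 3 * (4 * ζ + K + em - 3 * M))
    (cm2 : ¬ 3 * (4 * ζ + K + em + 7 * M) ≤ K + 4 * M - 1)
    (cz0 : ¬ 3 * (4 * ζ + e0 + 4 * M * 3 + 4 * M) ≤ K + 4 * M - 1)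
    (cp0 : ¬ 3 * (4 * ζ - K + e1 + 4 * M * 5 + 4 * M) ≤ K + 4 * M - 1)
    (t00 : 3 * (ζ + 4 * M) ≤ K + 4 * M - 1)
    (t01 : ¬ -K ≤ 3 * (ζ - 3 * M))
    (t02 : ¬ 3 * (ζ + 7 * M) ≤ K + 4 * M - 1)
    (t10 : 3 * (ζ + M * 1 + 4 * M) ≤ K + 4 * M - 1)
    (t11 : ¬ -K ≤ 3 * (ζ + M * 1 - 3 * M))
    (t12 : ¬ 3 * (ζ + M * 1 + 7 * M) ≤ K + 4 * M - 1)
    (t20 : 3 * (ζ + M * 2 + 4 * M) ≤ K + 4 * M - 1)
    (t21 : ¬ -K ≤ 3 * (ζ + M * 2 - 3 * M))
    (t22 : ¬ 3 * (ζ + M * 2 + 7 * M) ≤ K + 4 * M - 1)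
    (t30 : ¬ 3 * (ζ + M * 3 + 4 * M) ≤ K + 4 * M - 1) :
    Ineq 6 8 5 16 (tabC K M) K M R R' ζ em e0 e1 := by
  classical
  have hN : 0 < 4 * M := by linarith
  have qm := G_eq (tab := tabC K M) (K := K) (N := 4 * M) (R := R) (z := 4 * ζ + K + em) (w := 4 * ζ + K + em) hN (by linarith) (by linarith)
    ⟨0, by ring⟩
  have qz := G_eq (tab := tabC K M) (K := K) (N := 4 * M) (R := R) (z := 4 * ζ + e0) (w := 4 * ζ + e0 + 4 * M * 3) hN (by linarith) (by linarith)
    ⟨3, by ring⟩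
  have qp := G_eq (tab := tabC K M) (K := K) (N := 4 * M) (R := R) (z := 4 * ζ - K + e1) (w := 4 * ζ - K + e1 + 4 * M * 5) hN (by linarith) (by linarith)
    ⟨5, by ring⟩
  have r0 := G_eq (tab := tabC K M) (K := K) (N := 4 * M) (R := R') (z := ζ) (w := ζ) hN (by linarith) (by linarith)
    ⟨0, by ring⟩
  have r1 := G_eq (tab := tabC K M) (K := K) (N := 4 * M) (R := R') (z := ζ + M * 1) (w := ζ + M * 1) hN (by linarith) (by linarith)
    ⟨0, by ring⟩
  have r2 := G_eq (tab := tabC K M) (K := K) (N := 4 * M) (R := R') (z := ζ + M * 2) (w := ζ + M * 2) hN (by linarith) (by linarith)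
    ⟨0, by ring⟩
  have r3 := G_eq (tab := tabC K M) (K := K) (N := 4 * M) (R := R') (z := ζ + M * 3) (w := ζ + M * 3) hN (by linarith) (by linarith)
    ⟨0, by ring⟩
  rw [tabC, if_pos cm0, if_neg cm1, if_neg cm2] at qm
  rw [tabC, if_neg cz0] at qz
  rw [tabC, if_neg cp0] at qp
  rw [tabC, if_pos t00, if_neg t01, if_neg t02] at r0
  rw [tabC, if_pos t10, if_neg t11, if_neg t12] at r1
  rw [tabC, if_pos t20, if_neg t21, if_neg t22] at r2
  rw [tabC, if_neg t30] at r3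
  have Em0 : ∀ n : ℤ, (n = 0 ∨ n = 0 + 1) → decide (R (4 * ζ + K + em)) = true → decide (R' (ζ + M * n)) = true := by
    intro n hn h
    have h := of_decide_eq_true h
    rcases hn with rfl | rfl
    · exact decide_eq_true (hs.d0 (a := -1) (e := em) (m := 0) (by simp) (by assumption) (by ring) h rfl)
    · exact decide_eq_true (hs.d1 (a := -1) (e := em) (m := 0) (by simp) (by assumption) (by ring) h rfl)
  have Em1 : ∀ n : ℤ, (n = 1 ∨ n = 1 + 1) → decide (R (4 * ζ + K + em + 4 * M)) = true → decide (R' (ζ + M * n)) = true := by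
    intro n hn h
    have h := of_decide_eq_true h
    rcases hn with rfl | rfl
    · exact decide_eq_true (hs.d0 (a := -1) (e := em) (m := 1) (by simp) (by assumption) (by ring) h rfl)
    · exact decide_eq_true (hs.d1 (a := -1) (e := em) (m := 1) (by simp) (by assumption) (by ring) h rfl)
  have Ez3 : ∀ n : ℤ, (n = 3 ∨ n = 3 + 1) → decide (R (4 * ζ + e0 + 4 * M * 3)) = true → decide (R' (ζ + M * n)) = true := by
    intro n hn h
    have h := of_decide_eq_true h
    rcases hn with rfl | rfl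
    · exact decide_eq_true (hs.d0 (a := 0) (e := e0) (m := 3) (by simp) (by assumption) (by ring) h rfl)
    · exact decide_eq_true (hs.d1 (a := 0) (e := e0) (m := 3) (by simp) (by assumption) (by ring) h rfl)
  have Ep5 : ∀ n : ℤ, (n = 5 ∨ n = 5 + 1) → decide (R (4 * ζ - K + e1 + 4 * M * 5)) = true → decide (R' (ζ + M * n)) = true := by
    intro n hn h
    have h := of_decide_eq_true h
    rcases hn with rfl | rfl
    · exact decide_eq_true (hs.d0 (a := 1) (e := e1) (m := 5) (by simp) (by assumption) (by ring) h rfl)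
    · exact decide_eq_true (hs.d1 (a := 1) (e := e1) (m := 5) (by simp) (by assumption) (by ring) h rfl)
  unfold Ineq
  rw [qm, qz, qp]
  generalize decide (R (4 * ζ + K + em)) = b0 at Em0 ⊢
  generalize decide (R (4 * ζ + K + em + 4 * M)) = b1 at Em1 ⊢
  generalize decide (R (4 * ζ + e0 + 4 * M * 3)) = b2 at Ez3 ⊢
  generalize decide (R (4 * ζ - K + e1 + 4 * M * 5)) = b3 at Ep5 ⊢
  have T0 : (b0) = true → decide (R' (ζ + M * 0)) = true := by
    intro h
    exact Em0 0 (by norm_num) h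
  have T1 : (b0 || b1) = true → decide (R' (ζ + M * 1)) = true := by
    intro h
    simp only [Bool.or_eq_true] at h
    rcases h with (h | h)
    · exact Em0 1 (by norm_num) h
    · exact Em1 1 (by norm_num) h
  have T2 : (b1) = true → decide (R' (ζ + M * 2)) = true := by
    intro h
    exact Em1 2 (by norm_num) h
  have T3 : (b2) = true → decide (R' (ζ + M * 3)) = true := by
    intro h
    exact Ez3 3 (by norm_num) h
  have T4 : (b2) = true → decide (R' (ζ + M * 4)) = true := by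
    intro h
    exact Ez3 4 (by norm_num) h
  have T5 : (b3) = true → decide (R' (ζ + M * 5)) = true := by
    intro h
    exact Ep5 5 (by norm_num) h
  have T6 : (b3) = true → decide (R' (ζ + M * 6)) = true := by
    intro h
    exact Ep5 6 (by norm_num) h
  have u0 : g2 16 10 10 (b0) (b2) ≤ G (tabC K M) K (4 * M) R' (ζ) := by
    rw [r0, show ζ + 4 * M = ζ + M * 4 by ring]
    have T0' := T0; rw [show ζ + M * 0 = ζ by ring] at T0'
    exact g2_mono (by norm_num) (by norm_num) (by norm_num) (by norm_num) T0' T4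
  have u1 : g2 16 10 10 (b0 || b1) (b3) ≤ G (tabC K M) K (4 * M) R' (ζ + M * 1) := by
    rw [r1, show ζ + M * 1 + 4 * M = ζ + M * 5 by ring]
    exact g2_mono (by norm_num) (by norm_num) (by norm_num) (by norm_num) T1 T5
  have u2 : g2 16 10 10 (b1) (b3) ≤ G (tabC K M) K (4 * M) R' (ζ + M * 2) := by
    rw [r2, show ζ + M * 2 + 4 * M = ζ + M * 6 by ring]
    exact g2_mono (by norm_num) (by norm_num) (by norm_num) (by norm_num) T2 T6
  have u3 : g1 16 (b2) ≤ G (tabC K M) K (4 * M) R' (ζ + M * 3) := by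
    rw [r3]
    exact g1_mono (by norm_num) T3
  have key : ∀ b0 b1 b2 b3 : Bool, KeyIneq 6 8 5 16 (g2 16 10 10 b0 b1) (g1 16 b2) (g1 16 b3)
      (g2 16 10 10 (b0) (b2) + g2 16 10 10 (b0 || b1) (b3) + g2 16 10 10 (b1) (b3) + g1 16 (b2)) := by decide
  have key := key b0 b1 b2 b3
  unfold KeyIneq at key
  refine ⟨by linarith [key.1], fun h h' => ?_⟩
  have := key.2 h h'
  linarith

/-- lifts (0, 1) (2, 3) (5,), 7 target lifts -/
lemma wc_leaf1 {K M ζ em e0 e1 : ℤ} {R R' : ℤ → Prop} (hM : 0 < M) (hs : StepRel K M R R')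
    (hem : em = 0 ∨ em = 1) (he0 : e0 = 0 ∨ e0 = 1) (he1 : e1 = 0 ∨ e1 = 1)
    (hx1 : -K ≤ 3 * ζ) (hx2 : 3 * (ζ - M) < -K)
    (am1 : -K ≤ 3 * (4 * ζ + K + em))
    (am2 : 3 * (4 * ζ + K + em - 4 * M) < -K)
    (az1 : -K ≤ 3 * (4 * ζ + e0 + 4 * M * 2))
    (az2 : 3 * (4 * ζ + e0 + 4 * M * 2 - 4 * M) < -K)
    (ap1 : -K ≤ 3 * (4 * ζ - K + e1 + 4 * M * 5))
    (ap2 : 3 * (4 * ζ - K + e1 + 4 * M * 5 - 4 * M) < -K)
    (cm0 : 3 * (4 * ζ + K + em + 4 * M) ≤ K + 4 * M - 1)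
    (cm1 : ¬ -K ≤ 3 * (4 * ζ + K + em - 3 * M))
    (cm2 : ¬ 3 * (4 * ζ + K + em + 7 * M) ≤ K + 4 * M - 1)
    (cz0 : 3 * (4 * ζ + e0 + 4 * M * 2 + 4 * M) ≤ K + 4 * M - 1)
    (cz1 : ¬ -K ≤ 3 * (4 * ζ + e0 + 4 * M * 2 - 3 * M))
    (cz2 : ¬ 3 * (4 * ζ + e0 + 4 * M * 2 + 7 * M) ≤ K + 4 * M - 1)
    (cp0 : ¬ 3 * (4 * ζ - K + e1 + 4 * M * 5 + 4 * M) ≤ K + 4 * M - 1)
    (t00 : 3 * (ζ + 4 * M) ≤ K + 4 * M - 1)
    (t01 : ¬ -K ≤ 3 * (ζ - 3 * M))
    (t02 : ¬ 3 * (ζ + 7 * M) ≤ K + 4 * M - 1)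
    (t10 : 3 * (ζ + M * 1 + 4 * M) ≤ K + 4 * M - 1)
    (t11 : ¬ -K ≤ 3 * (ζ + M * 1 - 3 * M))
    (t12 : ¬ 3 * (ζ + M * 1 + 7 * M) ≤ K + 4 * M - 1)
    (t20 : 3 * (ζ + M * 2 + 4 * M) ≤ K + 4 * M - 1)
    (t21 : ¬ -K ≤ 3 * (ζ + M * 2 - 3 * M))
    (t22 : ¬ 3 * (ζ + M * 2 + 7 * M) ≤ K + 4 * M - 1)
    (t30 : ¬ 3 * (ζ + M * 3 + 4 * M) ≤ K + 4 * M - 1) :
    Ineq 6 8 5 16 (tabC K M) K M R R' ζ em e0 e1 := by
  classical
  have hN : 0 < 4 * M := by linarith
  have qm := G_eq (tab := tabC K M) (K := K) (N := 4 * M) (R := R) (z := 4 * ζ + K + em) (w := 4 * ζ + K + em) hN (by linarith) (by linarith)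
    ⟨0, by ring⟩
  have qz := G_eq (tab := tabC K M) (K := K) (N := 4 * M) (R := R) (z := 4 * ζ + e0) (w := 4 * ζ + e0 + 4 * M * 2) hN (by linarith) (by linarith)
    ⟨2, by ring⟩
  have qp := G_eq (tab := tabC K M) (K := K) (N := 4 * M) (R := R) (z := 4 * ζ - K + e1) (w := 4 * ζ - K + e1 + 4 * M * 5) hN (by linarith) (by linarith)
    ⟨5, by ring⟩
  have r0 := G_eq (tab := tabC K M) (K := K) (N := 4 * M) (R := R') (z := ζ) (w := ζ) hN (by linarith) (by linarith)
    ⟨0, by ring⟩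
  have r1 := G_eq (tab := tabC K M) (K := K) (N := 4 * M) (R := R') (z := ζ + M * 1) (w := ζ + M * 1) hN (by linarith) (by linarith)
    ⟨0, by ring⟩
  have r2 := G_eq (tab := tabC K M) (K := K) (N := 4 * M) (R := R') (z := ζ + M * 2) (w := ζ + M * 2) hN (by linarith) (by linarith)
    ⟨0, by ring⟩
  have r3 := G_eq (tab := tabC K M) (K := K) (N := 4 * M) (R := R') (z := ζ + M * 3) (w := ζ + M * 3) hN (by linarith) (by linarith)
    ⟨0, by ring⟩
  rw [tabC, if_pos cm0, if_neg cm1, if_neg cm2] at qm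
  rw [tabC, if_pos cz0, if_neg cz1, if_neg cz2] at qz
  rw [tabC, if_neg cp0] at qp
  rw [tabC, if_pos t00, if_neg t01, if_neg t02] at r0
  rw [tabC, if_pos t10, if_neg t11, if_neg t12] at r1
  rw [tabC, if_pos t20, if_neg t21, if_neg t22] at r2
  rw [tabC, if_neg t30] at r3
  have Em0 : ∀ n : ℤ, (n = 0 ∨ n = 0 + 1) → decide (R (4 * ζ + K + em)) = true → decide (R' (ζ + M * n)) = true := by
    intro n hn h
    have h := of_decide_eq_true h
    rcases hn with rfl | rfl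
    · exact decide_eq_true (hs.d0 (a := -1) (e := em) (m := 0) (by simp) (by assumption) (by ring) h rfl)
    · exact decide_eq_true (hs.d1 (a := -1) (e := em) (m := 0) (by simp) (by assumption) (by ring) h rfl)
  have Em1 : ∀ n : ℤ, (n = 1 ∨ n = 1 + 1) → decide (R (4 * ζ + K + em + 4 * M)) = true → decide (R' (ζ + M * n)) = true := by
    intro n hn h
    have h := of_decide_eq_true h
    rcases hn with rfl | rfl
    · exact decide_eq_true (hs.d0 (a := -1) (e := em) (m := 1) (by simp) (by assumption) (by ring) h rfl)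
    · exact decide_eq_true (hs.d1 (a := -1) (e := em) (m := 1) (by simp) (by assumption) (by ring) h rfl)
  have Ez2 : ∀ n : ℤ, (n = 2 ∨ n = 2 + 1) → decide (R (4 * ζ + e0 + 4 * M * 2)) = true → decide (R' (ζ + M * n)) = true := by
    intro n hn h
    have h := of_decide_eq_true h
    rcases hn with rfl | rfl
    · exact decide_eq_true (hs.d0 (a := 0) (e := e0) (m := 2) (by simp) (by assumption) (by ring) h rfl)
    · exact decide_eq_true (hs.d1 (a := 0) (e := e0) (m := 2) (by simp) (by assumption) (by ring) h rfl)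
  have Ez3 : ∀ n : ℤ, (n = 3 ∨ n = 3 + 1) → decide (R (4 * ζ + e0 + 4 * M * 2 + 4 * M)) = true → decide (R' (ζ + M * n)) = true := by
    intro n hn h
    have h := of_decide_eq_true h
    rcases hn with rfl | rfl
    · exact decide_eq_true (hs.d0 (a := 0) (e := e0) (m := 3) (by simp) (by assumption) (by ring) h rfl)
    · exact decide_eq_true (hs.d1 (a := 0) (e := e0) (m := 3) (by simp) (by assumption) (by ring) h rfl)
  have Ep5 : ∀ n : ℤ, (n = 5 ∨ n = 5 + 1) → decide (R (4 * ζ - K + e1 + 4 * M * 5)) = true → decide (R' (ζ + M * n)) = true := by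
    intro n hn h
    have h := of_decide_eq_true h
    rcases hn with rfl | rfl
    · exact decide_eq_true (hs.d0 (a := 1) (e := e1) (m := 5) (by simp) (by assumption) (by ring) h rfl)
    · exact decide_eq_true (hs.d1 (a := 1) (e := e1) (m := 5) (by simp) (by assumption) (by ring) h rfl)
  unfold Ineq
  rw [qm, qz, qp]
  generalize decide (R (4 * ζ + K + em)) = b0 at Em0 ⊢
  generalize decide (R (4 * ζ + K + em + 4 * M)) = b1 at Em1 ⊢
  generalize decide (R (4 * ζ + e0 + 4 * M * 2)) = b2 at Ez2 ⊢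
  generalize decide (R (4 * ζ + e0 + 4 * M * 2 + 4 * M)) = b3 at Ez3 ⊢
  generalize decide (R (4 * ζ - K + e1 + 4 * M * 5)) = b4 at Ep5 ⊢
  have T0 : (b0) = true → decide (R' (ζ + M * 0)) = true := by
    intro h
    exact Em0 0 (by norm_num) h
  have T1 : (b0 || b1) = true → decide (R' (ζ + M * 1)) = true := by
    intro h
    simp only [Bool.or_eq_true] at h
    rcases h with (h | h)
    · exact Em0 1 (by norm_num) h
    · exact Em1 1 (by norm_num) h
  have T2 : (b1 || b2) = true → decide (R' (ζ + M * 2)) = true := by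
    intro h
    simp only [Bool.or_eq_true] at h
    rcases h with (h | h)
    · exact Em1 2 (by norm_num) h
    · exact Ez2 2 (by norm_num) h
  have T3 : (b2 || b3) = true → decide (R' (ζ + M * 3)) = true := by
    intro h
    simp only [Bool.or_eq_true] at h
    rcases h with (h | h)
    · exact Ez2 3 (by norm_num) h
    · exact Ez3 3 (by norm_num) h
  have T4 : (b3) = true → decide (R' (ζ + M * 4)) = true := by
    intro h
    exact Ez3 4 (by norm_num) h
  have T5 : (b4) = true → decide (R' (ζ + M * 5)) = true := by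
    intro h
    exact Ep5 5 (by norm_num) h
  have T6 : (b4) = true → decide (R' (ζ + M * 6)) = true := by
    intro h
    exact Ep5 6 (by norm_num) h
  have u0 : g2 16 10 10 (b0) (b3) ≤ G (tabC K M) K (4 * M) R' (ζ) := by
    rw [r0, show ζ + 4 * M = ζ + M * 4 by ring]
    have T0' := T0; rw [show ζ + M * 0 = ζ by ring] at T0'
    exact g2_mono (by norm_num) (by norm_num) (by norm_num) (by norm_num) T0' T4
  have u1 : g2 16 10 10 (b0 || b1) (b4) ≤ G (tabC K M) K (4 * M) R' (ζ + M * 1) := by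
    rw [r1, show ζ + M * 1 + 4 * M = ζ + M * 5 by ring]
    exact g2_mono (by norm_num) (by norm_num) (by norm_num) (by norm_num) T1 T5
  have u2 : g2 16 10 10 (b1 || b2) (b4) ≤ G (tabC K M) K (4 * M) R' (ζ + M * 2) := by
    rw [r2, show ζ + M * 2 + 4 * M = ζ + M * 6 by ring]
    exact g2_mono (by norm_num) (by norm_num) (by norm_num) (by norm_num) T2 T6
  have u3 : g1 16 (b2 || b3) ≤ G (tabC K M) K (4 * M) R' (ζ + M * 3) := by
    rw [r3]
    exact g1_mono (by norm_num) T3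
  have key : ∀ b0 b1 b2 b3 b4 : Bool, KeyIneq 6 8 5 16 (g2 16 10 10 b0 b1) (g2 16 10 10 b2 b3) (g1 16 b4)
      (g2 16 10 10 (b0) (b3) + g2 16 10 10 (b0 || b1) (b4) + g2 16 10 10 (b1 || b2) (b4) + g1 16 (b2 || b3)) := by decide
  have key := key b0 b1 b2 b3 b4
  unfold KeyIneq at key
  refine ⟨by linarith [key.1], fun h h' => ?_⟩
  have := key.2 h h'
  linarith

/-- lifts (0, 1) (2, 3) (4, 5), 7 target lifts -/
lemma wc_leaf2 {K M ζ em e0 e1 : ℤ} {R R' : ℤ → Prop} (hM : 0 < M) (hs : StepRel K M R R')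
    (hem : em = 0 ∨ em = 1) (he0 : e0 = 0 ∨ e0 = 1) (he1 : e1 = 0 ∨ e1 = 1)
    (hx1 : -K ≤ 3 * ζ) (hx2 : 3 * (ζ - M) < -K)
    (am1 : -K ≤ 3 * (4 * ζ + K + em))
    (am2 : 3 * (4 * ζ + K + em - 4 * M) < -K)
    (az1 : -K ≤ 3 * (4 * ζ + e0 + 4 * M * 2))
    (az2 : 3 * (4 * ζ + e0 + 4 * M * 2 - 4 * M) < -K)
    (ap1 : -K ≤ 3 * (4 * ζ - K + e1 + 4 * M * 4))
    (ap2 : 3 * (4 * ζ - K + e1 + 4 * M * 4 - 4 * M) < -K)
    (cm0 : 3 * (4 * ζ + K + em + 4 * M) ≤ K + 4 * M - 1)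
    (cm1 : ¬ -K ≤ 3 * (4 * ζ + K + em - 3 * M))
    (cm2 : ¬ 3 * (4 * ζ + K + em + 7 * M) ≤ K + 4 * M - 1)
    (cz0 : 3 * (4 * ζ + e0 + 4 * M * 2 + 4 * M) ≤ K + 4 * M - 1)
    (cz1 : ¬ -K ≤ 3 * (4 * ζ + e0 + 4 * M * 2 - 3 * M))
    (cz2 : ¬ 3 * (4 * ζ + e0 + 4 * M * 2 + 7 * M) ≤ K + 4 * M - 1)
    (cp0 : 3 * (4 * ζ - K + e1 + 4 * M * 4 + 4 * M) ≤ K + 4 * M - 1)
    (cp1 : ¬ -K ≤ 3 * (4 * ζ - K + e1 + 4 * M * 4 - 3 * M))
    (cp2 : ¬ 3 * (4 * ζ - K + e1 + 4 * M * 4 + 7 * M) ≤ K + 4 * M - 1)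
    (t00 : 3 * (ζ + 4 * M) ≤ K + 4 * M - 1)
    (t01 : ¬ -K ≤ 3 * (ζ - 3 * M))
    (t02 : ¬ 3 * (ζ + 7 * M) ≤ K + 4 * M - 1)
    (t10 : 3 * (ζ + M * 1 + 4 * M) ≤ K + 4 * M - 1)
    (t11 : ¬ -K ≤ 3 * (ζ + M * 1 - 3 * M))
    (t12 : ¬ 3 * (ζ + M * 1 + 7 * M) ≤ K + 4 * M - 1)
    (t20 : 3 * (ζ + M * 2 + 4 * M) ≤ K + 4 * M - 1)
    (t21 : ¬ -K ≤ 3 * (ζ + M * 2 - 3 * M))
    (t22 : ¬ 3 * (ζ + M * 2 + 7 * M) ≤ K + 4 * M - 1)
    (t30 : ¬ 3 * (ζ + M * 3 + 4 * M) ≤ K + 4 * M - 1) :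
    Ineq 6 8 5 16 (tabC K M) K M R R' ζ em e0 e1 := by
  classical
  have hN : 0 < 4 * M := by linarith
  have qm := G_eq (tab := tabC K M) (K := K) (N := 4 * M) (R := R) (z := 4 * ζ + K + em) (w := 4 * ζ + K + em) hN (by linarith) (by linarith)
    ⟨0, by ring⟩
  have qz := G_eq (tab := tabC K M) (K := K) (N := 4 * M) (R := R) (z := 4 * ζ + e0) (w := 4 * ζ + e0 + 4 * M * 2) hN (by linarith) (by linarith)
    ⟨2, by ring⟩
  have qp := G_eq (tab := tabC K M) (K := K) (N := 4 * M) (R := R) (z := 4 * ζ - K + e1) (w := 4 * ζ - K + e1 + 4 * M * 4) hN (by linarith) (by linarith)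
    ⟨4, by ring⟩
  have r0 := G_eq (tab := tabC K M) (K := K) (N := 4 * M) (R := R') (z := ζ) (w := ζ) hN (by linarith) (by linarith)
    ⟨0, by ring⟩
  have r1 := G_eq (tab := tabC K M) (K := K) (N := 4 * M) (R := R') (z := ζ + M * 1) (w := ζ + M * 1) hN (by linarith) (by linarith)
    ⟨0, by ring⟩
  have r2 := G_eq (tab := tabC K M) (K := K) (N := 4 * M) (R := R') (z := ζ + M * 2) (w := ζ + M * 2) hN (by linarith) (by linarith)
    ⟨0, by ring⟩
  have r3 := G_eq (tab := tabC K M) (K := K) (N := 4 * M) (R := R') (z := ζ + M * 3) (w := ζ + M * 3) hN (by linarith) (by linarith)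
    ⟨0, by ring⟩
  rw [tabC, if_pos cm0, if_neg cm1, if_neg cm2] at qm
  rw [tabC, if_pos cz0, if_neg cz1, if_neg cz2] at qz
  rw [tabC, if_pos cp0, if_neg cp1, if_neg cp2] at qp
  rw [tabC, if_pos t00, if_neg t01, if_neg t02] at r0
  rw [tabC, if_pos t10, if_neg t11, if_neg t12] at r1
  rw [tabC, if_pos t20, if_neg t21, if_neg t22] at r2
  rw [tabC, if_neg t30] at r3
  have Em0 : ∀ n : ℤ, (n = 0 ∨ n = 0 + 1) → decide (R (4 * ζ + K + em)) = true → decide (R' (ζ + M * n)) = true := by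
    intro n hn h
    have h := of_decide_eq_true h
    rcases hn with rfl | rfl
    · exact decide_eq_true (hs.d0 (a := -1) (e := em) (m := 0) (by simp) (by assumption) (by ring) h rfl)
    · exact decide_eq_true (hs.d1 (a := -1) (e := em) (m := 0) (by simp) (by assumption) (by ring) h rfl)
  have Em1 : ∀ n : ℤ, (n = 1 ∨ n = 1 + 1) → decide (R (4 * ζ + K + em + 4 * M)) = true → decide (R' (ζ + M * n)) = true := by
    intro n hn h
    have h := of_decide_eq_true h
    rcases hn with rfl | rfl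
    · exact decide_eq_true (hs.d0 (a := -1) (e := em) (m := 1) (by simp) (by assumption) (by ring) h rfl)
    · exact decide_eq_true (hs.d1 (a := -1) (e := em) (m := 1) (by simp) (by assumption) (by ring) h rfl)
  have Ez2 : ∀ n : ℤ, (n = 2 ∨ n = 2 + 1) → decide (R (4 * ζ + e0 + 4 * M * 2)) = true → decide (R' (ζ + M * n)) = true := by
    intro n hn h
    have h := of_decide_eq_true h
    rcases hn with rfl | rfl
    · exact decide_eq_true (hs.d0 (a := 0) (e := e0) (m := 2) (by simp) (by assumption) (by ring) h rfl)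
    · exact decide_eq_true (hs.d1 (a := 0) (e := e0) (m := 2) (by simp) (by assumption) (by ring) h rfl)
  have Ez3 : ∀ n : ℤ, (n = 3 ∨ n = 3 + 1) → decide (R (4 * ζ + e0 + 4 * M * 2 + 4 * M)) = true → decide (R' (ζ + M * n)) = true := by
    intro n hn h
    have h := of_decide_eq_true h
    rcases hn with rfl | rfl
    · exact decide_eq_true (hs.d0 (a := 0) (e := e0) (m := 3) (by simp) (by assumption) (by ring) h rfl)
    · exact decide_eq_true (hs.d1 (a := 0) (e := e0) (m := 3) (by simp) (by assumption) (by ring) h rfl)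
  have Ep4 : ∀ n : ℤ, (n = 4 ∨ n = 4 + 1) → decide (R (4 * ζ - K + e1 + 4 * M * 4)) = true → decide (R' (ζ + M * n)) = true := by
    intro n hn h
    have h := of_decide_eq_true h
    rcases hn with rfl | rfl
    · exact decide_eq_true (hs.d0 (a := 1) (e := e1) (m := 4) (by simp) (by assumption) (by ring) h rfl)
    · exact decide_eq_true (hs.d1 (a := 1) (e := e1) (m := 4) (by simp) (by assumption) (by ring) h rfl)
  have Ep5 : ∀ n : ℤ, (n = 5 ∨ n = 5 + 1) → decide (R (4 * ζ - K + e1 + 4 * M * 4 + 4 * M)) = true → decide (R' (ζ + M * n)) = true := by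
    intro n hn h
    have h := of_decide_eq_true h
    rcases hn with rfl | rfl
    · exact decide_eq_true (hs.d0 (a := 1) (e := e1) (m := 5) (by simp) (by assumption) (by ring) h rfl)
    · exact decide_eq_true (hs.d1 (a := 1) (e := e1) (m := 5) (by simp) (by assumption) (by ring) h rfl)
  unfold Ineq
  rw [qm, qz, qp]
  generalize decide (R (4 * ζ + K + em)) = b0 at Em0 ⊢
  generalize decide (R (4 * ζ + K + em + 4 * M)) = b1 at Em1 ⊢
  generalize decide (R (4 * ζ + e0 + 4 * M * 2)) = b2 at Ez2 ⊢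
  generalize decide (R (4 * ζ + e0 + 4 * M * 2 + 4 * M)) = b3 at Ez3 ⊢
  generalize decide (R (4 * ζ - K + e1 + 4 * M * 4)) = b4 at Ep4 ⊢
  generalize decide (R (4 * ζ - K + e1 + 4 * M * 4 + 4 * M)) = b5 at Ep5 ⊢
  have T0 : (b0) = true → decide (R' (ζ + M * 0)) = true := by
    intro h
    exact Em0 0 (by norm_num) h
  have T1 : (b0 || b1) = true → decide (R' (ζ + M * 1)) = true := by
    intro h
    simp only [Bool.or_eq_true] at h
    rcases h with (h | h)
    · exact Em0 1 (by norm_num) h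
    · exact Em1 1 (by norm_num) h
  have T2 : (b1 || b2) = true → decide (R' (ζ + M * 2)) = true := by
    intro h
    simp only [Bool.or_eq_true] at h
    rcases h with (h | h)
    · exact Em1 2 (by norm_num) h
    · exact Ez2 2 (by norm_num) h
  have T3 : (b2 || b3) = true → decide (R' (ζ + M * 3)) = true := by
    intro h
    simp only [Bool.or_eq_true] at h
    rcases h with (h | h)
    · exact Ez2 3 (by norm_num) h
    · exact Ez3 3 (by norm_num) h
  have T4 : (b3 || b4) = true → decide (R' (ζ + M * 4)) = true := by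
    intro h
    simp only [Bool.or_eq_true] at h
    rcases h with (h | h)
    · exact Ez3 4 (by norm_num) h
    · exact Ep4 4 (by norm_num) h
  have T5 : (b4 || b5) = true → decide (R' (ζ + M * 5)) = true := by
    intro h
    simp only [Bool.or_eq_true] at h
    rcases h with (h | h)
    · exact Ep4 5 (by norm_num) h
    · exact Ep5 5 (by norm_num) h
  have T6 : (b5) = true → decide (R' (ζ + M * 6)) = true := by
    intro h
    exact Ep5 6 (by norm_num) h
  have u0 : g2 16 10 10 (b0) (b3 || b4) ≤ G (tabC K M) K (4 * M) R' (ζ) := by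
    rw [r0, show ζ + 4 * M = ζ + M * 4 by ring]
    have T0' := T0; rw [show ζ + M * 0 = ζ by ring] at T0'
    exact g2_mono (by norm_num) (by norm_num) (by norm_num) (by norm_num) T0' T4
  have u1 : g2 16 10 10 (b0 || b1) (b4 || b5) ≤ G (tabC K M) K (4 * M) R' (ζ + M * 1) := by
    rw [r1, show ζ + M * 1 + 4 * M = ζ + M * 5 by ring]
    exact g2_mono (by norm_num) (by norm_num) (by norm_num) (by norm_num) T1 T5
  have u2 : g2 16 10 10 (b1 || b2) (b5) ≤ G (tabC K M) K (4 * M) R' (ζ + M * 2) := by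
    rw [r2, show ζ + M * 2 + 4 * M = ζ + M * 6 by ring]
    exact g2_mono (by norm_num) (by norm_num) (by norm_num) (by norm_num) T2 T6
  have u3 : g1 16 (b2 || b3) ≤ G (tabC K M) K (4 * M) R' (ζ + M * 3) := by
    rw [r3]
    exact g1_mono (by norm_num) T3
  have key : ∀ b0 b1 b2 b3 b4 b5 : Bool, KeyIneq 6 8 5 16 (g2 16 10 10 b0 b1) (g2 16 10 10 b2 b3) (g2 16 10 10 b4 b5)
      (g2 16 10 10 (b0) (b3 || b4) + g2 16 10 10 (b0 || b1) (b4 || b5) + g2 16 10 10 (b1 || b2) (b5) + g1 16 (b2 || b3)) := by decide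
  have key := key b0 b1 b2 b3 b4 b5
  unfold KeyIneq at key
  refine ⟨by linarith [key.1], fun h h' => ?_⟩
  have := key.2 h h'
  linarith

/-- lifts (0,) (2, 3) (4, 5), 7 target lifts -/
lemma wc_leaf3 {K M ζ em e0 e1 : ℤ} {R R' : ℤ → Prop} (hM : 0 < M) (hs : StepRel K M R R')
    (hem : em = 0 ∨ em = 1) (he0 : e0 = 0 ∨ e0 = 1) (he1 : e1 = 0 ∨ e1 = 1)
    (hx1 : -K ≤ 3 * ζ) (hx2 : 3 * (ζ - M) < -K)
    (am1 : -K ≤ 3 * (4 * ζ + K + em))
    (am2 : 3 * (4 * ζ + K + em - 4 * M) < -K)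
    (az1 : -K ≤ 3 * (4 * ζ + e0 + 4 * M * 2))
    (az2 : 3 * (4 * ζ + e0 + 4 * M * 2 - 4 * M) < -K)
    (ap1 : -K ≤ 3 * (4 * ζ - K + e1 + 4 * M * 4))
    (ap2 : 3 * (4 * ζ - K + e1 + 4 * M * 4 - 4 * M) < -K)
    (cm0 : ¬ 3 * (4 * ζ + K + em + 4 * M) ≤ K + 4 * M - 1)
    (cz0 : 3 * (4 * ζ + e0 + 4 * M * 2 + 4 * M) ≤ K + 4 * M - 1)
    (cz1 : ¬ -K ≤ 3 * (4 * ζ + e0 + 4 * M * 2 - 3 * M))
    (cz2 : ¬ 3 * (4 * ζ + e0 + 4 * M * 2 + 7 * M) ≤ K + 4 * M - 1)
    (cp0 : 3 * (4 * ζ - K + e1 + 4 * M * 4 + 4 * M) ≤ K + 4 * M - 1)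
    (cp1 : ¬ -K ≤ 3 * (4 * ζ - K + e1 + 4 * M * 4 - 3 * M))
    (cp2 : ¬ 3 * (4 * ζ - K + e1 + 4 * M * 4 + 7 * M) ≤ K + 4 * M - 1)
    (t00 : 3 * (ζ + 4 * M) ≤ K + 4 * M - 1)
    (t01 : ¬ -K ≤ 3 * (ζ - 3 * M))
    (t02 : ¬ 3 * (ζ + 7 * M) ≤ K + 4 * M - 1)
    (t10 : 3 * (ζ + M * 1 + 4 * M) ≤ K + 4 * M - 1)
    (t11 : ¬ -K ≤ 3 * (ζ + M * 1 - 3 * M))
    (t12 : ¬ 3 * (ζ + M * 1 + 7 * M) ≤ K + 4 * M - 1)
    (t20 : 3 * (ζ + M * 2 + 4 * M) ≤ K + 4 * M - 1)
    (t21 : ¬ -K ≤ 3 * (ζ + M * 2 - 3 * M))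
    (t22 : ¬ 3 * (ζ + M * 2 + 7 * M) ≤ K + 4 * M - 1)
    (t30 : ¬ 3 * (ζ + M * 3 + 4 * M) ≤ K + 4 * M - 1) :
    Ineq 6 8 5 16 (tabC K M) K M R R' ζ em e0 e1 := by
  classical
  have hN : 0 < 4 * M := by linarith
  have qm := G_eq (tab := tabC K M) (K := K) (N := 4 * M) (R := R) (z := 4 * ζ + K + em) (w := 4 * ζ + K + em) hN (by linarith) (by linarith)
    ⟨0, by ring⟩
  have qz := G_eq (tab := tabC K M) (K := K) (N := 4 * M) (R := R) (z := 4 * ζ + e0) (w := 4 * ζ + e0 + 4 * M * 2) hN (by linarith) (by linarith)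
    ⟨2, by ring⟩
  have qp := G_eq (tab := tabC K M) (K := K) (N := 4 * M) (R := R) (z := 4 * ζ - K + e1) (w := 4 * ζ - K + e1 + 4 * M * 4) hN (by linarith) (by linarith)
    ⟨4, by ring⟩
  have r0 := G_eq (tab := tabC K M) (K := K) (N := 4 * M) (R := R') (z := ζ) (w := ζ) hN (by linarith) (by linarith)
    ⟨0, by ring⟩
  have r1 := G_eq (tab := tabC K M) (K := K) (N := 4 * M) (R := R') (z := ζ + M * 1) (w := ζ + M * 1) hN (by linarith) (by linarith)
    ⟨0, by ring⟩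
  have r2 := G_eq (tab := tabC K M) (K := K) (N := 4 * M) (R := R') (z := ζ + M * 2) (w := ζ + M * 2) hN (by linarith) (by linarith)
    ⟨0, by ring⟩
  have r3 := G_eq (tab := tabC K M) (K := K) (N := 4 * M) (R := R') (z := ζ + M * 3) (w := ζ + M * 3) hN (by linarith) (by linarith)
    ⟨0, by ring⟩
  rw [tabC, if_neg cm0] at qm
  rw [tabC, if_pos cz0, if_neg cz1, if_neg cz2] at qz
  rw [tabC, if_pos cp0, if_neg cp1, if_neg cp2] at qp
  rw [tabC, if_pos t00, if_neg t01, if_neg t02] at r0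
  rw [tabC, if_pos t10, if_neg t11, if_neg t12] at r1
  rw [tabC, if_pos t20, if_neg t21, if_neg t22] at r2
  rw [tabC, if_neg t30] at r3
  have Em0 : ∀ n : ℤ, (n = 0 ∨ n = 0 + 1) → decide (R (4 * ζ + K + em)) = true → decide (R' (ζ + M * n)) = true := by
    intro n hn h
    have h := of_decide_eq_true h
    rcases hn with rfl | rfl
    · exact decide_eq_true (hs.d0 (a := -1) (e := em) (m := 0) (by simp) (by assumption) (by ring) h rfl)
    · exact decide_eq_true (hs.d1 (a := -1) (e := em) (m := 0) (by simp) (by assumption) (by ring) h rfl)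
  have Ez2 : ∀ n : ℤ, (n = 2 ∨ n = 2 + 1) → decide (R (4 * ζ + e0 + 4 * M * 2)) = true → decide (R' (ζ + M * n)) = true := by
    intro n hn h
    have h := of_decide_eq_true h
    rcases hn with rfl | rfl
    · exact decide_eq_true (hs.d0 (a := 0) (e := e0) (m := 2) (by simp) (by assumption) (by ring) h rfl)
    · exact decide_eq_true (hs.d1 (a := 0) (e := e0) (m := 2) (by simp) (by assumption) (by ring) h rfl)
  have Ez3 : ∀ n : ℤ, (n = 3 ∨ n = 3 + 1) → decide (R (4 * ζ + e0 + 4 * M * 2 + 4 * M)) = true → decide (R' (ζ + M * n)) = true := by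
    intro n hn h
    have h := of_decide_eq_true h
    rcases hn with rfl | rfl
    · exact decide_eq_true (hs.d0 (a := 0) (e := e0) (m := 3) (by simp) (by assumption) (by ring) h rfl)
    · exact decide_eq_true (hs.d1 (a := 0) (e := e0) (m := 3) (by simp) (by assumption) (by ring) h rfl)
  have Ep4 : ∀ n : ℤ, (n = 4 ∨ n = 4 + 1) → decide (R (4 * ζ - K + e1 + 4 * M * 4)) = true → decide (R' (ζ + M * n)) = true := by
    intro n hn h
    have h := of_decide_eq_true h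
    rcases hn with rfl | rfl
    · exact decide_eq_true (hs.d0 (a := 1) (e := e1) (m := 4) (by simp) (by assumption) (by ring) h rfl)
    · exact decide_eq_true (hs.d1 (a := 1) (e := e1) (m := 4) (by simp) (by assumption) (by ring) h rfl)
  have Ep5 : ∀ n : ℤ, (n = 5 ∨ n = 5 + 1) → decide (R (4 * ζ - K + e1 + 4 * M * 4 + 4 * M)) = true → decide (R' (ζ + M * n)) = true := by
    intro n hn h
    have h := of_decide_eq_true h
    rcases hn with rfl | rfl
    · exact decide_eq_true (hs.d0 (a := 1) (e := e1) (m := 5) (by simp) (by assumption) (by ring) h rfl)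
    · exact decide_eq_true (hs.d1 (a := 1) (e := e1) (m := 5) (by simp) (by assumption) (by ring) h rfl)
  unfold Ineq
  rw [qm, qz, qp]
  generalize decide (R (4 * ζ + K + em)) = b0 at Em0 ⊢
  generalize decide (R (4 * ζ + e0 + 4 * M * 2)) = b1 at Ez2 ⊢
  generalize decide (R (4 * ζ + e0 + 4 * M * 2 + 4 * M)) = b2 at Ez3 ⊢
  generalize decide (R (4 * ζ - K + e1 + 4 * M * 4)) = b3 at Ep4 ⊢
  generalize decide (R (4 * ζ - K + e1 + 4 * M * 4 + 4 * M)) = b4 at Ep5 ⊢
  have T0 : (b0) = true → decide (R' (ζ + M * 0)) = true := by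
    intro h
    exact Em0 0 (by norm_num) h
  have T1 : (b0) = true → decide (R' (ζ + M * 1)) = true := by
    intro h
    exact Em0 1 (by norm_num) h
  have T2 : (b1) = true → decide (R' (ζ + M * 2)) = true := by
    intro h
    exact Ez2 2 (by norm_num) h
  have T3 : (b1 || b2) = true → decide (R' (ζ + M * 3)) = true := by
    intro h
    simp only [Bool.or_eq_true] at h
    rcases h with (h | h)
    · exact Ez2 3 (by norm_num) h
    · exact Ez3 3 (by norm_num) h
  have T4 : (b2 || b3) = true → decide (R' (ζ + M * 4)) = true := by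
    intro h
    simp only [Bool.or_eq_true] at h
    rcases h with (h | h)
    · exact Ez3 4 (by norm_num) h
    · exact Ep4 4 (by norm_num) h
  have T5 : (b3 || b4) = true → decide (R' (ζ + M * 5)) = true := by
    intro h
    simp only [Bool.or_eq_true] at h
    rcases h with (h | h)
    · exact Ep4 5 (by norm_num) h
    · exact Ep5 5 (by norm_num) h
  have T6 : (b4) = true → decide (R' (ζ + M * 6)) = true := by
    intro h
    exact Ep5 6 (by norm_num) h
  have u0 : g2 16 10 10 (b0) (b2 || b3) ≤ G (tabC K M) K (4 * M) R' (ζ) := by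
    rw [r0, show ζ + 4 * M = ζ + M * 4 by ring]
    have T0' := T0; rw [show ζ + M * 0 = ζ by ring] at T0'
    exact g2_mono (by norm_num) (by norm_num) (by norm_num) (by norm_num) T0' T4
  have u1 : g2 16 10 10 (b0) (b3 || b4) ≤ G (tabC K M) K (4 * M) R' (ζ + M * 1) := by
    rw [r1, show ζ + M * 1 + 4 * M = ζ + M * 5 by ring]
    exact g2_mono (by norm_num) (by norm_num) (by norm_num) (by norm_num) T1 T5
  have u2 : g2 16 10 10 (b1) (b4) ≤ G (tabC K M) K (4 * M) R' (ζ + M * 2) := by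
    rw [r2, show ζ + M * 2 + 4 * M = ζ + M * 6 by ring]
    exact g2_mono (by norm_num) (by norm_num) (by norm_num) (by norm_num) T2 T6
  have u3 : g1 16 (b1 || b2) ≤ G (tabC K M) K (4 * M) R' (ζ + M * 3) := by
    rw [r3]
    exact g1_mono (by norm_num) T3
  have key : ∀ b0 b1 b2 b3 b4 : Bool, KeyIneq 6 8 5 16 (g1 16 b0) (g2 16 10 10 b1 b2) (g2 16 10 10 b3 b4)
      (g2 16 10 10 (b0) (b2 || b3) + g2 16 10 10 (b0) (b3 || b4) + g2 16 10 10 (b1) (b4) + g1 16 (b1 || b2)) := by decide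
  have key := key b0 b1 b2 b3 b4
  unfold KeyIneq at key
  refine ⟨by linarith [key.1], fun h h' => ?_⟩
  have := key.2 h h'
  linarith

/-- lifts (0,) (2,) (4, 5), 7 target lifts -/
lemma wc_leaf4 {K M ζ em e0 e1 : ℤ} {R R' : ℤ → Prop} (hM : 0 < M) (hs : StepRel K M R R')
    (hem : em = 0 ∨ em = 1) (he0 : e0 = 0 ∨ e0 = 1) (he1 : e1 = 0 ∨ e1 = 1)
    (hx1 : -K ≤ 3 * ζ) (hx2 : 3 * (ζ - M) < -K)
    (am1 : -K ≤ 3 * (4 * ζ + K + em))
    (am2 : 3 * (4 * ζ + K + em - 4 * M) < -K)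
    (az1 : -K ≤ 3 * (4 * ζ + e0 + 4 * M * 2))
    (az2 : 3 * (4 * ζ + e0 + 4 * M * 2 - 4 * M) < -K)
    (ap1 : -K ≤ 3 * (4 * ζ - K + e1 + 4 * M * 4))
    (ap2 : 3 * (4 * ζ - K + e1 + 4 * M * 4 - 4 * M) < -K)
    (cm0 : ¬ 3 * (4 * ζ + K + em + 4 * M) ≤ K + 4 * M - 1)
    (cz0 : ¬ 3 * (4 * ζ + e0 + 4 * M * 2 + 4 * M) ≤ K + 4 * M - 1)
    (cp0 : 3 * (4 * ζ - K + e1 + 4 * M * 4 + 4 * M) ≤ K + 4 * M - 1)
    (cp1 : ¬ -K ≤ 3 * (4 * ζ - K + e1 + 4 * M * 4 - 3 * M))
    (cp2 : ¬ 3 * (4 * ζ - K + e1 + 4 * M * 4 + 7 * M) ≤ K + 4 * M - 1)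
    (t00 : 3 * (ζ + 4 * M) ≤ K + 4 * M - 1)
    (t01 : ¬ -K ≤ 3 * (ζ - 3 * M))
    (t02 : ¬ 3 * (ζ + 7 * M) ≤ K + 4 * M - 1)
    (t10 : 3 * (ζ + M * 1 + 4 * M) ≤ K + 4 * M - 1)
    (t11 : ¬ -K ≤ 3 * (ζ + M * 1 - 3 * M))
    (t12 : ¬ 3 * (ζ + M * 1 + 7 * M) ≤ K + 4 * M - 1)
    (t20 : 3 * (ζ + M * 2 + 4 * M) ≤ K + 4 * M - 1)
    (t21 : ¬ -K ≤ 3 * (ζ + M * 2 - 3 * M))
    (t22 : ¬ 3 * (ζ + M * 2 + 7 * M) ≤ K + 4 * M - 1)
    (t30 : ¬ 3 * (ζ + M * 3 + 4 * M) ≤ K + 4 * M - 1) :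
    Ineq 6 8 5 16 (tabC K M) K M R R' ζ em e0 e1 := by
  classical
  have hN : 0 < 4 * M := by linarith
  have qm := G_eq (tab := tabC K M) (K := K) (N := 4 * M) (R := R) (z := 4 * ζ + K + em) (w := 4 * ζ + K + em) hN (by linarith) (by linarith)
    ⟨0, by ring⟩
  have qz := G_eq (tab := tabC K M) (K := K) (N := 4 * M) (R := R) (z := 4 * ζ + e0) (w := 4 * ζ + e0 + 4 * M * 2) hN (by linarith) (by linarith)
    ⟨2, by ring⟩
  have qp := G_eq (tab := tabC K M) (K := K) (N := 4 * M) (R := R) (z := 4 * ζ - K + e1) (w := 4 * ζ - K + e1 + 4 * M * 4) hN (by linarith) (by linarith)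
    ⟨4, by ring⟩
  have r0 := G_eq (tab := tabC K M) (K := K) (N := 4 * M) (R := R') (z := ζ) (w := ζ) hN (by linarith) (by linarith)
    ⟨0, by ring⟩
  have r1 := G_eq (tab := tabC K M) (K := K) (N := 4 * M) (R := R') (z := ζ + M * 1) (w := ζ + M * 1) hN (by linarith) (by linarith)
    ⟨0, by ring⟩
  have r2 := G_eq (tab := tabC K M) (K := K) (N := 4 * M) (R := R') (z := ζ + M * 2) (w := ζ + M * 2) hN (by linarith) (by linarith)
    ⟨0, by ring⟩
  have r3 := G_eq (tab := tabC K M) (K := K) (N := 4 * M) (R := R') (z := ζ + M * 3) (w := ζ + M * 3) hN (by linarith) (by linarith)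
    ⟨0, by ring⟩
  rw [tabC, if_neg cm0] at qm
  rw [tabC, if_neg cz0] at qz
  rw [tabC, if_pos cp0, if_neg cp1, if_neg cp2] at qp
  rw [tabC, if_pos t00, if_neg t01, if_neg t02] at r0
  rw [tabC, if_pos t10, if_neg t11, if_neg t12] at r1
  rw [tabC, if_pos t20, if_neg t21, if_neg t22] at r2
  rw [tabC, if_neg t30] at r3
  have Em0 : ∀ n : ℤ, (n = 0 ∨ n = 0 + 1) → decide (R (4 * ζ + K + em)) = true → decide (R' (ζ + M * n)) = true := by
    intro n hn h
    have h := of_decide_eq_true h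
    rcases hn with rfl | rfl
    · exact decide_eq_true (hs.d0 (a := -1) (e := em) (m := 0) (by simp) (by assumption) (by ring) h rfl)
    · exact decide_eq_true (hs.d1 (a := -1) (e := em) (m := 0) (by simp) (by assumption) (by ring) h rfl)
  have Ez2 : ∀ n : ℤ, (n = 2 ∨ n = 2 + 1) → decide (R (4 * ζ + e0 + 4 * M * 2)) = true → decide (R' (ζ + M * n)) = true := by
    intro n hn h
    have h := of_decide_eq_true h
    rcases hn with rfl | rfl
    · exact decide_eq_true (hs.d0 (a := 0) (e := e0) (m := 2) (by simp) (by assumption) (by ring) h rfl)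
    · exact decide_eq_true (hs.d1 (a := 0) (e := e0) (m := 2) (by simp) (by assumption) (by ring) h rfl)
  have Ep4 : ∀ n : ℤ, (n = 4 ∨ n = 4 + 1) → decide (R (4 * ζ - K + e1 + 4 * M * 4)) = true → decide (R' (ζ + M * n)) = true := by
    intro n hn h
    have h := of_decide_eq_true h
    rcases hn with rfl | rfl
    · exact decide_eq_true (hs.d0 (a := 1) (e := e1) (m := 4) (by simp) (by assumption) (by ring) h rfl)
    · exact decide_eq_true (hs.d1 (a := 1) (e := e1) (m := 4) (by simp) (by assumption) (by ring) h rfl)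
  have Ep5 : ∀ n : ℤ, (n = 5 ∨ n = 5 + 1) → decide (R (4 * ζ - K + e1 + 4 * M * 4 + 4 * M)) = true → decide (R' (ζ + M * n)) = true := by
    intro n hn h
    have h := of_decide_eq_true h
    rcases hn with rfl | rfl
    · exact decide_eq_true (hs.d0 (a := 1) (e := e1) (m := 5) (by simp) (by assumption) (by ring) h rfl)
    · exact decide_eq_true (hs.d1 (a := 1) (e := e1) (m := 5) (by simp) (by assumption) (by ring) h rfl)
  unfold Ineq
  rw [qm, qz, qp]
  generalize decide (R (4 * ζ + K + em)) = b0 at Em0 ⊢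
  generalize decide (R (4 * ζ + e0 + 4 * M * 2)) = b1 at Ez2 ⊢
  generalize decide (R (4 * ζ - K + e1 + 4 * M * 4)) = b2 at Ep4 ⊢
  generalize decide (R (4 * ζ - K + e1 + 4 * M * 4 + 4 * M)) = b3 at Ep5 ⊢
  have T0 : (b0) = true → decide (R' (ζ + M * 0)) = true := by
    intro h
    exact Em0 0 (by norm_num) h
  have T1 : (b0) = true → decide (R' (ζ + M * 1)) = true := by
    intro h
    exact Em0 1 (by norm_num) h
  have T2 : (b1) = true → decide (R' (ζ + M * 2)) = true := by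
    intro h
    exact Ez2 2 (by norm_num) h
  have T3 : (b1) = true → decide (R' (ζ + M * 3)) = true := by
    intro h
    exact Ez2 3 (by norm_num) h
  have T4 : (b2) = true → decide (R' (ζ + M * 4)) = true := by
    intro h
    exact Ep4 4 (by norm_num) h
  have T5 : (b2 || b3) = true → decide (R' (ζ + M * 5)) = true := by
    intro h
    simp only [Bool.or_eq_true] at h
    rcases h with (h | h)
    · exact Ep4 5 (by norm_num) h
    · exact Ep5 5 (by norm_num) h
  have T6 : (b3) = true → decide (R' (ζ + M * 6)) = true := by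
    intro h
    exact Ep5 6 (by norm_num) h
  have u0 : g2 16 10 10 (b0) (b2) ≤ G (tabC K M) K (4 * M) R' (ζ) := by
    rw [r0, show ζ + 4 * M = ζ + M * 4 by ring]
    have T0' := T0; rw [show ζ + M * 0 = ζ by ring] at T0'
    exact g2_mono (by norm_num) (by norm_num) (by norm_num) (by norm_num) T0' T4
  have u1 : g2 16 10 10 (b0) (b2 || b3) ≤ G (tabC K M) K (4 * M) R' (ζ + M * 1) := by
    rw [r1, show ζ + M * 1 + 4 * M = ζ + M * 5 by ring]
    exact g2_mono (by norm_num) (by norm_num) (by norm_num) (by norm_num) T1 T5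
  have u2 : g2 16 10 10 (b1) (b3) ≤ G (tabC K M) K (4 * M) R' (ζ + M * 2) := by
    rw [r2, show ζ + M * 2 + 4 * M = ζ + M * 6 by ring]
    exact g2_mono (by norm_num) (by norm_num) (by norm_num) (by norm_num) T2 T6
  have u3 : g1 16 (b1) ≤ G (tabC K M) K (4 * M) R' (ζ + M * 3) := by
    rw [r3]
    exact g1_mono (by norm_num) T3
  have key : ∀ b0 b1 b2 b3 : Bool, KeyIneq 6 8 5 16 (g1 16 b0) (g1 16 b1) (g2 16 10 10 b2 b3)
      (g2 16 10 10 (b0) (b2) + g2 16 10 10 (b0) (b2 || b3) + g2 16 10 10 (b1) (b3) + g1 16 (b1)) := by decide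
  have key := key b0 b1 b2 b3
  unfold KeyIneq at key
  refine ⟨by linarith [key.1], fun h h' => ?_⟩
  have := key.2 h h'
  linarith

/-- lifts (0, 1) (3, 4) (5, 6), 8 target lifts -/
lemma wc_leaf5 {K M ζ em e0 e1 : ℤ} {R R' : ℤ → Prop} (hM : 0 < M) (hs : StepRel K M R R')
    (hem : em = 0 ∨ em = 1) (he0 : e0 = 0 ∨ e0 = 1) (he1 : e1 = 0 ∨ e1 = 1)
    (hx1 : -K ≤ 3 * ζ) (hx2 : 3 * (ζ - M) < -K)
    (am1 : -K ≤ 3 * (4 * ζ + K + em))
    (am2 : 3 * (4 * ζ + K + em - 4 * M) < -K)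
    (az1 : -K ≤ 3 * (4 * ζ + e0 + 4 * M * 3))
    (az2 : 3 * (4 * ζ + e0 + 4 * M * 3 - 4 * M) < -K)
    (ap1 : -K ≤ 3 * (4 * ζ - K + e1 + 4 * M * 5))
    (ap2 : 3 * (4 * ζ - K + e1 + 4 * M * 5 - 4 * M) < -K)
    (cm0 : 3 * (4 * ζ + K + em + 4 * M) ≤ K + 4 * M - 1)
    (cm1 : ¬ -K ≤ 3 * (4 * ζ + K + em - 3 * M))
    (cm2 : 3 * (4 * ζ + K + em + 7 * M) ≤ K + 4 * M - 1)
    (cz0 : 3 * (4 * ζ + e0 + 4 * M * 3 + 4 * M) ≤ K + 4 * M - 1)
    (cz1 : -K ≤ 3 * (4 * ζ + e0 + 4 * M * 3 - 3 * M))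
    (cp0 : 3 * (4 * ζ - K + e1 + 4 * M * 5 + 4 * M) ≤ K + 4 * M - 1)
    (cp1 : ¬ -K ≤ 3 * (4 * ζ - K + e1 + 4 * M * 5 - 3 * M))
    (cp2 : ¬ 3 * (4 * ζ - K + e1 + 4 * M * 5 + 7 * M) ≤ K + 4 * M - 1)
    (t00 : 3 * (ζ + 4 * M) ≤ K + 4 * M - 1)
    (t01 : ¬ -K ≤ 3 * (ζ - 3 * M))
    (t02 : 3 * (ζ + 7 * M) ≤ K + 4 * M - 1)
    (t10 : 3 * (ζ + M * 1 + 4 * M) ≤ K + 4 * M - 1)
    (t11 : ¬ -K ≤ 3 * (ζ + M * 1 - 3 * M))
    (t12 : ¬ 3 * (ζ + M * 1 + 7 * M) ≤ K + 4 * M - 1)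
    (t20 : 3 * (ζ + M * 2 + 4 * M) ≤ K + 4 * M - 1)
    (t21 : ¬ -K ≤ 3 * (ζ + M * 2 - 3 * M))
    (t22 : ¬ 3 * (ζ + M * 2 + 7 * M) ≤ K + 4 * M - 1)
    (t30 : 3 * (ζ + M * 3 + 4 * M) ≤ K + 4 * M - 1)
    (t31 : -K ≤ 3 * (ζ + M * 3 - 3 * M)) :
    Ineq 6 8 5 16 (tabC K M) K M R R' ζ em e0 e1 := by
  classical
  have hN : 0 < 4 * M := by linarith
  have qm := G_eq (tab := tabC K M) (K := K) (N := 4 * M) (R := R) (z := 4 * ζ + K + em) (w := 4 * ζ + K + em) hN (by linarith) (by linarith)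
    ⟨0, by ring⟩
  have qz := G_eq (tab := tabC K M) (K := K) (N := 4 * M) (R := R) (z := 4 * ζ + e0) (w := 4 * ζ + e0 + 4 * M * 3) hN (by linarith) (by linarith)
    ⟨3, by ring⟩
  have qp := G_eq (tab := tabC K M) (K := K) (N := 4 * M) (R := R) (z := 4 * ζ - K + e1) (w := 4 * ζ - K + e1 + 4 * M * 5) hN (by linarith) (by linarith)
    ⟨5, by ring⟩
  have r0 := G_eq (tab := tabC K M) (K := K) (N := 4 * M) (R := R') (z := ζ) (w := ζ) hN (by linarith) (by linarith)
    ⟨0, by ring⟩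
  have r1 := G_eq (tab := tabC K M) (K := K) (N := 4 * M) (R := R') (z := ζ + M * 1) (w := ζ + M * 1) hN (by linarith) (by linarith)
    ⟨0, by ring⟩
  have r2 := G_eq (tab := tabC K M) (K := K) (N := 4 * M) (R := R') (z := ζ + M * 2) (w := ζ + M * 2) hN (by linarith) (by linarith)
    ⟨0, by ring⟩
  have r3 := G_eq (tab := tabC K M) (K := K) (N := 4 * M) (R := R') (z := ζ + M * 3) (w := ζ + M * 3) hN (by linarith) (by linarith)
    ⟨0, by ring⟩
  rw [tabC, if_pos cm0, if_neg cm1, if_pos cm2] at qm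
  rw [tabC, if_pos cz0, if_pos cz1] at qz
  rw [tabC, if_pos cp0, if_neg cp1, if_neg cp2] at qp
  rw [tabC, if_pos t00, if_neg t01, if_pos t02] at r0
  rw [tabC, if_pos t10, if_neg t11, if_neg t12] at r1
  rw [tabC, if_pos t20, if_neg t21, if_neg t22] at r2
  rw [tabC, if_pos t30, if_pos t31] at r3
  have Em0 : ∀ n : ℤ, (n = 0 ∨ n = 0 + 1) → decide (R (4 * ζ + K + em)) = true → decide (R' (ζ + M * n)) = true := by
    intro n hn h
    have h := of_decide_eq_true h
    rcases hn with rfl | rfl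
    · exact decide_eq_true (hs.d0 (a := -1) (e := em) (m := 0) (by simp) (by assumption) (by ring) h rfl)
    · exact decide_eq_true (hs.d1 (a := -1) (e := em) (m := 0) (by simp) (by assumption) (by ring) h rfl)
  have Em1 : ∀ n : ℤ, (n = 1 ∨ n = 1 + 1) → decide (R (4 * ζ + K + em + 4 * M)) = true → decide (R' (ζ + M * n)) = true := by
    intro n hn h
    have h := of_decide_eq_true h
    rcases hn with rfl | rfl
    · exact decide_eq_true (hs.d0 (a := -1) (e := em) (m := 1) (by simp) (by assumption) (by ring) h rfl)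
    · exact decide_eq_true (hs.d1 (a := -1) (e := em) (m := 1) (by simp) (by assumption) (by ring) h rfl)
  have Ez3 : ∀ n : ℤ, (n = 3 ∨ n = 3 + 1) → decide (R (4 * ζ + e0 + 4 * M * 3)) = true → decide (R' (ζ + M * n)) = true := by
    intro n hn h
    have h := of_decide_eq_true h
    rcases hn with rfl | rfl
    · exact decide_eq_true (hs.d0 (a := 0) (e := e0) (m := 3) (by simp) (by assumption) (by ring) h rfl)
    · exact decide_eq_true (hs.d1 (a := 0) (e := e0) (m := 3) (by simp) (by assumption) (by ring) h rfl)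
  have Ez4 : ∀ n : ℤ, (n = 4 ∨ n = 4 + 1) → decide (R (4 * ζ + e0 + 4 * M * 3 + 4 * M)) = true → decide (R' (ζ + M * n)) = true := by
    intro n hn h
    have h := of_decide_eq_true h
    rcases hn with rfl | rfl
    · exact decide_eq_true (hs.d0 (a := 0) (e := e0) (m := 4) (by simp) (by assumption) (by ring) h rfl)
    · exact decide_eq_true (hs.d1 (a := 0) (e := e0) (m := 4) (by simp) (by assumption) (by ring) h rfl)
  have Ep5 : ∀ n : ℤ, (n = 5 ∨ n = 5 + 1) → decide (R (4 * ζ - K + e1 + 4 * M * 5)) = true → decide (R' (ζ + M * n)) = true := by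
    intro n hn h
    have h := of_decide_eq_true h
    rcases hn with rfl | rfl
    · exact decide_eq_true (hs.d0 (a := 1) (e := e1) (m := 5) (by simp) (by assumption) (by ring) h rfl)
    · exact decide_eq_true (hs.d1 (a := 1) (e := e1) (m := 5) (by simp) (by assumption) (by ring) h rfl)
  have Ep6 : ∀ n : ℤ, (n = 6 ∨ n = 6 + 1) → decide (R (4 * ζ - K + e1 + 4 * M * 5 + 4 * M)) = true → decide (R' (ζ + M * n)) = true := by
    intro n hn h
    have h := of_decide_eq_true h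
    rcases hn with rfl | rfl
    · exact decide_eq_true (hs.d0 (a := 1) (e := e1) (m := 6) (by simp) (by assumption) (by ring) h rfl)
    · exact decide_eq_true (hs.d1 (a := 1) (e := e1) (m := 6) (by simp) (by assumption) (by ring) h rfl)
  unfold Ineq
  rw [qm, qz, qp]
  generalize decide (R (4 * ζ + K + em)) = b0 at Em0 ⊢
  generalize decide (R (4 * ζ + K + em + 4 * M)) = b1 at Em1 ⊢
  generalize decide (R (4 * ζ + e0 + 4 * M * 3)) = b2 at Ez3 ⊢
  generalize decide (R (4 * ζ + e0 + 4 * M * 3 + 4 * M)) = b3 at Ez4 ⊢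
  generalize decide (R (4 * ζ - K + e1 + 4 * M * 5)) = b4 at Ep5 ⊢
  generalize decide (R (4 * ζ - K + e1 + 4 * M * 5 + 4 * M)) = b5 at Ep6 ⊢
  have T0 : (b0) = true → decide (R' (ζ + M * 0)) = true := by
    intro h
    exact Em0 0 (by norm_num) h
  have T1 : (b0 || b1) = true → decide (R' (ζ + M * 1)) = true := by
    intro h
    simp only [Bool.or_eq_true] at h
    rcases h with (h | h)
    · exact Em0 1 (by norm_num) h
    · exact Em1 1 (by norm_num) h
  have T2 : (b1) = true → decide (R' (ζ + M * 2)) = true := by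
    intro h
    exact Em1 2 (by norm_num) h
  have T3 : (b2) = true → decide (R' (ζ + M * 3)) = true := by
    intro h
    exact Ez3 3 (by norm_num) h
  have T4 : (b2 || b3) = true → decide (R' (ζ + M * 4)) = true := by
    intro h
    simp only [Bool.or_eq_true] at h
    rcases h with (h | h)
    · exact Ez3 4 (by norm_num) h
    · exact Ez4 4 (by norm_num) h
  have T5 : (b3 || b4) = true → decide (R' (ζ + M * 5)) = true := by
    intro h
    simp only [Bool.or_eq_true] at h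
    rcases h with (h | h)
    · exact Ez4 5 (by norm_num) h
    · exact Ep5 5 (by norm_num) h
  have T6 : (b4 || b5) = true → decide (R' (ζ + M * 6)) = true := by
    intro h
    simp only [Bool.or_eq_true] at h
    rcases h with (h | h)
    · exact Ep5 6 (by norm_num) h
    · exact Ep6 6 (by norm_num) h
  have T7 : (b5) = true → decide (R' (ζ + M * 7)) = true := by
    intro h
    exact Ep6 7 (by norm_num) h
  have u0 : g2 16 10 13 (b0) (b2 || b3) ≤ G (tabC K M) K (4 * M) R' (ζ) := by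
    rw [r0, show ζ + 4 * M = ζ + M * 4 by ring]
    have T0' := T0; rw [show ζ + M * 0 = ζ by ring] at T0'
    exact g2_mono (by norm_num) (by norm_num) (by norm_num) (by norm_num) T0' T4
  have u1 : g2 16 10 10 (b0 || b1) (b3 || b4) ≤ G (tabC K M) K (4 * M) R' (ζ + M * 1) := by
    rw [r1, show ζ + M * 1 + 4 * M = ζ + M * 5 by ring]
    exact g2_mono (by norm_num) (by norm_num) (by norm_num) (by norm_num) T1 T5
  have u2 : g2 16 10 10 (b1) (b4 || b5) ≤ G (tabC K M) K (4 * M) R' (ζ + M * 2) := by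
    rw [r2, show ζ + M * 2 + 4 * M = ζ + M * 6 by ring]
    exact g2_mono (by norm_num) (by norm_num) (by norm_num) (by norm_num) T2 T6
  have u3 : g2 16 13 10 (b2) (b5) ≤ G (tabC K M) K (4 * M) R' (ζ + M * 3) := by
    rw [r3, show ζ + M * 3 + 4 * M = ζ + M * 7 by ring]
    exact g2_mono (by norm_num) (by norm_num) (by norm_num) (by norm_num) T3 T7
  have key : ∀ b0 b1 b2 b3 b4 b5 : Bool, KeyIneq 6 8 5 16 (g2 16 10 13 b0 b1) (g2 16 13 10 b2 b3) (g2 16 10 10 b4 b5)
      (g2 16 10 13 (b0) (b2 || b3) + g2 16 10 10 (b0 || b1) (b3 || b4) + g2 16 10 10 (b1) (b4 || b5) + g2 16 13 10 (b2) (b5)) := by decide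
  have key := key b0 b1 b2 b3 b4 b5
  unfold KeyIneq at key
  refine ⟨by linarith [key.1], fun h h' => ?_⟩
  have := key.2 h h'
  linarith

/-- lifts (0, 1) (2, 3) (5, 6), 8 target lifts -/
lemma wc_leaf6 {K M ζ em e0 e1 : ℤ} {R R' : ℤ → Prop} (hM : 0 < M) (hs : StepRel K M R R')
    (hem : em = 0 ∨ em = 1) (he0 : e0 = 0 ∨ e0 = 1) (he1 : e1 = 0 ∨ e1 = 1)
    (hx1 : -K ≤ 3 * ζ) (hx2 : 3 * (ζ - M) < -K)
    (am1 : -K ≤ 3 * (4 * ζ + K + em))
    (am2 : 3 * (4 * ζ + K + em - 4 * M) < -K)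
    (az1 : -K ≤ 3 * (4 * ζ + e0 + 4 * M * 2))
    (az2 : 3 * (4 * ζ + e0 + 4 * M * 2 - 4 * M) < -K)
    (ap1 : -K ≤ 3 * (4 * ζ - K + e1 + 4 * M * 5))
    (ap2 : 3 * (4 * ζ - K + e1 + 4 * M * 5 - 4 * M) < -K)
    (cm0 : 3 * (4 * ζ + K + em + 4 * M) ≤ K + 4 * M - 1)
    (cm1 : ¬ -K ≤ 3 * (4 * ζ + K + em - 3 * M))
    (cm2 : ¬ 3 * (4 * ζ + K + em + 7 * M) ≤ K + 4 * M - 1)
    (cz0 : 3 * (4 * ζ + e0 + 4 * M * 2 + 4 * M) ≤ K + 4 * M - 1)
    (cz1 : ¬ -K ≤ 3 * (4 * ζ + e0 + 4 * M * 2 - 3 * M))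
    (cz2 : 3 * (4 * ζ + e0 + 4 * M * 2 + 7 * M) ≤ K + 4 * M - 1)
    (cp0 : 3 * (4 * ζ - K + e1 + 4 * M * 5 + 4 * M) ≤ K + 4 * M - 1)
    (cp1 : -K ≤ 3 * (4 * ζ - K + e1 + 4 * M * 5 - 3 * M))
    (t00 : 3 * (ζ + 4 * M) ≤ K + 4 * M - 1)
    (t01 : ¬ -K ≤ 3 * (ζ - 3 * M))
    (t02 : 3 * (ζ + 7 * M) ≤ K + 4 * M - 1)
    (t10 : 3 * (ζ + M * 1 + 4 * M) ≤ K + 4 * M - 1)
    (t11 : ¬ -K ≤ 3 * (ζ + M * 1 - 3 * M))
    (t12 : ¬ 3 * (ζ + M * 1 + 7 * M) ≤ K + 4 * M - 1)
    (t20 : 3 * (ζ + M * 2 + 4 * M) ≤ K + 4 * M - 1)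
    (t21 : ¬ -K ≤ 3 * (ζ + M * 2 - 3 * M))
    (t22 : ¬ 3 * (ζ + M * 2 + 7 * M) ≤ K + 4 * M - 1)
    (t30 : 3 * (ζ + M * 3 + 4 * M) ≤ K + 4 * M - 1)
    (t31 : -K ≤ 3 * (ζ + M * 3 - 3 * M)) :
    Ineq 6 8 5 16 (tabC K M) K M R R' ζ em e0 e1 := by
  classical
  have hN : 0 < 4 * M := by linarith
  have qm := G_eq (tab := tabC K M) (K := K) (N := 4 * M) (R := R) (z := 4 * ζ + K + em) (w := 4 * ζ + K + em) hN (by linarith) (by linarith)
    ⟨0, by ring⟩
  have qz := G_eq (tab := tabC K M) (K := K) (N := 4 * M) (R := R) (z := 4 * ζ + e0) (w := 4 * ζ + e0 + 4 * M * 2) hN (by linarith) (by linarith)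
    ⟨2, by ring⟩
  have qp := G_eq (tab := tabC K M) (K := K) (N := 4 * M) (R := R) (z := 4 * ζ - K + e1) (w := 4 * ζ - K + e1 + 4 * M * 5) hN (by linarith) (by linarith)
    ⟨5, by ring⟩
  have r0 := G_eq (tab := tabC K M) (K := K) (N := 4 * M) (R := R') (z := ζ) (w := ζ) hN (by linarith) (by linarith)
    ⟨0, by ring⟩
  have r1 := G_eq (tab := tabC K M) (K := K) (N := 4 * M) (R := R') (z := ζ + M * 1) (w := ζ + M * 1) hN (by linarith) (by linarith)
    ⟨0, by ring⟩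
  have r2 := G_eq (tab := tabC K M) (K := K) (N := 4 * M) (R := R') (z := ζ + M * 2) (w := ζ + M * 2) hN (by linarith) (by linarith)
    ⟨0, by ring⟩
  have r3 := G_eq (tab := tabC K M) (K := K) (N := 4 * M) (R := R') (z := ζ + M * 3) (w := ζ + M * 3) hN (by linarith) (by linarith)
    ⟨0, by ring⟩
  rw [tabC, if_pos cm0, if_neg cm1, if_neg cm2] at qm
  rw [tabC, if_pos cz0, if_neg cz1, if_pos cz2] at qz
  rw [tabC, if_pos cp0, if_pos cp1] at qp
  rw [tabC, if_pos t00, if_neg t01, if_pos t02] at r0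
  rw [tabC, if_pos t10, if_neg t11, if_neg t12] at r1
  rw [tabC, if_pos t20, if_neg t21, if_neg t22] at r2
  rw [tabC, if_pos t30, if_pos t31] at r3
  have Em0 : ∀ n : ℤ, (n = 0 ∨ n = 0 + 1) → decide (R (4 * ζ + K + em)) = true → decide (R' (ζ + M * n)) = true := by
    intro n hn h
    have h := of_decide_eq_true h
    rcases hn with rfl | rfl
    · exact decide_eq_true (hs.d0 (a := -1) (e := em) (m := 0) (by simp) (by assumption) (by ring) h rfl)
    · exact decide_eq_true (hs.d1 (a := -1) (e := em) (m := 0) (by simp) (by assumption) (by ring) h rfl)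
  have Em1 : ∀ n : ℤ, (n = 1 ∨ n = 1 + 1) → decide (R (4 * ζ + K + em + 4 * M)) = true → decide (R' (ζ + M * n)) = true := by
    intro n hn h
    have h := of_decide_eq_true h
    rcases hn with rfl | rfl
    · exact decide_eq_true (hs.d0 (a := -1) (e := em) (m := 1) (by simp) (by assumption) (by ring) h rfl)
    · exact decide_eq_true (hs.d1 (a := -1) (e := em) (m := 1) (by simp) (by assumption) (by ring) h rfl)
  have Ez2 : ∀ n : ℤ, (n = 2 ∨ n = 2 + 1) → decide (R (4 * ζ + e0 + 4 * M * 2)) = true → decide (R' (ζ + M * n)) = true := by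
    intro n hn h
    have h := of_decide_eq_true h
    rcases hn with rfl | rfl
    · exact decide_eq_true (hs.d0 (a := 0) (e := e0) (m := 2) (by simp) (by assumption) (by ring) h rfl)
    · exact decide_eq_true (hs.d1 (a := 0) (e := e0) (m := 2) (by simp) (by assumption) (by ring) h rfl)
  have Ez3 : ∀ n : ℤ, (n = 3 ∨ n = 3 + 1) → decide (R (4 * ζ + e0 + 4 * M * 2 + 4 * M)) = true → decide (R' (ζ + M * n)) = true := by
    intro n hn h
    have h := of_decide_eq_true h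
    rcases hn with rfl | rfl
    · exact decide_eq_true (hs.d0 (a := 0) (e := e0) (m := 3) (by simp) (by assumption) (by ring) h rfl)
    · exact decide_eq_true (hs.d1 (a := 0) (e := e0) (m := 3) (by simp) (by assumption) (by ring) h rfl)
  have Ep5 : ∀ n : ℤ, (n = 5 ∨ n = 5 + 1) → decide (R (4 * ζ - K + e1 + 4 * M * 5)) = true → decide (R' (ζ + M * n)) = true := by
    intro n hn h
    have h := of_decide_eq_true h
    rcases hn with rfl | rfl
    · exact decide_eq_true (hs.d0 (a := 1) (e := e1) (m := 5) (by simp) (by assumption) (by ring) h rfl)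
    · exact decide_eq_true (hs.d1 (a := 1) (e := e1) (m := 5) (by simp) (by assumption) (by ring) h rfl)
  have Ep6 : ∀ n : ℤ, (n = 6 ∨ n = 6 + 1) → decide (R (4 * ζ - K + e1 + 4 * M * 5 + 4 * M)) = true → decide (R' (ζ + M * n)) = true := by
    intro n hn h
    have h := of_decide_eq_true h
    rcases hn with rfl | rfl
    · exact decide_eq_true (hs.d0 (a := 1) (e := e1) (m := 6) (by simp) (by assumption) (by ring) h rfl)
    · exact decide_eq_true (hs.d1 (a := 1) (e := e1) (m := 6) (by simp) (by assumption) (by ring) h rfl)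
  unfold Ineq
  rw [qm, qz, qp]
  generalize decide (R (4 * ζ + K + em)) = b0 at Em0 ⊢
  generalize decide (R (4 * ζ + K + em + 4 * M)) = b1 at Em1 ⊢
  generalize decide (R (4 * ζ + e0 + 4 * M * 2)) = b2 at Ez2 ⊢
  generalize decide (R (4 * ζ + e0 + 4 * M * 2 + 4 * M)) = b3 at Ez3 ⊢
  generalize decide (R (4 * ζ - K + e1 + 4 * M * 5)) = b4 at Ep5 ⊢
  generalize decide (R (4 * ζ - K + e1 + 4 * M * 5 + 4 * M)) = b5 at Ep6 ⊢
  have T0 : (b0) = true → decide (R' (ζ + M * 0)) = true := by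
    intro h
    exact Em0 0 (by norm_num) h
  have T1 : (b0 || b1) = true → decide (R' (ζ + M * 1)) = true := by
    intro h
    simp only [Bool.or_eq_true] at h
    rcases h with (h | h)
    · exact Em0 1 (by norm_num) h
    · exact Em1 1 (by norm_num) h
  have T2 : (b1 || b2) = true → decide (R' (ζ + M * 2)) = true := by
    intro h
    simp only [Bool.or_eq_true] at h
    rcases h with (h | h)
    · exact Em1 2 (by norm_num) h
    · exact Ez2 2 (by norm_num) h
  have T3 : (b2 || b3) = true → decide (R' (ζ + M * 3)) = true := by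
    intro h
    simp only [Bool.or_eq_true] at h
    rcases h with (h | h)
    · exact Ez2 3 (by norm_num) h
    · exact Ez3 3 (by norm_num) h
  have T4 : (b3) = true → decide (R' (ζ + M * 4)) = true := by
    intro h
    exact Ez3 4 (by norm_num) h
  have T5 : (b4) = true → decide (R' (ζ + M * 5)) = true := by
    intro h
    exact Ep5 5 (by norm_num) h
  have T6 : (b4 || b5) = true → decide (R' (ζ + M * 6)) = true := by
    intro h
    simp only [Bool.or_eq_true] at h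
    rcases h with (h | h)
    · exact Ep5 6 (by norm_num) h
    · exact Ep6 6 (by norm_num) h
  have T7 : (b5) = true → decide (R' (ζ + M * 7)) = true := by
    intro h
    exact Ep6 7 (by norm_num) h
  have u0 : g2 16 10 13 (b0) (b3) ≤ G (tabC K M) K (4 * M) R' (ζ) := by
    rw [r0, show ζ + 4 * M = ζ + M * 4 by ring]
    have T0' := T0; rw [show ζ + M * 0 = ζ by ring] at T0'
    exact g2_mono (by norm_num) (by norm_num) (by norm_num) (by norm_num) T0' T4
  have u1 : g2 16 10 10 (b0 || b1) (b4) ≤ G (tabC K M) K (4 * M) R' (ζ + M * 1) := by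
    rw [r1, show ζ + M * 1 + 4 * M = ζ + M * 5 by ring]
    exact g2_mono (by norm_num) (by norm_num) (by norm_num) (by norm_num) T1 T5
  have u2 : g2 16 10 10 (b1 || b2) (b4 || b5) ≤ G (tabC K M) K (4 * M) R' (ζ + M * 2) := by
    rw [r2, show ζ + M * 2 + 4 * M = ζ + M * 6 by ring]
    exact g2_mono (by norm_num) (by norm_num) (by norm_num) (by norm_num) T2 T6
  have u3 : g2 16 13 10 (b2 || b3) (b5) ≤ G (tabC K M) K (4 * M) R' (ζ + M * 3) := by
    rw [r3, show ζ + M * 3 + 4 * M = ζ + M * 7 by ring]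
    exact g2_mono (by norm_num) (by norm_num) (by norm_num) (by norm_num) T3 T7
  have key : ∀ b0 b1 b2 b3 b4 b5 : Bool, KeyIneq 6 8 5 16 (g2 16 10 10 b0 b1) (g2 16 10 13 b2 b3) (g2 16 13 10 b4 b5)
      (g2 16 10 13 (b0) (b3) + g2 16 10 10 (b0 || b1) (b4) + g2 16 10 10 (b1 || b2) (b4 || b5) + g2 16 13 10 (b2 || b3) (b5)) := by decide
  have key := key b0 b1 b2 b3 b4 b5
  unfold KeyIneq at key
  refine ⟨by linarith [key.1], fun h h' => ?_⟩
  have := key.2 h h'
  linarith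

/-- lifts (0, 1) (2, 3) (4, 5), 7 target lifts -/
lemma wc_leaf7 {K M ζ em e0 e1 : ℤ} {R R' : ℤ → Prop} (hM : 0 < M) (hs : StepRel K M R R')
    (hem : em = 0 ∨ em = 1) (he0 : e0 = 0 ∨ e0 = 1) (he1 : e1 = 0 ∨ e1 = 1)
    (hx1 : -K ≤ 3 * ζ) (hx2 : 3 * (ζ - M) < -K)
    (am1 : -K ≤ 3 * (4 * ζ + K + em))
    (am2 : 3 * (4 * ζ + K + em - 4 * M) < -K)
    (az1 : -K ≤ 3 * (4 * ζ + e0 + 4 * M * 2))
    (az2 : 3 * (4 * ζ + e0 + 4 * M * 2 - 4 * M) < -K)
    (ap1 : -K ≤ 3 * (4 * ζ - K + e1 + 4 * M * 4))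
    (ap2 : 3 * (4 * ζ - K + e1 + 4 * M * 4 - 4 * M) < -K)
    (cm0 : 3 * (4 * ζ + K + em + 4 * M) ≤ K + 4 * M - 1)
    (cm1 : ¬ -K ≤ 3 * (4 * ζ + K + em - 3 * M))
    (cm2 : ¬ 3 * (4 * ζ + K + em + 7 * M) ≤ K + 4 * M - 1)
    (cz0 : 3 * (4 * ζ + e0 + 4 * M * 2 + 4 * M) ≤ K + 4 * M - 1)
    (cz1 : ¬ -K ≤ 3 * (4 * ζ + e0 + 4 * M * 2 - 3 * M))
    (cz2 : ¬ 3 * (4 * ζ + e0 + 4 * M * 2 + 7 * M) ≤ K + 4 * M - 1)
    (cp0 : 3 * (4 * ζ - K + e1 + 4 * M * 4 + 4 * M) ≤ K + 4 * M - 1)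
    (cp1 : ¬ -K ≤ 3 * (4 * ζ - K + e1 + 4 * M * 4 - 3 * M))
    (cp2 : 3 * (4 * ζ - K + e1 + 4 * M * 4 + 7 * M) ≤ K + 4 * M - 1)
    (t00 : 3 * (ζ + 4 * M) ≤ K + 4 * M - 1)
    (t01 : ¬ -K ≤ 3 * (ζ - 3 * M))
    (t02 : ¬ 3 * (ζ + 7 * M) ≤ K + 4 * M - 1)
    (t10 : 3 * (ζ + M * 1 + 4 * M) ≤ K + 4 * M - 1)
    (t11 : ¬ -K ≤ 3 * (ζ + M * 1 - 3 * M))
    (t12 : ¬ 3 * (ζ + M * 1 + 7 * M) ≤ K + 4 * M - 1)
    (t20 : 3 * (ζ + M * 2 + 4 * M) ≤ K + 4 * M - 1)
    (t21 : ¬ -K ≤ 3 * (ζ + M * 2 - 3 * M))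
    (t22 : ¬ 3 * (ζ + M * 2 + 7 * M) ≤ K + 4 * M - 1)
    (t30 : ¬ 3 * (ζ + M * 3 + 4 * M) ≤ K + 4 * M - 1) :
    Ineq 6 8 5 16 (tabC K M) K M R R' ζ em e0 e1 := by
  classical
  have hN : 0 < 4 * M := by linarith
  have qm := G_eq (tab := tabC K M) (K := K) (N := 4 * M) (R := R) (z := 4 * ζ + K + em) (w := 4 * ζ + K + em) hN (by linarith) (by linarith)
    ⟨0, by ring⟩
  have qz := G_eq (tab := tabC K M) (K := K) (N := 4 * M) (R := R) (z := 4 * ζ + e0) (w := 4 * ζ + e0 + 4 * M * 2) hN (by linarith) (by linarith)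
    ⟨2, by ring⟩
  have qp := G_eq (tab := tabC K M) (K := K) (N := 4 * M) (R := R) (z := 4 * ζ - K + e1) (w := 4 * ζ - K + e1 + 4 * M * 4) hN (by linarith) (by linarith)
    ⟨4, by ring⟩
  have r0 := G_eq (tab := tabC K M) (K := K) (N := 4 * M) (R := R') (z := ζ) (w := ζ) hN (by linarith) (by linarith)
    ⟨0, by ring⟩
  have r1 := G_eq (tab := tabC K M) (K := K) (N := 4 * M) (R := R') (z := ζ + M * 1) (w := ζ + M * 1) hN (by linarith) (by linarith)
    ⟨0, by ring⟩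
  have r2 := G_eq (tab := tabC K M) (K := K) (N := 4 * M) (R := R') (z := ζ + M * 2) (w := ζ + M * 2) hN (by linarith) (by linarith)
    ⟨0, by ring⟩
  have r3 := G_eq (tab := tabC K M) (K := K) (N := 4 * M) (R := R') (z := ζ + M * 3) (w := ζ + M * 3) hN (by linarith) (by linarith)
    ⟨0, by ring⟩
  rw [tabC, if_pos cm0, if_neg cm1, if_neg cm2] at qm
  rw [tabC, if_pos cz0, if_neg cz1, if_neg cz2] at qz
  rw [tabC, if_pos cp0, if_neg cp1, if_pos cp2] at qp
  rw [tabC, if_pos t00, if_neg t01, if_neg t02] at r0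
  rw [tabC, if_pos t10, if_neg t11, if_neg t12] at r1
  rw [tabC, if_pos t20, if_neg t21, if_neg t22] at r2
  rw [tabC, if_neg t30] at r3
  have Em0 : ∀ n : ℤ, (n = 0 ∨ n = 0 + 1) → decide (R (4 * ζ + K + em)) = true → decide (R' (ζ + M * n)) = true := by
    intro n hn h
    have h := of_decide_eq_true h
    rcases hn with rfl | rfl
    · exact decide_eq_true (hs.d0 (a := -1) (e := em) (m := 0) (by simp) (by assumption) (by ring) h rfl)
    · exact decide_eq_true (hs.d1 (a := -1) (e := em) (m := 0) (by simp) (by assumption) (by ring) h rfl)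
  have Em1 : ∀ n : ℤ, (n = 1 ∨ n = 1 + 1) → decide (R (4 * ζ + K + em + 4 * M)) = true → decide (R' (ζ + M * n)) = true := by
    intro n hn h
    have h := of_decide_eq_true h
    rcases hn with rfl | rfl
    · exact decide_eq_true (hs.d0 (a := -1) (e := em) (m := 1) (by simp) (by assumption) (by ring) h rfl)
    · exact decide_eq_true (hs.d1 (a := -1) (e := em) (m := 1) (by simp) (by assumption) (by ring) h rfl)
  have Ez2 : ∀ n : ℤ, (n = 2 ∨ n = 2 + 1) → decide (R (4 * ζ + e0 + 4 * M * 2)) = true → decide (R' (ζ + M * n)) = true := by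
    intro n hn h
    have h := of_decide_eq_true h
    rcases hn with rfl | rfl
    · exact decide_eq_true (hs.d0 (a := 0) (e := e0) (m := 2) (by simp) (by assumption) (by ring) h rfl)
    · exact decide_eq_true (hs.d1 (a := 0) (e := e0) (m := 2) (by simp) (by assumption) (by ring) h rfl)
  have Ez3 : ∀ n : ℤ, (n = 3 ∨ n = 3 + 1) → decide (R (4 * ζ + e0 + 4 * M * 2 + 4 * M)) = true → decide (R' (ζ + M * n)) = true := by
    intro n hn h
    have h := of_decide_eq_true h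
    rcases hn with rfl | rfl
    · exact decide_eq_true (hs.d0 (a := 0) (e := e0) (m := 3) (by simp) (by assumption) (by ring) h rfl)
    · exact decide_eq_true (hs.d1 (a := 0) (e := e0) (m := 3) (by simp) (by assumption) (by ring) h rfl)
  have Ep4 : ∀ n : ℤ, (n = 4 ∨ n = 4 + 1) → decide (R (4 * ζ - K + e1 + 4 * M * 4)) = true → decide (R' (ζ + M * n)) = true := by
    intro n hn h
    have h := of_decide_eq_true h
    rcases hn with rfl | rfl
    · exact decide_eq_true (hs.d0 (a := 1) (e := e1) (m := 4) (by simp) (by assumption) (by ring) h rfl)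
    · exact decide_eq_true (hs.d1 (a := 1) (e := e1) (m := 4) (by simp) (by assumption) (by ring) h rfl)
  have Ep5 : ∀ n : ℤ, (n = 5 ∨ n = 5 + 1) → decide (R (4 * ζ - K + e1 + 4 * M * 4 + 4 * M)) = true → decide (R' (ζ + M * n)) = true := by
    intro n hn h
    have h := of_decide_eq_true h
    rcases hn with rfl | rfl
    · exact decide_eq_true (hs.d0 (a := 1) (e := e1) (m := 5) (by simp) (by assumption) (by ring) h rfl)
    · exact decide_eq_true (hs.d1 (a := 1) (e := e1) (m := 5) (by simp) (by assumption) (by ring) h rfl)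
  unfold Ineq
  rw [qm, qz, qp]
  generalize decide (R (4 * ζ + K + em)) = b0 at Em0 ⊢
  generalize decide (R (4 * ζ + K + em + 4 * M)) = b1 at Em1 ⊢
  generalize decide (R (4 * ζ + e0 + 4 * M * 2)) = b2 at Ez2 ⊢
  generalize decide (R (4 * ζ + e0 + 4 * M * 2 + 4 * M)) = b3 at Ez3 ⊢
  generalize decide (R (4 * ζ - K + e1 + 4 * M * 4)) = b4 at Ep4 ⊢
  generalize decide (R (4 * ζ - K + e1 + 4 * M * 4 + 4 * M)) = b5 at Ep5 ⊢
  have T0 : (b0) = true → decide (R' (ζ + M * 0)) = true := by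
    intro h
    exact Em0 0 (by norm_num) h
  have T1 : (b0 || b1) = true → decide (R' (ζ + M * 1)) = true := by
    intro h
    simp only [Bool.or_eq_true] at h
    rcases h with (h | h)
    · exact Em0 1 (by norm_num) h
    · exact Em1 1 (by norm_num) h
  have T2 : (b1 || b2) = true → decide (R' (ζ + M * 2)) = true := by
    intro h
    simp only [Bool.or_eq_true] at h
    rcases h with (h | h)
    · exact Em1 2 (by norm_num) h
    · exact Ez2 2 (by norm_num) h
  have T3 : (b2 || b3) = true → decide (R' (ζ + M * 3)) = true := by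
    intro h
    simp only [Bool.or_eq_true] at h
    rcases h with (h | h)
    · exact Ez2 3 (by norm_num) h
    · exact Ez3 3 (by norm_num) h
  have T4 : (b3 || b4) = true → decide (R' (ζ + M * 4)) = true := by
    intro h
    simp only [Bool.or_eq_true] at h
    rcases h with (h | h)
    · exact Ez3 4 (by norm_num) h
    · exact Ep4 4 (by norm_num) h
  have T5 : (b4 || b5) = true → decide (R' (ζ + M * 5)) = true := by
    intro h
    simp only [Bool.or_eq_true] at h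
    rcases h with (h | h)
    · exact Ep4 5 (by norm_num) h
    · exact Ep5 5 (by norm_num) h
  have T6 : (b5) = true → decide (R' (ζ + M * 6)) = true := by
    intro h
    exact Ep5 6 (by norm_num) h
  have u0 : g2 16 10 10 (b0) (b3 || b4) ≤ G (tabC K M) K (4 * M) R' (ζ) := by
    rw [r0, show ζ + 4 * M = ζ + M * 4 by ring]
    have T0' := T0; rw [show ζ + M * 0 = ζ by ring] at T0'
    exact g2_mono (by norm_num) (by norm_num) (by norm_num) (by norm_num) T0' T4
  have u1 : g2 16 10 10 (b0 || b1) (b4 || b5) ≤ G (tabC K M) K (4 * M) R' (ζ + M * 1) := by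
    rw [r1, show ζ + M * 1 + 4 * M = ζ + M * 5 by ring]
    exact g2_mono (by norm_num) (by norm_num) (by norm_num) (by norm_num) T1 T5
  have u2 : g2 16 10 10 (b1 || b2) (b5) ≤ G (tabC K M) K (4 * M) R' (ζ + M * 2) := by
    rw [r2, show ζ + M * 2 + 4 * M = ζ + M * 6 by ring]
    exact g2_mono (by norm_num) (by norm_num) (by norm_num) (by norm_num) T2 T6
  have u3 : g1 16 (b2 || b3) ≤ G (tabC K M) K (4 * M) R' (ζ + M * 3) := by
    rw [r3]
    exact g1_mono (by norm_num) T3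
  have key : ∀ b0 b1 b2 b3 b4 b5 : Bool, KeyIneq 6 8 5 16 (g2 16 10 10 b0 b1) (g2 16 10 10 b2 b3) (g2 16 10 13 b4 b5)
      (g2 16 10 10 (b0) (b3 || b4) + g2 16 10 10 (b0 || b1) (b4 || b5) + g2 16 10 10 (b1 || b2) (b5) + g1 16 (b2 || b3)) := by decide
  have key := key b0 b1 b2 b3 b4 b5
  unfold KeyIneq at key
  refine ⟨by linarith [key.1], fun h h' => ?_⟩
  have := key.2 h h'
  linarith

/-- lifts (0, 1) (2, 3) (4, 5), 7 target lifts -/
lemma wc_leaf8 {K M ζ em e0 e1 : ℤ} {R R' : ℤ → Prop} (hM : 0 < M) (hs : StepRel K M R R')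
    (hem : em = 0 ∨ em = 1) (he0 : e0 = 0 ∨ e0 = 1) (he1 : e1 = 0 ∨ e1 = 1)
    (hx1 : -K ≤ 3 * ζ) (hx2 : 3 * (ζ - M) < -K)
    (am1 : -K ≤ 3 * (4 * ζ + K + em))
    (am2 : 3 * (4 * ζ + K + em - 4 * M) < -K)
    (az1 : -K ≤ 3 * (4 * ζ + e0 + 4 * M * 2))
    (az2 : 3 * (4 * ζ + e0 + 4 * M * 2 - 4 * M) < -K)
    (ap1 : -K ≤ 3 * (4 * ζ - K + e1 + 4 * M * 4))
    (ap2 : 3 * (4 * ζ - K + e1 + 4 * M * 4 - 4 * M) < -K)
    (cm0 : 3 * (4 * ζ + K + em + 4 * M) ≤ K + 4 * M - 1)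
    (cm1 : -K ≤ 3 * (4 * ζ + K + em - 3 * M))
    (cz0 : 3 * (4 * ζ + e0 + 4 * M * 2 + 4 * M) ≤ K + 4 * M - 1)
    (cz1 : ¬ -K ≤ 3 * (4 * ζ + e0 + 4 * M * 2 - 3 * M))
    (cz2 : ¬ 3 * (4 * ζ + e0 + 4 * M * 2 + 7 * M) ≤ K + 4 * M - 1)
    (cp0 : 3 * (4 * ζ - K + e1 + 4 * M * 4 + 4 * M) ≤ K + 4 * M - 1)
    (cp1 : ¬ -K ≤ 3 * (4 * ζ - K + e1 + 4 * M * 4 - 3 * M))
    (cp2 : ¬ 3 * (4 * ζ - K + e1 + 4 * M * 4 + 7 * M) ≤ K + 4 * M - 1)
    (t00 : 3 * (ζ + 4 * M) ≤ K + 4 * M - 1)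
    (t01 : ¬ -K ≤ 3 * (ζ - 3 * M))
    (t02 : ¬ 3 * (ζ + 7 * M) ≤ K + 4 * M - 1)
    (t10 : 3 * (ζ + M * 1 + 4 * M) ≤ K + 4 * M - 1)
    (t11 : ¬ -K ≤ 3 * (ζ + M * 1 - 3 * M))
    (t12 : ¬ 3 * (ζ + M * 1 + 7 * M) ≤ K + 4 * M - 1)
    (t20 : 3 * (ζ + M * 2 + 4 * M) ≤ K + 4 * M - 1)
    (t21 : ¬ -K ≤ 3 * (ζ + M * 2 - 3 * M))
    (t22 : ¬ 3 * (ζ + M * 2 + 7 * M) ≤ K + 4 * M - 1)
    (t30 : ¬ 3 * (ζ + M * 3 + 4 * M) ≤ K + 4 * M - 1) :
    Ineq 6 8 5 16 (tabC K M) K M R R' ζ em e0 e1 := by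
  classical
  have hN : 0 < 4 * M := by linarith
  have qm := G_eq (tab := tabC K M) (K := K) (N := 4 * M) (R := R) (z := 4 * ζ + K + em) (w := 4 * ζ + K + em) hN (by linarith) (by linarith)
    ⟨0, by ring⟩
  have qz := G_eq (tab := tabC K M) (K := K) (N := 4 * M) (R := R) (z := 4 * ζ + e0) (w := 4 * ζ + e0 + 4 * M * 2) hN (by linarith) (by linarith)
    ⟨2, by ring⟩
  have qp := G_eq (tab := tabC K M) (K := K) (N := 4 * M) (R := R) (z := 4 * ζ - K + e1) (w := 4 * ζ - K + e1 + 4 * M * 4) hN (by linarith) (by linarith)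
    ⟨4, by ring⟩
  have r0 := G_eq (tab := tabC K M) (K := K) (N := 4 * M) (R := R') (z := ζ) (w := ζ) hN (by linarith) (by linarith)
    ⟨0, by ring⟩
  have r1 := G_eq (tab := tabC K M) (K := K) (N := 4 * M) (R := R') (z := ζ + M * 1) (w := ζ + M * 1) hN (by linarith) (by linarith)
    ⟨0, by ring⟩
  have r2 := G_eq (tab := tabC K M) (K := K) (N := 4 * M) (R := R') (z := ζ + M * 2) (w := ζ + M * 2) hN (by linarith) (by linarith)
    ⟨0, by ring⟩
  have r3 := G_eq (tab := tabC K M) (K := K) (N := 4 * M) (R := R') (z := ζ + M * 3) (w := ζ + M * 3) hN (by linarith) (by linarith)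
    ⟨0, by ring⟩
  rw [tabC, if_pos cm0, if_pos cm1] at qm
  rw [tabC, if_pos cz0, if_neg cz1, if_neg cz2] at qz
  rw [tabC, if_pos cp0, if_neg cp1, if_neg cp2] at qp
  rw [tabC, if_pos t00, if_neg t01, if_neg t02] at r0
  rw [tabC, if_pos t10, if_neg t11, if_neg t12] at r1
  rw [tabC, if_pos t20, if_neg t21, if_neg t22] at r2
  rw [tabC, if_neg t30] at r3
  have Em0 : ∀ n : ℤ, (n = 0 ∨ n = 0 + 1) → decide (R (4 * ζ + K + em)) = true → decide (R' (ζ + M * n)) = true := by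
    intro n hn h
    have h := of_decide_eq_true h
    rcases hn with rfl | rfl
    · exact decide_eq_true (hs.d0 (a := -1) (e := em) (m := 0) (by simp) (by assumption) (by ring) h rfl)
    · exact decide_eq_true (hs.d1 (a := -1) (e := em) (m := 0) (by simp) (by assumption) (by ring) h rfl)
  have Em1 : ∀ n : ℤ, (n = 1 ∨ n = 1 + 1) → decide (R (4 * ζ + K + em + 4 * M)) = true → decide (R' (ζ + M * n)) = true := by
    intro n hn h
    have h := of_decide_eq_true h
    rcases hn with rfl | rfl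
    · exact decide_eq_true (hs.d0 (a := -1) (e := em) (m := 1) (by simp) (by assumption) (by ring) h rfl)
    · exact decide_eq_true (hs.d1 (a := -1) (e := em) (m := 1) (by simp) (by assumption) (by ring) h rfl)
  have Ez2 : ∀ n : ℤ, (n = 2 ∨ n = 2 + 1) → decide (R (4 * ζ + e0 + 4 * M * 2)) = true → decide (R' (ζ + M * n)) = true := by
    intro n hn h
    have h := of_decide_eq_true h
    rcases hn with rfl | rfl
    · exact decide_eq_true (hs.d0 (a := 0) (e := e0) (m := 2) (by simp) (by assumption) (by ring) h rfl)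
    · exact decide_eq_true (hs.d1 (a := 0) (e := e0) (m := 2) (by simp) (by assumption) (by ring) h rfl)
  have Ez3 : ∀ n : ℤ, (n = 3 ∨ n = 3 + 1) → decide (R (4 * ζ + e0 + 4 * M * 2 + 4 * M)) = true → decide (R' (ζ + M * n)) = true := by
    intro n hn h
    have h := of_decide_eq_true h
    rcases hn with rfl | rfl
    · exact decide_eq_true (hs.d0 (a := 0) (e := e0) (m := 3) (by simp) (by assumption) (by ring) h rfl)
    · exact decide_eq_true (hs.d1 (a := 0) (e := e0) (m := 3) (by simp) (by assumption) (by ring) h rfl)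
  have Ep4 : ∀ n : ℤ, (n = 4 ∨ n = 4 + 1) → decide (R (4 * ζ - K + e1 + 4 * M * 4)) = true → decide (R' (ζ + M * n)) = true := by
    intro n hn h
    have h := of_decide_eq_true h
    rcases hn with rfl | rfl
    · exact decide_eq_true (hs.d0 (a := 1) (e := e1) (m := 4) (by simp) (by assumption) (by ring) h rfl)
    · exact decide_eq_true (hs.d1 (a := 1) (e := e1) (m := 4) (by simp) (by assumption) (by ring) h rfl)
  have Ep5 : ∀ n : ℤ, (n = 5 ∨ n = 5 + 1) → decide (R (4 * ζ - K + e1 + 4 * M * 4 + 4 * M)) = true → decide (R' (ζ + M * n)) = true := by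
    intro n hn h
    have h := of_decide_eq_true h
    rcases hn with rfl | rfl
    · exact decide_eq_true (hs.d0 (a := 1) (e := e1) (m := 5) (by simp) (by assumption) (by ring) h rfl)
    · exact decide_eq_true (hs.d1 (a := 1) (e := e1) (m := 5) (by simp) (by assumption) (by ring) h rfl)
  unfold Ineq
  rw [qm, qz, qp]
  generalize decide (R (4 * ζ + K + em)) = b0 at Em0 ⊢
  generalize decide (R (4 * ζ + K + em + 4 * M)) = b1 at Em1 ⊢
  generalize decide (R (4 * ζ + e0 + 4 * M * 2)) = b2 at Ez2 ⊢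
  generalize decide (R (4 * ζ + e0 + 4 * M * 2 + 4 * M)) = b3 at Ez3 ⊢
  generalize decide (R (4 * ζ - K + e1 + 4 * M * 4)) = b4 at Ep4 ⊢
  generalize decide (R (4 * ζ - K + e1 + 4 * M * 4 + 4 * M)) = b5 at Ep5 ⊢
  have T0 : (b0) = true → decide (R' (ζ + M * 0)) = true := by
    intro h
    exact Em0 0 (by norm_num) h
  have T1 : (b0 || b1) = true → decide (R' (ζ + M * 1)) = true := by
    intro h
    simp only [Bool.or_eq_true] at h
    rcases h with (h | h)
    · exact Em0 1 (by norm_num) h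
    · exact Em1 1 (by norm_num) h
  have T2 : (b1 || b2) = true → decide (R' (ζ + M * 2)) = true := by
    intro h
    simp only [Bool.or_eq_true] at h
    rcases h with (h | h)
    · exact Em1 2 (by norm_num) h
    · exact Ez2 2 (by norm_num) h
  have T3 : (b2 || b3) = true → decide (R' (ζ + M * 3)) = true := by
    intro h
    simp only [Bool.or_eq_true] at h
    rcases h with (h | h)
    · exact Ez2 3 (by norm_num) h
    · exact Ez3 3 (by norm_num) h
  have T4 : (b3 || b4) = true → decide (R' (ζ + M * 4)) = true := by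
    intro h
    simp only [Bool.or_eq_true] at h
    rcases h with (h | h)
    · exact Ez3 4 (by norm_num) h
    · exact Ep4 4 (by norm_num) h
  have T5 : (b4 || b5) = true → decide (R' (ζ + M * 5)) = true := by
    intro h
    simp only [Bool.or_eq_true] at h
    rcases h with (h | h)
    · exact Ep4 5 (by norm_num) h
    · exact Ep5 5 (by norm_num) h
  have T6 : (b5) = true → decide (R' (ζ + M * 6)) = true := by
    intro h
    exact Ep5 6 (by norm_num) h
  have u0 : g2 16 10 10 (b0) (b3 || b4) ≤ G (tabC K M) K (4 * M) R' (ζ) := by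
    rw [r0, show ζ + 4 * M = ζ + M * 4 by ring]
    have T0' := T0; rw [show ζ + M * 0 = ζ by ring] at T0'
    exact g2_mono (by norm_num) (by norm_num) (by norm_num) (by norm_num) T0' T4
  have u1 : g2 16 10 10 (b0 || b1) (b4 || b5) ≤ G (tabC K M) K (4 * M) R' (ζ + M * 1) := by
    rw [r1, show ζ + M * 1 + 4 * M = ζ + M * 5 by ring]
    exact g2_mono (by norm_num) (by norm_num) (by norm_num) (by norm_num) T1 T5
  have u2 : g2 16 10 10 (b1 || b2) (b5) ≤ G (tabC K M) K (4 * M) R' (ζ + M * 2) := by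
    rw [r2, show ζ + M * 2 + 4 * M = ζ + M * 6 by ring]
    exact g2_mono (by norm_num) (by norm_num) (by norm_num) (by norm_num) T2 T6
  have u3 : g1 16 (b2 || b3) ≤ G (tabC K M) K (4 * M) R' (ζ + M * 3) := by
    rw [r3]
    exact g1_mono (by norm_num) T3
  have key : ∀ b0 b1 b2 b3 b4 b5 : Bool, KeyIneq 6 8 5 16 (g2 16 13 10 b0 b1) (g2 16 10 10 b2 b3) (g2 16 10 10 b4 b5)
      (g2 16 10 10 (b0) (b3 || b4) + g2 16 10 10 (b0 || b1) (b4 || b5) + g2 16 10 10 (b1 || b2) (b5) + g1 16 (b2 || b3)) := by decide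
  have key := key b0 b1 b2 b3 b4 b5
  unfold KeyIneq at key
  refine ⟨by linarith [key.1], fun h h' => ?_⟩
  have := key.2 h h'
  linarith

/-- lifts (0, 1) (3, 4) (5, 6), 8 target lifts -/
lemma wc_leaf9 {K M ζ em e0 e1 : ℤ} {R R' : ℤ → Prop} (hM : 0 < M) (hs : StepRel K M R R')
    (hem : em = 0 ∨ em = 1) (he0 : e0 = 0 ∨ e0 = 1) (he1 : e1 = 0 ∨ e1 = 1)
    (hx1 : -K ≤ 3 * ζ) (hx2 : 3 * (ζ - M) < -K)
    (am1 : -K ≤ 3 * (4 * ζ + K + em))
    (am2 : 3 * (4 * ζ + K + em - 4 * M) < -K)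
    (az1 : -K ≤ 3 * (4 * ζ + e0 + 4 * M * 3))
    (az2 : 3 * (4 * ζ + e0 + 4 * M * 3 - 4 * M) < -K)
    (ap1 : -K ≤ 3 * (4 * ζ - K + e1 + 4 * M * 5))
    (ap2 : 3 * (4 * ζ - K + e1 + 4 * M * 5 - 4 * M) < -K)
    (cm0 : 3 * (4 * ζ + K + em + 4 * M) ≤ K + 4 * M - 1)
    (cm1 : ¬ -K ≤ 3 * (4 * ζ + K + em - 3 * M))
    (cm2 : ¬ 3 * (4 * ζ + K + em + 7 * M) ≤ K + 4 * M - 1)
    (cz0 : 3 * (4 * ζ + e0 + 4 * M * 3 + 4 * M) ≤ K + 4 * M - 1)
    (cz1 : -K ≤ 3 * (4 * ζ + e0 + 4 * M * 3 - 3 * M))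
    (cp0 : 3 * (4 * ζ - K + e1 + 4 * M * 5 + 4 * M) ≤ K + 4 * M - 1)
    (cp1 : ¬ -K ≤ 3 * (4 * ζ - K + e1 + 4 * M * 5 - 3 * M))
    (cp2 : ¬ 3 * (4 * ζ - K + e1 + 4 * M * 5 + 7 * M) ≤ K + 4 * M - 1)
    (t00 : 3 * (ζ + 4 * M) ≤ K + 4 * M - 1)
    (t01 : ¬ -K ≤ 3 * (ζ - 3 * M))
    (t02 : 3 * (ζ + 7 * M) ≤ K + 4 * M - 1)
    (t10 : 3 * (ζ + M * 1 + 4 * M) ≤ K + 4 * M - 1)
    (t11 : ¬ -K ≤ 3 * (ζ + M * 1 - 3 * M))
    (t12 : ¬ 3 * (ζ + M * 1 + 7 * M) ≤ K + 4 * M - 1)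
    (t20 : 3 * (ζ + M * 2 + 4 * M) ≤ K + 4 * M - 1)
    (t21 : ¬ -K ≤ 3 * (ζ + M * 2 - 3 * M))
    (t22 : ¬ 3 * (ζ + M * 2 + 7 * M) ≤ K + 4 * M - 1)
    (t30 : 3 * (ζ + M * 3 + 4 * M) ≤ K + 4 * M - 1)
    (t31 : -K ≤ 3 * (ζ + M * 3 - 3 * M)) :
    Ineq 6 8 5 16 (tabC K M) K M R R' ζ em e0 e1 := by
  classical
  have hN : 0 < 4 * M := by linarith
  have qm := G_eq (tab := tabC K M) (K := K) (N := 4 * M) (R := R) (z := 4 * ζ + K + em) (w := 4 * ζ + K + em) hN (by linarith) (by linarith)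
    ⟨0, by ring⟩
  have qz := G_eq (tab := tabC K M) (K := K) (N := 4 * M) (R := R) (z := 4 * ζ + e0) (w := 4 * ζ + e0 + 4 * M * 3) hN (by linarith) (by linarith)
    ⟨3, by ring⟩
  have qp := G_eq (tab := tabC K M) (K := K) (N := 4 * M) (R := R) (z := 4 * ζ - K + e1) (w := 4 * ζ - K + e1 + 4 * M * 5) hN (by linarith) (by linarith)
    ⟨5, by ring⟩
  have r0 := G_eq (tab := tabC K M) (K := K) (N := 4 * M) (R := R') (z := ζ) (w := ζ) hN (by linarith) (by linarith)
    ⟨0, by ring⟩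
  have r1 := G_eq (tab := tabC K M) (K := K) (N := 4 * M) (R := R') (z := ζ + M * 1) (w := ζ + M * 1) hN (by linarith) (by linarith)
    ⟨0, by ring⟩
  have r2 := G_eq (tab := tabC K M) (K := K) (N := 4 * M) (R := R') (z := ζ + M * 2) (w := ζ + M * 2) hN (by linarith) (by linarith)
    ⟨0, by ring⟩
  have r3 := G_eq (tab := tabC K M) (K := K) (N := 4 * M) (R := R') (z := ζ + M * 3) (w := ζ + M * 3) hN (by linarith) (by linarith)
    ⟨0, by ring⟩
  rw [tabC, if_pos cm0, if_neg cm1, if_neg cm2] at qm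
  rw [tabC, if_pos cz0, if_pos cz1] at qz
  rw [tabC, if_pos cp0, if_neg cp1, if_neg cp2] at qp
  rw [tabC, if_pos t00, if_neg t01, if_pos t02] at r0
  rw [tabC, if_pos t10, if_neg t11, if_neg t12] at r1
  rw [tabC, if_pos t20, if_neg t21, if_neg t22] at r2
  rw [tabC, if_pos t30, if_pos t31] at r3
  have Em0 : ∀ n : ℤ, (n = 0 ∨ n = 0 + 1) → decide (R (4 * ζ + K + em)) = true → decide (R' (ζ + M * n)) = true := by
    intro n hn h
    have h := of_decide_eq_true h
    rcases hn with rfl | rfl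
    · exact decide_eq_true (hs.d0 (a := -1) (e := em) (m := 0) (by simp) (by assumption) (by ring) h rfl)
    · exact decide_eq_true (hs.d1 (a := -1) (e := em) (m := 0) (by simp) (by assumption) (by ring) h rfl)
  have Em1 : ∀ n : ℤ, (n = 1 ∨ n = 1 + 1) → decide (R (4 * ζ + K + em + 4 * M)) = true → decide (R' (ζ + M * n)) = true := by
    intro n hn h
    have h := of_decide_eq_true h
    rcases hn with rfl | rfl
    · exact decide_eq_true (hs.d0 (a := -1) (e := em) (m := 1) (by simp) (by assumption) (by ring) h rfl)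
    · exact decide_eq_true (hs.d1 (a := -1) (e := em) (m := 1) (by simp) (by assumption) (by ring) h rfl)
  have Ez3 : ∀ n : ℤ, (n = 3 ∨ n = 3 + 1) → decide (R (4 * ζ + e0 + 4 * M * 3)) = true → decide (R' (ζ + M * n)) = true := by
    intro n hn h
    have h := of_decide_eq_true h
    rcases hn with rfl | rfl
    · exact decide_eq_true (hs.d0 (a := 0) (e := e0) (m := 3) (by simp) (by assumption) (by ring) h rfl)
    · exact decide_eq_true (hs.d1 (a := 0) (e := e0) (m := 3) (by simp) (by assumption) (by ring) h rfl)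
  have Ez4 : ∀ n : ℤ, (n = 4 ∨ n = 4 + 1) → decide (R (4 * ζ + e0 + 4 * M * 3 + 4 * M)) = true → decide (R' (ζ + M * n)) = true := by
    intro n hn h
    have h := of_decide_eq_true h
    rcases hn with rfl | rfl
    · exact decide_eq_true (hs.d0 (a := 0) (e := e0) (m := 4) (by simp) (by assumption) (by ring) h rfl)
    · exact decide_eq_true (hs.d1 (a := 0) (e := e0) (m := 4) (by simp) (by assumption) (by ring) h rfl)
  have Ep5 : ∀ n : ℤ, (n = 5 ∨ n = 5 + 1) → decide (R (4 * ζ - K + e1 + 4 * M * 5)) = true → decide (R' (ζ + M * n)) = true := by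
    intro n hn h
    have h := of_decide_eq_true h
    rcases hn with rfl | rfl
    · exact decide_eq_true (hs.d0 (a := 1) (e := e1) (m := 5) (by simp) (by assumption) (by ring) h rfl)
    · exact decide_eq_true (hs.d1 (a := 1) (e := e1) (m := 5) (by simp) (by assumption) (by ring) h rfl)
  have Ep6 : ∀ n : ℤ, (n = 6 ∨ n = 6 + 1) → decide (R (4 * ζ - K + e1 + 4 * M * 5 + 4 * M)) = true → decide (R' (ζ + M * n)) = true := by
    intro n hn h
    have h := of_decide_eq_true h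
    rcases hn with rfl | rfl
    · exact decide_eq_true (hs.d0 (a := 1) (e := e1) (m := 6) (by simp) (by assumption) (by ring) h rfl)
    · exact decide_eq_true (hs.d1 (a := 1) (e := e1) (m := 6) (by simp) (by assumption) (by ring) h rfl)
  unfold Ineq
  rw [qm, qz, qp]
  generalize decide (R (4 * ζ + K + em)) = b0 at Em0 ⊢
  generalize decide (R (4 * ζ + K + em + 4 * M)) = b1 at Em1 ⊢
  generalize decide (R (4 * ζ + e0 + 4 * M * 3)) = b2 at Ez3 ⊢
  generalize decide (R (4 * ζ + e0 + 4 * M * 3 + 4 * M)) = b3 at Ez4 ⊢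
  generalize decide (R (4 * ζ - K + e1 + 4 * M * 5)) = b4 at Ep5 ⊢
  generalize decide (R (4 * ζ - K + e1 + 4 * M * 5 + 4 * M)) = b5 at Ep6 ⊢
  have T0 : (b0) = true → decide (R' (ζ + M * 0)) = true := by
    intro h
    exact Em0 0 (by norm_num) h
  have T1 : (b0 || b1) = true → decide (R' (ζ + M * 1)) = true := by
    intro h
    simp only [Bool.or_eq_true] at h
    rcases h with (h | h)
    · exact Em0 1 (by norm_num) h
    · exact Em1 1 (by norm_num) h
  have T2 : (b1) = true → decide (R' (ζ + M * 2)) = true := by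
    intro h
    exact Em1 2 (by norm_num) h
  have T3 : (b2) = true → decide (R' (ζ + M * 3)) = true := by
    intro h
    exact Ez3 3 (by norm_num) h
  have T4 : (b2 || b3) = true → decide (R' (ζ + M * 4)) = true := by
    intro h
    simp only [Bool.or_eq_true] at h
    rcases h with (h | h)
    · exact Ez3 4 (by norm_num) h
    · exact Ez4 4 (by norm_num) h
  have T5 : (b3 || b4) = true → decide (R' (ζ + M * 5)) = true := by
    intro h
    simp only [Bool.or_eq_true] at h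
    rcases h with (h | h)
    · exact Ez4 5 (by norm_num) h
    · exact Ep5 5 (by norm_num) h
  have T6 : (b4 || b5) = true → decide (R' (ζ + M * 6)) = true := by
    intro h
    simp only [Bool.or_eq_true] at h
    rcases h with (h | h)
    · exact Ep5 6 (by norm_num) h
    · exact Ep6 6 (by norm_num) h
  have T7 : (b5) = true → decide (R' (ζ + M * 7)) = true := by
    intro h
    exact Ep6 7 (by norm_num) h
  have u0 : g2 16 10 13 (b0) (b2 || b3) ≤ G (tabC K M) K (4 * M) R' (ζ) := by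
    rw [r0, show ζ + 4 * M = ζ + M * 4 by ring]
    have T0' := T0; rw [show ζ + M * 0 = ζ by ring] at T0'
    exact g2_mono (by norm_num) (by norm_num) (by norm_num) (by norm_num) T0' T4
  have u1 : g2 16 10 10 (b0 || b1) (b3 || b4) ≤ G (tabC K M) K (4 * M) R' (ζ + M * 1) := by
    rw [r1, show ζ + M * 1 + 4 * M = ζ + M * 5 by ring]
    exact g2_mono (by norm_num) (by norm_num) (by norm_num) (by norm_num) T1 T5
  have u2 : g2 16 10 10 (b1) (b4 || b5) ≤ G (tabC K M) K (4 * M) R' (ζ + M * 2) := by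
    rw [r2, show ζ + M * 2 + 4 * M = ζ + M * 6 by ring]
    exact g2_mono (by norm_num) (by norm_num) (by norm_num) (by norm_num) T2 T6
  have u3 : g2 16 13 10 (b2) (b5) ≤ G (tabC K M) K (4 * M) R' (ζ + M * 3) := by
    rw [r3, show ζ + M * 3 + 4 * M = ζ + M * 7 by ring]
    exact g2_mono (by norm_num) (by norm_num) (by norm_num) (by norm_num) T3 T7
  have key : ∀ b0 b1 b2 b3 b4 b5 : Bool, KeyIneq 6 8 5 16 (g2 16 10 10 b0 b1) (g2 16 13 10 b2 b3) (g2 16 10 10 b4 b5)
      (g2 16 10 13 (b0) (b2 || b3) + g2 16 10 10 (b0 || b1) (b3 || b4) + g2 16 10 10 (b1) (b4 || b5) + g2 16 13 10 (b2) (b5)) := by decide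
  have key := key b0 b1 b2 b3 b4 b5
  unfold KeyIneq at key
  refine ⟨by linarith [key.1], fun h h' => ?_⟩
  have := key.2 h h'
  linarith

/-- lifts (0, 1) (2, 3) (5, 6), 8 target lifts -/
lemma wc_leaf10 {K M ζ em e0 e1 : ℤ} {R R' : ℤ → Prop} (hM : 0 < M) (hs : StepRel K M R R')
    (hem : em = 0 ∨ em = 1) (he0 : e0 = 0 ∨ e0 = 1) (he1 : e1 = 0 ∨ e1 = 1)
    (hx1 : -K ≤ 3 * ζ) (hx2 : 3 * (ζ - M) < -K)
    (am1 : -K ≤ 3 * (4 * ζ + K + em))
    (am2 : 3 * (4 * ζ + K + em - 4 * M) < -K)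
    (az1 : -K ≤ 3 * (4 * ζ + e0 + 4 * M * 2))
    (az2 : 3 * (4 * ζ + e0 + 4 * M * 2 - 4 * M) < -K)
    (ap1 : -K ≤ 3 * (4 * ζ - K + e1 + 4 * M * 5))
    (ap2 : 3 * (4 * ζ - K + e1 + 4 * M * 5 - 4 * M) < -K)
    (cm0 : 3 * (4 * ζ + K + em + 4 * M) ≤ K + 4 * M - 1)
    (cm1 : ¬ -K ≤ 3 * (4 * ζ + K + em - 3 * M))
    (cm2 : ¬ 3 * (4 * ζ + K + em + 7 * M) ≤ K + 4 * M - 1)
    (cz0 : 3 * (4 * ζ + e0 + 4 * M * 2 + 4 * M) ≤ K + 4 * M - 1)
    (cz1 : ¬ -K ≤ 3 * (4 * ζ + e0 + 4 * M * 2 - 3 * M))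
    (cz2 : 3 * (4 * ζ + e0 + 4 * M * 2 + 7 * M) ≤ K + 4 * M - 1)
    (cp0 : 3 * (4 * ζ - K + e1 + 4 * M * 5 + 4 * M) ≤ K + 4 * M - 1)
    (cp1 : ¬ -K ≤ 3 * (4 * ζ - K + e1 + 4 * M * 5 - 3 * M))
    (cp2 : ¬ 3 * (4 * ζ - K + e1 + 4 * M * 5 + 7 * M) ≤ K + 4 * M - 1)
    (t00 : 3 * (ζ + 4 * M) ≤ K + 4 * M - 1)
    (t01 : ¬ -K ≤ 3 * (ζ - 3 * M))
    (t02 : 3 * (ζ + 7 * M) ≤ K + 4 * M - 1)
    (t10 : 3 * (ζ + M * 1 + 4 * M) ≤ K + 4 * M - 1)
    (t11 : ¬ -K ≤ 3 * (ζ + M * 1 - 3 * M))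
    (t12 : ¬ 3 * (ζ + M * 1 + 7 * M) ≤ K + 4 * M - 1)
    (t20 : 3 * (ζ + M * 2 + 4 * M) ≤ K + 4 * M - 1)
    (t21 : ¬ -K ≤ 3 * (ζ + M * 2 - 3 * M))
    (t22 : ¬ 3 * (ζ + M * 2 + 7 * M) ≤ K + 4 * M - 1)
    (t30 : 3 * (ζ + M * 3 + 4 * M) ≤ K + 4 * M - 1)
    (t31 : -K ≤ 3 * (ζ + M * 3 - 3 * M)) :
    Ineq 6 8 5 16 (tabC K M) K M R R' ζ em e0 e1 := by
  classical
  have hN : 0 < 4 * M := by linarith
  have qm := G_eq (tab := tabC K M) (K := K) (N := 4 * M) (R := R) (z := 4 * ζ + K + em) (w := 4 * ζ + K + em) hN (by linarith) (by linarith)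
    ⟨0, by ring⟩
  have qz := G_eq (tab := tabC K M) (K := K) (N := 4 * M) (R := R) (z := 4 * ζ + e0) (w := 4 * ζ + e0 + 4 * M * 2) hN (by linarith) (by linarith)
    ⟨2, by ring⟩
  have qp := G_eq (tab := tabC K M) (K := K) (N := 4 * M) (R := R) (z := 4 * ζ - K + e1) (w := 4 * ζ - K + e1 + 4 * M * 5) hN (by linarith) (by linarith)
    ⟨5, by ring⟩
  have r0 := G_eq (tab := tabC K M) (K := K) (N := 4 * M) (R := R') (z := ζ) (w := ζ) hN (by linarith) (by linarith)
    ⟨0, by ring⟩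
  have r1 := G_eq (tab := tabC K M) (K := K) (N := 4 * M) (R := R') (z := ζ + M * 1) (w := ζ + M * 1) hN (by linarith) (by linarith)
    ⟨0, by ring⟩
  have r2 := G_eq (tab := tabC K M) (K := K) (N := 4 * M) (R := R') (z := ζ + M * 2) (w := ζ + M * 2) hN (by linarith) (by linarith)
    ⟨0, by ring⟩
  have r3 := G_eq (tab := tabC K M) (K := K) (N := 4 * M) (R := R') (z := ζ + M * 3) (w := ζ + M * 3) hN (by linarith) (by linarith)
    ⟨0, by ring⟩
  rw [tabC, if_pos cm0, if_neg cm1, if_neg cm2] at qm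
  rw [tabC, if_pos cz0, if_neg cz1, if_pos cz2] at qz
  rw [tabC, if_pos cp0, if_neg cp1, if_neg cp2] at qp
  rw [tabC, if_pos t00, if_neg t01, if_pos t02] at r0
  rw [tabC, if_pos t10, if_neg t11, if_neg t12] at r1
  rw [tabC, if_pos t20, if_neg t21, if_neg t22] at r2
  rw [tabC, if_pos t30, if_pos t31] at r3
  have Em0 : ∀ n : ℤ, (n = 0 ∨ n = 0 + 1) → decide (R (4 * ζ + K + em)) = true → decide (R' (ζ + M * n)) = true := by
    intro n hn h
    have h := of_decide_eq_true h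
    rcases hn with rfl | rfl
    · exact decide_eq_true (hs.d0 (a := -1) (e := em) (m := 0) (by simp) (by assumption) (by ring) h rfl)
    · exact decide_eq_true (hs.d1 (a := -1) (e := em) (m := 0) (by simp) (by assumption) (by ring) h rfl)
  have Em1 : ∀ n : ℤ, (n = 1 ∨ n = 1 + 1) → decide (R (4 * ζ + K + em + 4 * M)) = true → decide (R' (ζ + M * n)) = true := by
    intro n hn h
    have h := of_decide_eq_true h
    rcases hn with rfl | rfl
    · exact decide_eq_true (hs.d0 (a := -1) (e := em) (m := 1) (by simp) (by assumption) (by ring) h rfl)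
    · exact decide_eq_true (hs.d1 (a := -1) (e := em) (m := 1) (by simp) (by assumption) (by ring) h rfl)
  have Ez2 : ∀ n : ℤ, (n = 2 ∨ n = 2 + 1) → decide (R (4 * ζ + e0 + 4 * M * 2)) = true → decide (R' (ζ + M * n)) = true := by
    intro n hn h
    have h := of_decide_eq_true h
    rcases hn with rfl | rfl
    · exact decide_eq_true (hs.d0 (a := 0) (e := e0) (m := 2) (by simp) (by assumption) (by ring) h rfl)
    · exact decide_eq_true (hs.d1 (a := 0) (e := e0) (m := 2) (by simp) (by assumption) (by ring) h rfl)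
  have Ez3 : ∀ n : ℤ, (n = 3 ∨ n = 3 + 1) → decide (R (4 * ζ + e0 + 4 * M * 2 + 4 * M)) = true → decide (R' (ζ + M * n)) = true := by
    intro n hn h
    have h := of_decide_eq_true h
    rcases hn with rfl | rfl
    · exact decide_eq_true (hs.d0 (a := 0) (e := e0) (m := 3) (by simp) (by assumption) (by ring) h rfl)
    · exact decide_eq_true (hs.d1 (a := 0) (e := e0) (m := 3) (by simp) (by assumption) (by ring) h rfl)
  have Ep5 : ∀ n : ℤ, (n = 5 ∨ n = 5 + 1) → decide (R (4 * ζ - K + e1 + 4 * M * 5)) = true → decide (R' (ζ + M * n)) = true := by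
    intro n hn h
    have h := of_decide_eq_true h
    rcases hn with rfl | rfl
    · exact decide_eq_true (hs.d0 (a := 1) (e := e1) (m := 5) (by simp) (by assumption) (by ring) h rfl)
    · exact decide_eq_true (hs.d1 (a := 1) (e := e1) (m := 5) (by simp) (by assumption) (by ring) h rfl)
  have Ep6 : ∀ n : ℤ, (n = 6 ∨ n = 6 + 1) → decide (R (4 * ζ - K + e1 + 4 * M * 5 + 4 * M)) = true → decide (R' (ζ + M * n)) = true := by
    intro n hn h
    have h := of_decide_eq_true h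
    rcases hn with rfl | rfl
    · exact decide_eq_true (hs.d0 (a := 1) (e := e1) (m := 6) (by simp) (by assumption) (by ring) h rfl)
    · exact decide_eq_true (hs.d1 (a := 1) (e := e1) (m := 6) (by simp) (by assumption) (by ring) h rfl)
  unfold Ineq
  rw [qm, qz, qp]
  generalize decide (R (4 * ζ + K + em)) = b0 at Em0 ⊢
  generalize decide (R (4 * ζ + K + em + 4 * M)) = b1 at Em1 ⊢
  generalize decide (R (4 * ζ + e0 + 4 * M * 2)) = b2 at Ez2 ⊢
  generalize decide (R (4 * ζ + e0 + 4 * M * 2 + 4 * M)) = b3 at Ez3 ⊢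
  generalize decide (R (4 * ζ - K + e1 + 4 * M * 5)) = b4 at Ep5 ⊢
  generalize decide (R (4 * ζ - K + e1 + 4 * M * 5 + 4 * M)) = b5 at Ep6 ⊢
  have T0 : (b0) = true → decide (R' (ζ + M * 0)) = true := by
    intro h
    exact Em0 0 (by norm_num) h
  have T1 : (b0 || b1) = true → decide (R' (ζ + M * 1)) = true := by
    intro h
    simp only [Bool.or_eq_true] at h
    rcases h with (h | h)
    · exact Em0 1 (by norm_num) h
    · exact Em1 1 (by norm_num) h
  have T2 : (b1 || b2) = true → decide (R' (ζ + M * 2)) = true := by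
    intro h
    simp only [Bool.or_eq_true] at h
    rcases h with (h | h)
    · exact Em1 2 (by norm_num) h
    · exact Ez2 2 (by norm_num) h
  have T3 : (b2 || b3) = true → decide (R' (ζ + M * 3)) = true := by
    intro h
    simp only [Bool.or_eq_true] at h
    rcases h with (h | h)
    · exact Ez2 3 (by norm_num) h
    · exact Ez3 3 (by norm_num) h
  have T4 : (b3) = true → decide (R' (ζ + M * 4)) = true := by
    intro h
    exact Ez3 4 (by norm_num) h
  have T5 : (b4) = true → decide (R' (ζ + M * 5)) = true := by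
    intro h
    exact Ep5 5 (by norm_num) h
  have T6 : (b4 || b5) = true → decide (R' (ζ + M * 6)) = true := by
    intro h
    simp only [Bool.or_eq_true] at h
    rcases h with (h | h)
    · exact Ep5 6 (by norm_num) h
    · exact Ep6 6 (by norm_num) h
  have T7 : (b5) = true → decide (R' (ζ + M * 7)) = true := by
    intro h
    exact Ep6 7 (by norm_num) h
  have u0 : g2 16 10 13 (b0) (b3) ≤ G (tabC K M) K (4 * M) R' (ζ) := by
    rw [r0, show ζ + 4 * M = ζ + M * 4 by ring]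
    have T0' := T0; rw [show ζ + M * 0 = ζ by ring] at T0'
    exact g2_mono (by norm_num) (by norm_num) (by norm_num) (by norm_num) T0' T4
  have u1 : g2 16 10 10 (b0 || b1) (b4) ≤ G (tabC K M) K (4 * M) R' (ζ + M * 1) := by
    rw [r1, show ζ + M * 1 + 4 * M = ζ + M * 5 by ring]
    exact g2_mono (by norm_num) (by norm_num) (by norm_num) (by norm_num) T1 T5
  have u2 : g2 16 10 10 (b1 || b2) (b4 || b5) ≤ G (tabC K M) K (4 * M) R' (ζ + M * 2) := by
    rw [r2, show ζ + M * 2 + 4 * M = ζ + M * 6 by ring]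
    exact g2_mono (by norm_num) (by norm_num) (by norm_num) (by norm_num) T2 T6
  have u3 : g2 16 13 10 (b2 || b3) (b5) ≤ G (tabC K M) K (4 * M) R' (ζ + M * 3) := by
    rw [r3, show ζ + M * 3 + 4 * M = ζ + M * 7 by ring]
    exact g2_mono (by norm_num) (by norm_num) (by norm_num) (by norm_num) T3 T7
  have key : ∀ b0 b1 b2 b3 b4 b5 : Bool, KeyIneq 6 8 5 16 (g2 16 10 10 b0 b1) (g2 16 10 13 b2 b3) (g2 16 10 10 b4 b5)
      (g2 16 10 13 (b0) (b3) + g2 16 10 10 (b0 || b1) (b4) + g2 16 10 10 (b1 || b2) (b4 || b5) + g2 16 13 10 (b2 || b3) (b5)) := by decide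
  have key := key b0 b1 b2 b3 b4 b5
  unfold KeyIneq at key
  refine ⟨by linarith [key.1], fun h h' => ?_⟩
  have := key.2 h h'
  linarith

/-- lifts (0, 1) (3, 4) (5, 6), 8 target lifts -/
lemma wc_leaf11 {K M ζ em e0 e1 : ℤ} {R R' : ℤ → Prop} (hM : 0 < M) (hs : StepRel K M R R')
    (hem : em = 0 ∨ em = 1) (he0 : e0 = 0 ∨ e0 = 1) (he1 : e1 = 0 ∨ e1 = 1)
    (hx1 : -K ≤ 3 * ζ) (hx2 : 3 * (ζ - M) < -K)
    (am1 : -K ≤ 3 * (4 * ζ + K + em))
    (am2 : 3 * (4 * ζ + K + em - 4 * M) < -K)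
    (az1 : -K ≤ 3 * (4 * ζ + e0 + 4 * M * 3))
    (az2 : 3 * (4 * ζ + e0 + 4 * M * 3 - 4 * M) < -K)
    (ap1 : -K ≤ 3 * (4 * ζ - K + e1 + 4 * M * 5))
    (ap2 : 3 * (4 * ζ - K + e1 + 4 * M * 5 - 4 * M) < -K)
    (cm0 : 3 * (4 * ζ + K + em + 4 * M) ≤ K + 4 * M - 1)
    (cm1 : ¬ -K ≤ 3 * (4 * ζ + K + em - 3 * M))
    (cm2 : 3 * (4 * ζ + K + em + 7 * M) ≤ K + 4 * M - 1)
    (cz0 : 3 * (4 * ζ + e0 + 4 * M * 3 + 4 * M) ≤ K + 4 * M - 1)
    (cz1 : ¬ -K ≤ 3 * (4 * ζ + e0 + 4 * M * 3 - 3 * M))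
    (cz2 : ¬ 3 * (4 * ζ + e0 + 4 * M * 3 + 7 * M) ≤ K + 4 * M - 1)
    (cp0 : 3 * (4 * ζ - K + e1 + 4 * M * 5 + 4 * M) ≤ K + 4 * M - 1)
    (cp1 : ¬ -K ≤ 3 * (4 * ζ - K + e1 + 4 * M * 5 - 3 * M))
    (cp2 : 3 * (4 * ζ - K + e1 + 4 * M * 5 + 7 * M) ≤ K + 4 * M - 1)
    (t00 : 3 * (ζ + 4 * M) ≤ K + 4 * M - 1)
    (t01 : ¬ -K ≤ 3 * (ζ - 3 * M))
    (t02 : 3 * (ζ + 7 * M) ≤ K + 4 * M - 1)
    (t10 : 3 * (ζ + M * 1 + 4 * M) ≤ K + 4 * M - 1)
    (t11 : ¬ -K ≤ 3 * (ζ + M * 1 - 3 * M))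
    (t12 : ¬ 3 * (ζ + M * 1 + 7 * M) ≤ K + 4 * M - 1)
    (t20 : 3 * (ζ + M * 2 + 4 * M) ≤ K + 4 * M - 1)
    (t21 : ¬ -K ≤ 3 * (ζ + M * 2 - 3 * M))
    (t22 : ¬ 3 * (ζ + M * 2 + 7 * M) ≤ K + 4 * M - 1)
    (t30 : 3 * (ζ + M * 3 + 4 * M) ≤ K + 4 * M - 1)
    (t31 : -K ≤ 3 * (ζ + M * 3 - 3 * M)) :
    Ineq 6 8 5 16 (tabC K M) K M R R' ζ em e0 e1 := by
  classical
  have hN : 0 < 4 * M := by linarith
  have qm := G_eq (tab := tabC K M) (K := K) (N := 4 * M) (R := R) (z := 4 * ζ + K + em) (w := 4 * ζ + K + em) hN (by linarith) (by linarith)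
    ⟨0, by ring⟩
  have qz := G_eq (tab := tabC K M) (K := K) (N := 4 * M) (R := R) (z := 4 * ζ + e0) (w := 4 * ζ + e0 + 4 * M * 3) hN (by linarith) (by linarith)
    ⟨3, by ring⟩
  have qp := G_eq (tab := tabC K M) (K := K) (N := 4 * M) (R := R) (z := 4 * ζ - K + e1) (w := 4 * ζ - K + e1 + 4 * M * 5) hN (by linarith) (by linarith)
    ⟨5, by ring⟩
  have r0 := G_eq (tab := tabC K M) (K := K) (N := 4 * M) (R := R') (z := ζ) (w := ζ) hN (by linarith) (by linarith)
    ⟨0, by ring⟩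
  have r1 := G_eq (tab := tabC K M) (K := K) (N := 4 * M) (R := R') (z := ζ + M * 1) (w := ζ + M * 1) hN (by linarith) (by linarith)
    ⟨0, by ring⟩
  have r2 := G_eq (tab := tabC K M) (K := K) (N := 4 * M) (R := R') (z := ζ + M * 2) (w := ζ + M * 2) hN (by linarith) (by linarith)
    ⟨0, by ring⟩
  have r3 := G_eq (tab := tabC K M) (K := K) (N := 4 * M) (R := R') (z := ζ + M * 3) (w := ζ + M * 3) hN (by linarith) (by linarith)
    ⟨0, by ring⟩
  rw [tabC, if_pos cm0, if_neg cm1, if_pos cm2] at qm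
  rw [tabC, if_pos cz0, if_neg cz1, if_neg cz2] at qz
  rw [tabC, if_pos cp0, if_neg cp1, if_pos cp2] at qp
  rw [tabC, if_pos t00, if_neg t01, if_pos t02] at r0
  rw [tabC, if_pos t10, if_neg t11, if_neg t12] at r1
  rw [tabC, if_pos t20, if_neg t21, if_neg t22] at r2
  rw [tabC, if_pos t30, if_pos t31] at r3
  have Em0 : ∀ n : ℤ, (n = 0 ∨ n = 0 + 1) → decide (R (4 * ζ + K + em)) = true → decide (R' (ζ + M * n)) = true := by
    intro n hn h
    have h := of_decide_eq_true h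
    rcases hn with rfl | rfl
    · exact decide_eq_true (hs.d0 (a := -1) (e := em) (m := 0) (by simp) (by assumption) (by ring) h rfl)
    · exact decide_eq_true (hs.d1 (a := -1) (e := em) (m := 0) (by simp) (by assumption) (by ring) h rfl)
  have Em1 : ∀ n : ℤ, (n = 1 ∨ n = 1 + 1) → decide (R (4 * ζ + K + em + 4 * M)) = true → decide (R' (ζ + M * n)) = true := by
    intro n hn h
    have h := of_decide_eq_true h
    rcases hn with rfl | rfl
    · exact decide_eq_true (hs.d0 (a := -1) (e := em) (m := 1) (by simp) (by assumption) (by ring) h rfl)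
    · exact decide_eq_true (hs.d1 (a := -1) (e := em) (m := 1) (by simp) (by assumption) (by ring) h rfl)
  have Ez3 : ∀ n : ℤ, (n = 3 ∨ n = 3 + 1) → decide (R (4 * ζ + e0 + 4 * M * 3)) = true → decide (R' (ζ + M * n)) = true := by
    intro n hn h
    have h := of_decide_eq_true h
    rcases hn with rfl | rfl
    · exact decide_eq_true (hs.d0 (a := 0) (e := e0) (m := 3) (by simp) (by assumption) (by ring) h rfl)
    · exact decide_eq_true (hs.d1 (a := 0) (e := e0) (m := 3) (by simp) (by assumption) (by ring) h rfl)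
  have Ez4 : ∀ n : ℤ, (n = 4 ∨ n = 4 + 1) → decide (R (4 * ζ + e0 + 4 * M * 3 + 4 * M)) = true → decide (R' (ζ + M * n)) = true := by
    intro n hn h
    have h := of_decide_eq_true h
    rcases hn with rfl | rfl
    · exact decide_eq_true (hs.d0 (a := 0) (e := e0) (m := 4) (by simp) (by assumption) (by ring) h rfl)
    · exact decide_eq_true (hs.d1 (a := 0) (e := e0) (m := 4) (by simp) (by assumption) (by ring) h rfl)
  have Ep5 : ∀ n : ℤ, (n = 5 ∨ n = 5 + 1) → decide (R (4 * ζ - K + e1 + 4 * M * 5)) = true → decide (R' (ζ + M * n)) = true := by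
    intro n hn h
    have h := of_decide_eq_true h
    rcases hn with rfl | rfl
    · exact decide_eq_true (hs.d0 (a := 1) (e := e1) (m := 5) (by simp) (by assumption) (by ring) h rfl)
    · exact decide_eq_true (hs.d1 (a := 1) (e := e1) (m := 5) (by simp) (by assumption) (by ring) h rfl)
  have Ep6 : ∀ n : ℤ, (n = 6 ∨ n = 6 + 1) → decide (R (4 * ζ - K + e1 + 4 * M * 5 + 4 * M)) = true → decide (R' (ζ + M * n)) = true := by
    intro n hn h
    have h := of_decide_eq_true h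
    rcases hn with rfl | rfl
    · exact decide_eq_true (hs.d0 (a := 1) (e := e1) (m := 6) (by simp) (by assumption) (by ring) h rfl)
    · exact decide_eq_true (hs.d1 (a := 1) (e := e1) (m := 6) (by simp) (by assumption) (by ring) h rfl)
  unfold Ineq
  rw [qm, qz, qp]
  generalize decide (R (4 * ζ + K + em)) = b0 at Em0 ⊢
  generalize decide (R (4 * ζ + K + em + 4 * M)) = b1 at Em1 ⊢
  generalize decide (R (4 * ζ + e0 + 4 * M * 3)) = b2 at Ez3 ⊢
  generalize decide (R (4 * ζ + e0 + 4 * M * 3 + 4 * M)) = b3 at Ez4 ⊢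
  generalize decide (R (4 * ζ - K + e1 + 4 * M * 5)) = b4 at Ep5 ⊢
  generalize decide (R (4 * ζ - K + e1 + 4 * M * 5 + 4 * M)) = b5 at Ep6 ⊢
  have T0 : (b0) = true → decide (R' (ζ + M * 0)) = true := by
    intro h
    exact Em0 0 (by norm_num) h
  have T1 : (b0 || b1) = true → decide (R' (ζ + M * 1)) = true := by
    intro h
    simp only [Bool.or_eq_true] at h
    rcases h with (h | h)
    · exact Em0 1 (by norm_num) h
    · exact Em1 1 (by norm_num) h
  have T2 : (b1) = true → decide (R' (ζ + M * 2)) = true := by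
    intro h
    exact Em1 2 (by norm_num) h
  have T3 : (b2) = true → decide (R' (ζ + M * 3)) = true := by
    intro h
    exact Ez3 3 (by norm_num) h
  have T4 : (b2 || b3) = true → decide (R' (ζ + M * 4)) = true := by
    intro h
    simp only [Bool.or_eq_true] at h
    rcases h with (h | h)
    · exact Ez3 4 (by norm_num) h
    · exact Ez4 4 (by norm_num) h
  have T5 : (b3 || b4) = true → decide (R' (ζ + M * 5)) = true := by
    intro h
    simp only [Bool.or_eq_true] at h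
    rcases h with (h | h)
    · exact Ez4 5 (by norm_num) h
    · exact Ep5 5 (by norm_num) h
  have T6 : (b4 || b5) = true → decide (R' (ζ + M * 6)) = true := by
    intro h
    simp only [Bool.or_eq_true] at h
    rcases h with (h | h)
    · exact Ep5 6 (by norm_num) h
    · exact Ep6 6 (by norm_num) h
  have T7 : (b5) = true → decide (R' (ζ + M * 7)) = true := by
    intro h
    exact Ep6 7 (by norm_num) h
  have u0 : g2 16 10 13 (b0) (b2 || b3) ≤ G (tabC K M) K (4 * M) R' (ζ) := by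
    rw [r0, show ζ + 4 * M = ζ + M * 4 by ring]
    have T0' := T0; rw [show ζ + M * 0 = ζ by ring] at T0'
    exact g2_mono (by norm_num) (by norm_num) (by norm_num) (by norm_num) T0' T4
  have u1 : g2 16 10 10 (b0 || b1) (b3 || b4) ≤ G (tabC K M) K (4 * M) R' (ζ + M * 1) := by
    rw [r1, show ζ + M * 1 + 4 * M = ζ + M * 5 by ring]
    exact g2_mono (by norm_num) (by norm_num) (by norm_num) (by norm_num) T1 T5
  have u2 : g2 16 10 10 (b1) (b4 || b5) ≤ G (tabC K M) K (4 * M) R' (ζ + M * 2) := by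
    rw [r2, show ζ + M * 2 + 4 * M = ζ + M * 6 by ring]
    exact g2_mono (by norm_num) (by norm_num) (by norm_num) (by norm_num) T2 T6
  have u3 : g2 16 13 10 (b2) (b5) ≤ G (tabC K M) K (4 * M) R' (ζ + M * 3) := by
    rw [r3, show ζ + M * 3 + 4 * M = ζ + M * 7 by ring]
    exact g2_mono (by norm_num) (by norm_num) (by norm_num) (by norm_num) T3 T7
  have key : ∀ b0 b1 b2 b3 b4 b5 : Bool, KeyIneq 6 8 5 16 (g2 16 10 13 b0 b1) (g2 16 10 10 b2 b3) (g2 16 10 13 b4 b5)
      (g2 16 10 13 (b0) (b2 || b3) + g2 16 10 10 (b0 || b1) (b3 || b4) + g2 16 10 10 (b1) (b4 || b5) + g2 16 13 10 (b2) (b5)) := by decide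
  have key := key b0 b1 b2 b3 b4 b5
  unfold KeyIneq at key
  refine ⟨by linarith [key.1], fun h h' => ?_⟩
  have := key.2 h h'
  linarith

/-- lifts (0, 1) (2, 3) (5, 6), 8 target lifts -/
lemma wc_leaf12 {K M ζ em e0 e1 : ℤ} {R R' : ℤ → Prop} (hM : 0 < M) (hs : StepRel K M R R')
    (hem : em = 0 ∨ em = 1) (he0 : e0 = 0 ∨ e0 = 1) (he1 : e1 = 0 ∨ e1 = 1)
    (hx1 : -K ≤ 3 * ζ) (hx2 : 3 * (ζ - M) < -K)
    (am1 : -K ≤ 3 * (4 * ζ + K + em))
    (am2 : 3 * (4 * ζ + K + em - 4 * M) < -K)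
    (az1 : -K ≤ 3 * (4 * ζ + e0 + 4 * M * 2))
    (az2 : 3 * (4 * ζ + e0 + 4 * M * 2 - 4 * M) < -K)
    (ap1 : -K ≤ 3 * (4 * ζ - K + e1 + 4 * M * 5))
    (ap2 : 3 * (4 * ζ - K + e1 + 4 * M * 5 - 4 * M) < -K)
    (cm0 : 3 * (4 * ζ + K + em + 4 * M) ≤ K + 4 * M - 1)
    (cm1 : -K ≤ 3 * (4 * ζ + K + em - 3 * M))
    (cz0 : 3 * (4 * ζ + e0 + 4 * M * 2 + 4 * M) ≤ K + 4 * M - 1)
    (cz1 : ¬ -K ≤ 3 * (4 * ζ + e0 + 4 * M * 2 - 3 * M))
    (cz2 : ¬ 3 * (4 * ζ + e0 + 4 * M * 2 + 7 * M) ≤ K + 4 * M - 1)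
    (cp0 : 3 * (4 * ζ - K + e1 + 4 * M * 5 + 4 * M) ≤ K + 4 * M - 1)
    (cp1 : -K ≤ 3 * (4 * ζ - K + e1 + 4 * M * 5 - 3 * M))
    (t00 : 3 * (ζ + 4 * M) ≤ K + 4 * M - 1)
    (t01 : ¬ -K ≤ 3 * (ζ - 3 * M))
    (t02 : 3 * (ζ + 7 * M) ≤ K + 4 * M - 1)
    (t10 : 3 * (ζ + M * 1 + 4 * M) ≤ K + 4 * M - 1)
    (t11 : ¬ -K ≤ 3 * (ζ + M * 1 - 3 * M))
    (t12 : ¬ 3 * (ζ + M * 1 + 7 * M) ≤ K + 4 * M - 1)
    (t20 : 3 * (ζ + M * 2 + 4 * M) ≤ K + 4 * M - 1)
    (t21 : ¬ -K ≤ 3 * (ζ + M * 2 - 3 * M))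
    (t22 : ¬ 3 * (ζ + M * 2 + 7 * M) ≤ K + 4 * M - 1)
    (t30 : 3 * (ζ + M * 3 + 4 * M) ≤ K + 4 * M - 1)
    (t31 : -K ≤ 3 * (ζ + M * 3 - 3 * M)) :
    Ineq 6 8 5 16 (tabC K M) K M R R' ζ em e0 e1 := by
  classical
  have hN : 0 < 4 * M := by linarith
  have qm := G_eq (tab := tabC K M) (K := K) (N := 4 * M) (R := R) (z := 4 * ζ + K + em) (w := 4 * ζ + K + em) hN (by linarith) (by linarith)
    ⟨0, by ring⟩
  have qz := G_eq (tab := tabC K M) (K := K) (N := 4 * M) (R := R) (z := 4 * ζ + e0) (w := 4 * ζ + e0 + 4 * M * 2) hN (by linarith) (by linarith)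
    ⟨2, by ring⟩
  have qp := G_eq (tab := tabC K M) (K := K) (N := 4 * M) (R := R) (z := 4 * ζ - K + e1) (w := 4 * ζ - K + e1 + 4 * M * 5) hN (by linarith) (by linarith)
    ⟨5, by ring⟩
  have r0 := G_eq (tab := tabC K M) (K := K) (N := 4 * M) (R := R') (z := ζ) (w := ζ) hN (by linarith) (by linarith)
    ⟨0, by ring⟩
  have r1 := G_eq (tab := tabC K M) (K := K) (N := 4 * M) (R := R') (z := ζ + M * 1) (w := ζ + M * 1) hN (by linarith) (by linarith)
    ⟨0, by ring⟩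
  have r2 := G_eq (tab := tabC K M) (K := K) (N := 4 * M) (R := R') (z := ζ + M * 2) (w := ζ + M * 2) hN (by linarith) (by linarith)
    ⟨0, by ring⟩
  have r3 := G_eq (tab := tabC K M) (K := K) (N := 4 * M) (R := R') (z := ζ + M * 3) (w := ζ + M * 3) hN (by linarith) (by linarith)
    ⟨0, by ring⟩
  rw [tabC, if_pos cm0, if_pos cm1] at qm
  rw [tabC, if_pos cz0, if_neg cz1, if_neg cz2] at qz
  rw [tabC, if_pos cp0, if_pos cp1] at qp
  rw [tabC, if_pos t00, if_neg t01, if_pos t02] at r0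
  rw [tabC, if_pos t10, if_neg t11, if_neg t12] at r1
  rw [tabC, if_pos t20, if_neg t21, if_neg t22] at r2
  rw [tabC, if_pos t30, if_pos t31] at r3
  have Em0 : ∀ n : ℤ, (n = 0 ∨ n = 0 + 1) → decide (R (4 * ζ + K + em)) = true → decide (R' (ζ + M * n)) = true := by
    intro n hn h
    have h := of_decide_eq_true h
    rcases hn with rfl | rfl
    · exact decide_eq_true (hs.d0 (a := -1) (e := em) (m := 0) (by simp) (by assumption) (by ring) h rfl)
    · exact decide_eq_true (hs.d1 (a := -1) (e := em) (m := 0) (by simp) (by assumption) (by ring) h rfl)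
  have Em1 : ∀ n : ℤ, (n = 1 ∨ n = 1 + 1) → decide (R (4 * ζ + K + em + 4 * M)) = true → decide (R' (ζ + M * n)) = true := by
    intro n hn h
    have h := of_decide_eq_true h
    rcases hn with rfl | rfl
    · exact decide_eq_true (hs.d0 (a := -1) (e := em) (m := 1) (by simp) (by assumption) (by ring) h rfl)
    · exact decide_eq_true (hs.d1 (a := -1) (e := em) (m := 1) (by simp) (by assumption) (by ring) h rfl)
  have Ez2 : ∀ n : ℤ, (n = 2 ∨ n = 2 + 1) → decide (R (4 * ζ + e0 + 4 * M * 2)) = true → decide (R' (ζ + M * n)) = true := by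
    intro n hn h
    have h := of_decide_eq_true h
    rcases hn with rfl | rfl
    · exact decide_eq_true (hs.d0 (a := 0) (e := e0) (m := 2) (by simp) (by assumption) (by ring) h rfl)
    · exact decide_eq_true (hs.d1 (a := 0) (e := e0) (m := 2) (by simp) (by assumption) (by ring) h rfl)
  have Ez3 : ∀ n : ℤ, (n = 3 ∨ n = 3 + 1) → decide (R (4 * ζ + e0 + 4 * M * 2 + 4 * M)) = true → decide (R' (ζ + M * n)) = true := by
    intro n hn h
    have h := of_decide_eq_true h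
    rcases hn with rfl | rfl
    · exact decide_eq_true (hs.d0 (a := 0) (e := e0) (m := 3) (by simp) (by assumption) (by ring) h rfl)
    · exact decide_eq_true (hs.d1 (a := 0) (e := e0) (m := 3) (by simp) (by assumption) (by ring) h rfl)
  have Ep5 : ∀ n : ℤ, (n = 5 ∨ n = 5 + 1) → decide (R (4 * ζ - K + e1 + 4 * M * 5)) = true → decide (R' (ζ + M * n)) = true := by
    intro n hn h
    have h := of_decide_eq_true h
    rcases hn with rfl | rfl
    · exact decide_eq_true (hs.d0 (a := 1) (e := e1) (m := 5) (by simp) (by assumption) (by ring) h rfl)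
    · exact decide_eq_true (hs.d1 (a := 1) (e := e1) (m := 5) (by simp) (by assumption) (by ring) h rfl)
  have Ep6 : ∀ n : ℤ, (n = 6 ∨ n = 6 + 1) → decide (R (4 * ζ - K + e1 + 4 * M * 5 + 4 * M)) = true → decide (R' (ζ + M * n)) = true := by
    intro n hn h
    have h := of_decide_eq_true h
    rcases hn with rfl | rfl
    · exact decide_eq_true (hs.d0 (a := 1) (e := e1) (m := 6) (by simp) (by assumption) (by ring) h rfl)
    · exact decide_eq_true (hs.d1 (a := 1) (e := e1) (m := 6) (by simp) (by assumption) (by ring) h rfl)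
  unfold Ineq
  rw [qm, qz, qp]
  generalize decide (R (4 * ζ + K + em)) = b0 at Em0 ⊢
  generalize decide (R (4 * ζ + K + em + 4 * M)) = b1 at Em1 ⊢
  generalize decide (R (4 * ζ + e0 + 4 * M * 2)) = b2 at Ez2 ⊢
  generalize decide (R (4 * ζ + e0 + 4 * M * 2 + 4 * M)) = b3 at Ez3 ⊢
  generalize decide (R (4 * ζ - K + e1 + 4 * M * 5)) = b4 at Ep5 ⊢
  generalize decide (R (4 * ζ - K + e1 + 4 * M * 5 + 4 * M)) = b5 at Ep6 ⊢
  have T0 : (b0) = true → decide (R' (ζ + M * 0)) = true := by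
    intro h
    exact Em0 0 (by norm_num) h
  have T1 : (b0 || b1) = true → decide (R' (ζ + M * 1)) = true := by
    intro h
    simp only [Bool.or_eq_true] at h
    rcases h with (h | h)
    · exact Em0 1 (by norm_num) h
    · exact Em1 1 (by norm_num) h
  have T2 : (b1 || b2) = true → decide (R' (ζ + M * 2)) = true := by
    intro h
    simp only [Bool.or_eq_true] at h
    rcases h with (h | h)
    · exact Em1 2 (by norm_num) h
    · exact Ez2 2 (by norm_num) h
  have T3 : (b2 || b3) = true → decide (R' (ζ + M * 3)) = true := by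
    intro h
    simp only [Bool.or_eq_true] at h
    rcases h with (h | h)
    · exact Ez2 3 (by norm_num) h
    · exact Ez3 3 (by norm_num) h
  have T4 : (b3) = true → decide (R' (ζ + M * 4)) = true := by
    intro h
    exact Ez3 4 (by norm_num) h
  have T5 : (b4) = true → decide (R' (ζ + M * 5)) = true := by
    intro h
    exact Ep5 5 (by norm_num) h
  have T6 : (b4 || b5) = true → decide (R' (ζ + M * 6)) = true := by
    intro h
    simp only [Bool.or_eq_true] at h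
    rcases h with (h | h)
    · exact Ep5 6 (by norm_num) h
    · exact Ep6 6 (by norm_num) h
  have T7 : (b5) = true → decide (R' (ζ + M * 7)) = true := by
    intro h
    exact Ep6 7 (by norm_num) h
  have u0 : g2 16 10 13 (b0) (b3) ≤ G (tabC K M) K (4 * M) R' (ζ) := by
    rw [r0, show ζ + 4 * M = ζ + M * 4 by ring]
    have T0' := T0; rw [show ζ + M * 0 = ζ by ring] at T0'
    exact g2_mono (by norm_num) (by norm_num) (by norm_num) (by norm_num) T0' T4
  have u1 : g2 16 10 10 (b0 || b1) (b4) ≤ G (tabC K M) K (4 * M) R' (ζ + M * 1) := by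
    rw [r1, show ζ + M * 1 + 4 * M = ζ + M * 5 by ring]
    exact g2_mono (by norm_num) (by norm_num) (by norm_num) (by norm_num) T1 T5
  have u2 : g2 16 10 10 (b1 || b2) (b4 || b5) ≤ G (tabC K M) K (4 * M) R' (ζ + M * 2) := by
    rw [r2, show ζ + M * 2 + 4 * M = ζ + M * 6 by ring]
    exact g2_mono (by norm_num) (by norm_num) (by norm_num) (by norm_num) T2 T6
  have u3 : g2 16 13 10 (b2 || b3) (b5) ≤ G (tabC K M) K (4 * M) R' (ζ + M * 3) := by
    rw [r3, show ζ + M * 3 + 4 * M = ζ + M * 7 by ring]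
    exact g2_mono (by norm_num) (by norm_num) (by norm_num) (by norm_num) T3 T7
  have key : ∀ b0 b1 b2 b3 b4 b5 : Bool, KeyIneq 6 8 5 16 (g2 16 13 10 b0 b1) (g2 16 10 10 b2 b3) (g2 16 13 10 b4 b5)
      (g2 16 10 13 (b0) (b3) + g2 16 10 10 (b0 || b1) (b4) + g2 16 10 10 (b1 || b2) (b4 || b5) + g2 16 13 10 (b2 || b3) (b5)) := by decide
  have key := key b0 b1 b2 b3 b4 b5
  unfold KeyIneq at key
  refine ⟨by linarith [key.1], fun h h' => ?_⟩
  have := key.2 h h'
  linarith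

/-- lifts (0, 1) (3,) (5, 6), 8 target lifts -/
lemma wc_leaf13 {K M ζ em e0 e1 : ℤ} {R R' : ℤ → Prop} (hM : 0 < M) (hs : StepRel K M R R')
    (hem : em = 0 ∨ em = 1) (he0 : e0 = 0 ∨ e0 = 1) (he1 : e1 = 0 ∨ e1 = 1)
    (hx1 : -K ≤ 3 * ζ) (hx2 : 3 * (ζ - M) < -K)
    (am1 : -K ≤ 3 * (4 * ζ + K + em))
    (am2 : 3 * (4 * ζ + K + em - 4 * M) < -K)
    (az1 : -K ≤ 3 * (4 * ζ + e0 + 4 * M * 3))
    (az2 : 3 * (4 * ζ + e0 + 4 * M * 3 - 4 * M) < -K)
    (ap1 : -K ≤ 3 * (4 * ζ - K + e1 + 4 * M * 5))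
    (ap2 : 3 * (4 * ζ - K + e1 + 4 * M * 5 - 4 * M) < -K)
    (cm0 : 3 * (4 * ζ + K + em + 4 * M) ≤ K + 4 * M - 1)
    (cm1 : ¬ -K ≤ 3 * (4 * ζ + K + em - 3 * M))
    (cm2 : 3 * (4 * ζ + K + em + 7 * M) ≤ K + 4 * M - 1)
    (cz0 : ¬ 3 * (4 * ζ + e0 + 4 * M * 3 + 4 * M) ≤ K + 4 * M - 1)
    (cp0 : 3 * (4 * ζ - K + e1 + 4 * M * 5 + 4 * M) ≤ K + 4 * M - 1)
    (cp1 : ¬ -K ≤ 3 * (4 * ζ - K + e1 + 4 * M * 5 - 3 * M))
    (cp2 : ¬ 3 * (4 * ζ - K + e1 + 4 * M * 5 + 7 * M) ≤ K + 4 * M - 1)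
    (t00 : 3 * (ζ + 4 * M) ≤ K + 4 * M - 1)
    (t01 : ¬ -K ≤ 3 * (ζ - 3 * M))
    (t02 : 3 * (ζ + 7 * M) ≤ K + 4 * M - 1)
    (t10 : 3 * (ζ + M * 1 + 4 * M) ≤ K + 4 * M - 1)
    (t11 : ¬ -K ≤ 3 * (ζ + M * 1 - 3 * M))
    (t12 : ¬ 3 * (ζ + M * 1 + 7 * M) ≤ K + 4 * M - 1)
    (t20 : 3 * (ζ + M * 2 + 4 * M) ≤ K + 4 * M - 1)
    (t21 : ¬ -K ≤ 3 * (ζ + M * 2 - 3 * M))
    (t22 : ¬ 3 * (ζ + M * 2 + 7 * M) ≤ K + 4 * M - 1)
    (t30 : 3 * (ζ + M * 3 + 4 * M) ≤ K + 4 * M - 1)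
    (t31 : -K ≤ 3 * (ζ + M * 3 - 3 * M)) :
    Ineq 6 8 5 16 (tabC K M) K M R R' ζ em e0 e1 := by
  classical
  have hN : 0 < 4 * M := by linarith
  have qm := G_eq (tab := tabC K M) (K := K) (N := 4 * M) (R := R) (z := 4 * ζ + K + em) (w := 4 * ζ + K + em) hN (by linarith) (by linarith)
    ⟨0, by ring⟩
  have qz := G_eq (tab := tabC K M) (K := K) (N := 4 * M) (R := R) (z := 4 * ζ + e0) (w := 4 * ζ + e0 + 4 * M * 3) hN (by linarith) (by linarith)
    ⟨3, by ring⟩
  have qp := G_eq (tab := tabC K M) (K := K) (N := 4 * M) (R := R) (z := 4 * ζ - K + e1) (w := 4 * ζ - K + e1 + 4 * M * 5) hN (by linarith) (by linarith)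
    ⟨5, by ring⟩
  have r0 := G_eq (tab := tabC K M) (K := K) (N := 4 * M) (R := R') (z := ζ) (w := ζ) hN (by linarith) (by linarith)
    ⟨0, by ring⟩
  have r1 := G_eq (tab := tabC K M) (K := K) (N := 4 * M) (R := R') (z := ζ + M * 1) (w := ζ + M * 1) hN (by linarith) (by linarith)
    ⟨0, by ring⟩
  have r2 := G_eq (tab := tabC K M) (K := K) (N := 4 * M) (R := R') (z := ζ + M * 2) (w := ζ + M * 2) hN (by linarith) (by linarith)
    ⟨0, by ring⟩
  have r3 := G_eq (tab := tabC K M) (K := K) (N := 4 * M) (R := R') (z := ζ + M * 3) (w := ζ + M * 3) hN (by linarith) (by linarith)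
    ⟨0, by ring⟩
  rw [tabC, if_pos cm0, if_neg cm1, if_pos cm2] at qm
  rw [tabC, if_neg cz0] at qz
  rw [tabC, if_pos cp0, if_neg cp1, if_neg cp2] at qp
  rw [tabC, if_pos t00, if_neg t01, if_pos t02] at r0
  rw [tabC, if_pos t10, if_neg t11, if_neg t12] at r1
  rw [tabC, if_pos t20, if_neg t21, if_neg t22] at r2
  rw [tabC, if_pos t30, if_pos t31] at r3
  have Em0 : ∀ n : ℤ, (n = 0 ∨ n = 0 + 1) → decide (R (4 * ζ + K + em)) = true → decide (R' (ζ + M * n)) = true := by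
    intro n hn h
    have h := of_decide_eq_true h
    rcases hn with rfl | rfl
    · exact decide_eq_true (hs.d0 (a := -1) (e := em) (m := 0) (by simp) (by assumption) (by ring) h rfl)
    · exact decide_eq_true (hs.d1 (a := -1) (e := em) (m := 0) (by simp) (by assumption) (by ring) h rfl)
  have Em1 : ∀ n : ℤ, (n = 1 ∨ n = 1 + 1) → decide (R (4 * ζ + K + em + 4 * M)) = true → decide (R' (ζ + M * n)) = true := by
    intro n hn h
    have h := of_decide_eq_true h
    rcases hn with rfl | rfl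
    · exact decide_eq_true (hs.d0 (a := -1) (e := em) (m := 1) (by simp) (by assumption) (by ring) h rfl)
    · exact decide_eq_true (hs.d1 (a := -1) (e := em) (m := 1) (by simp) (by assumption) (by ring) h rfl)
  have Ez3 : ∀ n : ℤ, (n = 3 ∨ n = 3 + 1) → decide (R (4 * ζ + e0 + 4 * M * 3)) = true → decide (R' (ζ + M * n)) = true := by
    intro n hn h
    have h := of_decide_eq_true h
    rcases hn with rfl | rfl
    · exact decide_eq_true (hs.d0 (a := 0) (e := e0) (m := 3) (by simp) (by assumption) (by ring) h rfl)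
    · exact decide_eq_true (hs.d1 (a := 0) (e := e0) (m := 3) (by simp) (by assumption) (by ring) h rfl)
  have Ep5 : ∀ n : ℤ, (n = 5 ∨ n = 5 + 1) → decide (R (4 * ζ - K + e1 + 4 * M * 5)) = true → decide (R' (ζ + M * n)) = true := by
    intro n hn h
    have h := of_decide_eq_true h
    rcases hn with rfl | rfl
    · exact decide_eq_true (hs.d0 (a := 1) (e := e1) (m := 5) (by simp) (by assumption) (by ring) h rfl)
    · exact decide_eq_true (hs.d1 (a := 1) (e := e1) (m := 5) (by simp) (by assumption) (by ring) h rfl)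
  have Ep6 : ∀ n : ℤ, (n = 6 ∨ n = 6 + 1) → decide (R (4 * ζ - K + e1 + 4 * M * 5 + 4 * M)) = true → decide (R' (ζ + M * n)) = true := by
    intro n hn h
    have h := of_decide_eq_true h
    rcases hn with rfl | rfl
    · exact decide_eq_true (hs.d0 (a := 1) (e := e1) (m := 6) (by simp) (by assumption) (by ring) h rfl)
    · exact decide_eq_true (hs.d1 (a := 1) (e := e1) (m := 6) (by simp) (by assumption) (by ring) h rfl)
  unfold Ineq
  rw [qm, qz, qp]
  generalize decide (R (4 * ζ + K + em)) = b0 at Em0 ⊢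
  generalize decide (R (4 * ζ + K + em + 4 * M)) = b1 at Em1 ⊢
  generalize decide (R (4 * ζ + e0 + 4 * M * 3)) = b2 at Ez3 ⊢
  generalize decide (R (4 * ζ - K + e1 + 4 * M * 5)) = b3 at Ep5 ⊢
  generalize decide (R (4 * ζ - K + e1 + 4 * M * 5 + 4 * M)) = b4 at Ep6 ⊢
  have T0 : (b0) = true → decide (R' (ζ + M * 0)) = true := by
    intro h
    exact Em0 0 (by norm_num) h
  have T1 : (b0 || b1) = true → decide (R' (ζ + M * 1)) = true := by
    intro h
    simp only [Bool.or_eq_true] at h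
    rcases h with (h | h)
    · exact Em0 1 (by norm_num) h
    · exact Em1 1 (by norm_num) h
  have T2 : (b1) = true → decide (R' (ζ + M * 2)) = true := by
    intro h
    exact Em1 2 (by norm_num) h
  have T3 : (b2) = true → decide (R' (ζ + M * 3)) = true := by
    intro h
    exact Ez3 3 (by norm_num) h
  have T4 : (b2) = true → decide (R' (ζ + M * 4)) = true := by
    intro h
    exact Ez3 4 (by norm_num) h
  have T5 : (b3) = true → decide (R' (ζ + M * 5)) = true := by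
    intro h
    exact Ep5 5 (by norm_num) h
  have T6 : (b3 || b4) = true → decide (R' (ζ + M * 6)) = true := by
    intro h
    simp only [Bool.or_eq_true] at h
    rcases h with (h | h)
    · exact Ep5 6 (by norm_num) h
    · exact Ep6 6 (by norm_num) h
  have T7 : (b4) = true → decide (R' (ζ + M * 7)) = true := by
    intro h
    exact Ep6 7 (by norm_num) h
  have u0 : g2 16 10 13 (b0) (b2) ≤ G (tabC K M) K (4 * M) R' (ζ) := by
    rw [r0, show ζ + 4 * M = ζ + M * 4 by ring]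
    have T0' := T0; rw [show ζ + M * 0 = ζ by ring] at T0'
    exact g2_mono (by norm_num) (by norm_num) (by norm_num) (by norm_num) T0' T4
  have u1 : g2 16 10 10 (b0 || b1) (b3) ≤ G (tabC K M) K (4 * M) R' (ζ + M * 1) := by
    rw [r1, show ζ + M * 1 + 4 * M = ζ + M * 5 by ring]
    exact g2_mono (by norm_num) (by norm_num) (by norm_num) (by norm_num) T1 T5
  have u2 : g2 16 10 10 (b1) (b3 || b4) ≤ G (tabC K M) K (4 * M) R' (ζ + M * 2) := by
    rw [r2, show ζ + M * 2 + 4 * M = ζ + M * 6 by ring]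
    exact g2_mono (by norm_num) (by norm_num) (by norm_num) (by norm_num) T2 T6
  have u3 : g2 16 13 10 (b2) (b4) ≤ G (tabC K M) K (4 * M) R' (ζ + M * 3) := by
    rw [r3, show ζ + M * 3 + 4 * M = ζ + M * 7 by ring]
    exact g2_mono (by norm_num) (by norm_num) (by norm_num) (by norm_num) T3 T7
  have key : ∀ b0 b1 b2 b3 b4 : Bool, KeyIneq 6 8 5 16 (g2 16 10 13 b0 b1) (g1 16 b2) (g2 16 10 10 b3 b4)
      (g2 16 10 13 (b0) (b2) + g2 16 10 10 (b0 || b1) (b3) + g2 16 10 10 (b1) (b3 || b4) + g2 16 13 10 (b2) (b4)) := by decide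
  have key := key b0 b1 b2 b3 b4
  unfold KeyIneq at key
  refine ⟨by linarith [key.1], fun h h' => ?_⟩
  have := key.2 h h'
  linarith

/-- lifts (0, 1) (3,) (5, 6), 8 target lifts -/
lemma wc_leaf14 {K M ζ em e0 e1 : ℤ} {R R' : ℤ → Prop} (hM : 0 < M) (hs : StepRel K M R R')
    (hem : em = 0 ∨ em = 1) (he0 : e0 = 0 ∨ e0 = 1) (he1 : e1 = 0 ∨ e1 = 1)
    (hx1 : -K ≤ 3 * ζ) (hx2 : 3 * (ζ - M) < -K)
    (am1 : -K ≤ 3 * (4 * ζ + K + em))
    (am2 : 3 * (4 * ζ + K + em - 4 * M) < -K)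
    (az1 : -K ≤ 3 * (4 * ζ + e0 + 4 * M * 3))
    (az2 : 3 * (4 * ζ + e0 + 4 * M * 3 - 4 * M) < -K)
    (ap1 : -K ≤ 3 * (4 * ζ - K + e1 + 4 * M * 5))
    (ap2 : 3 * (4 * ζ - K + e1 + 4 * M * 5 - 4 * M) < -K)
    (cm0 : 3 * (4 * ζ + K + em + 4 * M) ≤ K + 4 * M - 1)
    (cm1 : ¬ -K ≤ 3 * (4 * ζ + K + em - 3 * M))
    (cm2 : 3 * (4 * ζ + K + em + 7 * M) ≤ K + 4 * M - 1)
    (cz0 : ¬ 3 * (4 * ζ + e0 + 4 * M * 3 + 4 * M) ≤ K + 4 * M - 1)
    (cp0 : 3 * (4 * ζ - K + e1 + 4 * M * 5 + 4 * M) ≤ K + 4 * M - 1)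
    (cp1 : -K ≤ 3 * (4 * ζ - K + e1 + 4 * M * 5 - 3 * M))
    (t00 : 3 * (ζ + 4 * M) ≤ K + 4 * M - 1)
    (t01 : ¬ -K ≤ 3 * (ζ - 3 * M))
    (t02 : 3 * (ζ + 7 * M) ≤ K + 4 * M - 1)
    (t10 : 3 * (ζ + M * 1 + 4 * M) ≤ K + 4 * M - 1)
    (t11 : ¬ -K ≤ 3 * (ζ + M * 1 - 3 * M))
    (t12 : ¬ 3 * (ζ + M * 1 + 7 * M) ≤ K + 4 * M - 1)
    (t20 : 3 * (ζ + M * 2 + 4 * M) ≤ K + 4 * M - 1)
    (t21 : ¬ -K ≤ 3 * (ζ + M * 2 - 3 * M))
    (t22 : ¬ 3 * (ζ + M * 2 + 7 * M) ≤ K + 4 * M - 1)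
    (t30 : 3 * (ζ + M * 3 + 4 * M) ≤ K + 4 * M - 1)
    (t31 : -K ≤ 3 * (ζ + M * 3 - 3 * M)) :
    Ineq 6 8 5 16 (tabC K M) K M R R' ζ em e0 e1 := by
  classical
  have hN : 0 < 4 * M := by linarith
  have qm := G_eq (tab := tabC K M) (K := K) (N := 4 * M) (R := R) (z := 4 * ζ + K + em) (w := 4 * ζ + K + em) hN (by linarith) (by linarith)
    ⟨0, by ring⟩
  have qz := G_eq (tab := tabC K M) (K := K) (N := 4 * M) (R := R) (z := 4 * ζ + e0) (w := 4 * ζ + e0 + 4 * M * 3) hN (by linarith) (by linarith)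
    ⟨3, by ring⟩
  have qp := G_eq (tab := tabC K M) (K := K) (N := 4 * M) (R := R) (z := 4 * ζ - K + e1) (w := 4 * ζ - K + e1 + 4 * M * 5) hN (by linarith) (by linarith)
    ⟨5, by ring⟩
  have r0 := G_eq (tab := tabC K M) (K := K) (N := 4 * M) (R := R') (z := ζ) (w := ζ) hN (by linarith) (by linarith)
    ⟨0, by ring⟩
  have r1 := G_eq (tab := tabC K M) (K := K) (N := 4 * M) (R := R') (z := ζ + M * 1) (w := ζ + M * 1) hN (by linarith) (by linarith)
    ⟨0, by ring⟩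
  have r2 := G_eq (tab := tabC K M) (K := K) (N := 4 * M) (R := R') (z := ζ + M * 2) (w := ζ + M * 2) hN (by linarith) (by linarith)
    ⟨0, by ring⟩
  have r3 := G_eq (tab := tabC K M) (K := K) (N := 4 * M) (R := R') (z := ζ + M * 3) (w := ζ + M * 3) hN (by linarith) (by linarith)
    ⟨0, by ring⟩
  rw [tabC, if_pos cm0, if_neg cm1, if_pos cm2] at qm
  rw [tabC, if_neg cz0] at qz
  rw [tabC, if_pos cp0, if_pos cp1] at qp
  rw [tabC, if_pos t00, if_neg t01, if_pos t02] at r0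
  rw [tabC, if_pos t10, if_neg t11, if_neg t12] at r1
  rw [tabC, if_pos t20, if_neg t21, if_neg t22] at r2
  rw [tabC, if_pos t30, if_pos t31] at r3
  have Em0 : ∀ n : ℤ, (n = 0 ∨ n = 0 + 1) → decide (R (4 * ζ + K + em)) = true → decide (R' (ζ + M * n)) = true := by
    intro n hn h
    have h := of_decide_eq_true h
    rcases hn with rfl | rfl
    · exact decide_eq_true (hs.d0 (a := -1) (e := em) (m := 0) (by simp) (by assumption) (by ring) h rfl)
    · exact decide_eq_true (hs.d1 (a := -1) (e := em) (m := 0) (by simp) (by assumption) (by ring) h rfl)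
  have Em1 : ∀ n : ℤ, (n = 1 ∨ n = 1 + 1) → decide (R (4 * ζ + K + em + 4 * M)) = true → decide (R' (ζ + M * n)) = true := by
    intro n hn h
    have h := of_decide_eq_true h
    rcases hn with rfl | rfl
    · exact decide_eq_true (hs.d0 (a := -1) (e := em) (m := 1) (by simp) (by assumption) (by ring) h rfl)
    · exact decide_eq_true (hs.d1 (a := -1) (e := em) (m := 1) (by simp) (by assumption) (by ring) h rfl)
  have Ez3 : ∀ n : ℤ, (n = 3 ∨ n = 3 + 1) → decide (R (4 * ζ + e0 + 4 * M * 3)) = true → decide (R' (ζ + M * n)) = true := by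
    intro n hn h
    have h := of_decide_eq_true h
    rcases hn with rfl | rfl
    · exact decide_eq_true (hs.d0 (a := 0) (e := e0) (m := 3) (by simp) (by assumption) (by ring) h rfl)
    · exact decide_eq_true (hs.d1 (a := 0) (e := e0) (m := 3) (by simp) (by assumption) (by ring) h rfl)
  have Ep5 : ∀ n : ℤ, (n = 5 ∨ n = 5 + 1) → decide (R (4 * ζ - K + e1 + 4 * M * 5)) = true → decide (R' (ζ + M * n)) = true := by
    intro n hn h
    have h := of_decide_eq_true h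
    rcases hn with rfl | rfl
    · exact decide_eq_true (hs.d0 (a := 1) (e := e1) (m := 5) (by simp) (by assumption) (by ring) h rfl)
    · exact decide_eq_true (hs.d1 (a := 1) (e := e1) (m := 5) (by simp) (by assumption) (by ring) h rfl)
  have Ep6 : ∀ n : ℤ, (n = 6 ∨ n = 6 + 1) → decide (R (4 * ζ - K + e1 + 4 * M * 5 + 4 * M)) = true → decide (R' (ζ + M * n)) = true := by
    intro n hn h
    have h := of_decide_eq_true h
    rcases hn with rfl | rfl
    · exact decide_eq_true (hs.d0 (a := 1) (e := e1) (m := 6) (by simp) (by assumption) (by ring) h rfl)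
    · exact decide_eq_true (hs.d1 (a := 1) (e := e1) (m := 6) (by simp) (by assumption) (by ring) h rfl)
  unfold Ineq
  rw [qm, qz, qp]
  generalize decide (R (4 * ζ + K + em)) = b0 at Em0 ⊢
  generalize decide (R (4 * ζ + K + em + 4 * M)) = b1 at Em1 ⊢
  generalize decide (R (4 * ζ + e0 + 4 * M * 3)) = b2 at Ez3 ⊢
  generalize decide (R (4 * ζ - K + e1 + 4 * M * 5)) = b3 at Ep5 ⊢
  generalize decide (R (4 * ζ - K + e1 + 4 * M * 5 + 4 * M)) = b4 at Ep6 ⊢
  have T0 : (b0) = true → decide (R' (ζ + M * 0)) = true := by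
    intro h
    exact Em0 0 (by norm_num) h
  have T1 : (b0 || b1) = true → decide (R' (ζ + M * 1)) = true := by
    intro h
    simp only [Bool.or_eq_true] at h
    rcases h with (h | h)
    · exact Em0 1 (by norm_num) h
    · exact Em1 1 (by norm_num) h
  have T2 : (b1) = true → decide (R' (ζ + M * 2)) = true := by
    intro h
    exact Em1 2 (by norm_num) h
  have T3 : (b2) = true → decide (R' (ζ + M * 3)) = true := by
    intro h
    exact Ez3 3 (by norm_num) h
  have T4 : (b2) = true → decide (R' (ζ + M * 4)) = true := by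
    intro h
    exact Ez3 4 (by norm_num) h
  have T5 : (b3) = true → decide (R' (ζ + M * 5)) = true := by
    intro h
    exact Ep5 5 (by norm_num) h
  have T6 : (b3 || b4) = true → decide (R' (ζ + M * 6)) = true := by
    intro h
    simp only [Bool.or_eq_true] at h
    rcases h with (h | h)
    · exact Ep5 6 (by norm_num) h
    · exact Ep6 6 (by norm_num) h
  have T7 : (b4) = true → decide (R' (ζ + M * 7)) = true := by
    intro h
    exact Ep6 7 (by norm_num) h
  have u0 : g2 16 10 13 (b0) (b2) ≤ G (tabC K M) K (4 * M) R' (ζ) := by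
    rw [r0, show ζ + 4 * M = ζ + M * 4 by ring]
    have T0' := T0; rw [show ζ + M * 0 = ζ by ring] at T0'
    exact g2_mono (by norm_num) (by norm_num) (by norm_num) (by norm_num) T0' T4
  have u1 : g2 16 10 10 (b0 || b1) (b3) ≤ G (tabC K M) K (4 * M) R' (ζ + M * 1) := by
    rw [r1, show ζ + M * 1 + 4 * M = ζ + M * 5 by ring]
    exact g2_mono (by norm_num) (by norm_num) (by norm_num) (by norm_num) T1 T5
  have u2 : g2 16 10 10 (b1) (b3 || b4) ≤ G (tabC K M) K (4 * M) R' (ζ + M * 2) := by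
    rw [r2, show ζ + M * 2 + 4 * M = ζ + M * 6 by ring]
    exact g2_mono (by norm_num) (by norm_num) (by norm_num) (by norm_num) T2 T6
  have u3 : g2 16 13 10 (b2) (b4) ≤ G (tabC K M) K (4 * M) R' (ζ + M * 3) := by
    rw [r3, show ζ + M * 3 + 4 * M = ζ + M * 7 by ring]
    exact g2_mono (by norm_num) (by norm_num) (by norm_num) (by norm_num) T3 T7
  have key : ∀ b0 b1 b2 b3 b4 : Bool, KeyIneq 6 8 5 16 (g2 16 10 13 b0 b1) (g1 16 b2) (g2 16 13 10 b3 b4)
      (g2 16 10 13 (b0) (b2) + g2 16 10 10 (b0 || b1) (b3) + g2 16 10 10 (b1) (b3 || b4) + g2 16 13 10 (b2) (b4)) := by decide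
  have key := key b0 b1 b2 b3 b4
  unfold KeyIneq at key
  refine ⟨by linarith [key.1], fun h h' => ?_⟩
  have := key.2 h h'
  linarith

/-- lifts (0, 1) (3,) (5, 6), 8 target lifts -/
lemma wc_leaf15 {K M ζ em e0 e1 : ℤ} {R R' : ℤ → Prop} (hM : 0 < M) (hs : StepRel K M R R')
    (hem : em = 0 ∨ em = 1) (he0 : e0 = 0 ∨ e0 = 1) (he1 : e1 = 0 ∨ e1 = 1)
    (hx1 : -K ≤ 3 * ζ) (hx2 : 3 * (ζ - M) < -K)
    (am1 : -K ≤ 3 * (4 * ζ + K + em))
    (am2 : 3 * (4 * ζ + K + em - 4 * M) < -K)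
    (az1 : -K ≤ 3 * (4 * ζ + e0 + 4 * M * 3))
    (az2 : 3 * (4 * ζ + e0 + 4 * M * 3 - 4 * M) < -K)
    (ap1 : -K ≤ 3 * (4 * ζ - K + e1 + 4 * M * 5))
    (ap2 : 3 * (4 * ζ - K + e1 + 4 * M * 5 - 4 * M) < -K)
    (cm0 : 3 * (4 * ζ + K + em + 4 * M) ≤ K + 4 * M - 1)
    (cm1 : ¬ -K ≤ 3 * (4 * ζ + K + em - 3 * M))
    (cm2 : ¬ 3 * (4 * ζ + K + em + 7 * M) ≤ K + 4 * M - 1)
    (cz0 : ¬ 3 * (4 * ζ + e0 + 4 * M * 3 + 4 * M) ≤ K + 4 * M - 1)
    (cp0 : 3 * (4 * ζ - K + e1 + 4 * M * 5 + 4 * M) ≤ K + 4 * M - 1)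
    (cp1 : ¬ -K ≤ 3 * (4 * ζ - K + e1 + 4 * M * 5 - 3 * M))
    (cp2 : ¬ 3 * (4 * ζ - K + e1 + 4 * M * 5 + 7 * M) ≤ K + 4 * M - 1)
    (t00 : 3 * (ζ + 4 * M) ≤ K + 4 * M - 1)
    (t01 : ¬ -K ≤ 3 * (ζ - 3 * M))
    (t02 : 3 * (ζ + 7 * M) ≤ K + 4 * M - 1)
    (t10 : 3 * (ζ + M * 1 + 4 * M) ≤ K + 4 * M - 1)
    (t11 : ¬ -K ≤ 3 * (ζ + M * 1 - 3 * M))
    (t12 : ¬ 3 * (ζ + M * 1 + 7 * M) ≤ K + 4 * M - 1)
    (t20 : 3 * (ζ + M * 2 + 4 * M) ≤ K + 4 * M - 1)
    (t21 : ¬ -K ≤ 3 * (ζ + M * 2 - 3 * M))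
    (t22 : ¬ 3 * (ζ + M * 2 + 7 * M) ≤ K + 4 * M - 1)
    (t30 : 3 * (ζ + M * 3 + 4 * M) ≤ K + 4 * M - 1)
    (t31 : -K ≤ 3 * (ζ + M * 3 - 3 * M)) :
    Ineq 6 8 5 16 (tabC K M) K M R R' ζ em e0 e1 := by
  classical
  have hN : 0 < 4 * M := by linarith
  have qm := G_eq (tab := tabC K M) (K := K) (N := 4 * M) (R := R) (z := 4 * ζ + K + em) (w := 4 * ζ + K + em) hN (by linarith) (by linarith)
    ⟨0, by ring⟩
  have qz := G_eq (tab := tabC K M) (K := K) (N := 4 * M) (R := R) (z := 4 * ζ + e0) (w := 4 * ζ + e0 + 4 * M * 3) hN (by linarith) (by linarith)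
    ⟨3, by ring⟩
  have qp := G_eq (tab := tabC K M) (K := K) (N := 4 * M) (R := R) (z := 4 * ζ - K + e1) (w := 4 * ζ - K + e1 + 4 * M * 5) hN (by linarith) (by linarith)
    ⟨5, by ring⟩
  have r0 := G_eq (tab := tabC K M) (K := K) (N := 4 * M) (R := R') (z := ζ) (w := ζ) hN (by linarith) (by linarith)
    ⟨0, by ring⟩
  have r1 := G_eq (tab := tabC K M) (K := K) (N := 4 * M) (R := R') (z := ζ + M * 1) (w := ζ + M * 1) hN (by linarith) (by linarith)
    ⟨0, by ring⟩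
  have r2 := G_eq (tab := tabC K M) (K := K) (N := 4 * M) (R := R') (z := ζ + M * 2) (w := ζ + M * 2) hN (by linarith) (by linarith)
    ⟨0, by ring⟩
  have r3 := G_eq (tab := tabC K M) (K := K) (N := 4 * M) (R := R') (z := ζ + M * 3) (w := ζ + M * 3) hN (by linarith) (by linarith)
    ⟨0, by ring⟩
  rw [tabC, if_pos cm0, if_neg cm1, if_neg cm2] at qm
  rw [tabC, if_neg cz0] at qz
  rw [tabC, if_pos cp0, if_neg cp1, if_neg cp2] at qp
  rw [tabC, if_pos t00, if_neg t01, if_pos t02] at r0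
  rw [tabC, if_pos t10, if_neg t11, if_neg t12] at r1
  rw [tabC, if_pos t20, if_neg t21, if_neg t22] at r2
  rw [tabC, if_pos t30, if_pos t31] at r3
  have Em0 : ∀ n : ℤ, (n = 0 ∨ n = 0 + 1) → decide (R (4 * ζ + K + em)) = true → decide (R' (ζ + M * n)) = true := by
    intro n hn h
    have h := of_decide_eq_true h
    rcases hn with rfl | rfl
    · exact decide_eq_true (hs.d0 (a := -1) (e := em) (m := 0) (by simp) (by assumption) (by ring) h rfl)
    · exact decide_eq_true (hs.d1 (a := -1) (e := em) (m := 0) (by simp) (by assumption) (by ring) h rfl)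
  have Em1 : ∀ n : ℤ, (n = 1 ∨ n = 1 + 1) → decide (R (4 * ζ + K + em + 4 * M)) = true → decide (R' (ζ + M * n)) = true := by
    intro n hn h
    have h := of_decide_eq_true h
    rcases hn with rfl | rfl
    · exact decide_eq_true (hs.d0 (a := -1) (e := em) (m := 1) (by simp) (by assumption) (by ring) h rfl)
    · exact decide_eq_true (hs.d1 (a := -1) (e := em) (m := 1) (by simp) (by assumption) (by ring) h rfl)
  have Ez3 : ∀ n : ℤ, (n = 3 ∨ n = 3 + 1) → decide (R (4 * ζ + e0 + 4 * M * 3)) = true → decide (R' (ζ + M * n)) = true := by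
    intro n hn h
    have h := of_decide_eq_true h
    rcases hn with rfl | rfl
    · exact decide_eq_true (hs.d0 (a := 0) (e := e0) (m := 3) (by simp) (by assumption) (by ring) h rfl)
    · exact decide_eq_true (hs.d1 (a := 0) (e := e0) (m := 3) (by simp) (by assumption) (by ring) h rfl)
  have Ep5 : ∀ n : ℤ, (n = 5 ∨ n = 5 + 1) → decide (R (4 * ζ - K + e1 + 4 * M * 5)) = true → decide (R' (ζ + M * n)) = true := by
    intro n hn h
    have h := of_decide_eq_true h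
    rcases hn with rfl | rfl
    · exact decide_eq_true (hs.d0 (a := 1) (e := e1) (m := 5) (by simp) (by assumption) (by ring) h rfl)
    · exact decide_eq_true (hs.d1 (a := 1) (e := e1) (m := 5) (by simp) (by assumption) (by ring) h rfl)
  have Ep6 : ∀ n : ℤ, (n = 6 ∨ n = 6 + 1) → decide (R (4 * ζ - K + e1 + 4 * M * 5 + 4 * M)) = true → decide (R' (ζ + M * n)) = true := by
    intro n hn h
    have h := of_decide_eq_true h
    rcases hn with rfl | rfl
    · exact decide_eq_true (hs.d0 (a := 1) (e := e1) (m := 6) (by simp) (by assumption) (by ring) h rfl)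
    · exact decide_eq_true (hs.d1 (a := 1) (e := e1) (m := 6) (by simp) (by assumption) (by ring) h rfl)
  unfold Ineq
  rw [qm, qz, qp]
  generalize decide (R (4 * ζ + K + em)) = b0 at Em0 ⊢
  generalize decide (R (4 * ζ + K + em + 4 * M)) = b1 at Em1 ⊢
  generalize decide (R (4 * ζ + e0 + 4 * M * 3)) = b2 at Ez3 ⊢
  generalize decide (R (4 * ζ - K + e1 + 4 * M * 5)) = b3 at Ep5 ⊢
  generalize decide (R (4 * ζ - K + e1 + 4 * M * 5 + 4 * M)) = b4 at Ep6 ⊢
  have T0 : (b0) = true → decide (R' (ζ + M * 0)) = true := by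
    intro h
    exact Em0 0 (by norm_num) h
  have T1 : (b0 || b1) = true → decide (R' (ζ + M * 1)) = true := by
    intro h
    simp only [Bool.or_eq_true] at h
    rcases h with (h | h)
    · exact Em0 1 (by norm_num) h
    · exact Em1 1 (by norm_num) h
  have T2 : (b1) = true → decide (R' (ζ + M * 2)) = true := by
    intro h
    exact Em1 2 (by norm_num) h
  have T3 : (b2) = true → decide (R' (ζ + M * 3)) = true := by
    intro h
    exact Ez3 3 (by norm_num) h
  have T4 : (b2) = true → decide (R' (ζ + M * 4)) = true := by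
    intro h
    exact Ez3 4 (by norm_num) h
  have T5 : (b3) = true → decide (R' (ζ + M * 5)) = true := by
    intro h
    exact Ep5 5 (by norm_num) h
  have T6 : (b3 || b4) = true → decide (R' (ζ + M * 6)) = true := by
    intro h
    simp only [Bool.or_eq_true] at h
    rcases h with (h | h)
    · exact Ep5 6 (by norm_num) h
    · exact Ep6 6 (by norm_num) h
  have T7 : (b4) = true → decide (R' (ζ + M * 7)) = true := by
    intro h
    exact Ep6 7 (by norm_num) h
  have u0 : g2 16 10 13 (b0) (b2) ≤ G (tabC K M) K (4 * M) R' (ζ) := by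
    rw [r0, show ζ + 4 * M = ζ + M * 4 by ring]
    have T0' := T0; rw [show ζ + M * 0 = ζ by ring] at T0'
    exact g2_mono (by norm_num) (by norm_num) (by norm_num) (by norm_num) T0' T4
  have u1 : g2 16 10 10 (b0 || b1) (b3) ≤ G (tabC K M) K (4 * M) R' (ζ + M * 1) := by
    rw [r1, show ζ + M * 1 + 4 * M = ζ + M * 5 by ring]
    exact g2_mono (by norm_num) (by norm_num) (by norm_num) (by norm_num) T1 T5
  have u2 : g2 16 10 10 (b1) (b3 || b4) ≤ G (tabC K M) K (4 * M) R' (ζ + M * 2) := by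
    rw [r2, show ζ + M * 2 + 4 * M = ζ + M * 6 by ring]
    exact g2_mono (by norm_num) (by norm_num) (by norm_num) (by norm_num) T2 T6
  have u3 : g2 16 13 10 (b2) (b4) ≤ G (tabC K M) K (4 * M) R' (ζ + M * 3) := by
    rw [r3, show ζ + M * 3 + 4 * M = ζ + M * 7 by ring]
    exact g2_mono (by norm_num) (by norm_num) (by norm_num) (by norm_num) T3 T7
  have key : ∀ b0 b1 b2 b3 b4 : Bool, KeyIneq 6 8 5 16 (g2 16 10 10 b0 b1) (g1 16 b2) (g2 16 10 10 b3 b4)
      (g2 16 10 13 (b0) (b2) + g2 16 10 10 (b0 || b1) (b3) + g2 16 10 10 (b1) (b3 || b4) + g2 16 13 10 (b2) (b4)) := by decide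
  have key := key b0 b1 b2 b3 b4
  unfold KeyIneq at key
  refine ⟨by linarith [key.1], fun h h' => ?_⟩
  have := key.2 h h'
  linarith

/-- lifts (0, 1) (3,) (5, 6), 8 target lifts -/
lemma wc_leaf16 {K M ζ em e0 e1 : ℤ} {R R' : ℤ → Prop} (hM : 0 < M) (hs : StepRel K M R R')
    (hem : em = 0 ∨ em = 1) (he0 : e0 = 0 ∨ e0 = 1) (he1 : e1 = 0 ∨ e1 = 1)
    (hx1 : -K ≤ 3 * ζ) (hx2 : 3 * (ζ - M) < -K)
    (am1 : -K ≤ 3 * (4 * ζ + K + em))
    (am2 : 3 * (4 * ζ + K + em - 4 * M) < -K)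
    (az1 : -K ≤ 3 * (4 * ζ + e0 + 4 * M * 3))
    (az2 : 3 * (4 * ζ + e0 + 4 * M * 3 - 4 * M) < -K)
    (ap1 : -K ≤ 3 * (4 * ζ - K + e1 + 4 * M * 5))
    (ap2 : 3 * (4 * ζ - K + e1 + 4 * M * 5 - 4 * M) < -K)
    (cm0 : 3 * (4 * ζ + K + em + 4 * M) ≤ K + 4 * M - 1)
    (cm1 : ¬ -K ≤ 3 * (4 * ζ + K + em - 3 * M))
    (cm2 : ¬ 3 * (4 * ζ + K + em + 7 * M) ≤ K + 4 * M - 1)
    (cz0 : ¬ 3 * (4 * ζ + e0 + 4 * M * 3 + 4 * M) ≤ K + 4 * M - 1)
    (cp0 : 3 * (4 * ζ - K + e1 + 4 * M * 5 + 4 * M) ≤ K + 4 * M - 1)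
    (cp1 : -K ≤ 3 * (4 * ζ - K + e1 + 4 * M * 5 - 3 * M))
    (t00 : 3 * (ζ + 4 * M) ≤ K + 4 * M - 1)
    (t01 : ¬ -K ≤ 3 * (ζ - 3 * M))
    (t02 : 3 * (ζ + 7 * M) ≤ K + 4 * M - 1)
    (t10 : 3 * (ζ + M * 1 + 4 * M) ≤ K + 4 * M - 1)
    (t11 : ¬ -K ≤ 3 * (ζ + M * 1 - 3 * M))
    (t12 : ¬ 3 * (ζ + M * 1 + 7 * M) ≤ K + 4 * M - 1)
    (t20 : 3 * (ζ + M * 2 + 4 * M) ≤ K + 4 * M - 1)
    (t21 : ¬ -K ≤ 3 * (ζ + M * 2 - 3 * M))
    (t22 : ¬ 3 * (ζ + M * 2 + 7 * M) ≤ K + 4 * M - 1)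
    (t30 : 3 * (ζ + M * 3 + 4 * M) ≤ K + 4 * M - 1)
    (t31 : -K ≤ 3 * (ζ + M * 3 - 3 * M)) :
    Ineq 6 8 5 16 (tabC K M) K M R R' ζ em e0 e1 := by
  classical
  have hN : 0 < 4 * M := by linarith
  have qm := G_eq (tab := tabC K M) (K := K) (N := 4 * M) (R := R) (z := 4 * ζ + K + em) (w := 4 * ζ + K + em) hN (by linarith) (by linarith)
    ⟨0, by ring⟩
  have qz := G_eq (tab := tabC K M) (K := K) (N := 4 * M) (R := R) (z := 4 * ζ + e0) (w := 4 * ζ + e0 + 4 * M * 3) hN (by linarith) (by linarith)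
    ⟨3, by ring⟩
  have qp := G_eq (tab := tabC K M) (K := K) (N := 4 * M) (R := R) (z := 4 * ζ - K + e1) (w := 4 * ζ - K + e1 + 4 * M * 5) hN (by linarith) (by linarith)
    ⟨5, by ring⟩
  have r0 := G_eq (tab := tabC K M) (K := K) (N := 4 * M) (R := R') (z := ζ) (w := ζ) hN (by linarith) (by linarith)
    ⟨0, by ring⟩
  have r1 := G_eq (tab := tabC K M) (K := K) (N := 4 * M) (R := R') (z := ζ + M * 1) (w := ζ + M * 1) hN (by linarith) (by linarith)
    ⟨0, by ring⟩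
  have r2 := G_eq (tab := tabC K M) (K := K) (N := 4 * M) (R := R') (z := ζ + M * 2) (w := ζ + M * 2) hN (by linarith) (by linarith)
    ⟨0, by ring⟩
  have r3 := G_eq (tab := tabC K M) (K := K) (N := 4 * M) (R := R') (z := ζ + M * 3) (w := ζ + M * 3) hN (by linarith) (by linarith)
    ⟨0, by ring⟩
  rw [tabC, if_pos cm0, if_neg cm1, if_neg cm2] at qm
  rw [tabC, if_neg cz0] at qz
  rw [tabC, if_pos cp0, if_pos cp1] at qp
  rw [tabC, if_pos t00, if_neg t01, if_pos t02] at r0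
  rw [tabC, if_pos t10, if_neg t11, if_neg t12] at r1
  rw [tabC, if_pos t20, if_neg t21, if_neg t22] at r2
  rw [tabC, if_pos t30, if_pos t31] at r3
  have Em0 : ∀ n : ℤ, (n = 0 ∨ n = 0 + 1) → decide (R (4 * ζ + K + em)) = true → decide (R' (ζ + M * n)) = true := by
    intro n hn h
    have h := of_decide_eq_true h
    rcases hn with rfl | rfl
    · exact decide_eq_true (hs.d0 (a := -1) (e := em) (m := 0) (by simp) (by assumption) (by ring) h rfl)
    · exact decide_eq_true (hs.d1 (a := -1) (e := em) (m := 0) (by simp) (by assumption) (by ring) h rfl)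
  have Em1 : ∀ n : ℤ, (n = 1 ∨ n = 1 + 1) → decide (R (4 * ζ + K + em + 4 * M)) = true → decide (R' (ζ + M * n)) = true := by
    intro n hn h
    have h := of_decide_eq_true h
    rcases hn with rfl | rfl
    · exact decide_eq_true (hs.d0 (a := -1) (e := em) (m := 1) (by simp) (by assumption) (by ring) h rfl)
    · exact decide_eq_true (hs.d1 (a := -1) (e := em) (m := 1) (by simp) (by assumption) (by ring) h rfl)
  have Ez3 : ∀ n : ℤ, (n = 3 ∨ n = 3 + 1) → decide (R (4 * ζ + e0 + 4 * M * 3)) = true → decide (R' (ζ + M * n)) = true := by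
    intro n hn h
    have h := of_decide_eq_true h
    rcases hn with rfl | rfl
    · exact decide_eq_true (hs.d0 (a := 0) (e := e0) (m := 3) (by simp) (by assumption) (by ring) h rfl)
    · exact decide_eq_true (hs.d1 (a := 0) (e := e0) (m := 3) (by simp) (by assumption) (by ring) h rfl)
  have Ep5 : ∀ n : ℤ, (n = 5 ∨ n = 5 + 1) → decide (R (4 * ζ - K + e1 + 4 * M * 5)) = true → decide (R' (ζ + M * n)) = true := by
    intro n hn h
    have h := of_decide_eq_true h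
    rcases hn with rfl | rfl
    · exact decide_eq_true (hs.d0 (a := 1) (e := e1) (m := 5) (by simp) (by assumption) (by ring) h rfl)
    · exact decide_eq_true (hs.d1 (a := 1) (e := e1) (m := 5) (by simp) (by assumption) (by ring) h rfl)
  have Ep6 : ∀ n : ℤ, (n = 6 ∨ n = 6 + 1) → decide (R (4 * ζ - K + e1 + 4 * M * 5 + 4 * M)) = true → decide (R' (ζ + M * n)) = true := by
    intro n hn h
    have h := of_decide_eq_true h
    rcases hn with rfl | rfl
    · exact decide_eq_true (hs.d0 (a := 1) (e := e1) (m := 6) (by simp) (by assumption) (by ring) h rfl)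
    · exact decide_eq_true (hs.d1 (a := 1) (e := e1) (m := 6) (by simp) (by assumption) (by ring) h rfl)
  unfold Ineq
  rw [qm, qz, qp]
  generalize decide (R (4 * ζ + K + em)) = b0 at Em0 ⊢
  generalize decide (R (4 * ζ + K + em + 4 * M)) = b1 at Em1 ⊢
  generalize decide (R (4 * ζ + e0 + 4 * M * 3)) = b2 at Ez3 ⊢
  generalize decide (R (4 * ζ - K + e1 + 4 * M * 5)) = b3 at Ep5 ⊢
  generalize decide (R (4 * ζ - K + e1 + 4 * M * 5 + 4 * M)) = b4 at Ep6 ⊢
  have T0 : (b0) = true → decide (R' (ζ + M * 0)) = true := by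
    intro h
    exact Em0 0 (by norm_num) h
  have T1 : (b0 || b1) = true → decide (R' (ζ + M * 1)) = true := by
    intro h
    simp only [Bool.or_eq_true] at h
    rcases h with (h | h)
    · exact Em0 1 (by norm_num) h
    · exact Em1 1 (by norm_num) h
  have T2 : (b1) = true → decide (R' (ζ + M * 2)) = true := by
    intro h
    exact Em1 2 (by norm_num) h
  have T3 : (b2) = true → decide (R' (ζ + M * 3)) = true := by
    intro h
    exact Ez3 3 (by norm_num) h
  have T4 : (b2) = true → decide (R' (ζ + M * 4)) = true := by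
    intro h
    exact Ez3 4 (by norm_num) h
  have T5 : (b3) = true → decide (R' (ζ + M * 5)) = true := by
    intro h
    exact Ep5 5 (by norm_num) h
  have T6 : (b3 || b4) = true → decide (R' (ζ + M * 6)) = true := by
    intro h
    simp only [Bool.or_eq_true] at h
    rcases h with (h | h)
    · exact Ep5 6 (by norm_num) h
    · exact Ep6 6 (by norm_num) h
  have T7 : (b4) = true → decide (R' (ζ + M * 7)) = true := by
    intro h
    exact Ep6 7 (by norm_num) h
  have u0 : g2 16 10 13 (b0) (b2) ≤ G (tabC K M) K (4 * M) R' (ζ) := by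
    rw [r0, show ζ + 4 * M = ζ + M * 4 by ring]
    have T0' := T0; rw [show ζ + M * 0 = ζ by ring] at T0'
    exact g2_mono (by norm_num) (by norm_num) (by norm_num) (by norm_num) T0' T4
  have u1 : g2 16 10 10 (b0 || b1) (b3) ≤ G (tabC K M) K (4 * M) R' (ζ + M * 1) := by
    rw [r1, show ζ + M * 1 + 4 * M = ζ + M * 5 by ring]
    exact g2_mono (by norm_num) (by norm_num) (by norm_num) (by norm_num) T1 T5
  have u2 : g2 16 10 10 (b1) (b3 || b4) ≤ G (tabC K M) K (4 * M) R' (ζ + M * 2) := by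
    rw [r2, show ζ + M * 2 + 4 * M = ζ + M * 6 by ring]
    exact g2_mono (by norm_num) (by norm_num) (by norm_num) (by norm_num) T2 T6
  have u3 : g2 16 13 10 (b2) (b4) ≤ G (tabC K M) K (4 * M) R' (ζ + M * 3) := by
    rw [r3, show ζ + M * 3 + 4 * M = ζ + M * 7 by ring]
    exact g2_mono (by norm_num) (by norm_num) (by norm_num) (by norm_num) T3 T7
  have key : ∀ b0 b1 b2 b3 b4 : Bool, KeyIneq 6 8 5 16 (g2 16 10 10 b0 b1) (g1 16 b2) (g2 16 13 10 b3 b4)
      (g2 16 10 13 (b0) (b2) + g2 16 10 10 (b0 || b1) (b3) + g2 16 10 10 (b1) (b3 || b4) + g2 16 13 10 (b2) (b4)) := by decide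
  have key := key b0 b1 b2 b3 b4
  unfold KeyIneq at key
  refine ⟨by linarith [key.1], fun h h' => ?_⟩
  have := key.2 h h'
  linarith

/-- lifts (0, 1) (2, 3) (5,), 7 target lifts -/
lemma wc_leaf17 {K M ζ em e0 e1 : ℤ} {R R' : ℤ → Prop} (hM : 0 < M) (hs : StepRel K M R R')
    (hem : em = 0 ∨ em = 1) (he0 : e0 = 0 ∨ e0 = 1) (he1 : e1 = 0 ∨ e1 = 1)
    (hx1 : -K ≤ 3 * ζ) (hx2 : 3 * (ζ - M) < -K)
    (am1 : -K ≤ 3 * (4 * ζ + K + em))
    (am2 : 3 * (4 * ζ + K + em - 4 * M) < -K)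
    (az1 : -K ≤ 3 * (4 * ζ + e0 + 4 * M * 2))
    (az2 : 3 * (4 * ζ + e0 + 4 * M * 2 - 4 * M) < -K)
    (ap1 : -K ≤ 3 * (4 * ζ - K + e1 + 4 * M * 5))
    (ap2 : 3 * (4 * ζ - K + e1 + 4 * M * 5 - 4 * M) < -K)
    (cm0 : 3 * (4 * ζ + K + em + 4 * M) ≤ K + 4 * M - 1)
    (cm1 : ¬ -K ≤ 3 * (4 * ζ + K + em - 3 * M))
    (cm2 : ¬ 3 * (4 * ζ + K + em + 7 * M) ≤ K + 4 * M - 1)
    (cz0 : 3 * (4 * ζ + e0 + 4 * M * 2 + 4 * M) ≤ K + 4 * M - 1)
    (cz1 : ¬ -K ≤ 3 * (4 * ζ + e0 + 4 * M * 2 - 3 * M))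
    (cz2 : 3 * (4 * ζ + e0 + 4 * M * 2 + 7 * M) ≤ K + 4 * M - 1)
    (cp0 : ¬ 3 * (4 * ζ - K + e1 + 4 * M * 5 + 4 * M) ≤ K + 4 * M - 1)
    (t00 : 3 * (ζ + 4 * M) ≤ K + 4 * M - 1)
    (t01 : ¬ -K ≤ 3 * (ζ - 3 * M))
    (t02 : ¬ 3 * (ζ + 7 * M) ≤ K + 4 * M - 1)
    (t10 : 3 * (ζ + M * 1 + 4 * M) ≤ K + 4 * M - 1)
    (t11 : ¬ -K ≤ 3 * (ζ + M * 1 - 3 * M))
    (t12 : ¬ 3 * (ζ + M * 1 + 7 * M) ≤ K + 4 * M - 1)
    (t20 : 3 * (ζ + M * 2 + 4 * M) ≤ K + 4 * M - 1)
    (t21 : ¬ -K ≤ 3 * (ζ + M * 2 - 3 * M))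
    (t22 : ¬ 3 * (ζ + M * 2 + 7 * M) ≤ K + 4 * M - 1)
    (t30 : ¬ 3 * (ζ + M * 3 + 4 * M) ≤ K + 4 * M - 1) :
    Ineq 6 8 5 16 (tabC K M) K M R R' ζ em e0 e1 := by
  classical
  have hN : 0 < 4 * M := by linarith
  have qm := G_eq (tab := tabC K M) (K := K) (N := 4 * M) (R := R) (z := 4 * ζ + K + em) (w := 4 * ζ + K + em) hN (by linarith) (by linarith)
    ⟨0, by ring⟩
  have qz := G_eq (tab := tabC K M) (K := K) (N := 4 * M) (R := R) (z := 4 * ζ + e0) (w := 4 * ζ + e0 + 4 * M * 2) hN (by linarith) (by linarith)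
    ⟨2, by ring⟩
  have qp := G_eq (tab := tabC K M) (K := K) (N := 4 * M) (R := R) (z := 4 * ζ - K + e1) (w := 4 * ζ - K + e1 + 4 * M * 5) hN (by linarith) (by linarith)
    ⟨5, by ring⟩
  have r0 := G_eq (tab := tabC K M) (K := K) (N := 4 * M) (R := R') (z := ζ) (w := ζ) hN (by linarith) (by linarith)
    ⟨0, by ring⟩
  have r1 := G_eq (tab := tabC K M) (K := K) (N := 4 * M) (R := R') (z := ζ + M * 1) (w := ζ + M * 1) hN (by linarith) (by linarith)
    ⟨0, by ring⟩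
  have r2 := G_eq (tab := tabC K M) (K := K) (N := 4 * M) (R := R') (z := ζ + M * 2) (w := ζ + M * 2) hN (by linarith) (by linarith)
    ⟨0, by ring⟩
  have r3 := G_eq (tab := tabC K M) (K := K) (N := 4 * M) (R := R') (z := ζ + M * 3) (w := ζ + M * 3) hN (by linarith) (by linarith)
    ⟨0, by ring⟩
  rw [tabC, if_pos cm0, if_neg cm1, if_neg cm2] at qm
  rw [tabC, if_pos cz0, if_neg cz1, if_pos cz2] at qz
  rw [tabC, if_neg cp0] at qp
  rw [tabC, if_pos t00, if_neg t01, if_neg t02] at r0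
  rw [tabC, if_pos t10, if_neg t11, if_neg t12] at r1
  rw [tabC, if_pos t20, if_neg t21, if_neg t22] at r2
  rw [tabC, if_neg t30] at r3
  have Em0 : ∀ n : ℤ, (n = 0 ∨ n = 0 + 1) → decide (R (4 * ζ + K + em)) = true → decide (R' (ζ + M * n)) = true := by
    intro n hn h
    have h := of_decide_eq_true h
    rcases hn with rfl | rfl
    · exact decide_eq_true (hs.d0 (a := -1) (e := em) (m := 0) (by simp) (by assumption) (by ring) h rfl)
    · exact decide_eq_true (hs.d1 (a := -1) (e := em) (m := 0) (by simp) (by assumption) (by ring) h rfl)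
  have Em1 : ∀ n : ℤ, (n = 1 ∨ n = 1 + 1) → decide (R (4 * ζ + K + em + 4 * M)) = true → decide (R' (ζ + M * n)) = true := by
    intro n hn h
    have h := of_decide_eq_true h
    rcases hn with rfl | rfl
    · exact decide_eq_true (hs.d0 (a := -1) (e := em) (m := 1) (by simp) (by assumption) (by ring) h rfl)
    · exact decide_eq_true (hs.d1 (a := -1) (e := em) (m := 1) (by simp) (by assumption) (by ring) h rfl)
  have Ez2 : ∀ n : ℤ, (n = 2 ∨ n = 2 + 1) → decide (R (4 * ζ + e0 + 4 * M * 2)) = true → decide (R' (ζ + M * n)) = true := by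
    intro n hn h
    have h := of_decide_eq_true h
    rcases hn with rfl | rfl
    · exact decide_eq_true (hs.d0 (a := 0) (e := e0) (m := 2) (by simp) (by assumption) (by ring) h rfl)
    · exact decide_eq_true (hs.d1 (a := 0) (e := e0) (m := 2) (by simp) (by assumption) (by ring) h rfl)
  have Ez3 : ∀ n : ℤ, (n = 3 ∨ n = 3 + 1) → decide (R (4 * ζ + e0 + 4 * M * 2 + 4 * M)) = true → decide (R' (ζ + M * n)) = true := by
    intro n hn h
    have h := of_decide_eq_true h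
    rcases hn with rfl | rfl
    · exact decide_eq_true (hs.d0 (a := 0) (e := e0) (m := 3) (by simp) (by assumption) (by ring) h rfl)
    · exact decide_eq_true (hs.d1 (a := 0) (e := e0) (m := 3) (by simp) (by assumption) (by ring) h rfl)
  have Ep5 : ∀ n : ℤ, (n = 5 ∨ n = 5 + 1) → decide (R (4 * ζ - K + e1 + 4 * M * 5)) = true → decide (R' (ζ + M * n)) = true := by
    intro n hn h
    have h := of_decide_eq_true h
    rcases hn with rfl | rfl
    · exact decide_eq_true (hs.d0 (a := 1) (e := e1) (m := 5) (by simp) (by assumption) (by ring) h rfl)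
    · exact decide_eq_true (hs.d1 (a := 1) (e := e1) (m := 5) (by simp) (by assumption) (by ring) h rfl)
  unfold Ineq
  rw [qm, qz, qp]
  generalize decide (R (4 * ζ + K + em)) = b0 at Em0 ⊢
  generalize decide (R (4 * ζ + K + em + 4 * M)) = b1 at Em1 ⊢
  generalize decide (R (4 * ζ + e0 + 4 * M * 2)) = b2 at Ez2 ⊢
  generalize decide (R (4 * ζ + e0 + 4 * M * 2 + 4 * M)) = b3 at Ez3 ⊢
  generalize decide (R (4 * ζ - K + e1 + 4 * M * 5)) = b4 at Ep5 ⊢
  have T0 : (b0) = true → decide (R' (ζ + M * 0)) = true := by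
    intro h
    exact Em0 0 (by norm_num) h
  have T1 : (b0 || b1) = true → decide (R' (ζ + M * 1)) = true := by
    intro h
    simp only [Bool.or_eq_true] at h
    rcases h with (h | h)
    · exact Em0 1 (by norm_num) h
    · exact Em1 1 (by norm_num) h
  have T2 : (b1 || b2) = true → decide (R' (ζ + M * 2)) = true := by
    intro h
    simp only [Bool.or_eq_true] at h
    rcases h with (h | h)
    · exact Em1 2 (by norm_num) h
    · exact Ez2 2 (by norm_num) h
  have T3 : (b2 || b3) = true → decide (R' (ζ + M * 3)) = true := by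
    intro h
    simp only [Bool.or_eq_true] at h
    rcases h with (h | h)
    · exact Ez2 3 (by norm_num) h
    · exact Ez3 3 (by norm_num) h
  have T4 : (b3) = true → decide (R' (ζ + M * 4)) = true := by
    intro h
    exact Ez3 4 (by norm_num) h
  have T5 : (b4) = true → decide (R' (ζ + M * 5)) = true := by
    intro h
    exact Ep5 5 (by norm_num) h
  have T6 : (b4) = true → decide (R' (ζ + M * 6)) = true := by
    intro h
    exact Ep5 6 (by norm_num) h
  have u0 : g2 16 10 10 (b0) (b3) ≤ G (tabC K M) K (4 * M) R' (ζ) := by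
    rw [r0, show ζ + 4 * M = ζ + M * 4 by ring]
    have T0' := T0; rw [show ζ + M * 0 = ζ by ring] at T0'
    exact g2_mono (by norm_num) (by norm_num) (by norm_num) (by norm_num) T0' T4
  have u1 : g2 16 10 10 (b0 || b1) (b4) ≤ G (tabC K M) K (4 * M) R' (ζ + M * 1) := by
    rw [r1, show ζ + M * 1 + 4 * M = ζ + M * 5 by ring]
    exact g2_mono (by norm_num) (by norm_num) (by norm_num) (by norm_num) T1 T5
  have u2 : g2 16 10 10 (b1 || b2) (b4) ≤ G (tabC K M) K (4 * M) R' (ζ + M * 2) := by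
    rw [r2, show ζ + M * 2 + 4 * M = ζ + M * 6 by ring]
    exact g2_mono (by norm_num) (by norm_num) (by norm_num) (by norm_num) T2 T6
  have u3 : g1 16 (b2 || b3) ≤ G (tabC K M) K (4 * M) R' (ζ + M * 3) := by
    rw [r3]
    exact g1_mono (by norm_num) T3
  have key : ∀ b0 b1 b2 b3 b4 : Bool, KeyIneq 6 8 5 16 (g2 16 10 10 b0 b1) (g2 16 10 13 b2 b3) (g1 16 b4)
      (g2 16 10 10 (b0) (b3) + g2 16 10 10 (b0 || b1) (b4) + g2 16 10 10 (b1 || b2) (b4) + g1 16 (b2 || b3)) := by decide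
  have key := key b0 b1 b2 b3 b4
  unfold KeyIneq at key
  refine ⟨by linarith [key.1], fun h h' => ?_⟩
  have := key.2 h h'
  linarith

/-- lifts (0,) (2, 3) (4, 5), 7 target lifts -/
lemma wc_leaf18 {K M ζ em e0 e1 : ℤ} {R R' : ℤ → Prop} (hM : 0 < M) (hs : StepRel K M R R')
    (hem : em = 0 ∨ em = 1) (he0 : e0 = 0 ∨ e0 = 1) (he1 : e1 = 0 ∨ e1 = 1)
    (hx1 : -K ≤ 3 * ζ) (hx2 : 3 * (ζ - M) < -K)
    (am1 : -K ≤ 3 * (4 * ζ + K + em))
    (am2 : 3 * (4 * ζ + K + em - 4 * M) < -K)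
    (az1 : -K ≤ 3 * (4 * ζ + e0 + 4 * M * 2))
    (az2 : 3 * (4 * ζ + e0 + 4 * M * 2 - 4 * M) < -K)
    (ap1 : -K ≤ 3 * (4 * ζ - K + e1 + 4 * M * 4))
    (ap2 : 3 * (4 * ζ - K + e1 + 4 * M * 4 - 4 * M) < -K)
    (cm0 : ¬ 3 * (4 * ζ + K + em + 4 * M) ≤ K + 4 * M - 1)
    (cz0 : 3 * (4 * ζ + e0 + 4 * M * 2 + 4 * M) ≤ K + 4 * M - 1)
    (cz1 : -K ≤ 3 * (4 * ζ + e0 + 4 * M * 2 - 3 * M))
    (cp0 : 3 * (4 * ζ - K + e1 + 4 * M * 4 + 4 * M) ≤ K + 4 * M - 1)
    (cp1 : ¬ -K ≤ 3 * (4 * ζ - K + e1 + 4 * M * 4 - 3 * M))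
    (cp2 : ¬ 3 * (4 * ζ - K + e1 + 4 * M * 4 + 7 * M) ≤ K + 4 * M - 1)
    (t00 : 3 * (ζ + 4 * M) ≤ K + 4 * M - 1)
    (t01 : ¬ -K ≤ 3 * (ζ - 3 * M))
    (t02 : ¬ 3 * (ζ + 7 * M) ≤ K + 4 * M - 1)
    (t10 : 3 * (ζ + M * 1 + 4 * M) ≤ K + 4 * M - 1)
    (t11 : ¬ -K ≤ 3 * (ζ + M * 1 - 3 * M))
    (t12 : ¬ 3 * (ζ + M * 1 + 7 * M) ≤ K + 4 * M - 1)
    (t20 : 3 * (ζ + M * 2 + 4 * M) ≤ K + 4 * M - 1)
    (t21 : ¬ -K ≤ 3 * (ζ + M * 2 - 3 * M))
    (t22 : ¬ 3 * (ζ + M * 2 + 7 * M) ≤ K + 4 * M - 1)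
    (t30 : ¬ 3 * (ζ + M * 3 + 4 * M) ≤ K + 4 * M - 1) :
    Ineq 6 8 5 16 (tabC K M) K M R R' ζ em e0 e1 := by
  classical
  have hN : 0 < 4 * M := by linarith
  have qm := G_eq (tab := tabC K M) (K := K) (N := 4 * M) (R := R) (z := 4 * ζ + K + em) (w := 4 * ζ + K + em) hN (by linarith) (by linarith)
    ⟨0, by ring⟩
  have qz := G_eq (tab := tabC K M) (K := K) (N := 4 * M) (R := R) (z := 4 * ζ + e0) (w := 4 * ζ + e0 + 4 * M * 2) hN (by linarith) (by linarith)
    ⟨2, by ring⟩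
  have qp := G_eq (tab := tabC K M) (K := K) (N := 4 * M) (R := R) (z := 4 * ζ - K + e1) (w := 4 * ζ - K + e1 + 4 * M * 4) hN (by linarith) (by linarith)
    ⟨4, by ring⟩
  have r0 := G_eq (tab := tabC K M) (K := K) (N := 4 * M) (R := R') (z := ζ) (w := ζ) hN (by linarith) (by linarith)
    ⟨0, by ring⟩
  have r1 := G_eq (tab := tabC K M) (K := K) (N := 4 * M) (R := R') (z := ζ + M * 1) (w := ζ + M * 1) hN (by linarith) (by linarith)
    ⟨0, by ring⟩
  have r2 := G_eq (tab := tabC K M) (K := K) (N := 4 * M) (R := R') (z := ζ + M * 2) (w := ζ + M * 2) hN (by linarith) (by linarith)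
    ⟨0, by ring⟩
  have r3 := G_eq (tab := tabC K M) (K := K) (N := 4 * M) (R := R') (z := ζ + M * 3) (w := ζ + M * 3) hN (by linarith) (by linarith)
    ⟨0, by ring⟩
  rw [tabC, if_neg cm0] at qm
  rw [tabC, if_pos cz0, if_pos cz1] at qz
  rw [tabC, if_pos cp0, if_neg cp1, if_neg cp2] at qp
  rw [tabC, if_pos t00, if_neg t01, if_neg t02] at r0
  rw [tabC, if_pos t10, if_neg t11, if_neg t12] at r1
  rw [tabC, if_pos t20, if_neg t21, if_neg t22] at r2
  rw [tabC, if_neg t30] at r3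
  have Em0 : ∀ n : ℤ, (n = 0 ∨ n = 0 + 1) → decide (R (4 * ζ + K + em)) = true → decide (R' (ζ + M * n)) = true := by
    intro n hn h
    have h := of_decide_eq_true h
    rcases hn with rfl | rfl
    · exact decide_eq_true (hs.d0 (a := -1) (e := em) (m := 0) (by simp) (by assumption) (by ring) h rfl)
    · exact decide_eq_true (hs.d1 (a := -1) (e := em) (m := 0) (by simp) (by assumption) (by ring) h rfl)
  have Ez2 : ∀ n : ℤ, (n = 2 ∨ n = 2 + 1) → decide (R (4 * ζ + e0 + 4 * M * 2)) = true → decide (R' (ζ + M * n)) = true := by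
    intro n hn h
    have h := of_decide_eq_true h
    rcases hn with rfl | rfl
    · exact decide_eq_true (hs.d0 (a := 0) (e := e0) (m := 2) (by simp) (by assumption) (by ring) h rfl)
    · exact decide_eq_true (hs.d1 (a := 0) (e := e0) (m := 2) (by simp) (by assumption) (by ring) h rfl)
  have Ez3 : ∀ n : ℤ, (n = 3 ∨ n = 3 + 1) → decide (R (4 * ζ + e0 + 4 * M * 2 + 4 * M)) = true → decide (R' (ζ + M * n)) = true := by
    intro n hn h
    have h := of_decide_eq_true h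
    rcases hn with rfl | rfl
    · exact decide_eq_true (hs.d0 (a := 0) (e := e0) (m := 3) (by simp) (by assumption) (by ring) h rfl)
    · exact decide_eq_true (hs.d1 (a := 0) (e := e0) (m := 3) (by simp) (by assumption) (by ring) h rfl)
  have Ep4 : ∀ n : ℤ, (n = 4 ∨ n = 4 + 1) → decide (R (4 * ζ - K + e1 + 4 * M * 4)) = true → decide (R' (ζ + M * n)) = true := by
    intro n hn h
    have h := of_decide_eq_true h
    rcases hn with rfl | rfl
    · exact decide_eq_true (hs.d0 (a := 1) (e := e1) (m := 4) (by simp) (by assumption) (by ring) h rfl)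
    · exact decide_eq_true (hs.d1 (a := 1) (e := e1) (m := 4) (by simp) (by assumption) (by ring) h rfl)
  have Ep5 : ∀ n : ℤ, (n = 5 ∨ n = 5 + 1) → decide (R (4 * ζ - K + e1 + 4 * M * 4 + 4 * M)) = true → decide (R' (ζ + M * n)) = true := by
    intro n hn h
    have h := of_decide_eq_true h
    rcases hn with rfl | rfl
    · exact decide_eq_true (hs.d0 (a := 1) (e := e1) (m := 5) (by simp) (by assumption) (by ring) h rfl)
    · exact decide_eq_true (hs.d1 (a := 1) (e := e1) (m := 5) (by simp) (by assumption) (by ring) h rfl)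
  unfold Ineq
  rw [qm, qz, qp]
  generalize decide (R (4 * ζ + K + em)) = b0 at Em0 ⊢
  generalize decide (R (4 * ζ + e0 + 4 * M * 2)) = b1 at Ez2 ⊢
  generalize decide (R (4 * ζ + e0 + 4 * M * 2 + 4 * M)) = b2 at Ez3 ⊢
  generalize decide (R (4 * ζ - K + e1 + 4 * M * 4)) = b3 at Ep4 ⊢
  generalize decide (R (4 * ζ - K + e1 + 4 * M * 4 + 4 * M)) = b4 at Ep5 ⊢
  have T0 : (b0) = true → decide (R' (ζ + M * 0)) = true := by
    intro h
    exact Em0 0 (by norm_num) h
  have T1 : (b0) = true → decide (R' (ζ + M * 1)) = true := by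
    intro h
    exact Em0 1 (by norm_num) h
  have T2 : (b1) = true → decide (R' (ζ + M * 2)) = true := by
    intro h
    exact Ez2 2 (by norm_num) h
  have T3 : (b1 || b2) = true → decide (R' (ζ + M * 3)) = true := by
    intro h
    simp only [Bool.or_eq_true] at h
    rcases h with (h | h)
    · exact Ez2 3 (by norm_num) h
    · exact Ez3 3 (by norm_num) h
  have T4 : (b2 || b3) = true → decide (R' (ζ + M * 4)) = true := by
    intro h
    simp only [Bool.or_eq_true] at h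
    rcases h with (h | h)
    · exact Ez3 4 (by norm_num) h
    · exact Ep4 4 (by norm_num) h
  have T5 : (b3 || b4) = true → decide (R' (ζ + M * 5)) = true := by
    intro h
    simp only [Bool.or_eq_true] at h
    rcases h with (h | h)
    · exact Ep4 5 (by norm_num) h
    · exact Ep5 5 (by norm_num) h
  have T6 : (b4) = true → decide (R' (ζ + M * 6)) = true := by
    intro h
    exact Ep5 6 (by norm_num) h
  have u0 : g2 16 10 10 (b0) (b2 || b3) ≤ G (tabC K M) K (4 * M) R' (ζ) := by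
    rw [r0, show ζ + 4 * M = ζ + M * 4 by ring]
    have T0' := T0; rw [show ζ + M * 0 = ζ by ring] at T0'
    exact g2_mono (by norm_num) (by norm_num) (by norm_num) (by norm_num) T0' T4
  have u1 : g2 16 10 10 (b0) (b3 || b4) ≤ G (tabC K M) K (4 * M) R' (ζ + M * 1) := by
    rw [r1, show ζ + M * 1 + 4 * M = ζ + M * 5 by ring]
    exact g2_mono (by norm_num) (by norm_num) (by norm_num) (by norm_num) T1 T5
  have u2 : g2 16 10 10 (b1) (b4) ≤ G (tabC K M) K (4 * M) R' (ζ + M * 2) := by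
    rw [r2, show ζ + M * 2 + 4 * M = ζ + M * 6 by ring]
    exact g2_mono (by norm_num) (by norm_num) (by norm_num) (by norm_num) T2 T6
  have u3 : g1 16 (b1 || b2) ≤ G (tabC K M) K (4 * M) R' (ζ + M * 3) := by
    rw [r3]
    exact g1_mono (by norm_num) T3
  have key : ∀ b0 b1 b2 b3 b4 : Bool, KeyIneq 6 8 5 16 (g1 16 b0) (g2 16 13 10 b1 b2) (g2 16 10 10 b3 b4)
      (g2 16 10 10 (b0) (b2 || b3) + g2 16 10 10 (b0) (b3 || b4) + g2 16 10 10 (b1) (b4) + g1 16 (b1 || b2)) := by decide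
  have key := key b0 b1 b2 b3 b4
  unfold KeyIneq at key
  refine ⟨by linarith [key.1], fun h h' => ?_⟩
  have := key.2 h h'
  linarith

/-- lifts (0, 1) (3, 4) (5, 6), 8 target lifts -/
lemma wc_leaf19 {K M ζ em e0 e1 : ℤ} {R R' : ℤ → Prop} (hM : 0 < M) (hs : StepRel K M R R')
    (hem : em = 0 ∨ em = 1) (he0 : e0 = 0 ∨ e0 = 1) (he1 : e1 = 0 ∨ e1 = 1)
    (hx1 : -K ≤ 3 * ζ) (hx2 : 3 * (ζ - M) < -K)
    (am1 : -K ≤ 3 * (4 * ζ + K + em))
    (am2 : 3 * (4 * ζ + K + em - 4 * M) < -K)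
    (az1 : -K ≤ 3 * (4 * ζ + e0 + 4 * M * 3))
    (az2 : 3 * (4 * ζ + e0 + 4 * M * 3 - 4 * M) < -K)
    (ap1 : -K ≤ 3 * (4 * ζ - K + e1 + 4 * M * 5))
    (ap2 : 3 * (4 * ζ - K + e1 + 4 * M * 5 - 4 * M) < -K)
    (cm0 : 3 * (4 * ζ + K + em + 4 * M) ≤ K + 4 * M - 1)
    (cm1 : ¬ -K ≤ 3 * (4 * ζ + K + em - 3 * M))
    (cm2 : 3 * (4 * ζ + K + em + 7 * M) ≤ K + 4 * M - 1)
    (cz0 : 3 * (4 * ζ + e0 + 4 * M * 3 + 4 * M) ≤ K + 4 * M - 1)
    (cz1 : ¬ -K ≤ 3 * (4 * ζ + e0 + 4 * M * 3 - 3 * M))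
    (cz2 : ¬ 3 * (4 * ζ + e0 + 4 * M * 3 + 7 * M) ≤ K + 4 * M - 1)
    (cp0 : 3 * (4 * ζ - K + e1 + 4 * M * 5 + 4 * M) ≤ K + 4 * M - 1)
    (cp1 : ¬ -K ≤ 3 * (4 * ζ - K + e1 + 4 * M * 5 - 3 * M))
    (cp2 : ¬ 3 * (4 * ζ - K + e1 + 4 * M * 5 + 7 * M) ≤ K + 4 * M - 1)
    (t00 : 3 * (ζ + 4 * M) ≤ K + 4 * M - 1)
    (t01 : ¬ -K ≤ 3 * (ζ - 3 * M))
    (t02 : 3 * (ζ + 7 * M) ≤ K + 4 * M - 1)
    (t10 : 3 * (ζ + M * 1 + 4 * M) ≤ K + 4 * M - 1)
    (t11 : ¬ -K ≤ 3 * (ζ + M * 1 - 3 * M))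
    (t12 : ¬ 3 * (ζ + M * 1 + 7 * M) ≤ K + 4 * M - 1)
    (t20 : 3 * (ζ + M * 2 + 4 * M) ≤ K + 4 * M - 1)
    (t21 : ¬ -K ≤ 3 * (ζ + M * 2 - 3 * M))
    (t22 : ¬ 3 * (ζ + M * 2 + 7 * M) ≤ K + 4 * M - 1)
    (t30 : 3 * (ζ + M * 3 + 4 * M) ≤ K + 4 * M - 1)
    (t31 : -K ≤ 3 * (ζ + M * 3 - 3 * M)) :
    Ineq 6 8 5 16 (tabC K M) K M R R' ζ em e0 e1 := by
  classical
  have hN : 0 < 4 * M := by linarith
  have qm := G_eq (tab := tabC K M) (K := K) (N := 4 * M) (R := R) (z := 4 * ζ + K + em) (w := 4 * ζ + K + em) hN (by linarith) (by linarith)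
    ⟨0, by ring⟩
  have qz := G_eq (tab := tabC K M) (K := K) (N := 4 * M) (R := R) (z := 4 * ζ + e0) (w := 4 * ζ + e0 + 4 * M * 3) hN (by linarith) (by linarith)
    ⟨3, by ring⟩
  have qp := G_eq (tab := tabC K M) (K := K) (N := 4 * M) (R := R) (z := 4 * ζ - K + e1) (w := 4 * ζ - K + e1 + 4 * M * 5) hN (by linarith) (by linarith)
    ⟨5, by ring⟩
  have r0 := G_eq (tab := tabC K M) (K := K) (N := 4 * M) (R := R') (z := ζ) (w := ζ) hN (by linarith) (by linarith)
    ⟨0, by ring⟩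
  have r1 := G_eq (tab := tabC K M) (K := K) (N := 4 * M) (R := R') (z := ζ + M * 1) (w := ζ + M * 1) hN (by linarith) (by linarith)
    ⟨0, by ring⟩
  have r2 := G_eq (tab := tabC K M) (K := K) (N := 4 * M) (R := R') (z := ζ + M * 2) (w := ζ + M * 2) hN (by linarith) (by linarith)
    ⟨0, by ring⟩
  have r3 := G_eq (tab := tabC K M) (K := K) (N := 4 * M) (R := R') (z := ζ + M * 3) (w := ζ + M * 3) hN (by linarith) (by linarith)
    ⟨0, by ring⟩
  rw [tabC, if_pos cm0, if_neg cm1, if_pos cm2] at qm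
  rw [tabC, if_pos cz0, if_neg cz1, if_neg cz2] at qz
  rw [tabC, if_pos cp0, if_neg cp1, if_neg cp2] at qp
  rw [tabC, if_pos t00, if_neg t01, if_pos t02] at r0
  rw [tabC, if_pos t10, if_neg t11, if_neg t12] at r1
  rw [tabC, if_pos t20, if_neg t21, if_neg t22] at r2
  rw [tabC, if_pos t30, if_pos t31] at r3
  have Em0 : ∀ n : ℤ, (n = 0 ∨ n = 0 + 1) → decide (R (4 * ζ + K + em)) = true → decide (R' (ζ + M * n)) = true := by
    intro n hn h
    have h := of_decide_eq_true h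
    rcases hn with rfl | rfl
    · exact decide_eq_true (hs.d0 (a := -1) (e := em) (m := 0) (by simp) (by assumption) (by ring) h rfl)
    · exact decide_eq_true (hs.d1 (a := -1) (e := em) (m := 0) (by simp) (by assumption) (by ring) h rfl)
  have Em1 : ∀ n : ℤ, (n = 1 ∨ n = 1 + 1) → decide (R (4 * ζ + K + em + 4 * M)) = true → decide (R' (ζ + M * n)) = true := by
    intro n hn h
    have h := of_decide_eq_true h
    rcases hn with rfl | rfl
    · exact decide_eq_true (hs.d0 (a := -1) (e := em) (m := 1) (by simp) (by assumption) (by ring) h rfl)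
    · exact decide_eq_true (hs.d1 (a := -1) (e := em) (m := 1) (by simp) (by assumption) (by ring) h rfl)
  have Ez3 : ∀ n : ℤ, (n = 3 ∨ n = 3 + 1) → decide (R (4 * ζ + e0 + 4 * M * 3)) = true → decide (R' (ζ + M * n)) = true := by
    intro n hn h
    have h := of_decide_eq_true h
    rcases hn with rfl | rfl
    · exact decide_eq_true (hs.d0 (a := 0) (e := e0) (m := 3) (by simp) (by assumption) (by ring) h rfl)
    · exact decide_eq_true (hs.d1 (a := 0) (e := e0) (m := 3) (by simp) (by assumption) (by ring) h rfl)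
  have Ez4 : ∀ n : ℤ, (n = 4 ∨ n = 4 + 1) → decide (R (4 * ζ + e0 + 4 * M * 3 + 4 * M)) = true → decide (R' (ζ + M * n)) = true := by
    intro n hn h
    have h := of_decide_eq_true h
    rcases hn with rfl | rfl
    · exact decide_eq_true (hs.d0 (a := 0) (e := e0) (m := 4) (by simp) (by assumption) (by ring) h rfl)
    · exact decide_eq_true (hs.d1 (a := 0) (e := e0) (m := 4) (by simp) (by assumption) (by ring) h rfl)
  have Ep5 : ∀ n : ℤ, (n = 5 ∨ n = 5 + 1) → decide (R (4 * ζ - K + e1 + 4 * M * 5)) = true → decide (R' (ζ + M * n)) = true := by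
    intro n hn h
    have h := of_decide_eq_true h
    rcases hn with rfl | rfl
    · exact decide_eq_true (hs.d0 (a := 1) (e := e1) (m := 5) (by simp) (by assumption) (by ring) h rfl)
    · exact decide_eq_true (hs.d1 (a := 1) (e := e1) (m := 5) (by simp) (by assumption) (by ring) h rfl)
  have Ep6 : ∀ n : ℤ, (n = 6 ∨ n = 6 + 1) → decide (R (4 * ζ - K + e1 + 4 * M * 5 + 4 * M)) = true → decide (R' (ζ + M * n)) = true := by
    intro n hn h
    have h := of_decide_eq_true h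
    rcases hn with rfl | rfl
    · exact decide_eq_true (hs.d0 (a := 1) (e := e1) (m := 6) (by simp) (by assumption) (by ring) h rfl)
    · exact decide_eq_true (hs.d1 (a := 1) (e := e1) (m := 6) (by simp) (by assumption) (by ring) h rfl)
  unfold Ineq
  rw [qm, qz, qp]
  generalize decide (R (4 * ζ + K + em)) = b0 at Em0 ⊢
  generalize decide (R (4 * ζ + K + em + 4 * M)) = b1 at Em1 ⊢
  generalize decide (R (4 * ζ + e0 + 4 * M * 3)) = b2 at Ez3 ⊢
  generalize decide (R (4 * ζ + e0 + 4 * M * 3 + 4 * M)) = b3 at Ez4 ⊢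
  generalize decide (R (4 * ζ - K + e1 + 4 * M * 5)) = b4 at Ep5 ⊢
  generalize decide (R (4 * ζ - K + e1 + 4 * M * 5 + 4 * M)) = b5 at Ep6 ⊢
  have T0 : (b0) = true → decide (R' (ζ + M * 0)) = true := by
    intro h
    exact Em0 0 (by norm_num) h
  have T1 : (b0 || b1) = true → decide (R' (ζ + M * 1)) = true := by
    intro h
    simp only [Bool.or_eq_true] at h
    rcases h with (h | h)
    · exact Em0 1 (by norm_num) h
    · exact Em1 1 (by norm_num) h
  have T2 : (b1) = true → decide (R' (ζ + M * 2)) = true := by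
    intro h
    exact Em1 2 (by norm_num) h
  have T3 : (b2) = true → decide (R' (ζ + M * 3)) = true := by
    intro h
    exact Ez3 3 (by norm_num) h
  have T4 : (b2 || b3) = true → decide (R' (ζ + M * 4)) = true := by
    intro h
    simp only [Bool.or_eq_true] at h
    rcases h with (h | h)
    · exact Ez3 4 (by norm_num) h
    · exact Ez4 4 (by norm_num) h
  have T5 : (b3 || b4) = true → decide (R' (ζ + M * 5)) = true := by
    intro h
    simp only [Bool.or_eq_true] at h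
    rcases h with (h | h)
    · exact Ez4 5 (by norm_num) h
    · exact Ep5 5 (by norm_num) h
  have T6 : (b4 || b5) = true → decide (R' (ζ + M * 6)) = true := by
    intro h
    simp only [Bool.or_eq_true] at h
    rcases h with (h | h)
    · exact Ep5 6 (by norm_num) h
    · exact Ep6 6 (by norm_num) h
  have T7 : (b5) = true → decide (R' (ζ + M * 7)) = true := by
    intro h
    exact Ep6 7 (by norm_num) h
  have u0 : g2 16 10 13 (b0) (b2 || b3) ≤ G (tabC K M) K (4 * M) R' (ζ) := by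
    rw [r0, show ζ + 4 * M = ζ + M * 4 by ring]
    have T0' := T0; rw [show ζ + M * 0 = ζ by ring] at T0'
    exact g2_mono (by norm_num) (by norm_num) (by norm_num) (by norm_num) T0' T4
  have u1 : g2 16 10 10 (b0 || b1) (b3 || b4) ≤ G (tabC K M) K (4 * M) R' (ζ + M * 1) := by
    rw [r1, show ζ + M * 1 + 4 * M = ζ + M * 5 by ring]
    exact g2_mono (by norm_num) (by norm_num) (by norm_num) (by norm_num) T1 T5
  have u2 : g2 16 10 10 (b1) (b4 || b5) ≤ G (tabC K M) K (4 * M) R' (ζ + M * 2) := by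
    rw [r2, show ζ + M * 2 + 4 * M = ζ + M * 6 by ring]
    exact g2_mono (by norm_num) (by norm_num) (by norm_num) (by norm_num) T2 T6
  have u3 : g2 16 13 10 (b2) (b5) ≤ G (tabC K M) K (4 * M) R' (ζ + M * 3) := by
    rw [r3, show ζ + M * 3 + 4 * M = ζ + M * 7 by ring]
    exact g2_mono (by norm_num) (by norm_num) (by norm_num) (by norm_num) T3 T7
  have key : ∀ b0 b1 b2 b3 b4 b5 : Bool, KeyIneq 6 8 5 16 (g2 16 10 13 b0 b1) (g2 16 10 10 b2 b3) (g2 16 10 10 b4 b5)
      (g2 16 10 13 (b0) (b2 || b3) + g2 16 10 10 (b0 || b1) (b3 || b4) + g2 16 10 10 (b1) (b4 || b5) + g2 16 13 10 (b2) (b5)) := by decide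
  have key := key b0 b1 b2 b3 b4 b5
  unfold KeyIneq at key
  refine ⟨by linarith [key.1], fun h h' => ?_⟩
  have := key.2 h h'
  linarith

/-- lifts (0, 1) (2, 3) (5, 6), 8 target lifts -/
lemma wc_leaf20 {K M ζ em e0 e1 : ℤ} {R R' : ℤ → Prop} (hM : 0 < M) (hs : StepRel K M R R')
    (hem : em = 0 ∨ em = 1) (he0 : e0 = 0 ∨ e0 = 1) (he1 : e1 = 0 ∨ e1 = 1)
    (hx1 : -K ≤ 3 * ζ) (hx2 : 3 * (ζ - M) < -K)
    (am1 : -K ≤ 3 * (4 * ζ + K + em))
    (am2 : 3 * (4 * ζ + K + em - 4 * M) < -K)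
    (az1 : -K ≤ 3 * (4 * ζ + e0 + 4 * M * 2))
    (az2 : 3 * (4 * ζ + e0 + 4 * M * 2 - 4 * M) < -K)
    (ap1 : -K ≤ 3 * (4 * ζ - K + e1 + 4 * M * 5))
    (ap2 : 3 * (4 * ζ - K + e1 + 4 * M * 5 - 4 * M) < -K)
    (cm0 : 3 * (4 * ζ + K + em + 4 * M) ≤ K + 4 * M - 1)
    (cm1 : ¬ -K ≤ 3 * (4 * ζ + K + em - 3 * M))
    (cm2 : ¬ 3 * (4 * ζ + K + em + 7 * M) ≤ K + 4 * M - 1)
    (cz0 : 3 * (4 * ζ + e0 + 4 * M * 2 + 4 * M) ≤ K + 4 * M - 1)
    (cz1 : ¬ -K ≤ 3 * (4 * ζ + e0 + 4 * M * 2 - 3 * M))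
    (cz2 : ¬ 3 * (4 * ζ + e0 + 4 * M * 2 + 7 * M) ≤ K + 4 * M - 1)
    (cp0 : 3 * (4 * ζ - K + e1 + 4 * M * 5 + 4 * M) ≤ K + 4 * M - 1)
    (cp1 : -K ≤ 3 * (4 * ζ - K + e1 + 4 * M * 5 - 3 * M))
    (t00 : 3 * (ζ + 4 * M) ≤ K + 4 * M - 1)
    (t01 : ¬ -K ≤ 3 * (ζ - 3 * M))
    (t02 : 3 * (ζ + 7 * M) ≤ K + 4 * M - 1)
    (t10 : 3 * (ζ + M * 1 + 4 * M) ≤ K + 4 * M - 1)
    (t11 : ¬ -K ≤ 3 * (ζ + M * 1 - 3 * M))
    (t12 : ¬ 3 * (ζ + M * 1 + 7 * M) ≤ K + 4 * M - 1)
    (t20 : 3 * (ζ + M * 2 + 4 * M) ≤ K + 4 * M - 1)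
    (t21 : ¬ -K ≤ 3 * (ζ + M * 2 - 3 * M))
    (t22 : ¬ 3 * (ζ + M * 2 + 7 * M) ≤ K + 4 * M - 1)
    (t30 : 3 * (ζ + M * 3 + 4 * M) ≤ K + 4 * M - 1)
    (t31 : -K ≤ 3 * (ζ + M * 3 - 3 * M)) :
    Ineq 6 8 5 16 (tabC K M) K M R R' ζ em e0 e1 := by
  classical
  have hN : 0 < 4 * M := by linarith
  have qm := G_eq (tab := tabC K M) (K := K) (N := 4 * M) (R := R) (z := 4 * ζ + K + em) (w := 4 * ζ + K + em) hN (by linarith) (by linarith)
    ⟨0, by ring⟩
  have qz := G_eq (tab := tabC K M) (K := K) (N := 4 * M) (R := R) (z := 4 * ζ + e0) (w := 4 * ζ + e0 + 4 * M * 2) hN (by linarith) (by linarith)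
    ⟨2, by ring⟩
  have qp := G_eq (tab := tabC K M) (K := K) (N := 4 * M) (R := R) (z := 4 * ζ - K + e1) (w := 4 * ζ - K + e1 + 4 * M * 5) hN (by linarith) (by linarith)
    ⟨5, by ring⟩
  have r0 := G_eq (tab := tabC K M) (K := K) (N := 4 * M) (R := R') (z := ζ) (w := ζ) hN (by linarith) (by linarith)
    ⟨0, by ring⟩
  have r1 := G_eq (tab := tabC K M) (K := K) (N := 4 * M) (R := R') (z := ζ + M * 1) (w := ζ + M * 1) hN (by linarith) (by linarith)
    ⟨0, by ring⟩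
  have r2 := G_eq (tab := tabC K M) (K := K) (N := 4 * M) (R := R') (z := ζ + M * 2) (w := ζ + M * 2) hN (by linarith) (by linarith)
    ⟨0, by ring⟩
  have r3 := G_eq (tab := tabC K M) (K := K) (N := 4 * M) (R := R') (z := ζ + M * 3) (w := ζ + M * 3) hN (by linarith) (by linarith)
    ⟨0, by ring⟩
  rw [tabC, if_pos cm0, if_neg cm1, if_neg cm2] at qm
  rw [tabC, if_pos cz0, if_neg cz1, if_neg cz2] at qz
  rw [tabC, if_pos cp0, if_pos cp1] at qp
  rw [tabC, if_pos t00, if_neg t01, if_pos t02] at r0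
  rw [tabC, if_pos t10, if_neg t11, if_neg t12] at r1
  rw [tabC, if_pos t20, if_neg t21, if_neg t22] at r2
  rw [tabC, if_pos t30, if_pos t31] at r3
  have Em0 : ∀ n : ℤ, (n = 0 ∨ n = 0 + 1) → decide (R (4 * ζ + K + em)) = true → decide (R' (ζ + M * n)) = true := by
    intro n hn h
    have h := of_decide_eq_true h
    rcases hn with rfl | rfl
    · exact decide_eq_true (hs.d0 (a := -1) (e := em) (m := 0) (by simp) (by assumption) (by ring) h rfl)
    · exact decide_eq_true (hs.d1 (a := -1) (e := em) (m := 0) (by simp) (by assumption) (by ring) h rfl)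
  have Em1 : ∀ n : ℤ, (n = 1 ∨ n = 1 + 1) → decide (R (4 * ζ + K + em + 4 * M)) = true → decide (R' (ζ + M * n)) = true := by
    intro n hn h
    have h := of_decide_eq_true h
    rcases hn with rfl | rfl
    · exact decide_eq_true (hs.d0 (a := -1) (e := em) (m := 1) (by simp) (by assumption) (by ring) h rfl)
    · exact decide_eq_true (hs.d1 (a := -1) (e := em) (m := 1) (by simp) (by assumption) (by ring) h rfl)
  have Ez2 : ∀ n : ℤ, (n = 2 ∨ n = 2 + 1) → decide (R (4 * ζ + e0 + 4 * M * 2)) = true → decide (R' (ζ + M * n)) = true := by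
    intro n hn h
    have h := of_decide_eq_true h
    rcases hn with rfl | rfl
    · exact decide_eq_true (hs.d0 (a := 0) (e := e0) (m := 2) (by simp) (by assumption) (by ring) h rfl)
    · exact decide_eq_true (hs.d1 (a := 0) (e := e0) (m := 2) (by simp) (by assumption) (by ring) h rfl)
  have Ez3 : ∀ n : ℤ, (n = 3 ∨ n = 3 + 1) → decide (R (4 * ζ + e0 + 4 * M * 2 + 4 * M)) = true → decide (R' (ζ + M * n)) = true := by
    intro n hn h
    have h := of_decide_eq_true h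
    rcases hn with rfl | rfl
    · exact decide_eq_true (hs.d0 (a := 0) (e := e0) (m := 3) (by simp) (by assumption) (by ring) h rfl)
    · exact decide_eq_true (hs.d1 (a := 0) (e := e0) (m := 3) (by simp) (by assumption) (by ring) h rfl)
  have Ep5 : ∀ n : ℤ, (n = 5 ∨ n = 5 + 1) → decide (R (4 * ζ - K + e1 + 4 * M * 5)) = true → decide (R' (ζ + M * n)) = true := by
    intro n hn h
    have h := of_decide_eq_true h
    rcases hn with rfl | rfl
    · exact decide_eq_true (hs.d0 (a := 1) (e := e1) (m := 5) (by simp) (by assumption) (by ring) h rfl)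
    · exact decide_eq_true (hs.d1 (a := 1) (e := e1) (m := 5) (by simp) (by assumption) (by ring) h rfl)
  have Ep6 : ∀ n : ℤ, (n = 6 ∨ n = 6 + 1) → decide (R (4 * ζ - K + e1 + 4 * M * 5 + 4 * M)) = true → decide (R' (ζ + M * n)) = true := by
    intro n hn h
    have h := of_decide_eq_true h
    rcases hn with rfl | rfl
    · exact decide_eq_true (hs.d0 (a := 1) (e := e1) (m := 6) (by simp) (by assumption) (by ring) h rfl)
    · exact decide_eq_true (hs.d1 (a := 1) (e := e1) (m := 6) (by simp) (by assumption) (by ring) h rfl)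
  unfold Ineq
  rw [qm, qz, qp]
  generalize decide (R (4 * ζ + K + em)) = b0 at Em0 ⊢
  generalize decide (R (4 * ζ + K + em + 4 * M)) = b1 at Em1 ⊢
  generalize decide (R (4 * ζ + e0 + 4 * M * 2)) = b2 at Ez2 ⊢
  generalize decide (R (4 * ζ + e0 + 4 * M * 2 + 4 * M)) = b3 at Ez3 ⊢
  generalize decide (R (4 * ζ - K + e1 + 4 * M * 5)) = b4 at Ep5 ⊢
  generalize decide (R (4 * ζ - K + e1 + 4 * M * 5 + 4 * M)) = b5 at Ep6 ⊢
  have T0 : (b0) = true → decide (R' (ζ + M * 0)) = true := by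
    intro h
    exact Em0 0 (by norm_num) h
  have T1 : (b0 || b1) = true → decide (R' (ζ + M * 1)) = true := by
    intro h
    simp only [Bool.or_eq_true] at h
    rcases h with (h | h)
    · exact Em0 1 (by norm_num) h
    · exact Em1 1 (by norm_num) h
  have T2 : (b1 || b2) = true → decide (R' (ζ + M * 2)) = true := by
    intro h
    simp only [Bool.or_eq_true] at h
    rcases h with (h | h)
    · exact Em1 2 (by norm_num) h
    · exact Ez2 2 (by norm_num) h
  have T3 : (b2 || b3) = true → decide (R' (ζ + M * 3)) = true := by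
    intro h
    simp only [Bool.or_eq_true] at h
    rcases h with (h | h)
    · exact Ez2 3 (by norm_num) h
    · exact Ez3 3 (by norm_num) h
  have T4 : (b3) = true → decide (R' (ζ + M * 4)) = true := by
    intro h
    exact Ez3 4 (by norm_num) h
  have T5 : (b4) = true → decide (R' (ζ + M * 5)) = true := by
    intro h
    exact Ep5 5 (by norm_num) h
  have T6 : (b4 || b5) = true → decide (R' (ζ + M * 6)) = true := by
    intro h
    simp only [Bool.or_eq_true] at h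
    rcases h with (h | h)
    · exact Ep5 6 (by norm_num) h
    · exact Ep6 6 (by norm_num) h
  have T7 : (b5) = true → decide (R' (ζ + M * 7)) = true := by
    intro h
    exact Ep6 7 (by norm_num) h
  have u0 : g2 16 10 13 (b0) (b3) ≤ G (tabC K M) K (4 * M) R' (ζ) := by
    rw [r0, show ζ + 4 * M = ζ + M * 4 by ring]
    have T0' := T0; rw [show ζ + M * 0 = ζ by ring] at T0'
    exact g2_mono (by norm_num) (by norm_num) (by norm_num) (by norm_num) T0' T4
  have u1 : g2 16 10 10 (b0 || b1) (b4) ≤ G (tabC K M) K (4 * M) R' (ζ + M * 1) := by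
    rw [r1, show ζ + M * 1 + 4 * M = ζ + M * 5 by ring]
    exact g2_mono (by norm_num) (by norm_num) (by norm_num) (by norm_num) T1 T5
  have u2 : g2 16 10 10 (b1 || b2) (b4 || b5) ≤ G (tabC K M) K (4 * M) R' (ζ + M * 2) := by
    rw [r2, show ζ + M * 2 + 4 * M = ζ + M * 6 by ring]
    exact g2_mono (by norm_num) (by norm_num) (by norm_num) (by norm_num) T2 T6
  have u3 : g2 16 13 10 (b2 || b3) (b5) ≤ G (tabC K M) K (4 * M) R' (ζ + M * 3) := by
    rw [r3, show ζ + M * 3 + 4 * M = ζ + M * 7 by ring]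
    exact g2_mono (by norm_num) (by norm_num) (by norm_num) (by norm_num) T3 T7
  have key : ∀ b0 b1 b2 b3 b4 b5 : Bool, KeyIneq 6 8 5 16 (g2 16 10 10 b0 b1) (g2 16 10 10 b2 b3) (g2 16 13 10 b4 b5)
      (g2 16 10 13 (b0) (b3) + g2 16 10 10 (b0 || b1) (b4) + g2 16 10 10 (b1 || b2) (b4 || b5) + g2 16 13 10 (b2 || b3) (b5)) := by decide
  have key := key b0 b1 b2 b3 b4 b5
  unfold KeyIneq at key
  refine ⟨by linarith [key.1], fun h h' => ?_⟩
  have := key.2 h h'
  linarith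

/-- lifts (0, 1) (2, 3) (4, 5), 7 target lifts -/
lemma wc_leaf21 {K M ζ em e0 e1 : ℤ} {R R' : ℤ → Prop} (hM : 0 < M) (hs : StepRel K M R R')
    (hem : em = 0 ∨ em = 1) (he0 : e0 = 0 ∨ e0 = 1) (he1 : e1 = 0 ∨ e1 = 1)
    (hx1 : -K ≤ 3 * ζ) (hx2 : 3 * (ζ - M) < -K)
    (am1 : -K ≤ 3 * (4 * ζ + K + em))
    (am2 : 3 * (4 * ζ + K + em - 4 * M) < -K)
    (az1 : -K ≤ 3 * (4 * ζ + e0 + 4 * M * 2))
    (az2 : 3 * (4 * ζ + e0 + 4 * M * 2 - 4 * M) < -K)
    (ap1 : -K ≤ 3 * (4 * ζ - K + e1 + 4 * M * 4))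
    (ap2 : 3 * (4 * ζ - K + e1 + 4 * M * 4 - 4 * M) < -K)
    (cm0 : 3 * (4 * ζ + K + em + 4 * M) ≤ K + 4 * M - 1)
    (cm1 : -K ≤ 3 * (4 * ζ + K + em - 3 * M))
    (cz0 : 3 * (4 * ζ + e0 + 4 * M * 2 + 4 * M) ≤ K + 4 * M - 1)
    (cz1 : ¬ -K ≤ 3 * (4 * ζ + e0 + 4 * M * 2 - 3 * M))
    (cz2 : ¬ 3 * (4 * ζ + e0 + 4 * M * 2 + 7 * M) ≤ K + 4 * M - 1)
    (cp0 : 3 * (4 * ζ - K + e1 + 4 * M * 4 + 4 * M) ≤ K + 4 * M - 1)
    (cp1 : ¬ -K ≤ 3 * (4 * ζ - K + e1 + 4 * M * 4 - 3 * M))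
    (cp2 : 3 * (4 * ζ - K + e1 + 4 * M * 4 + 7 * M) ≤ K + 4 * M - 1)
    (t00 : 3 * (ζ + 4 * M) ≤ K + 4 * M - 1)
    (t01 : ¬ -K ≤ 3 * (ζ - 3 * M))
    (t02 : ¬ 3 * (ζ + 7 * M) ≤ K + 4 * M - 1)
    (t10 : 3 * (ζ + M * 1 + 4 * M) ≤ K + 4 * M - 1)
    (t11 : ¬ -K ≤ 3 * (ζ + M * 1 - 3 * M))
    (t12 : ¬ 3 * (ζ + M * 1 + 7 * M) ≤ K + 4 * M - 1)
    (t20 : 3 * (ζ + M * 2 + 4 * M) ≤ K + 4 * M - 1)
    (t21 : ¬ -K ≤ 3 * (ζ + M * 2 - 3 * M))
    (t22 : ¬ 3 * (ζ + M * 2 + 7 * M) ≤ K + 4 * M - 1)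
    (t30 : ¬ 3 * (ζ + M * 3 + 4 * M) ≤ K + 4 * M - 1) :
    Ineq 6 8 5 16 (tabC K M) K M R R' ζ em e0 e1 := by
  classical
  have hN : 0 < 4 * M := by linarith
  have qm := G_eq (tab := tabC K M) (K := K) (N := 4 * M) (R := R) (z := 4 * ζ + K + em) (w := 4 * ζ + K + em) hN (by linarith) (by linarith)
    ⟨0, by ring⟩
  have qz := G_eq (tab := tabC K M) (K := K) (N := 4 * M) (R := R) (z := 4 * ζ + e0) (w := 4 * ζ + e0 + 4 * M * 2) hN (by linarith) (by linarith)
    ⟨2, by ring⟩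
  have qp := G_eq (tab := tabC K M) (K := K) (N := 4 * M) (R := R) (z := 4 * ζ - K + e1) (w := 4 * ζ - K + e1 + 4 * M * 4) hN (by linarith) (by linarith)
    ⟨4, by ring⟩
  have r0 := G_eq (tab := tabC K M) (K := K) (N := 4 * M) (R := R') (z := ζ) (w := ζ) hN (by linarith) (by linarith)
    ⟨0, by ring⟩
  have r1 := G_eq (tab := tabC K M) (K := K) (N := 4 * M) (R := R') (z := ζ + M * 1) (w := ζ + M * 1) hN (by linarith) (by linarith)
    ⟨0, by ring⟩
  have r2 := G_eq (tab := tabC K M) (K := K) (N := 4 * M) (R := R') (z := ζ + M * 2) (w := ζ + M * 2) hN (by linarith) (by linarith)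
    ⟨0, by ring⟩
  have r3 := G_eq (tab := tabC K M) (K := K) (N := 4 * M) (R := R') (z := ζ + M * 3) (w := ζ + M * 3) hN (by linarith) (by linarith)
    ⟨0, by ring⟩
  rw [tabC, if_pos cm0, if_pos cm1] at qm
  rw [tabC, if_pos cz0, if_neg cz1, if_neg cz2] at qz
  rw [tabC, if_pos cp0, if_neg cp1, if_pos cp2] at qp
  rw [tabC, if_pos t00, if_neg t01, if_neg t02] at r0
  rw [tabC, if_pos t10, if_neg t11, if_neg t12] at r1
  rw [tabC, if_pos t20, if_neg t21, if_neg t22] at r2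
  rw [tabC, if_neg t30] at r3
  have Em0 : ∀ n : ℤ, (n = 0 ∨ n = 0 + 1) → decide (R (4 * ζ + K + em)) = true → decide (R' (ζ + M * n)) = true := by
    intro n hn h
    have h := of_decide_eq_true h
    rcases hn with rfl | rfl
    · exact decide_eq_true (hs.d0 (a := -1) (e := em) (m := 0) (by simp) (by assumption) (by ring) h rfl)
    · exact decide_eq_true (hs.d1 (a := -1) (e := em) (m := 0) (by simp) (by assumption) (by ring) h rfl)
  have Em1 : ∀ n : ℤ, (n = 1 ∨ n = 1 + 1) → decide (R (4 * ζ + K + em + 4 * M)) = true → decide (R' (ζ + M * n)) = true := by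
    intro n hn h
    have h := of_decide_eq_true h
    rcases hn with rfl | rfl
    · exact decide_eq_true (hs.d0 (a := -1) (e := em) (m := 1) (by simp) (by assumption) (by ring) h rfl)
    · exact decide_eq_true (hs.d1 (a := -1) (e := em) (m := 1) (by simp) (by assumption) (by ring) h rfl)
  have Ez2 : ∀ n : ℤ, (n = 2 ∨ n = 2 + 1) → decide (R (4 * ζ + e0 + 4 * M * 2)) = true → decide (R' (ζ + M * n)) = true := by
    intro n hn h
    have h := of_decide_eq_true h
    rcases hn with rfl | rfl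
    · exact decide_eq_true (hs.d0 (a := 0) (e := e0) (m := 2) (by simp) (by assumption) (by ring) h rfl)
    · exact decide_eq_true (hs.d1 (a := 0) (e := e0) (m := 2) (by simp) (by assumption) (by ring) h rfl)
  have Ez3 : ∀ n : ℤ, (n = 3 ∨ n = 3 + 1) → decide (R (4 * ζ + e0 + 4 * M * 2 + 4 * M)) = true → decide (R' (ζ + M * n)) = true := by
    intro n hn h
    have h := of_decide_eq_true h
    rcases hn with rfl | rfl
    · exact decide_eq_true (hs.d0 (a := 0) (e := e0) (m := 3) (by simp) (by assumption) (by ring) h rfl)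
    · exact decide_eq_true (hs.d1 (a := 0) (e := e0) (m := 3) (by simp) (by assumption) (by ring) h rfl)
  have Ep4 : ∀ n : ℤ, (n = 4 ∨ n = 4 + 1) → decide (R (4 * ζ - K + e1 + 4 * M * 4)) = true → decide (R' (ζ + M * n)) = true := by
    intro n hn h
    have h := of_decide_eq_true h
    rcases hn with rfl | rfl
    · exact decide_eq_true (hs.d0 (a := 1) (e := e1) (m := 4) (by simp) (by assumption) (by ring) h rfl)
    · exact decide_eq_true (hs.d1 (a := 1) (e := e1) (m := 4) (by simp) (by assumption) (by ring) h rfl)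
  have Ep5 : ∀ n : ℤ, (n = 5 ∨ n = 5 + 1) → decide (R (4 * ζ - K + e1 + 4 * M * 4 + 4 * M)) = true → decide (R' (ζ + M * n)) = true := by
    intro n hn h
    have h := of_decide_eq_true h
    rcases hn with rfl | rfl
    · exact decide_eq_true (hs.d0 (a := 1) (e := e1) (m := 5) (by simp) (by assumption) (by ring) h rfl)
    · exact decide_eq_true (hs.d1 (a := 1) (e := e1) (m := 5) (by simp) (by assumption) (by ring) h rfl)
  unfold Ineq
  rw [qm, qz, qp]
  generalize decide (R (4 * ζ + K + em)) = b0 at Em0 ⊢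
  generalize decide (R (4 * ζ + K + em + 4 * M)) = b1 at Em1 ⊢
  generalize decide (R (4 * ζ + e0 + 4 * M * 2)) = b2 at Ez2 ⊢
  generalize decide (R (4 * ζ + e0 + 4 * M * 2 + 4 * M)) = b3 at Ez3 ⊢
  generalize decide (R (4 * ζ - K + e1 + 4 * M * 4)) = b4 at Ep4 ⊢
  generalize decide (R (4 * ζ - K + e1 + 4 * M * 4 + 4 * M)) = b5 at Ep5 ⊢
  have T0 : (b0) = true → decide (R' (ζ + M * 0)) = true := by
    intro h
    exact Em0 0 (by norm_num) h
  have T1 : (b0 || b1) = true → decide (R' (ζ + M * 1)) = true := by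
    intro h
    simp only [Bool.or_eq_true] at h
    rcases h with (h | h)
    · exact Em0 1 (by norm_num) h
    · exact Em1 1 (by norm_num) h
  have T2 : (b1 || b2) = true → decide (R' (ζ + M * 2)) = true := by
    intro h
    simp only [Bool.or_eq_true] at h
    rcases h with (h | h)
    · exact Em1 2 (by norm_num) h
    · exact Ez2 2 (by norm_num) h
  have T3 : (b2 || b3) = true → decide (R' (ζ + M * 3)) = true := by
    intro h
    simp only [Bool.or_eq_true] at h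
    rcases h with (h | h)
    · exact Ez2 3 (by norm_num) h
    · exact Ez3 3 (by norm_num) h
  have T4 : (b3 || b4) = true → decide (R' (ζ + M * 4)) = true := by
    intro h
    simp only [Bool.or_eq_true] at h
    rcases h with (h | h)
    · exact Ez3 4 (by norm_num) h
    · exact Ep4 4 (by norm_num) h
  have T5 : (b4 || b5) = true → decide (R' (ζ + M * 5)) = true := by
    intro h
    simp only [Bool.or_eq_true] at h
    rcases h with (h | h)
    · exact Ep4 5 (by norm_num) h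
    · exact Ep5 5 (by norm_num) h
  have T6 : (b5) = true → decide (R' (ζ + M * 6)) = true := by
    intro h
    exact Ep5 6 (by norm_num) h
  have u0 : g2 16 10 10 (b0) (b3 || b4) ≤ G (tabC K M) K (4 * M) R' (ζ) := by
    rw [r0, show ζ + 4 * M = ζ + M * 4 by ring]
    have T0' := T0; rw [show ζ + M * 0 = ζ by ring] at T0'
    exact g2_mono (by norm_num) (by norm_num) (by norm_num) (by norm_num) T0' T4
  have u1 : g2 16 10 10 (b0 || b1) (b4 || b5) ≤ G (tabC K M) K (4 * M) R' (ζ + M * 1) := by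
    rw [r1, show ζ + M * 1 + 4 * M = ζ + M * 5 by ring]
    exact g2_mono (by norm_num) (by norm_num) (by norm_num) (by norm_num) T1 T5
  have u2 : g2 16 10 10 (b1 || b2) (b5) ≤ G (tabC K M) K (4 * M) R' (ζ + M * 2) := by
    rw [r2, show ζ + M * 2 + 4 * M = ζ + M * 6 by ring]
    exact g2_mono (by norm_num) (by norm_num) (by norm_num) (by norm_num) T2 T6
  have u3 : g1 16 (b2 || b3) ≤ G (tabC K M) K (4 * M) R' (ζ + M * 3) := by
    rw [r3]
    exact g1_mono (by norm_num) T3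
  have key : ∀ b0 b1 b2 b3 b4 b5 : Bool, KeyIneq 6 8 5 16 (g2 16 13 10 b0 b1) (g2 16 10 10 b2 b3) (g2 16 10 13 b4 b5)
      (g2 16 10 10 (b0) (b3 || b4) + g2 16 10 10 (b0 || b1) (b4 || b5) + g2 16 10 10 (b1 || b2) (b5) + g1 16 (b2 || b3)) := by decide
  have key := key b0 b1 b2 b3 b4 b5
  unfold KeyIneq at key
  refine ⟨by linarith [key.1], fun h h' => ?_⟩
  have := key.2 h h'
  linarith

/-- lifts (0, 1) (2, 3) (5,), 7 target lifts -/
lemma wc_leaf22 {K M ζ em e0 e1 : ℤ} {R R' : ℤ → Prop} (hM : 0 < M) (hs : StepRel K M R R')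
    (hem : em = 0 ∨ em = 1) (he0 : e0 = 0 ∨ e0 = 1) (he1 : e1 = 0 ∨ e1 = 1)
    (hx1 : -K ≤ 3 * ζ) (hx2 : 3 * (ζ - M) < -K)
    (am1 : -K ≤ 3 * (4 * ζ + K + em))
    (am2 : 3 * (4 * ζ + K + em - 4 * M) < -K)
    (az1 : -K ≤ 3 * (4 * ζ + e0 + 4 * M * 2))
    (az2 : 3 * (4 * ζ + e0 + 4 * M * 2 - 4 * M) < -K)
    (ap1 : -K ≤ 3 * (4 * ζ - K + e1 + 4 * M * 5))
    (ap2 : 3 * (4 * ζ - K + e1 + 4 * M * 5 - 4 * M) < -K)
    (cm0 : 3 * (4 * ζ + K + em + 4 * M) ≤ K + 4 * M - 1)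
    (cm1 : -K ≤ 3 * (4 * ζ + K + em - 3 * M))
    (cz0 : 3 * (4 * ζ + e0 + 4 * M * 2 + 4 * M) ≤ K + 4 * M - 1)
    (cz1 : ¬ -K ≤ 3 * (4 * ζ + e0 + 4 * M * 2 - 3 * M))
    (cz2 : ¬ 3 * (4 * ζ + e0 + 4 * M * 2 + 7 * M) ≤ K + 4 * M - 1)
    (cp0 : ¬ 3 * (4 * ζ - K + e1 + 4 * M * 5 + 4 * M) ≤ K + 4 * M - 1)
    (t00 : 3 * (ζ + 4 * M) ≤ K + 4 * M - 1)
    (t01 : ¬ -K ≤ 3 * (ζ - 3 * M))
    (t02 : ¬ 3 * (ζ + 7 * M) ≤ K + 4 * M - 1)
    (t10 : 3 * (ζ + M * 1 + 4 * M) ≤ K + 4 * M - 1)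
    (t11 : ¬ -K ≤ 3 * (ζ + M * 1 - 3 * M))
    (t12 : ¬ 3 * (ζ + M * 1 + 7 * M) ≤ K + 4 * M - 1)
    (t20 : 3 * (ζ + M * 2 + 4 * M) ≤ K + 4 * M - 1)
    (t21 : ¬ -K ≤ 3 * (ζ + M * 2 - 3 * M))
    (t22 : ¬ 3 * (ζ + M * 2 + 7 * M) ≤ K + 4 * M - 1)
    (t30 : ¬ 3 * (ζ + M * 3 + 4 * M) ≤ K + 4 * M - 1) :
    Ineq 6 8 5 16 (tabC K M) K M R R' ζ em e0 e1 := by
  classical
  have hN : 0 < 4 * M := by linarith
  have qm := G_eq (tab := tabC K M) (K := K) (N := 4 * M) (R := R) (z := 4 * ζ + K + em) (w := 4 * ζ + K + em) hN (by linarith) (by linarith)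
    ⟨0, by ring⟩
  have qz := G_eq (tab := tabC K M) (K := K) (N := 4 * M) (R := R) (z := 4 * ζ + e0) (w := 4 * ζ + e0 + 4 * M * 2) hN (by linarith) (by linarith)
    ⟨2, by ring⟩
  have qp := G_eq (tab := tabC K M) (K := K) (N := 4 * M) (R := R) (z := 4 * ζ - K + e1) (w := 4 * ζ - K + e1 + 4 * M * 5) hN (by linarith) (by linarith)
    ⟨5, by ring⟩
  have r0 := G_eq (tab := tabC K M) (K := K) (N := 4 * M) (R := R') (z := ζ) (w := ζ) hN (by linarith) (by linarith)
    ⟨0, by ring⟩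
  have r1 := G_eq (tab := tabC K M) (K := K) (N := 4 * M) (R := R') (z := ζ + M * 1) (w := ζ + M * 1) hN (by linarith) (by linarith)
    ⟨0, by ring⟩
  have r2 := G_eq (tab := tabC K M) (K := K) (N := 4 * M) (R := R') (z := ζ + M * 2) (w := ζ + M * 2) hN (by linarith) (by linarith)
    ⟨0, by ring⟩
  have r3 := G_eq (tab := tabC K M) (K := K) (N := 4 * M) (R := R') (z := ζ + M * 3) (w := ζ + M * 3) hN (by linarith) (by linarith)
    ⟨0, by ring⟩
  rw [tabC, if_pos cm0, if_pos cm1] at qm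
  rw [tabC, if_pos cz0, if_neg cz1, if_neg cz2] at qz
  rw [tabC, if_neg cp0] at qp
  rw [tabC, if_pos t00, if_neg t01, if_neg t02] at r0
  rw [tabC, if_pos t10, if_neg t11, if_neg t12] at r1
  rw [tabC, if_pos t20, if_neg t21, if_neg t22] at r2
  rw [tabC, if_neg t30] at r3
  have Em0 : ∀ n : ℤ, (n = 0 ∨ n = 0 + 1) → decide (R (4 * ζ + K + em)) = true → decide (R' (ζ + M * n)) = true := by
    intro n hn h
    have h := of_decide_eq_true h
    rcases hn with rfl | rfl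
    · exact decide_eq_true (hs.d0 (a := -1) (e := em) (m := 0) (by simp) (by assumption) (by ring) h rfl)
    · exact decide_eq_true (hs.d1 (a := -1) (e := em) (m := 0) (by simp) (by assumption) (by ring) h rfl)
  have Em1 : ∀ n : ℤ, (n = 1 ∨ n = 1 + 1) → decide (R (4 * ζ + K + em + 4 * M)) = true → decide (R' (ζ + M * n)) = true := by
    intro n hn h
    have h := of_decide_eq_true h
    rcases hn with rfl | rfl
    · exact decide_eq_true (hs.d0 (a := -1) (e := em) (m := 1) (by simp) (by assumption) (by ring) h rfl)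
    · exact decide_eq_true (hs.d1 (a := -1) (e := em) (m := 1) (by simp) (by assumption) (by ring) h rfl)
  have Ez2 : ∀ n : ℤ, (n = 2 ∨ n = 2 + 1) → decide (R (4 * ζ + e0 + 4 * M * 2)) = true → decide (R' (ζ + M * n)) = true := by
    intro n hn h
    have h := of_decide_eq_true h
    rcases hn with rfl | rfl
    · exact decide_eq_true (hs.d0 (a := 0) (e := e0) (m := 2) (by simp) (by assumption) (by ring) h rfl)
    · exact decide_eq_true (hs.d1 (a := 0) (e := e0) (m := 2) (by simp) (by assumption) (by ring) h rfl)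
  have Ez3 : ∀ n : ℤ, (n = 3 ∨ n = 3 + 1) → decide (R (4 * ζ + e0 + 4 * M * 2 + 4 * M)) = true → decide (R' (ζ + M * n)) = true := by
    intro n hn h
    have h := of_decide_eq_true h
    rcases hn with rfl | rfl
    · exact decide_eq_true (hs.d0 (a := 0) (e := e0) (m := 3) (by simp) (by assumption) (by ring) h rfl)
    · exact decide_eq_true (hs.d1 (a := 0) (e := e0) (m := 3) (by simp) (by assumption) (by ring) h rfl)
  have Ep5 : ∀ n : ℤ, (n = 5 ∨ n = 5 + 1) → decide (R (4 * ζ - K + e1 + 4 * M * 5)) = true → decide (R' (ζ + M * n)) = true := by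
    intro n hn h
    have h := of_decide_eq_true h
    rcases hn with rfl | rfl
    · exact decide_eq_true (hs.d0 (a := 1) (e := e1) (m := 5) (by simp) (by assumption) (by ring) h rfl)
    · exact decide_eq_true (hs.d1 (a := 1) (e := e1) (m := 5) (by simp) (by assumption) (by ring) h rfl)
  unfold Ineq
  rw [qm, qz, qp]
  generalize decide (R (4 * ζ + K + em)) = b0 at Em0 ⊢
  generalize decide (R (4 * ζ + K + em + 4 * M)) = b1 at Em1 ⊢
  generalize decide (R (4 * ζ + e0 + 4 * M * 2)) = b2 at Ez2 ⊢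
  generalize decide (R (4 * ζ + e0 + 4 * M * 2 + 4 * M)) = b3 at Ez3 ⊢
  generalize decide (R (4 * ζ - K + e1 + 4 * M * 5)) = b4 at Ep5 ⊢
  have T0 : (b0) = true → decide (R' (ζ + M * 0)) = true := by
    intro h
    exact Em0 0 (by norm_num) h
  have T1 : (b0 || b1) = true → decide (R' (ζ + M * 1)) = true := by
    intro h
    simp only [Bool.or_eq_true] at h
    rcases h with (h | h)
    · exact Em0 1 (by norm_num) h
    · exact Em1 1 (by norm_num) h
  have T2 : (b1 || b2) = true → decide (R' (ζ + M * 2)) = true := by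
    intro h
    simp only [Bool.or_eq_true] at h
    rcases h with (h | h)
    · exact Em1 2 (by norm_num) h
    · exact Ez2 2 (by norm_num) h
  have T3 : (b2 || b3) = true → decide (R' (ζ + M * 3)) = true := by
    intro h
    simp only [Bool.or_eq_true] at h
    rcases h with (h | h)
    · exact Ez2 3 (by norm_num) h
    · exact Ez3 3 (by norm_num) h
  have T4 : (b3) = true → decide (R' (ζ + M * 4)) = true := by
    intro h
    exact Ez3 4 (by norm_num) h
  have T5 : (b4) = true → decide (R' (ζ + M * 5)) = true := by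
    intro h
    exact Ep5 5 (by norm_num) h
  have T6 : (b4) = true → decide (R' (ζ + M * 6)) = true := by
    intro h
    exact Ep5 6 (by norm_num) h
  have u0 : g2 16 10 10 (b0) (b3) ≤ G (tabC K M) K (4 * M) R' (ζ) := by
    rw [r0, show ζ + 4 * M = ζ + M * 4 by ring]
    have T0' := T0; rw [show ζ + M * 0 = ζ by ring] at T0'
    exact g2_mono (by norm_num) (by norm_num) (by norm_num) (by norm_num) T0' T4
  have u1 : g2 16 10 10 (b0 || b1) (b4) ≤ G (tabC K M) K (4 * M) R' (ζ + M * 1) := by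
    rw [r1, show ζ + M * 1 + 4 * M = ζ + M * 5 by ring]
    exact g2_mono (by norm_num) (by norm_num) (by norm_num) (by norm_num) T1 T5
  have u2 : g2 16 10 10 (b1 || b2) (b4) ≤ G (tabC K M) K (4 * M) R' (ζ + M * 2) := by
    rw [r2, show ζ + M * 2 + 4 * M = ζ + M * 6 by ring]
    exact g2_mono (by norm_num) (by norm_num) (by norm_num) (by norm_num) T2 T6
  have u3 : g1 16 (b2 || b3) ≤ G (tabC K M) K (4 * M) R' (ζ + M * 3) := by
    rw [r3]
    exact g1_mono (by norm_num) T3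
  have key : ∀ b0 b1 b2 b3 b4 : Bool, KeyIneq 6 8 5 16 (g2 16 13 10 b0 b1) (g2 16 10 10 b2 b3) (g1 16 b4)
      (g2 16 10 10 (b0) (b3) + g2 16 10 10 (b0 || b1) (b4) + g2 16 10 10 (b1 || b2) (b4) + g1 16 (b2 || b3)) := by decide
  have key := key b0 b1 b2 b3 b4
  unfold KeyIneq at key
  refine ⟨by linarith [key.1], fun h h' => ?_⟩
  have := key.2 h h'
  linarith

/-- lifts (0,) (2, 3) (4, 5), 7 target lifts -/
lemma wc_leaf23 {K M ζ em e0 e1 : ℤ} {R R' : ℤ → Prop} (hM : 0 < M) (hs : StepRel K M R R')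
    (hem : em = 0 ∨ em = 1) (he0 : e0 = 0 ∨ e0 = 1) (he1 : e1 = 0 ∨ e1 = 1)
    (hx1 : -K ≤ 3 * ζ) (hx2 : 3 * (ζ - M) < -K)
    (am1 : -K ≤ 3 * (4 * ζ + K + em))
    (am2 : 3 * (4 * ζ + K + em - 4 * M) < -K)
    (az1 : -K ≤ 3 * (4 * ζ + e0 + 4 * M * 2))
    (az2 : 3 * (4 * ζ + e0 + 4 * M * 2 - 4 * M) < -K)
    (ap1 : -K ≤ 3 * (4 * ζ - K + e1 + 4 * M * 4))
    (ap2 : 3 * (4 * ζ - K + e1 + 4 * M * 4 - 4 * M) < -K)
    (cm0 : ¬ 3 * (4 * ζ + K + em + 4 * M) ≤ K + 4 * M - 1)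
    (cz0 : 3 * (4 * ζ + e0 + 4 * M * 2 + 4 * M) ≤ K + 4 * M - 1)
    (cz1 : ¬ -K ≤ 3 * (4 * ζ + e0 + 4 * M * 2 - 3 * M))
    (cz2 : ¬ 3 * (4 * ζ + e0 + 4 * M * 2 + 7 * M) ≤ K + 4 * M - 1)
    (cp0 : 3 * (4 * ζ - K + e1 + 4 * M * 4 + 4 * M) ≤ K + 4 * M - 1)
    (cp1 : ¬ -K ≤ 3 * (4 * ζ - K + e1 + 4 * M * 4 - 3 * M))
    (cp2 : 3 * (4 * ζ - K + e1 + 4 * M * 4 + 7 * M) ≤ K + 4 * M - 1)
    (t00 : 3 * (ζ + 4 * M) ≤ K + 4 * M - 1)
    (t01 : ¬ -K ≤ 3 * (ζ - 3 * M))
    (t02 : ¬ 3 * (ζ + 7 * M) ≤ K + 4 * M - 1)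
    (t10 : 3 * (ζ + M * 1 + 4 * M) ≤ K + 4 * M - 1)
    (t11 : ¬ -K ≤ 3 * (ζ + M * 1 - 3 * M))
    (t12 : ¬ 3 * (ζ + M * 1 + 7 * M) ≤ K + 4 * M - 1)
    (t20 : 3 * (ζ + M * 2 + 4 * M) ≤ K + 4 * M - 1)
    (t21 : ¬ -K ≤ 3 * (ζ + M * 2 - 3 * M))
    (t22 : ¬ 3 * (ζ + M * 2 + 7 * M) ≤ K + 4 * M - 1)
    (t30 : ¬ 3 * (ζ + M * 3 + 4 * M) ≤ K + 4 * M - 1) :
    Ineq 6 8 5 16 (tabC K M) K M R R' ζ em e0 e1 := by
  classical
  have hN : 0 < 4 * M := by linarith
  have qm := G_eq (tab := tabC K M) (K := K) (N := 4 * M) (R := R) (z := 4 * ζ + K + em) (w := 4 * ζ + K + em) hN (by linarith) (by linarith)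
    ⟨0, by ring⟩
  have qz := G_eq (tab := tabC K M) (K := K) (N := 4 * M) (R := R) (z := 4 * ζ + e0) (w := 4 * ζ + e0 + 4 * M * 2) hN (by linarith) (by linarith)
    ⟨2, by ring⟩
  have qp := G_eq (tab := tabC K M) (K := K) (N := 4 * M) (R := R) (z := 4 * ζ - K + e1) (w := 4 * ζ - K + e1 + 4 * M * 4) hN (by linarith) (by linarith)
    ⟨4, by ring⟩
  have r0 := G_eq (tab := tabC K M) (K := K) (N := 4 * M) (R := R') (z := ζ) (w := ζ) hN (by linarith) (by linarith)
    ⟨0, by ring⟩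
  have r1 := G_eq (tab := tabC K M) (K := K) (N := 4 * M) (R := R') (z := ζ + M * 1) (w := ζ + M * 1) hN (by linarith) (by linarith)
    ⟨0, by ring⟩
  have r2 := G_eq (tab := tabC K M) (K := K) (N := 4 * M) (R := R') (z := ζ + M * 2) (w := ζ + M * 2) hN (by linarith) (by linarith)
    ⟨0, by ring⟩
  have r3 := G_eq (tab := tabC K M) (K := K) (N := 4 * M) (R := R') (z := ζ + M * 3) (w := ζ + M * 3) hN (by linarith) (by linarith)
    ⟨0, by ring⟩
  rw [tabC, if_neg cm0] at qm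
  rw [tabC, if_pos cz0, if_neg cz1, if_neg cz2] at qz
  rw [tabC, if_pos cp0, if_neg cp1, if_pos cp2] at qp
  rw [tabC, if_pos t00, if_neg t01, if_neg t02] at r0
  rw [tabC, if_pos t10, if_neg t11, if_neg t12] at r1
  rw [tabC, if_pos t20, if_neg t21, if_neg t22] at r2
  rw [tabC, if_neg t30] at r3
  have Em0 : ∀ n : ℤ, (n = 0 ∨ n = 0 + 1) → decide (R (4 * ζ + K + em)) = true → decide (R' (ζ + M * n)) = true := by
    intro n hn h
    have h := of_decide_eq_true h
    rcases hn with rfl | rfl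
    · exact decide_eq_true (hs.d0 (a := -1) (e := em) (m := 0) (by simp) (by assumption) (by ring) h rfl)
    · exact decide_eq_true (hs.d1 (a := -1) (e := em) (m := 0) (by simp) (by assumption) (by ring) h rfl)
  have Ez2 : ∀ n : ℤ, (n = 2 ∨ n = 2 + 1) → decide (R (4 * ζ + e0 + 4 * M * 2)) = true → decide (R' (ζ + M * n)) = true := by
    intro n hn h
    have h := of_decide_eq_true h
    rcases hn with rfl | rfl
    · exact decide_eq_true (hs.d0 (a := 0) (e := e0) (m := 2) (by simp) (by assumption) (by ring) h rfl)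
    · exact decide_eq_true (hs.d1 (a := 0) (e := e0) (m := 2) (by simp) (by assumption) (by ring) h rfl)
  have Ez3 : ∀ n : ℤ, (n = 3 ∨ n = 3 + 1) → decide (R (4 * ζ + e0 + 4 * M * 2 + 4 * M)) = true → decide (R' (ζ + M * n)) = true := by
    intro n hn h
    have h := of_decide_eq_true h
    rcases hn with rfl | rfl
    · exact decide_eq_true (hs.d0 (a := 0) (e := e0) (m := 3) (by simp) (by assumption) (by ring) h rfl)
    · exact decide_eq_true (hs.d1 (a := 0) (e := e0) (m := 3) (by simp) (by assumption) (by ring) h rfl)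
  have Ep4 : ∀ n : ℤ, (n = 4 ∨ n = 4 + 1) → decide (R (4 * ζ - K + e1 + 4 * M * 4)) = true → decide (R' (ζ + M * n)) = true := by
    intro n hn h
    have h := of_decide_eq_true h
    rcases hn with rfl | rfl
    · exact decide_eq_true (hs.d0 (a := 1) (e := e1) (m := 4) (by simp) (by assumption) (by ring) h rfl)
    · exact decide_eq_true (hs.d1 (a := 1) (e := e1) (m := 4) (by simp) (by assumption) (by ring) h rfl)
  have Ep5 : ∀ n : ℤ, (n = 5 ∨ n = 5 + 1) → decide (R (4 * ζ - K + e1 + 4 * M * 4 + 4 * M)) = true → decide (R' (ζ + M * n)) = true := by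
    intro n hn h
    have h := of_decide_eq_true h
    rcases hn with rfl | rfl
    · exact decide_eq_true (hs.d0 (a := 1) (e := e1) (m := 5) (by simp) (by assumption) (by ring) h rfl)
    · exact decide_eq_true (hs.d1 (a := 1) (e := e1) (m := 5) (by simp) (by assumption) (by ring) h rfl)
  unfold Ineq
  rw [qm, qz, qp]
  generalize decide (R (4 * ζ + K + em)) = b0 at Em0 ⊢
  generalize decide (R (4 * ζ + e0 + 4 * M * 2)) = b1 at Ez2 ⊢
  generalize decide (R (4 * ζ + e0 + 4 * M * 2 + 4 * M)) = b2 at Ez3 ⊢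
  generalize decide (R (4 * ζ - K + e1 + 4 * M * 4)) = b3 at Ep4 ⊢
  generalize decide (R (4 * ζ - K + e1 + 4 * M * 4 + 4 * M)) = b4 at Ep5 ⊢
  have T0 : (b0) = true → decide (R' (ζ + M * 0)) = true := by
    intro h
    exact Em0 0 (by norm_num) h
  have T1 : (b0) = true → decide (R' (ζ + M * 1)) = true := by
    intro h
    exact Em0 1 (by norm_num) h
  have T2 : (b1) = true → decide (R' (ζ + M * 2)) = true := by
    intro h
    exact Ez2 2 (by norm_num) h
  have T3 : (b1 || b2) = true → decide (R' (ζ + M * 3)) = true := by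
    intro h
    simp only [Bool.or_eq_true] at h
    rcases h with (h | h)
    · exact Ez2 3 (by norm_num) h
    · exact Ez3 3 (by norm_num) h
  have T4 : (b2 || b3) = true → decide (R' (ζ + M * 4)) = true := by
    intro h
    simp only [Bool.or_eq_true] at h
    rcases h with (h | h)
    · exact Ez3 4 (by norm_num) h
    · exact Ep4 4 (by norm_num) h
  have T5 : (b3 || b4) = true → decide (R' (ζ + M * 5)) = true := by
    intro h
    simp only [Bool.or_eq_true] at h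
    rcases h with (h | h)
    · exact Ep4 5 (by norm_num) h
    · exact Ep5 5 (by norm_num) h
  have T6 : (b4) = true → decide (R' (ζ + M * 6)) = true := by
    intro h
    exact Ep5 6 (by norm_num) h
  have u0 : g2 16 10 10 (b0) (b2 || b3) ≤ G (tabC K M) K (4 * M) R' (ζ) := by
    rw [r0, show ζ + 4 * M = ζ + M * 4 by ring]
    have T0' := T0; rw [show ζ + M * 0 = ζ by ring] at T0'
    exact g2_mono (by norm_num) (by norm_num) (by norm_num) (by norm_num) T0' T4
  have u1 : g2 16 10 10 (b0) (b3 || b4) ≤ G (tabC K M) K (4 * M) R' (ζ + M * 1) := by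
    rw [r1, show ζ + M * 1 + 4 * M = ζ + M * 5 by ring]
    exact g2_mono (by norm_num) (by norm_num) (by norm_num) (by norm_num) T1 T5
  have u2 : g2 16 10 10 (b1) (b4) ≤ G (tabC K M) K (4 * M) R' (ζ + M * 2) := by
    rw [r2, show ζ + M * 2 + 4 * M = ζ + M * 6 by ring]
    exact g2_mono (by norm_num) (by norm_num) (by norm_num) (by norm_num) T2 T6
  have u3 : g1 16 (b1 || b2) ≤ G (tabC K M) K (4 * M) R' (ζ + M * 3) := by
    rw [r3]
    exact g1_mono (by norm_num) T3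
  have key : ∀ b0 b1 b2 b3 b4 : Bool, KeyIneq 6 8 5 16 (g1 16 b0) (g2 16 10 10 b1 b2) (g2 16 10 13 b3 b4)
      (g2 16 10 10 (b0) (b2 || b3) + g2 16 10 10 (b0) (b3 || b4) + g2 16 10 10 (b1) (b4) + g1 16 (b1 || b2)) := by decide
  have key := key b0 b1 b2 b3 b4
  unfold KeyIneq at key
  refine ⟨by linarith [key.1], fun h h' => ?_⟩
  have := key.2 h h'
  linarith

/-- lifts (0, 1) (3, 4) (5, 6), 8 target lifts -/
lemma wc_leaf24 {K M ζ em e0 e1 : ℤ} {R R' : ℤ → Prop} (hM : 0 < M) (hs : StepRel K M R R')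
    (hem : em = 0 ∨ em = 1) (he0 : e0 = 0 ∨ e0 = 1) (he1 : e1 = 0 ∨ e1 = 1)
    (hx1 : -K ≤ 3 * ζ) (hx2 : 3 * (ζ - M) < -K)
    (am1 : -K ≤ 3 * (4 * ζ + K + em))
    (am2 : 3 * (4 * ζ + K + em - 4 * M) < -K)
    (az1 : -K ≤ 3 * (4 * ζ + e0 + 4 * M * 3))
    (az2 : 3 * (4 * ζ + e0 + 4 * M * 3 - 4 * M) < -K)
    (ap1 : -K ≤ 3 * (4 * ζ - K + e1 + 4 * M * 5))
    (ap2 : 3 * (4 * ζ - K + e1 + 4 * M * 5 - 4 * M) < -K)
    (cm0 : 3 * (4 * ζ + K + em + 4 * M) ≤ K + 4 * M - 1)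
    (cm1 : ¬ -K ≤ 3 * (4 * ζ + K + em - 3 * M))
    (cm2 : ¬ 3 * (4 * ζ + K + em + 7 * M) ≤ K + 4 * M - 1)
    (cz0 : 3 * (4 * ζ + e0 + 4 * M * 3 + 4 * M) ≤ K + 4 * M - 1)
    (cz1 : ¬ -K ≤ 3 * (4 * ζ + e0 + 4 * M * 3 - 3 * M))
    (cz2 : ¬ 3 * (4 * ζ + e0 + 4 * M * 3 + 7 * M) ≤ K + 4 * M - 1)
    (cp0 : 3 * (4 * ζ - K + e1 + 4 * M * 5 + 4 * M) ≤ K + 4 * M - 1)
    (cp1 : ¬ -K ≤ 3 * (4 * ζ - K + e1 + 4 * M * 5 - 3 * M))
    (cp2 : ¬ 3 * (4 * ζ - K + e1 + 4 * M * 5 + 7 * M) ≤ K + 4 * M - 1)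
    (t00 : 3 * (ζ + 4 * M) ≤ K + 4 * M - 1)
    (t01 : ¬ -K ≤ 3 * (ζ - 3 * M))
    (t02 : 3 * (ζ + 7 * M) ≤ K + 4 * M - 1)
    (t10 : 3 * (ζ + M * 1 + 4 * M) ≤ K + 4 * M - 1)
    (t11 : ¬ -K ≤ 3 * (ζ + M * 1 - 3 * M))
    (t12 : ¬ 3 * (ζ + M * 1 + 7 * M) ≤ K + 4 * M - 1)
    (t20 : 3 * (ζ + M * 2 + 4 * M) ≤ K + 4 * M - 1)
    (t21 : ¬ -K ≤ 3 * (ζ + M * 2 - 3 * M))
    (t22 : ¬ 3 * (ζ + M * 2 + 7 * M) ≤ K + 4 * M - 1)
    (t30 : 3 * (ζ + M * 3 + 4 * M) ≤ K + 4 * M - 1)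
    (t31 : -K ≤ 3 * (ζ + M * 3 - 3 * M)) :
    Ineq 6 8 5 16 (tabC K M) K M R R' ζ em e0 e1 := by
  classical
  have hN : 0 < 4 * M := by linarith
  have qm := G_eq (tab := tabC K M) (K := K) (N := 4 * M) (R := R) (z := 4 * ζ + K + em) (w := 4 * ζ + K + em) hN (by linarith) (by linarith)
    ⟨0, by ring⟩
  have qz := G_eq (tab := tabC K M) (K := K) (N := 4 * M) (R := R) (z := 4 * ζ + e0) (w := 4 * ζ + e0 + 4 * M * 3) hN (by linarith) (by linarith)
    ⟨3, by ring⟩
  have qp := G_eq (tab := tabC K M) (K := K) (N := 4 * M) (R := R) (z := 4 * ζ - K + e1) (w := 4 * ζ - K + e1 + 4 * M * 5) hN (by linarith) (by linarith)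
    ⟨5, by ring⟩
  have r0 := G_eq (tab := tabC K M) (K := K) (N := 4 * M) (R := R') (z := ζ) (w := ζ) hN (by linarith) (by linarith)
    ⟨0, by ring⟩
  have r1 := G_eq (tab := tabC K M) (K := K) (N := 4 * M) (R := R') (z := ζ + M * 1) (w := ζ + M * 1) hN (by linarith) (by linarith)
    ⟨0, by ring⟩
  have r2 := G_eq (tab := tabC K M) (K := K) (N := 4 * M) (R := R') (z := ζ + M * 2) (w := ζ + M * 2) hN (by linarith) (by linarith)
    ⟨0, by ring⟩
  have r3 := G_eq (tab := tabC K M) (K := K) (N := 4 * M) (R := R') (z := ζ + M * 3) (w := ζ + M * 3) hN (by linarith) (by linarith)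
    ⟨0, by ring⟩
  rw [tabC, if_pos cm0, if_neg cm1, if_neg cm2] at qm
  rw [tabC, if_pos cz0, if_neg cz1, if_neg cz2] at qz
  rw [tabC, if_pos cp0, if_neg cp1, if_neg cp2] at qp
  rw [tabC, if_pos t00, if_neg t01, if_pos t02] at r0
  rw [tabC, if_pos t10, if_neg t11, if_neg t12] at r1
  rw [tabC, if_pos t20, if_neg t21, if_neg t22] at r2
  rw [tabC, if_pos t30, if_pos t31] at r3
  have Em0 : ∀ n : ℤ, (n = 0 ∨ n = 0 + 1) → decide (R (4 * ζ + K + em)) = true → decide (R' (ζ + M * n)) = true := by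
    intro n hn h
    have h := of_decide_eq_true h
    rcases hn with rfl | rfl
    · exact decide_eq_true (hs.d0 (a := -1) (e := em) (m := 0) (by simp) (by assumption) (by ring) h rfl)
    · exact decide_eq_true (hs.d1 (a := -1) (e := em) (m := 0) (by simp) (by assumption) (by ring) h rfl)
  have Em1 : ∀ n : ℤ, (n = 1 ∨ n = 1 + 1) → decide (R (4 * ζ + K + em + 4 * M)) = true → decide (R' (ζ + M * n)) = true := by
    intro n hn h
    have h := of_decide_eq_true h
    rcases hn with rfl | rfl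
    · exact decide_eq_true (hs.d0 (a := -1) (e := em) (m := 1) (by simp) (by assumption) (by ring) h rfl)
    · exact decide_eq_true (hs.d1 (a := -1) (e := em) (m := 1) (by simp) (by assumption) (by ring) h rfl)
  have Ez3 : ∀ n : ℤ, (n = 3 ∨ n = 3 + 1) → decide (R (4 * ζ + e0 + 4 * M * 3)) = true → decide (R' (ζ + M * n)) = true := by
    intro n hn h
    have h := of_decide_eq_true h
    rcases hn with rfl | rfl
    · exact decide_eq_true (hs.d0 (a := 0) (e := e0) (m := 3) (by simp) (by assumption) (by ring) h rfl)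
    · exact decide_eq_true (hs.d1 (a := 0) (e := e0) (m := 3) (by simp) (by assumption) (by ring) h rfl)
  have Ez4 : ∀ n : ℤ, (n = 4 ∨ n = 4 + 1) → decide (R (4 * ζ + e0 + 4 * M * 3 + 4 * M)) = true → decide (R' (ζ + M * n)) = true := by
    intro n hn h
    have h := of_decide_eq_true h
    rcases hn with rfl | rfl
    · exact decide_eq_true (hs.d0 (a := 0) (e := e0) (m := 4) (by simp) (by assumption) (by ring) h rfl)
    · exact decide_eq_true (hs.d1 (a := 0) (e := e0) (m := 4) (by simp) (by assumption) (by ring) h rfl)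
  have Ep5 : ∀ n : ℤ, (n = 5 ∨ n = 5 + 1) → decide (R (4 * ζ - K + e1 + 4 * M * 5)) = true → decide (R' (ζ + M * n)) = true := by
    intro n hn h
    have h := of_decide_eq_true h
    rcases hn with rfl | rfl
    · exact decide_eq_true (hs.d0 (a := 1) (e := e1) (m := 5) (by simp) (by assumption) (by ring) h rfl)
    · exact decide_eq_true (hs.d1 (a := 1) (e := e1) (m := 5) (by simp) (by assumption) (by ring) h rfl)
  have Ep6 : ∀ n : ℤ, (n = 6 ∨ n = 6 + 1) → decide (R (4 * ζ - K + e1 + 4 * M * 5 + 4 * M)) = true → decide (R' (ζ + M * n)) = true := by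
    intro n hn h
    have h := of_decide_eq_true h
    rcases hn with rfl | rfl
    · exact decide_eq_true (hs.d0 (a := 1) (e := e1) (m := 6) (by simp) (by assumption) (by ring) h rfl)
    · exact decide_eq_true (hs.d1 (a := 1) (e := e1) (m := 6) (by simp) (by assumption) (by ring) h rfl)
  unfold Ineq
  rw [qm, qz, qp]
  generalize decide (R (4 * ζ + K + em)) = b0 at Em0 ⊢
  generalize decide (R (4 * ζ + K + em + 4 * M)) = b1 at Em1 ⊢
  generalize decide (R (4 * ζ + e0 + 4 * M * 3)) = b2 at Ez3 ⊢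
  generalize decide (R (4 * ζ + e0 + 4 * M * 3 + 4 * M)) = b3 at Ez4 ⊢
  generalize decide (R (4 * ζ - K + e1 + 4 * M * 5)) = b4 at Ep5 ⊢
  generalize decide (R (4 * ζ - K + e1 + 4 * M * 5 + 4 * M)) = b5 at Ep6 ⊢
  have T0 : (b0) = true → decide (R' (ζ + M * 0)) = true := by
    intro h
    exact Em0 0 (by norm_num) h
  have T1 : (b0 || b1) = true → decide (R' (ζ + M * 1)) = true := by
    intro h
    simp only [Bool.or_eq_true] at h
    rcases h with (h | h)
    · exact Em0 1 (by norm_num) h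
    · exact Em1 1 (by norm_num) h
  have T2 : (b1) = true → decide (R' (ζ + M * 2)) = true := by
    intro h
    exact Em1 2 (by norm_num) h
  have T3 : (b2) = true → decide (R' (ζ + M * 3)) = true := by
    intro h
    exact Ez3 3 (by norm_num) h
  have T4 : (b2 || b3) = true → decide (R' (ζ + M * 4)) = true := by
    intro h
    simp only [Bool.or_eq_true] at h
    rcases h with (h | h)
    · exact Ez3 4 (by norm_num) h
    · exact Ez4 4 (by norm_num) h
  have T5 : (b3 || b4) = true → decide (R' (ζ + M * 5)) = true := by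
    intro h
    simp only [Bool.or_eq_true] at h
    rcases h with (h | h)
    · exact Ez4 5 (by norm_num) h
    · exact Ep5 5 (by norm_num) h
  have T6 : (b4 || b5) = true → decide (R' (ζ + M * 6)) = true := by
    intro h
    simp only [Bool.or_eq_true] at h
    rcases h with (h | h)
    · exact Ep5 6 (by norm_num) h
    · exact Ep6 6 (by norm_num) h
  have T7 : (b5) = true → decide (R' (ζ + M * 7)) = true := by
    intro h
    exact Ep6 7 (by norm_num) h
  have u0 : g2 16 10 13 (b0) (b2 || b3) ≤ G (tabC K M) K (4 * M) R' (ζ) := by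
    rw [r0, show ζ + 4 * M = ζ + M * 4 by ring]
    have T0' := T0; rw [show ζ + M * 0 = ζ by ring] at T0'
    exact g2_mono (by norm_num) (by norm_num) (by norm_num) (by norm_num) T0' T4
  have u1 : g2 16 10 10 (b0 || b1) (b3 || b4) ≤ G (tabC K M) K (4 * M) R' (ζ + M * 1) := by
    rw [r1, show ζ + M * 1 + 4 * M = ζ + M * 5 by ring]
    exact g2_mono (by norm_num) (by norm_num) (by norm_num) (by norm_num) T1 T5
  have u2 : g2 16 10 10 (b1) (b4 || b5) ≤ G (tabC K M) K (4 * M) R' (ζ + M * 2) := by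
    rw [r2, show ζ + M * 2 + 4 * M = ζ + M * 6 by ring]
    exact g2_mono (by norm_num) (by norm_num) (by norm_num) (by norm_num) T2 T6
  have u3 : g2 16 13 10 (b2) (b5) ≤ G (tabC K M) K (4 * M) R' (ζ + M * 3) := by
    rw [r3, show ζ + M * 3 + 4 * M = ζ + M * 7 by ring]
    exact g2_mono (by norm_num) (by norm_num) (by norm_num) (by norm_num) T3 T7
  have key : ∀ b0 b1 b2 b3 b4 b5 : Bool, KeyIneq 6 8 5 16 (g2 16 10 10 b0 b1) (g2 16 10 10 b2 b3) (g2 16 10 10 b4 b5)
      (g2 16 10 13 (b0) (b2 || b3) + g2 16 10 10 (b0 || b1) (b3 || b4) + g2 16 10 10 (b1) (b4 || b5) + g2 16 13 10 (b2) (b5)) := by decide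
  have key := key b0 b1 b2 b3 b4 b5
  unfold KeyIneq at key
  refine ⟨by linarith [key.1], fun h h' => ?_⟩
  have := key.2 h h'
  linarith

/-- lifts (0, 1) (2, 3) (5, 6), 8 target lifts -/
lemma wc_leaf25 {K M ζ em e0 e1 : ℤ} {R R' : ℤ → Prop} (hM : 0 < M) (hs : StepRel K M R R')
    (hem : em = 0 ∨ em = 1) (he0 : e0 = 0 ∨ e0 = 1) (he1 : e1 = 0 ∨ e1 = 1)
    (hx1 : -K ≤ 3 * ζ) (hx2 : 3 * (ζ - M) < -K)
    (am1 : -K ≤ 3 * (4 * ζ + K + em))
    (am2 : 3 * (4 * ζ + K + em - 4 * M) < -K)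
    (az1 : -K ≤ 3 * (4 * ζ + e0 + 4 * M * 2))
    (az2 : 3 * (4 * ζ + e0 + 4 * M * 2 - 4 * M) < -K)
    (ap1 : -K ≤ 3 * (4 * ζ - K + e1 + 4 * M * 5))
    (ap2 : 3 * (4 * ζ - K + e1 + 4 * M * 5 - 4 * M) < -K)
    (cm0 : 3 * (4 * ζ + K + em + 4 * M) ≤ K + 4 * M - 1)
    (cm1 : ¬ -K ≤ 3 * (4 * ζ + K + em - 3 * M))
    (cm2 : ¬ 3 * (4 * ζ + K + em + 7 * M) ≤ K + 4 * M - 1)
    (cz0 : 3 * (4 * ζ + e0 + 4 * M * 2 + 4 * M) ≤ K + 4 * M - 1)
    (cz1 : ¬ -K ≤ 3 * (4 * ζ + e0 + 4 * M * 2 - 3 * M))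
    (cz2 : ¬ 3 * (4 * ζ + e0 + 4 * M * 2 + 7 * M) ≤ K + 4 * M - 1)
    (cp0 : 3 * (4 * ζ - K + e1 + 4 * M * 5 + 4 * M) ≤ K + 4 * M - 1)
    (cp1 : ¬ -K ≤ 3 * (4 * ζ - K + e1 + 4 * M * 5 - 3 * M))
    (cp2 : ¬ 3 * (4 * ζ - K + e1 + 4 * M * 5 + 7 * M) ≤ K + 4 * M - 1)
    (t00 : 3 * (ζ + 4 * M) ≤ K + 4 * M - 1)
    (t01 : ¬ -K ≤ 3 * (ζ - 3 * M))
    (t02 : 3 * (ζ + 7 * M) ≤ K + 4 * M - 1)
    (t10 : 3 * (ζ + M * 1 + 4 * M) ≤ K + 4 * M - 1)
    (t11 : ¬ -K ≤ 3 * (ζ + M * 1 - 3 * M))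
    (t12 : ¬ 3 * (ζ + M * 1 + 7 * M) ≤ K + 4 * M - 1)
    (t20 : 3 * (ζ + M * 2 + 4 * M) ≤ K + 4 * M - 1)
    (t21 : ¬ -K ≤ 3 * (ζ + M * 2 - 3 * M))
    (t22 : ¬ 3 * (ζ + M * 2 + 7 * M) ≤ K + 4 * M - 1)
    (t30 : 3 * (ζ + M * 3 + 4 * M) ≤ K + 4 * M - 1)
    (t31 : -K ≤ 3 * (ζ + M * 3 - 3 * M)) :
    Ineq 6 8 5 16 (tabC K M) K M R R' ζ em e0 e1 := by
  classical
  have hN : 0 < 4 * M := by linarith
  have qm := G_eq (tab := tabC K M) (K := K) (N := 4 * M) (R := R) (z := 4 * ζ + K + em) (w := 4 * ζ + K + em) hN (by linarith) (by linarith)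
    ⟨0, by ring⟩
  have qz := G_eq (tab := tabC K M) (K := K) (N := 4 * M) (R := R) (z := 4 * ζ + e0) (w := 4 * ζ + e0 + 4 * M * 2) hN (by linarith) (by linarith)
    ⟨2, by ring⟩
  have qp := G_eq (tab := tabC K M) (K := K) (N := 4 * M) (R := R) (z := 4 * ζ - K + e1) (w := 4 * ζ - K + e1 + 4 * M * 5) hN (by linarith) (by linarith)
    ⟨5, by ring⟩
  have r0 := G_eq (tab := tabC K M) (K := K) (N := 4 * M) (R := R') (z := ζ) (w := ζ) hN (by linarith) (by linarith)
    ⟨0, by ring⟩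
  have r1 := G_eq (tab := tabC K M) (K := K) (N := 4 * M) (R := R') (z := ζ + M * 1) (w := ζ + M * 1) hN (by linarith) (by linarith)
    ⟨0, by ring⟩
  have r2 := G_eq (tab := tabC K M) (K := K) (N := 4 * M) (R := R') (z := ζ + M * 2) (w := ζ + M * 2) hN (by linarith) (by linarith)
    ⟨0, by ring⟩
  have r3 := G_eq (tab := tabC K M) (K := K) (N := 4 * M) (R := R') (z := ζ + M * 3) (w := ζ + M * 3) hN (by linarith) (by linarith)
    ⟨0, by ring⟩
  rw [tabC, if_pos cm0, if_neg cm1, if_neg cm2] at qm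
  rw [tabC, if_pos cz0, if_neg cz1, if_neg cz2] at qz
  rw [tabC, if_pos cp0, if_neg cp1, if_neg cp2] at qp
  rw [tabC, if_pos t00, if_neg t01, if_pos t02] at r0
  rw [tabC, if_pos t10, if_neg t11, if_neg t12] at r1
  rw [tabC, if_pos t20, if_neg t21, if_neg t22] at r2
  rw [tabC, if_pos t30, if_pos t31] at r3
  have Em0 : ∀ n : ℤ, (n = 0 ∨ n = 0 + 1) → decide (R (4 * ζ + K + em)) = true → decide (R' (ζ + M * n)) = true := by
    intro n hn h
    have h := of_decide_eq_true h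
    rcases hn with rfl | rfl
    · exact decide_eq_true (hs.d0 (a := -1) (e := em) (m := 0) (by simp) (by assumption) (by ring) h rfl)
    · exact decide_eq_true (hs.d1 (a := -1) (e := em) (m := 0) (by simp) (by assumption) (by ring) h rfl)
  have Em1 : ∀ n : ℤ, (n = 1 ∨ n = 1 + 1) → decide (R (4 * ζ + K + em + 4 * M)) = true → decide (R' (ζ + M * n)) = true := by
    intro n hn h
    have h := of_decide_eq_true h
    rcases hn with rfl | rfl
    · exact decide_eq_true (hs.d0 (a := -1) (e := em) (m := 1) (by simp) (by assumption) (by ring) h rfl)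
    · exact decide_eq_true (hs.d1 (a := -1) (e := em) (m := 1) (by simp) (by assumption) (by ring) h rfl)
  have Ez2 : ∀ n : ℤ, (n = 2 ∨ n = 2 + 1) → decide (R (4 * ζ + e0 + 4 * M * 2)) = true → decide (R' (ζ + M * n)) = true := by
    intro n hn h
    have h := of_decide_eq_true h
    rcases hn with rfl | rfl
    · exact decide_eq_true (hs.d0 (a := 0) (e := e0) (m := 2) (by simp) (by assumption) (by ring) h rfl)
    · exact decide_eq_true (hs.d1 (a := 0) (e := e0) (m := 2) (by simp) (by assumption) (by ring) h rfl)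
  have Ez3 : ∀ n : ℤ, (n = 3 ∨ n = 3 + 1) → decide (R (4 * ζ + e0 + 4 * M * 2 + 4 * M)) = true → decide (R' (ζ + M * n)) = true := by
    intro n hn h
    have h := of_decide_eq_true h
    rcases hn with rfl | rfl
    · exact decide_eq_true (hs.d0 (a := 0) (e := e0) (m := 3) (by simp) (by assumption) (by ring) h rfl)
    · exact decide_eq_true (hs.d1 (a := 0) (e := e0) (m := 3) (by simp) (by assumption) (by ring) h rfl)
  have Ep5 : ∀ n : ℤ, (n = 5 ∨ n = 5 + 1) → decide (R (4 * ζ - K + e1 + 4 * M * 5)) = true → decide (R' (ζ + M * n)) = true := by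
    intro n hn h
    have h := of_decide_eq_true h
    rcases hn with rfl | rfl
    · exact decide_eq_true (hs.d0 (a := 1) (e := e1) (m := 5) (by simp) (by assumption) (by ring) h rfl)
    · exact decide_eq_true (hs.d1 (a := 1) (e := e1) (m := 5) (by simp) (by assumption) (by ring) h rfl)
  have Ep6 : ∀ n : ℤ, (n = 6 ∨ n = 6 + 1) → decide (R (4 * ζ - K + e1 + 4 * M * 5 + 4 * M)) = true → decide (R' (ζ + M * n)) = true := by
    intro n hn h
    have h := of_decide_eq_true h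
    rcases hn with rfl | rfl
    · exact decide_eq_true (hs.d0 (a := 1) (e := e1) (m := 6) (by simp) (by assumption) (by ring) h rfl)
    · exact decide_eq_true (hs.d1 (a := 1) (e := e1) (m := 6) (by simp) (by assumption) (by ring) h rfl)
  unfold Ineq
  rw [qm, qz, qp]
  generalize decide (R (4 * ζ + K + em)) = b0 at Em0 ⊢
  generalize decide (R (4 * ζ + K + em + 4 * M)) = b1 at Em1 ⊢
  generalize decide (R (4 * ζ + e0 + 4 * M * 2)) = b2 at Ez2 ⊢
  generalize decide (R (4 * ζ + e0 + 4 * M * 2 + 4 * M)) = b3 at Ez3 ⊢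
  generalize decide (R (4 * ζ - K + e1 + 4 * M * 5)) = b4 at Ep5 ⊢
  generalize decide (R (4 * ζ - K + e1 + 4 * M * 5 + 4 * M)) = b5 at Ep6 ⊢
  have T0 : (b0) = true → decide (R' (ζ + M * 0)) = true := by
    intro h
    exact Em0 0 (by norm_num) h
  have T1 : (b0 || b1) = true → decide (R' (ζ + M * 1)) = true := by
    intro h
    simp only [Bool.or_eq_true] at h
    rcases h with (h | h)
    · exact Em0 1 (by norm_num) h
    · exact Em1 1 (by norm_num) h
  have T2 : (b1 || b2) = true → decide (R' (ζ + M * 2)) = true := by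
    intro h
    simp only [Bool.or_eq_true] at h
    rcases h with (h | h)
    · exact Em1 2 (by norm_num) h
    · exact Ez2 2 (by norm_num) h
  have T3 : (b2 || b3) = true → decide (R' (ζ + M * 3)) = true := by
    intro h
    simp only [Bool.or_eq_true] at h
    rcases h with (h | h)
    · exact Ez2 3 (by norm_num) h
    · exact Ez3 3 (by norm_num) h
  have T4 : (b3) = true → decide (R' (ζ + M * 4)) = true := by
    intro h
    exact Ez3 4 (by norm_num) h
  have T5 : (b4) = true → decide (R' (ζ + M * 5)) = true := by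
    intro h
    exact Ep5 5 (by norm_num) h
  have T6 : (b4 || b5) = true → decide (R' (ζ + M * 6)) = true := by
    intro h
    simp only [Bool.or_eq_true] at h
    rcases h with (h | h)
    · exact Ep5 6 (by norm_num) h
    · exact Ep6 6 (by norm_num) h
  have T7 : (b5) = true → decide (R' (ζ + M * 7)) = true := by
    intro h
    exact Ep6 7 (by norm_num) h
  have u0 : g2 16 10 13 (b0) (b3) ≤ G (tabC K M) K (4 * M) R' (ζ) := by
    rw [r0, show ζ + 4 * M = ζ + M * 4 by ring]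
    have T0' := T0; rw [show ζ + M * 0 = ζ by ring] at T0'
    exact g2_mono (by norm_num) (by norm_num) (by norm_num) (by norm_num) T0' T4
  have u1 : g2 16 10 10 (b0 || b1) (b4) ≤ G (tabC K M) K (4 * M) R' (ζ + M * 1) := by
    rw [r1, show ζ + M * 1 + 4 * M = ζ + M * 5 by ring]
    exact g2_mono (by norm_num) (by norm_num) (by norm_num) (by norm_num) T1 T5
  have u2 : g2 16 10 10 (b1 || b2) (b4 || b5) ≤ G (tabC K M) K (4 * M) R' (ζ + M * 2) := by
    rw [r2, show ζ + M * 2 + 4 * M = ζ + M * 6 by ring]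
    exact g2_mono (by norm_num) (by norm_num) (by norm_num) (by norm_num) T2 T6
  have u3 : g2 16 13 10 (b2 || b3) (b5) ≤ G (tabC K M) K (4 * M) R' (ζ + M * 3) := by
    rw [r3, show ζ + M * 3 + 4 * M = ζ + M * 7 by ring]
    exact g2_mono (by norm_num) (by norm_num) (by norm_num) (by norm_num) T3 T7
  have key : ∀ b0 b1 b2 b3 b4 b5 : Bool, KeyIneq 6 8 5 16 (g2 16 10 10 b0 b1) (g2 16 10 10 b2 b3) (g2 16 10 10 b4 b5)
      (g2 16 10 13 (b0) (b3) + g2 16 10 10 (b0 || b1) (b4) + g2 16 10 10 (b1 || b2) (b4 || b5) + g2 16 13 10 (b2 || b3) (b5)) := by decide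
  have key := key b0 b1 b2 b3 b4 b5
  unfold KeyIneq at key
  refine ⟨by linarith [key.1], fun h h' => ?_⟩
  have := key.2 h h'
  linarith

theorem wc_core {K M ζ em e0 e1 : ℤ} {R R' : ℤ → Prop} (hM : 0 < M) (hs : StepRel K M R R')
    (hem : em = 0 ∨ em = 1) (he0 : e0 = 0 ∨ e0 = 1) (he1 : e1 = 0 ∨ e1 = 1)
    (hx1 : -K ≤ 3 * ζ) (hx2 : 3 * (ζ - M) < -K) (hM4 : 4 ≤ M) (hM3 : M % 3 = 1) (hK1 : 17 * M < 2 * K) (hK2 : K < 10 * M) :
    Ineq 6 8 5 16 (tabC K M) K M R R' ζ em e0 e1 := by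
  by_cases hcz22 : 3 * (4 * ζ + e0 + 4 * M * 2 + 7 * M) ≤ K + 4 * M - 1
  · by_cases hcm02 : 3 * (4 * ζ + K + em + 7 * M) ≤ K + 4 * M - 1
    · by_cases hcz30 : 3 * (4 * ζ + e0 + 4 * M * 3 + 4 * M) ≤ K + 4 * M - 1
      · by_cases hcz31 : -K ≤ 3 * (4 * ζ + e0 + 4 * M * 3 - 3 * M)
        · exact wc_leaf5 hM hs hem he0 he1 hx1 hx2 (by omega) (by omega) (by omega) (by omega) (by omega) (by omega) (by omega) (by omega) (by omega) (by omega) (by omega) (by omega) (by omega) (by omega) (by omega) (by omega) (by omega) (by omega) (by omega) (by omega) (by omega) (by omega) (by omega) (by omega) (by omega)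
        · by_cases hcp52 : 3 * (4 * ζ - K + e1 + 4 * M * 5 + 7 * M) ≤ K + 4 * M - 1
          · exact wc_leaf11 hM hs hem he0 he1 hx1 hx2 (by omega) (by omega) (by omega) (by omega) (by omega) (by omega) (by omega) (by omega) (by omega) (by omega) (by omega) (by omega) (by omega) (by omega) (by omega) (by omega) (by omega) (by omega) (by omega) (by omega) (by omega) (by omega) (by omega) (by omega) (by omega) (by omega)
          · exact wc_leaf19 hM hs hem he0 he1 hx1 hx2 (by omega) (by omega) (by omega) (by omega) (by omega) (by omega) (by omega) (by omega) (by omega) (by omega) (by omega) (by omega) (by omega) (by omega) (by omega) (by omega) (by omega) (by omega) (by omega) (by omega) (by omega) (by omega) (by omega) (by omega) (by omega) (by omega)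
      · by_cases hcp51 : -K ≤ 3 * (4 * ζ - K + e1 + 4 * M * 5 - 3 * M)
        · exact wc_leaf14 hM hs hem he0 he1 hx1 hx2 (by omega) (by omega) (by omega) (by omega) (by omega) (by omega) (by omega) (by omega) (by omega) (by omega) (by omega) (by omega) (by omega) (by omega) (by omega) (by omega) (by omega) (by omega) (by omega) (by omega) (by omega) (by omega) (by omega)
        · exact wc_leaf13 hM hs hem he0 he1 hx1 hx2 (by omega) (by omega) (by omega) (by omega) (by omega) (by omega) (by omega) (by omega) (by omega) (by omega) (by omega) (by omega) (by omega) (by omega) (by omega) (by omega) (by omega) (by omega) (by omega) (by omega) (by omega) (by omega) (by omega) (by omega)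
    · by_cases hcp51 : -K ≤ 3 * (4 * ζ - K + e1 + 4 * M * 5 - 3 * M)
      · by_cases hcp50 : 3 * (4 * ζ - K + e1 + 4 * M * 5 + 4 * M) ≤ K + 4 * M - 1
        · by_cases hloz2 : -K ≤ 3 * (4 * ζ + e0 + 4 * M * 2)
          · exact wc_leaf6 hM hs hem he0 he1 hx1 hx2 (by omega) (by omega) (by omega) (by omega) (by omega) (by omega) (by omega) (by omega) (by omega) (by omega) (by omega) (by omega) (by omega) (by omega) (by omega) (by omega) (by omega) (by omega) (by omega) (by omega) (by omega) (by omega) (by omega) (by omega) (by omega)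
          · exact wc_leaf16 hM hs hem he0 he1 hx1 hx2 (by omega) (by omega) (by omega) (by omega) (by omega) (by omega) (by omega) (by omega) (by omega) (by omega) (by omega) (by omega) (by omega) (by omega) (by omega) (by omega) (by omega) (by omega) (by omega) (by omega) (by omega) (by omega) (by omega)
        · by_cases hloz2 : -K ≤ 3 * (4 * ζ + e0 + 4 * M * 2)
          · exact wc_leaf17 hM hs hem he0 he1 hx1 hx2 (by omega) (by omega) (by omega) (by omega) (by omega) (by omega) (by omega) (by omega) (by omega) (by omega) (by omega) (by omega) (by omega) (by omega) (by omega) (by omega) (by omega) (by omega) (by omega) (by omega) (by omega) (by omega) (by omega)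
          · exact wc_leaf0 hM hs hem he0 he1 hx1 hx2 (by omega) (by omega) (by omega) (by omega) (by omega) (by omega) (by omega) (by omega) (by omega) (by omega) (by omega) (by omega) (by omega) (by omega) (by omega) (by omega) (by omega) (by omega) (by omega) (by omega) (by omega)
      · by_cases hcz30 : 3 * (4 * ζ + e0 + 4 * M * 3 + 4 * M) ≤ K + 4 * M - 1
        · by_cases hcz31 : -K ≤ 3 * (4 * ζ + e0 + 4 * M * 3 - 3 * M)
          · exact wc_leaf9 hM hs hem he0 he1 hx1 hx2 (by omega) (by omega) (by omega) (by omega) (by omega) (by omega) (by omega) (by omega) (by omega) (by omega) (by omega) (by omega) (by omega) (by omega) (by omega) (by omega) (by omega) (by omega) (by omega) (by omega) (by omega) (by omega) (by omega) (by omega) (by omega)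
          · exact wc_leaf24 hM hs hem he0 he1 hx1 hx2 (by omega) (by omega) (by omega) (by omega) (by omega) (by omega) (by omega) (by omega) (by omega) (by omega) (by omega) (by omega) (by omega) (by omega) (by omega) (by omega) (by omega) (by omega) (by omega) (by omega) (by omega) (by omega) (by omega) (by omega) (by omega) (by omega)
        · by_cases hloz2 : -K ≤ 3 * (4 * ζ + e0 + 4 * M * 2)
          · exact wc_leaf10 hM hs hem he0 he1 hx1 hx2 (by omega) (by omega) (by omega) (by omega) (by omega) (by omega) (by omega) (by omega) (by omega) (by omega) (by omega) (by omega) (by omega) (by omega) (by omega) (by omega) (by omega) (by omega) (by omega) (by omega) (by omega) (by omega) (by omega) (by omega) (by omega) (by omega)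
          · exact wc_leaf15 hM hs hem he0 he1 hx1 hx2 (by omega) (by omega) (by omega) (by omega) (by omega) (by omega) (by omega) (by omega) (by omega) (by omega) (by omega) (by omega) (by omega) (by omega) (by omega) (by omega) (by omega) (by omega) (by omega) (by omega) (by omega) (by omega) (by omega) (by omega)
  · by_cases hcm01 : -K ≤ 3 * (4 * ζ + K + em - 3 * M)
    · by_cases hcm00 : 3 * (4 * ζ + K + em + 4 * M) ≤ K + 4 * M - 1
      · by_cases hlop4 : -K ≤ 3 * (4 * ζ - K + e1 + 4 * M * 4)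
        · by_cases hcp42 : 3 * (4 * ζ - K + e1 + 4 * M * 4 + 7 * M) ≤ K + 4 * M - 1
          · exact wc_leaf21 hM hs hem he0 he1 hx1 hx2 (by omega) (by omega) (by omega) (by omega) (by omega) (by omega) (by omega) (by omega) (by omega) (by omega) (by omega) (by omega) (by omega) (by omega) (by omega) (by omega) (by omega) (by omega) (by omega) (by omega) (by omega) (by omega) (by omega) (by omega)
          · exact wc_leaf8 hM hs hem he0 he1 hx1 hx2 (by omega) (by omega) (by omega) (by omega) (by omega) (by omega) (by omega) (by omega) (by omega) (by omega) (by omega) (by omega) (by omega) (by omega) (by omega) (by omega) (by omega) (by omega) (by omega) (by omega) (by omega) (by omega) (by omega) (by omega)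
        · by_cases hcp50 : 3 * (4 * ζ - K + e1 + 4 * M * 5 + 4 * M) ≤ K + 4 * M - 1
          · exact wc_leaf12 hM hs hem he0 he1 hx1 hx2 (by omega) (by omega) (by omega) (by omega) (by omega) (by omega) (by omega) (by omega) (by omega) (by omega) (by omega) (by omega) (by omega) (by omega) (by omega) (by omega) (by omega) (by omega) (by omega) (by omega) (by omega) (by omega) (by omega) (by omega)
          · exact wc_leaf22 hM hs hem he0 he1 hx1 hx2 (by omega) (by omega) (by omega) (by omega) (by omega) (by omega) (by omega) (by omega) (by omega) (by omega) (by omega) (by omega) (by omega) (by omega) (by omega) (by omega) (by omega) (by omega) (by omega) (by omega) (by omega) (by omega)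
      · by_cases hcz21 : -K ≤ 3 * (4 * ζ + e0 + 4 * M * 2 - 3 * M)
        · by_cases hcz20 : 3 * (4 * ζ + e0 + 4 * M * 2 + 4 * M) ≤ K + 4 * M - 1
          · exact wc_leaf18 hM hs hem he0 he1 hx1 hx2 (by omega) (by omega) (by omega) (by omega) (by omega) (by omega) (by omega) (by omega) (by omega) (by omega) (by omega) (by omega) (by omega) (by omega) (by omega) (by omega) (by omega) (by omega) (by omega) (by omega) (by omega) (by omega)
          · exact wc_leaf4 hM hs hem he0 he1 hx1 hx2 (by omega) (by omega) (by omega) (by omega) (by omega) (by omega) (by omega) (by omega) (by omega) (by omega) (by omega) (by omega) (by omega) (by omega) (by omega) (by omega) (by omega) (by omega) (by omega) (by omega) (by omega)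
        · by_cases hcp42 : 3 * (4 * ζ - K + e1 + 4 * M * 4 + 7 * M) ≤ K + 4 * M - 1
          · exact wc_leaf23 hM hs hem he0 he1 hx1 hx2 (by omega) (by omega) (by omega) (by omega) (by omega) (by omega) (by omega) (by omega) (by omega) (by omega) (by omega) (by omega) (by omega) (by omega) (by omega) (by omega) (by omega) (by omega) (by omega) (by omega) (by omega) (by omega) (by omega)
          · exact wc_leaf3 hM hs hem he0 he1 hx1 hx2 (by omega) (by omega) (by omega) (by omega) (by omega) (by omega) (by omega) (by omega) (by omega) (by omega) (by omega) (by omega) (by omega) (by omega) (by omega) (by omega) (by omega) (by omega) (by omega) (by omega) (by omega) (by omega) (by omega)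
    · by_cases hcp50 : 3 * (4 * ζ - K + e1 + 4 * M * 5 + 4 * M) ≤ K + 4 * M - 1
      · by_cases hcp51 : -K ≤ 3 * (4 * ζ - K + e1 + 4 * M * 5 - 3 * M)
        · exact wc_leaf20 hM hs hem he0 he1 hx1 hx2 (by omega) (by omega) (by omega) (by omega) (by omega) (by omega) (by omega) (by omega) (by omega) (by omega) (by omega) (by omega) (by omega) (by omega) (by omega) (by omega) (by omega) (by omega) (by omega) (by omega) (by omega) (by omega) (by omega) (by omega) (by omega)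
        · exact wc_leaf25 hM hs hem he0 he1 hx1 hx2 (by omega) (by omega) (by omega) (by omega) (by omega) (by omega) (by omega) (by omega) (by omega) (by omega) (by omega) (by omega) (by omega) (by omega) (by omega) (by omega) (by omega) (by omega) (by omega) (by omega) (by omega) (by omega) (by omega) (by omega) (by omega) (by omega)
      · by_cases hlop4 : -K ≤ 3 * (4 * ζ - K + e1 + 4 * M * 4)
        · by_cases hcp42 : 3 * (4 * ζ - K + e1 + 4 * M * 4 + 7 * M) ≤ K + 4 * M - 1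
          · exact wc_leaf7 hM hs hem he0 he1 hx1 hx2 (by omega) (by omega) (by omega) (by omega) (by omega) (by omega) (by omega) (by omega) (by omega) (by omega) (by omega) (by omega) (by omega) (by omega) (by omega) (by omega) (by omega) (by omega) (by omega) (by omega) (by omega) (by omega) (by omega) (by omega) (by omega)
          · exact wc_leaf2 hM hs hem he0 he1 hx1 hx2 (by omega) (by omega) (by omega) (by omega) (by omega) (by omega) (by omega) (by omega) (by omega) (by omega) (by omega) (by omega) (by omega) (by omega) (by omega) (by omega) (by omega) (by omega) (by omega) (by omega) (by omega) (by omega) (by omega) (by omega) (by omega)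
        · exact wc_leaf1 hM hs hem he0 he1 hx1 hx2 (by omega) (by omega) (by omega) (by omega) (by omega) (by omega) (by omega) (by omega) (by omega) (by omega) (by omega) (by omega) (by omega) (by omega) (by omega) (by omega) (by omega) (by omega) (by omega) (by omega) (by omega) (by omega) (by omega)

end Pool.Agent.H62.LV
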