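import Pool.Agent.H62.LV.Ineq

/-! window 10 M < K < 12 M (generated case analysis) -/

set_option linter.unusedVariables false
set_option maxRecDepth 10000
set_option maxHeartbeats 4000000

namespace Pool.Agent.H62.LV

/-- lifts (0, 1) (3, 4) (5, 6), 8 target lifts -/
lemma we_leaf0 {K M ζ em e0 e1 : ℤ} {R R' : ℤ → Prop} (hM : 0 < M) (hs : StepRel K M R R')
    (hem : em = 0 ∨ em = 1) (he0 : e0 = 0 ∨ e0 = 1) (he1 : e1 = 0 ∨ e1 = 1)
    (hx1 : -K ≤ 3 * ζ) (hx2 : 3 * (ζ - M) < -K)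
    (am1 : -K ≤ 3 * (4 * ζ + K + em))
    (am2 : 3 * (4 * ζ + K + em - 4 * M) < -K)
    (az1 : -K ≤ 3 * (4 * ζ + e0 + 4 * M * 3))
    (az2 : 3 * (4 * ζ + e0 + 4 * M * 3 - 4 * M) < -K)
    (ap1 : -K ≤ 3 * (4 * ζ - K + e1 + 4 * M * 5))
    (ap2 : 3 * (4 * ζ - K + e1 + 4 * M * 5 - 4 * M) < -K)
    (cm0 : ¬ 3 * (4 * ζ + K + em + 8 * M) ≤ K + 4 * M - 1)
    (cz0 : ¬ 3 * (4 * ζ + e0 + 4 * M * 3 + 8 * M) ≤ K + 4 * M - 1)
    (cp0 : ¬ 3 * (4 * ζ - K + e1 + 4 * M * 5 + 8 * M) ≤ K + 4 * M - 1)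
    (t00 : ¬ 3 * (ζ + 8 * M) ≤ K + 4 * M - 1)
    (t10 : ¬ 3 * (ζ + M * 1 + 8 * M) ≤ K + 4 * M - 1)
    (t20 : ¬ 3 * (ζ + M * 2 + 8 * M) ≤ K + 4 * M - 1)
    (t30 : ¬ 3 * (ζ + M * 3 + 8 * M) ≤ K + 4 * M - 1) :
    Ineq 4 4 3 10 (tabE K M) K M R R' ζ em e0 e1 := by
  classical
  have hN : 0 < 4 * M := by linarith
  have qm := G_eq (tab := tabE K M) (K := K) (N := 4 * M) (R := R) (z := 4 * ζ + K + em) (w := 4 * ζ + K + em) hN (by linarith) (by linarith)
    ⟨0, by ring⟩
  have qz := G_eq (tab := tabE K M) (K := K) (N := 4 * M) (R := R) (z := 4 * ζ + e0) (w := 4 * ζ + e0 + 4 * M * 3) hN (by linarith) (by linarith)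
    ⟨3, by ring⟩
  have qp := G_eq (tab := tabE K M) (K := K) (N := 4 * M) (R := R) (z := 4 * ζ - K + e1) (w := 4 * ζ - K + e1 + 4 * M * 5) hN (by linarith) (by linarith)
    ⟨5, by ring⟩
  have r0 := G_eq (tab := tabE K M) (K := K) (N := 4 * M) (R := R') (z := ζ) (w := ζ) hN (by linarith) (by linarith)
    ⟨0, by ring⟩
  have r1 := G_eq (tab := tabE K M) (K := K) (N := 4 * M) (R := R') (z := ζ + M * 1) (w := ζ + M * 1) hN (by linarith) (by linarith)
    ⟨0, by ring⟩
  have r2 := G_eq (tab := tabE K M) (K := K) (N := 4 * M) (R := R') (z := ζ + M * 2) (w := ζ + M * 2) hN (by linarith) (by linarith)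
    ⟨0, by ring⟩
  have r3 := G_eq (tab := tabE K M) (K := K) (N := 4 * M) (R := R') (z := ζ + M * 3) (w := ζ + M * 3) hN (by linarith) (by linarith)
    ⟨0, by ring⟩
  rw [tabE, if_neg cm0] at qm
  rw [tabE, if_neg cz0] at qz
  rw [tabE, if_neg cp0] at qp
  rw [tabE, if_neg t00] at r0
  rw [tabE, if_neg t10] at r1
  rw [tabE, if_neg t20] at r2
  rw [tabE, if_neg t30] at r3
  have Em0 : ∀ n : ℤ, (n = 0 ∨ n = 0 + 1) → decide (R (4 * ζ + K + em)) = true → decide (R' (ζ + M * n)) = true := by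
    intro n hn h
    have h := of_decide_eq_true h
    rcases hn with rfl | rfl
    · exact decide_eq_true (hs.d0 (a := -1) (e := em) (m := 0) (by simp) (by assumption) (by ring) h rfl)
    · exact decide_eq_true (hs.d1 (a := -1) (e := em) (m := 0) (by simp) (by assumption) (by ring) h rfl)
  have Em1 : ∀ n : ℤ, (n = 1 ∨ n = 1 + 1) → decide (R (4 * ζ + K + em + 4 * M)) = true → decide (R' (ζ + M * n)) = true := by
    intro n hn h
    have h := of_decide_eq_true h
    rcases hn with rfl | rfl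
    · exact decide_eq_true (hs.d0 (a := -1) (e := em) (m := 1) (by simp) (by assumption) (by ring) h rfl)
    · exact decide_eq_true (hs.d1 (a := -1) (e := em) (m := 1) (by simp) (by assumption) (by ring) h rfl)
  have Ez3 : ∀ n : ℤ, (n = 3 ∨ n = 3 + 1) → decide (R (4 * ζ + e0 + 4 * M * 3)) = true → decide (R' (ζ + M * n)) = true := by
    intro n hn h
    have h := of_decide_eq_true h
    rcases hn with rfl | rfl
    · exact decide_eq_true (hs.d0 (a := 0) (e := e0) (m := 3) (by simp) (by assumption) (by ring) h rfl)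
    · exact decide_eq_true (hs.d1 (a := 0) (e := e0) (m := 3) (by simp) (by assumption) (by ring) h rfl)
  have Ez4 : ∀ n : ℤ, (n = 4 ∨ n = 4 + 1) → decide (R (4 * ζ + e0 + 4 * M * 3 + 4 * M)) = true → decide (R' (ζ + M * n)) = true := by
    intro n hn h
    have h := of_decide_eq_true h
    rcases hn with rfl | rfl
    · exact decide_eq_true (hs.d0 (a := 0) (e := e0) (m := 4) (by simp) (by assumption) (by ring) h rfl)
    · exact decide_eq_true (hs.d1 (a := 0) (e := e0) (m := 4) (by simp) (by assumption) (by ring) h rfl)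
  have Ep5 : ∀ n : ℤ, (n = 5 ∨ n = 5 + 1) → decide (R (4 * ζ - K + e1 + 4 * M * 5)) = true → decide (R' (ζ + M * n)) = true := by
    intro n hn h
    have h := of_decide_eq_true h
    rcases hn with rfl | rfl
    · exact decide_eq_true (hs.d0 (a := 1) (e := e1) (m := 5) (by simp) (by assumption) (by ring) h rfl)
    · exact decide_eq_true (hs.d1 (a := 1) (e := e1) (m := 5) (by simp) (by assumption) (by ring) h rfl)
  have Ep6 : ∀ n : ℤ, (n = 6 ∨ n = 6 + 1) → decide (R (4 * ζ - K + e1 + 4 * M * 5 + 4 * M)) = true → decide (R' (ζ + M * n)) = true := by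
    intro n hn h
    have h := of_decide_eq_true h
    rcases hn with rfl | rfl
    · exact decide_eq_true (hs.d0 (a := 1) (e := e1) (m := 6) (by simp) (by assumption) (by ring) h rfl)
    · exact decide_eq_true (hs.d1 (a := 1) (e := e1) (m := 6) (by simp) (by assumption) (by ring) h rfl)
  unfold Ineq
  rw [qm, qz, qp]
  generalize decide (R (4 * ζ + K + em)) = b0 at Em0 ⊢
  generalize decide (R (4 * ζ + K + em + 4 * M)) = b1 at Em1 ⊢
  generalize decide (R (4 * ζ + e0 + 4 * M * 3)) = b2 at Ez3 ⊢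
  generalize decide (R (4 * ζ + e0 + 4 * M * 3 + 4 * M)) = b3 at Ez4 ⊢
  generalize decide (R (4 * ζ - K + e1 + 4 * M * 5)) = b4 at Ep5 ⊢
  generalize decide (R (4 * ζ - K + e1 + 4 * M * 5 + 4 * M)) = b5 at Ep6 ⊢
  have T0 : (b0) = true → decide (R' (ζ + M * 0)) = true := by
    intro h
    exact Em0 0 (by norm_num) h
  have T1 : (b0 || b1) = true → decide (R' (ζ + M * 1)) = true := by
    intro h
    simp only [Bool.or_eq_true] at h
    rcases h with (h | h)
    · exact Em0 1 (by norm_num) h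
    · exact Em1 1 (by norm_num) h
  have T2 : (b1) = true → decide (R' (ζ + M * 2)) = true := by
    intro h
    exact Em1 2 (by norm_num) h
  have T3 : (b2) = true → decide (R' (ζ + M * 3)) = true := by
    intro h
    exact Ez3 3 (by norm_num) h
  have T4 : (b2 || b3) = true → decide (R' (ζ + M * 4)) = true := by
    intro h
    simp only [Bool.or_eq_true] at h
    rcases h with (h | h)
    · exact Ez3 4 (by norm_num) h
    · exact Ez4 4 (by norm_num) h
  have T5 : (b3 || b4) = true → decide (R' (ζ + M * 5)) = true := by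
    intro h
    simp only [Bool.or_eq_true] at h
    rcases h with (h | h)
    · exact Ez4 5 (by norm_num) h
    · exact Ep5 5 (by norm_num) h
  have T6 : (b4 || b5) = true → decide (R' (ζ + M * 6)) = true := by
    intro h
    simp only [Bool.or_eq_true] at h
    rcases h with (h | h)
    · exact Ep5 6 (by norm_num) h
    · exact Ep6 6 (by norm_num) h
  have T7 : (b5) = true → decide (R' (ζ + M * 7)) = true := by
    intro h
    exact Ep6 7 (by norm_num) h
  have u0 : g2 10 6 6 (b0) (b2 || b3) ≤ G (tabE K M) K (4 * M) R' (ζ) := by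
    rw [r0, show ζ + 4 * M = ζ + M * 4 by ring]
    have T0' := T0; rw [show ζ + M * 0 = ζ by ring] at T0'
    exact g2_mono (by norm_num) (by norm_num) (by norm_num) (by norm_num) T0' T4
  have u1 : g2 10 6 6 (b0 || b1) (b3 || b4) ≤ G (tabE K M) K (4 * M) R' (ζ + M * 1) := by
    rw [r1, show ζ + M * 1 + 4 * M = ζ + M * 5 by ring]
    exact g2_mono (by norm_num) (by norm_num) (by norm_num) (by norm_num) T1 T5
  have u2 : g2 10 6 6 (b1) (b4 || b5) ≤ G (tabE K M) K (4 * M) R' (ζ + M * 2) := by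
    rw [r2, show ζ + M * 2 + 4 * M = ζ + M * 6 by ring]
    exact g2_mono (by norm_num) (by norm_num) (by norm_num) (by norm_num) T2 T6
  have u3 : g2 10 6 6 (b2) (b5) ≤ G (tabE K M) K (4 * M) R' (ζ + M * 3) := by
    rw [r3, show ζ + M * 3 + 4 * M = ζ + M * 7 by ring]
    exact g2_mono (by norm_num) (by norm_num) (by norm_num) (by norm_num) T3 T7
  have key : ∀ b0 b1 b2 b3 b4 b5 : Bool, KeyIneq 4 4 3 10 (g2 10 6 6 b0 b1) (g2 10 6 6 b2 b3) (g2 10 6 6 b4 b5)
      (g2 10 6 6 (b0) (b2 || b3) + g2 10 6 6 (b0 || b1) (b3 || b4) + g2 10 6 6 (b1) (b4 || b5) + g2 10 6 6 (b2) (b5)) := by decide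
  have key := key b0 b1 b2 b3 b4 b5
  unfold KeyIneq at key
  refine ⟨by linarith [key.1], fun h h' => ?_⟩
  have := key.2 h h'
  linarith

/-- lifts (0, 1) (2, 3) (5, 6), 8 target lifts -/
lemma we_leaf1 {K M ζ em e0 e1 : ℤ} {R R' : ℤ → Prop} (hM : 0 < M) (hs : StepRel K M R R')
    (hem : em = 0 ∨ em = 1) (he0 : e0 = 0 ∨ e0 = 1) (he1 : e1 = 0 ∨ e1 = 1)
    (hx1 : -K ≤ 3 * ζ) (hx2 : 3 * (ζ - M) < -K)
    (am1 : -K ≤ 3 * (4 * ζ + K + em))
    (am2 : 3 * (4 * ζ + K + em - 4 * M) < -K)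
    (az1 : -K ≤ 3 * (4 * ζ + e0 + 4 * M * 2))
    (az2 : 3 * (4 * ζ + e0 + 4 * M * 2 - 4 * M) < -K)
    (ap1 : -K ≤ 3 * (4 * ζ - K + e1 + 4 * M * 5))
    (ap2 : 3 * (4 * ζ - K + e1 + 4 * M * 5 - 4 * M) < -K)
    (cm0 : ¬ 3 * (4 * ζ + K + em + 8 * M) ≤ K + 4 * M - 1)
    (cz0 : ¬ 3 * (4 * ζ + e0 + 4 * M * 2 + 8 * M) ≤ K + 4 * M - 1)
    (cp0 : ¬ 3 * (4 * ζ - K + e1 + 4 * M * 5 + 8 * M) ≤ K + 4 * M - 1)
    (t00 : ¬ 3 * (ζ + 8 * M) ≤ K + 4 * M - 1)
    (t10 : ¬ 3 * (ζ + M * 1 + 8 * M) ≤ K + 4 * M - 1)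
    (t20 : ¬ 3 * (ζ + M * 2 + 8 * M) ≤ K + 4 * M - 1)
    (t30 : ¬ 3 * (ζ + M * 3 + 8 * M) ≤ K + 4 * M - 1) :
    Ineq 4 4 3 10 (tabE K M) K M R R' ζ em e0 e1 := by
  classical
  have hN : 0 < 4 * M := by linarith
  have qm := G_eq (tab := tabE K M) (K := K) (N := 4 * M) (R := R) (z := 4 * ζ + K + em) (w := 4 * ζ + K + em) hN (by linarith) (by linarith)
    ⟨0, by ring⟩
  have qz := G_eq (tab := tabE K M) (K := K) (N := 4 * M) (R := R) (z := 4 * ζ + e0) (w := 4 * ζ + e0 + 4 * M * 2) hN (by linarith) (by linarith)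
    ⟨2, by ring⟩
  have qp := G_eq (tab := tabE K M) (K := K) (N := 4 * M) (R := R) (z := 4 * ζ - K + e1) (w := 4 * ζ - K + e1 + 4 * M * 5) hN (by linarith) (by linarith)
    ⟨5, by ring⟩
  have r0 := G_eq (tab := tabE K M) (K := K) (N := 4 * M) (R := R') (z := ζ) (w := ζ) hN (by linarith) (by linarith)
    ⟨0, by ring⟩
  have r1 := G_eq (tab := tabE K M) (K := K) (N := 4 * M) (R := R') (z := ζ + M * 1) (w := ζ + M * 1) hN (by linarith) (by linarith)
    ⟨0, by ring⟩
  have r2 := G_eq (tab := tabE K M) (K := K) (N := 4 * M) (R := R') (z := ζ + M * 2) (w := ζ + M * 2) hN (by linarith) (by linarith)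
    ⟨0, by ring⟩
  have r3 := G_eq (tab := tabE K M) (K := K) (N := 4 * M) (R := R') (z := ζ + M * 3) (w := ζ + M * 3) hN (by linarith) (by linarith)
    ⟨0, by ring⟩
  rw [tabE, if_neg cm0] at qm
  rw [tabE, if_neg cz0] at qz
  rw [tabE, if_neg cp0] at qp
  rw [tabE, if_neg t00] at r0
  rw [tabE, if_neg t10] at r1
  rw [tabE, if_neg t20] at r2
  rw [tabE, if_neg t30] at r3
  have Em0 : ∀ n : ℤ, (n = 0 ∨ n = 0 + 1) → decide (R (4 * ζ + K + em)) = true → decide (R' (ζ + M * n)) = true := by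
    intro n hn h
    have h := of_decide_eq_true h
    rcases hn with rfl | rfl
    · exact decide_eq_true (hs.d0 (a := -1) (e := em) (m := 0) (by simp) (by assumption) (by ring) h rfl)
    · exact decide_eq_true (hs.d1 (a := -1) (e := em) (m := 0) (by simp) (by assumption) (by ring) h rfl)
  have Em1 : ∀ n : ℤ, (n = 1 ∨ n = 1 + 1) → decide (R (4 * ζ + K + em + 4 * M)) = true → decide (R' (ζ + M * n)) = true := by
    intro n hn h
    have h := of_decide_eq_true h
    rcases hn with rfl | rfl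
    · exact decide_eq_true (hs.d0 (a := -1) (e := em) (m := 1) (by simp) (by assumption) (by ring) h rfl)
    · exact decide_eq_true (hs.d1 (a := -1) (e := em) (m := 1) (by simp) (by assumption) (by ring) h rfl)
  have Ez2 : ∀ n : ℤ, (n = 2 ∨ n = 2 + 1) → decide (R (4 * ζ + e0 + 4 * M * 2)) = true → decide (R' (ζ + M * n)) = true := by
    intro n hn h
    have h := of_decide_eq_true h
    rcases hn with rfl | rfl
    · exact decide_eq_true (hs.d0 (a := 0) (e := e0) (m := 2) (by simp) (by assumption) (by ring) h rfl)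
    · exact decide_eq_true (hs.d1 (a := 0) (e := e0) (m := 2) (by simp) (by assumption) (by ring) h rfl)
  have Ez3 : ∀ n : ℤ, (n = 3 ∨ n = 3 + 1) → decide (R (4 * ζ + e0 + 4 * M * 2 + 4 * M)) = true → decide (R' (ζ + M * n)) = true := by
    intro n hn h
    have h := of_decide_eq_true h
    rcases hn with rfl | rfl
    · exact decide_eq_true (hs.d0 (a := 0) (e := e0) (m := 3) (by simp) (by assumption) (by ring) h rfl)
    · exact decide_eq_true (hs.d1 (a := 0) (e := e0) (m := 3) (by simp) (by assumption) (by ring) h rfl)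
  have Ep5 : ∀ n : ℤ, (n = 5 ∨ n = 5 + 1) → decide (R (4 * ζ - K + e1 + 4 * M * 5)) = true → decide (R' (ζ + M * n)) = true := by
    intro n hn h
    have h := of_decide_eq_true h
    rcases hn with rfl | rfl
    · exact decide_eq_true (hs.d0 (a := 1) (e := e1) (m := 5) (by simp) (by assumption) (by ring) h rfl)
    · exact decide_eq_true (hs.d1 (a := 1) (e := e1) (m := 5) (by simp) (by assumption) (by ring) h rfl)
  have Ep6 : ∀ n : ℤ, (n = 6 ∨ n = 6 + 1) → decide (R (4 * ζ - K + e1 + 4 * M * 5 + 4 * M)) = true → decide (R' (ζ + M * n)) = true := by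
    intro n hn h
    have h := of_decide_eq_true h
    rcases hn with rfl | rfl
    · exact decide_eq_true (hs.d0 (a := 1) (e := e1) (m := 6) (by simp) (by assumption) (by ring) h rfl)
    · exact decide_eq_true (hs.d1 (a := 1) (e := e1) (m := 6) (by simp) (by assumption) (by ring) h rfl)
  unfold Ineq
  rw [qm, qz, qp]
  generalize decide (R (4 * ζ + K + em)) = b0 at Em0 ⊢
  generalize decide (R (4 * ζ + K + em + 4 * M)) = b1 at Em1 ⊢
  generalize decide (R (4 * ζ + e0 + 4 * M * 2)) = b2 at Ez2 ⊢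
  generalize decide (R (4 * ζ + e0 + 4 * M * 2 + 4 * M)) = b3 at Ez3 ⊢
  generalize decide (R (4 * ζ - K + e1 + 4 * M * 5)) = b4 at Ep5 ⊢
  generalize decide (R (4 * ζ - K + e1 + 4 * M * 5 + 4 * M)) = b5 at Ep6 ⊢
  have T0 : (b0) = true → decide (R' (ζ + M * 0)) = true := by
    intro h
    exact Em0 0 (by norm_num) h
  have T1 : (b0 || b1) = true → decide (R' (ζ + M * 1)) = true := by
    intro h
    simp only [Bool.or_eq_true] at h
    rcases h with (h | h)
    · exact Em0 1 (by norm_num) h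
    · exact Em1 1 (by norm_num) h
  have T2 : (b1 || b2) = true → decide (R' (ζ + M * 2)) = true := by
    intro h
    simp only [Bool.or_eq_true] at h
    rcases h with (h | h)
    · exact Em1 2 (by norm_num) h
    · exact Ez2 2 (by norm_num) h
  have T3 : (b2 || b3) = true → decide (R' (ζ + M * 3)) = true := by
    intro h
    simp only [Bool.or_eq_true] at h
    rcases h with (h | h)
    · exact Ez2 3 (by norm_num) h
    · exact Ez3 3 (by norm_num) h
  have T4 : (b3) = true → decide (R' (ζ + M * 4)) = true := by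
    intro h
    exact Ez3 4 (by norm_num) h
  have T5 : (b4) = true → decide (R' (ζ + M * 5)) = true := by
    intro h
    exact Ep5 5 (by norm_num) h
  have T6 : (b4 || b5) = true → decide (R' (ζ + M * 6)) = true := by
    intro h
    simp only [Bool.or_eq_true] at h
    rcases h with (h | h)
    · exact Ep5 6 (by norm_num) h
    · exact Ep6 6 (by norm_num) h
  have T7 : (b5) = true → decide (R' (ζ + M * 7)) = true := by
    intro h
    exact Ep6 7 (by norm_num) h
  have u0 : g2 10 6 6 (b0) (b3) ≤ G (tabE K M) K (4 * M) R' (ζ) := by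
    rw [r0, show ζ + 4 * M = ζ + M * 4 by ring]
    have T0' := T0; rw [show ζ + M * 0 = ζ by ring] at T0'
    exact g2_mono (by norm_num) (by norm_num) (by norm_num) (by norm_num) T0' T4
  have u1 : g2 10 6 6 (b0 || b1) (b4) ≤ G (tabE K M) K (4 * M) R' (ζ + M * 1) := by
    rw [r1, show ζ + M * 1 + 4 * M = ζ + M * 5 by ring]
    exact g2_mono (by norm_num) (by norm_num) (by norm_num) (by norm_num) T1 T5
  have u2 : g2 10 6 6 (b1 || b2) (b4 || b5) ≤ G (tabE K M) K (4 * M) R' (ζ + M * 2) := by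
    rw [r2, show ζ + M * 2 + 4 * M = ζ + M * 6 by ring]
    exact g2_mono (by norm_num) (by norm_num) (by norm_num) (by norm_num) T2 T6
  have u3 : g2 10 6 6 (b2 || b3) (b5) ≤ G (tabE K M) K (4 * M) R' (ζ + M * 3) := by
    rw [r3, show ζ + M * 3 + 4 * M = ζ + M * 7 by ring]
    exact g2_mono (by norm_num) (by norm_num) (by norm_num) (by norm_num) T3 T7
  have key : ∀ b0 b1 b2 b3 b4 b5 : Bool, KeyIneq 4 4 3 10 (g2 10 6 6 b0 b1) (g2 10 6 6 b2 b3) (g2 10 6 6 b4 b5)
      (g2 10 6 6 (b0) (b3) + g2 10 6 6 (b0 || b1) (b4) + g2 10 6 6 (b1 || b2) (b4 || b5) + g2 10 6 6 (b2 || b3) (b5)) := by decide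
  have key := key b0 b1 b2 b3 b4 b5
  unfold KeyIneq at key
  refine ⟨by linarith [key.1], fun h h' => ?_⟩
  have := key.2 h h'
  linarith

/-- lifts (0, 1, 2) (3, 4) (6, 7), 9 target lifts -/
lemma we_leaf2 {K M ζ em e0 e1 : ℤ} {R R' : ℤ → Prop} (hM : 0 < M) (hs : StepRel K M R R')
    (hem : em = 0 ∨ em = 1) (he0 : e0 = 0 ∨ e0 = 1) (he1 : e1 = 0 ∨ e1 = 1)
    (hx1 : -K ≤ 3 * ζ) (hx2 : 3 * (ζ - M) < -K)
    (am1 : -K ≤ 3 * (4 * ζ + K + em))
    (am2 : 3 * (4 * ζ + K + em - 4 * M) < -K)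
    (az1 : -K ≤ 3 * (4 * ζ + e0 + 4 * M * 3))
    (az2 : 3 * (4 * ζ + e0 + 4 * M * 3 - 4 * M) < -K)
    (ap1 : -K ≤ 3 * (4 * ζ - K + e1 + 4 * M * 6))
    (ap2 : 3 * (4 * ζ - K + e1 + 4 * M * 6 - 4 * M) < -K)
    (cm0 : 3 * (4 * ζ + K + em + 8 * M) ≤ K + 4 * M - 1)
    (cz0 : ¬ 3 * (4 * ζ + e0 + 4 * M * 3 + 8 * M) ≤ K + 4 * M - 1)
    (cp0 : ¬ 3 * (4 * ζ - K + e1 + 4 * M * 6 + 8 * M) ≤ K + 4 * M - 1)
    (t00 : 3 * (ζ + 8 * M) ≤ K + 4 * M - 1)
    (t10 : ¬ 3 * (ζ + M * 1 + 8 * M) ≤ K + 4 * M - 1)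
    (t20 : ¬ 3 * (ζ + M * 2 + 8 * M) ≤ K + 4 * M - 1)
    (t30 : ¬ 3 * (ζ + M * 3 + 8 * M) ≤ K + 4 * M - 1) :
    Ineq 4 4 3 10 (tabE K M) K M R R' ζ em e0 e1 := by
  classical
  have hN : 0 < 4 * M := by linarith
  have qm := G_eq (tab := tabE K M) (K := K) (N := 4 * M) (R := R) (z := 4 * ζ + K + em) (w := 4 * ζ + K + em) hN (by linarith) (by linarith)
    ⟨0, by ring⟩
  have qz := G_eq (tab := tabE K M) (K := K) (N := 4 * M) (R := R) (z := 4 * ζ + e0) (w := 4 * ζ + e0 + 4 * M * 3) hN (by linarith) (by linarith)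
    ⟨3, by ring⟩
  have qp := G_eq (tab := tabE K M) (K := K) (N := 4 * M) (R := R) (z := 4 * ζ - K + e1) (w := 4 * ζ - K + e1 + 4 * M * 6) hN (by linarith) (by linarith)
    ⟨6, by ring⟩
  have r0 := G_eq (tab := tabE K M) (K := K) (N := 4 * M) (R := R') (z := ζ) (w := ζ) hN (by linarith) (by linarith)
    ⟨0, by ring⟩
  have r1 := G_eq (tab := tabE K M) (K := K) (N := 4 * M) (R := R') (z := ζ + M * 1) (w := ζ + M * 1) hN (by linarith) (by linarith)
    ⟨0, by ring⟩
  have r2 := G_eq (tab := tabE K M) (K := K) (N := 4 * M) (R := R') (z := ζ + M * 2) (w := ζ + M * 2) hN (by linarith) (by linarith)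
    ⟨0, by ring⟩
  have r3 := G_eq (tab := tabE K M) (K := K) (N := 4 * M) (R := R') (z := ζ + M * 3) (w := ζ + M * 3) hN (by linarith) (by linarith)
    ⟨0, by ring⟩
  rw [tabE, if_pos cm0] at qm
  rw [tabE, if_neg cz0] at qz
  rw [tabE, if_neg cp0] at qp
  rw [tabE, if_pos t00] at r0
  rw [tabE, if_neg t10] at r1
  rw [tabE, if_neg t20] at r2
  rw [tabE, if_neg t30] at r3
  have Em0 : ∀ n : ℤ, (n = 0 ∨ n = 0 + 1) → decide (R (4 * ζ + K + em)) = true → decide (R' (ζ + M * n)) = true := by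
    intro n hn h
    have h := of_decide_eq_true h
    rcases hn with rfl | rfl
    · exact decide_eq_true (hs.d0 (a := -1) (e := em) (m := 0) (by simp) (by assumption) (by ring) h rfl)
    · exact decide_eq_true (hs.d1 (a := -1) (e := em) (m := 0) (by simp) (by assumption) (by ring) h rfl)
  have Em1 : ∀ n : ℤ, (n = 1 ∨ n = 1 + 1) → decide (R (4 * ζ + K + em + 4 * M)) = true → decide (R' (ζ + M * n)) = true := by
    intro n hn h
    have h := of_decide_eq_true h
    rcases hn with rfl | rfl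
    · exact decide_eq_true (hs.d0 (a := -1) (e := em) (m := 1) (by simp) (by assumption) (by ring) h rfl)
    · exact decide_eq_true (hs.d1 (a := -1) (e := em) (m := 1) (by simp) (by assumption) (by ring) h rfl)
  have Em2 : ∀ n : ℤ, (n = 2 ∨ n = 2 + 1) → decide (R (4 * ζ + K + em + 2 * (4 * M))) = true → decide (R' (ζ + M * n)) = true := by
    intro n hn h
    have h := of_decide_eq_true h
    rcases hn with rfl | rfl
    · exact decide_eq_true (hs.d0 (a := -1) (e := em) (m := 2) (by simp) (by assumption) (by ring) h rfl)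
    · exact decide_eq_true (hs.d1 (a := -1) (e := em) (m := 2) (by simp) (by assumption) (by ring) h rfl)
  have Ez3 : ∀ n : ℤ, (n = 3 ∨ n = 3 + 1) → decide (R (4 * ζ + e0 + 4 * M * 3)) = true → decide (R' (ζ + M * n)) = true := by
    intro n hn h
    have h := of_decide_eq_true h
    rcases hn with rfl | rfl
    · exact decide_eq_true (hs.d0 (a := 0) (e := e0) (m := 3) (by simp) (by assumption) (by ring) h rfl)
    · exact decide_eq_true (hs.d1 (a := 0) (e := e0) (m := 3) (by simp) (by assumption) (by ring) h rfl)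
  have Ez4 : ∀ n : ℤ, (n = 4 ∨ n = 4 + 1) → decide (R (4 * ζ + e0 + 4 * M * 3 + 4 * M)) = true → decide (R' (ζ + M * n)) = true := by
    intro n hn h
    have h := of_decide_eq_true h
    rcases hn with rfl | rfl
    · exact decide_eq_true (hs.d0 (a := 0) (e := e0) (m := 4) (by simp) (by assumption) (by ring) h rfl)
    · exact decide_eq_true (hs.d1 (a := 0) (e := e0) (m := 4) (by simp) (by assumption) (by ring) h rfl)
  have Ep6 : ∀ n : ℤ, (n = 6 ∨ n = 6 + 1) → decide (R (4 * ζ - K + e1 + 4 * M * 6)) = true → decide (R' (ζ + M * n)) = true := by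
    intro n hn h
    have h := of_decide_eq_true h
    rcases hn with rfl | rfl
    · exact decide_eq_true (hs.d0 (a := 1) (e := e1) (m := 6) (by simp) (by assumption) (by ring) h rfl)
    · exact decide_eq_true (hs.d1 (a := 1) (e := e1) (m := 6) (by simp) (by assumption) (by ring) h rfl)
  have Ep7 : ∀ n : ℤ, (n = 7 ∨ n = 7 + 1) → decide (R (4 * ζ - K + e1 + 4 * M * 6 + 4 * M)) = true → decide (R' (ζ + M * n)) = true := by
    intro n hn h
    have h := of_decide_eq_true h
    rcases hn with rfl | rfl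
    · exact decide_eq_true (hs.d0 (a := 1) (e := e1) (m := 7) (by simp) (by assumption) (by ring) h rfl)
    · exact decide_eq_true (hs.d1 (a := 1) (e := e1) (m := 7) (by simp) (by assumption) (by ring) h rfl)
  unfold Ineq
  rw [qm, qz, qp]
  generalize decide (R (4 * ζ + K + em)) = b0 at Em0 ⊢
  generalize decide (R (4 * ζ + K + em + 4 * M)) = b1 at Em1 ⊢
  generalize decide (R (4 * ζ + K + em + 2 * (4 * M))) = b2 at Em2 ⊢
  generalize decide (R (4 * ζ + e0 + 4 * M * 3)) = b3 at Ez3 ⊢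
  generalize decide (R (4 * ζ + e0 + 4 * M * 3 + 4 * M)) = b4 at Ez4 ⊢
  generalize decide (R (4 * ζ - K + e1 + 4 * M * 6)) = b5 at Ep6 ⊢
  generalize decide (R (4 * ζ - K + e1 + 4 * M * 6 + 4 * M)) = b6 at Ep7 ⊢
  have T0 : (b0) = true → decide (R' (ζ + M * 0)) = true := by
    intro h
    exact Em0 0 (by norm_num) h
  have T1 : (b0 || b1) = true → decide (R' (ζ + M * 1)) = true := by
    intro h
    simp only [Bool.or_eq_true] at h
    rcases h with (h | h)
    · exact Em0 1 (by norm_num) h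
    · exact Em1 1 (by norm_num) h
  have T2 : (b1 || b2) = true → decide (R' (ζ + M * 2)) = true := by
    intro h
    simp only [Bool.or_eq_true] at h
    rcases h with (h | h)
    · exact Em1 2 (by norm_num) h
    · exact Em2 2 (by norm_num) h
  have T3 : (b2 || b3) = true → decide (R' (ζ + M * 3)) = true := by
    intro h
    simp only [Bool.or_eq_true] at h
    rcases h with (h | h)
    · exact Em2 3 (by norm_num) h
    · exact Ez3 3 (by norm_num) h
  have T4 : (b3 || b4) = true → decide (R' (ζ + M * 4)) = true := by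
    intro h
    simp only [Bool.or_eq_true] at h
    rcases h with (h | h)
    · exact Ez3 4 (by norm_num) h
    · exact Ez4 4 (by norm_num) h
  have T5 : (b4) = true → decide (R' (ζ + M * 5)) = true := by
    intro h
    exact Ez4 5 (by norm_num) h
  have T6 : (b5) = true → decide (R' (ζ + M * 6)) = true := by
    intro h
    exact Ep6 6 (by norm_num) h
  have T7 : (b5 || b6) = true → decide (R' (ζ + M * 7)) = true := by
    intro h
    simp only [Bool.or_eq_true] at h
    rcases h with (h | h)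
    · exact Ep6 7 (by norm_num) h
    · exact Ep7 7 (by norm_num) h
  have T8 : (b6) = true → decide (R' (ζ + M * 8)) = true := by
    intro h
    exact Ep7 8 (by norm_num) h
  have u0 : g3 10 3 7 (b0) (b3 || b4) (b6) ≤ G (tabE K M) K (4 * M) R' (ζ) := by
    rw [r0, show ζ + 4 * M = ζ + M * 4 by ring, show ζ + 2 * (4 * M) = ζ + M * 8 by ring]
    have T0' := T0; rw [show ζ + M * 0 = ζ by ring] at T0'
    exact g3_mono (by norm_num) (by norm_num) (by norm_num) T0' T4 T8
  have u1 : g2 10 6 6 (b0 || b1) (b4) ≤ G (tabE K M) K (4 * M) R' (ζ + M * 1) := by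
    rw [r1, show ζ + M * 1 + 4 * M = ζ + M * 5 by ring]
    exact g2_mono (by norm_num) (by norm_num) (by norm_num) (by norm_num) T1 T5
  have u2 : g2 10 6 6 (b1 || b2) (b5) ≤ G (tabE K M) K (4 * M) R' (ζ + M * 2) := by
    rw [r2, show ζ + M * 2 + 4 * M = ζ + M * 6 by ring]
    exact g2_mono (by norm_num) (by norm_num) (by norm_num) (by norm_num) T2 T6
  have u3 : g2 10 6 6 (b2 || b3) (b5 || b6) ≤ G (tabE K M) K (4 * M) R' (ζ + M * 3) := by
    rw [r3, show ζ + M * 3 + 4 * M = ζ + M * 7 by ring]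
    exact g2_mono (by norm_num) (by norm_num) (by norm_num) (by norm_num) T3 T7
  have key : ∀ b0 b1 b2 b3 b4 b5 b6 : Bool, KeyIneq 4 4 3 10 (g3 10 3 7 b0 b1 b2) (g2 10 6 6 b3 b4) (g2 10 6 6 b5 b6)
      (g3 10 3 7 (b0) (b3 || b4) (b6) + g2 10 6 6 (b0 || b1) (b4) + g2 10 6 6 (b1 || b2) (b5) + g2 10 6 6 (b2 || b3) (b5 || b6)) := by decide
  have key := key b0 b1 b2 b3 b4 b5 b6
  unfold KeyIneq at key
  refine ⟨by linarith [key.1], fun h h' => ?_⟩
  have := key.2 h h'
  linarith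

/-- lifts (0, 1) (3, 4) (5, 6, 7), 9 target lifts -/
lemma we_leaf3 {K M ζ em e0 e1 : ℤ} {R R' : ℤ → Prop} (hM : 0 < M) (hs : StepRel K M R R')
    (hem : em = 0 ∨ em = 1) (he0 : e0 = 0 ∨ e0 = 1) (he1 : e1 = 0 ∨ e1 = 1)
    (hx1 : -K ≤ 3 * ζ) (hx2 : 3 * (ζ - M) < -K)
    (am1 : -K ≤ 3 * (4 * ζ + K + em))
    (am2 : 3 * (4 * ζ + K + em - 4 * M) < -K)
    (az1 : -K ≤ 3 * (4 * ζ + e0 + 4 * M * 3))
    (az2 : 3 * (4 * ζ + e0 + 4 * M * 3 - 4 * M) < -K)
    (ap1 : -K ≤ 3 * (4 * ζ - K + e1 + 4 * M * 5))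
    (ap2 : 3 * (4 * ζ - K + e1 + 4 * M * 5 - 4 * M) < -K)
    (cm0 : ¬ 3 * (4 * ζ + K + em + 8 * M) ≤ K + 4 * M - 1)
    (cz0 : ¬ 3 * (4 * ζ + e0 + 4 * M * 3 + 8 * M) ≤ K + 4 * M - 1)
    (cp0 : 3 * (4 * ζ - K + e1 + 4 * M * 5 + 8 * M) ≤ K + 4 * M - 1)
    (t00 : 3 * (ζ + 8 * M) ≤ K + 4 * M - 1)
    (t10 : ¬ 3 * (ζ + M * 1 + 8 * M) ≤ K + 4 * M - 1)
    (t20 : ¬ 3 * (ζ + M * 2 + 8 * M) ≤ K + 4 * M - 1)
    (t30 : ¬ 3 * (ζ + M * 3 + 8 * M) ≤ K + 4 * M - 1) :
    Ineq 4 4 3 10 (tabE K M) K M R R' ζ em e0 e1 := by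
  classical
  have hN : 0 < 4 * M := by linarith
  have qm := G_eq (tab := tabE K M) (K := K) (N := 4 * M) (R := R) (z := 4 * ζ + K + em) (w := 4 * ζ + K + em) hN (by linarith) (by linarith)
    ⟨0, by ring⟩
  have qz := G_eq (tab := tabE K M) (K := K) (N := 4 * M) (R := R) (z := 4 * ζ + e0) (w := 4 * ζ + e0 + 4 * M * 3) hN (by linarith) (by linarith)
    ⟨3, by ring⟩
  have qp := G_eq (tab := tabE K M) (K := K) (N := 4 * M) (R := R) (z := 4 * ζ - K + e1) (w := 4 * ζ - K + e1 + 4 * M * 5) hN (by linarith) (by linarith)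
    ⟨5, by ring⟩
  have r0 := G_eq (tab := tabE K M) (K := K) (N := 4 * M) (R := R') (z := ζ) (w := ζ) hN (by linarith) (by linarith)
    ⟨0, by ring⟩
  have r1 := G_eq (tab := tabE K M) (K := K) (N := 4 * M) (R := R') (z := ζ + M * 1) (w := ζ + M * 1) hN (by linarith) (by linarith)
    ⟨0, by ring⟩
  have r2 := G_eq (tab := tabE K M) (K := K) (N := 4 * M) (R := R') (z := ζ + M * 2) (w := ζ + M * 2) hN (by linarith) (by linarith)
    ⟨0, by ring⟩
  have r3 := G_eq (tab := tabE K M) (K := K) (N := 4 * M) (R := R') (z := ζ + M * 3) (w := ζ + M * 3) hN (by linarith) (by linarith)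
    ⟨0, by ring⟩
  rw [tabE, if_neg cm0] at qm
  rw [tabE, if_neg cz0] at qz
  rw [tabE, if_pos cp0] at qp
  rw [tabE, if_pos t00] at r0
  rw [tabE, if_neg t10] at r1
  rw [tabE, if_neg t20] at r2
  rw [tabE, if_neg t30] at r3
  have Em0 : ∀ n : ℤ, (n = 0 ∨ n = 0 + 1) → decide (R (4 * ζ + K + em)) = true → decide (R' (ζ + M * n)) = true := by
    intro n hn h
    have h := of_decide_eq_true h
    rcases hn with rfl | rfl
    · exact decide_eq_true (hs.d0 (a := -1) (e := em) (m := 0) (by simp) (by assumption) (by ring) h rfl)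
    · exact decide_eq_true (hs.d1 (a := -1) (e := em) (m := 0) (by simp) (by assumption) (by ring) h rfl)
  have Em1 : ∀ n : ℤ, (n = 1 ∨ n = 1 + 1) → decide (R (4 * ζ + K + em + 4 * M)) = true → decide (R' (ζ + M * n)) = true := by
    intro n hn h
    have h := of_decide_eq_true h
    rcases hn with rfl | rfl
    · exact decide_eq_true (hs.d0 (a := -1) (e := em) (m := 1) (by simp) (by assumption) (by ring) h rfl)
    · exact decide_eq_true (hs.d1 (a := -1) (e := em) (m := 1) (by simp) (by assumption) (by ring) h rfl)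
  have Ez3 : ∀ n : ℤ, (n = 3 ∨ n = 3 + 1) → decide (R (4 * ζ + e0 + 4 * M * 3)) = true → decide (R' (ζ + M * n)) = true := by
    intro n hn h
    have h := of_decide_eq_true h
    rcases hn with rfl | rfl
    · exact decide_eq_true (hs.d0 (a := 0) (e := e0) (m := 3) (by simp) (by assumption) (by ring) h rfl)
    · exact decide_eq_true (hs.d1 (a := 0) (e := e0) (m := 3) (by simp) (by assumption) (by ring) h rfl)
  have Ez4 : ∀ n : ℤ, (n = 4 ∨ n = 4 + 1) → decide (R (4 * ζ + e0 + 4 * M * 3 + 4 * M)) = true → decide (R' (ζ + M * n)) = true := by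
    intro n hn h
    have h := of_decide_eq_true h
    rcases hn with rfl | rfl
    · exact decide_eq_true (hs.d0 (a := 0) (e := e0) (m := 4) (by simp) (by assumption) (by ring) h rfl)
    · exact decide_eq_true (hs.d1 (a := 0) (e := e0) (m := 4) (by simp) (by assumption) (by ring) h rfl)
  have Ep5 : ∀ n : ℤ, (n = 5 ∨ n = 5 + 1) → decide (R (4 * ζ - K + e1 + 4 * M * 5)) = true → decide (R' (ζ + M * n)) = true := by
    intro n hn h
    have h := of_decide_eq_true h
    rcases hn with rfl | rfl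
    · exact decide_eq_true (hs.d0 (a := 1) (e := e1) (m := 5) (by simp) (by assumption) (by ring) h rfl)
    · exact decide_eq_true (hs.d1 (a := 1) (e := e1) (m := 5) (by simp) (by assumption) (by ring) h rfl)
  have Ep6 : ∀ n : ℤ, (n = 6 ∨ n = 6 + 1) → decide (R (4 * ζ - K + e1 + 4 * M * 5 + 4 * M)) = true → decide (R' (ζ + M * n)) = true := by
    intro n hn h
    have h := of_decide_eq_true h
    rcases hn with rfl | rfl
    · exact decide_eq_true (hs.d0 (a := 1) (e := e1) (m := 6) (by simp) (by assumption) (by ring) h rfl)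
    · exact decide_eq_true (hs.d1 (a := 1) (e := e1) (m := 6) (by simp) (by assumption) (by ring) h rfl)
  have Ep7 : ∀ n : ℤ, (n = 7 ∨ n = 7 + 1) → decide (R (4 * ζ - K + e1 + 4 * M * 5 + 2 * (4 * M))) = true → decide (R' (ζ + M * n)) = true := by
    intro n hn h
    have h := of_decide_eq_true h
    rcases hn with rfl | rfl
    · exact decide_eq_true (hs.d0 (a := 1) (e := e1) (m := 7) (by simp) (by assumption) (by ring) h rfl)
    · exact decide_eq_true (hs.d1 (a := 1) (e := e1) (m := 7) (by simp) (by assumption) (by ring) h rfl)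
  unfold Ineq
  rw [qm, qz, qp]
  generalize decide (R (4 * ζ + K + em)) = b0 at Em0 ⊢
  generalize decide (R (4 * ζ + K + em + 4 * M)) = b1 at Em1 ⊢
  generalize decide (R (4 * ζ + e0 + 4 * M * 3)) = b2 at Ez3 ⊢
  generalize decide (R (4 * ζ + e0 + 4 * M * 3 + 4 * M)) = b3 at Ez4 ⊢
  generalize decide (R (4 * ζ - K + e1 + 4 * M * 5)) = b4 at Ep5 ⊢
  generalize decide (R (4 * ζ - K + e1 + 4 * M * 5 + 4 * M)) = b5 at Ep6 ⊢
  generalize decide (R (4 * ζ - K + e1 + 4 * M * 5 + 2 * (4 * M))) = b6 at Ep7 ⊢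
  have T0 : (b0) = true → decide (R' (ζ + M * 0)) = true := by
    intro h
    exact Em0 0 (by norm_num) h
  have T1 : (b0 || b1) = true → decide (R' (ζ + M * 1)) = true := by
    intro h
    simp only [Bool.or_eq_true] at h
    rcases h with (h | h)
    · exact Em0 1 (by norm_num) h
    · exact Em1 1 (by norm_num) h
  have T2 : (b1) = true → decide (R' (ζ + M * 2)) = true := by
    intro h
    exact Em1 2 (by norm_num) h
  have T3 : (b2) = true → decide (R' (ζ + M * 3)) = true := by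
    intro h
    exact Ez3 3 (by norm_num) h
  have T4 : (b2 || b3) = true → decide (R' (ζ + M * 4)) = true := by
    intro h
    simp only [Bool.or_eq_true] at h
    rcases h with (h | h)
    · exact Ez3 4 (by norm_num) h
    · exact Ez4 4 (by norm_num) h
  have T5 : (b3 || b4) = true → decide (R' (ζ + M * 5)) = true := by
    intro h
    simp only [Bool.or_eq_true] at h
    rcases h with (h | h)
    · exact Ez4 5 (by norm_num) h
    · exact Ep5 5 (by norm_num) h
  have T6 : (b4 || b5) = true → decide (R' (ζ + M * 6)) = true := by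
    intro h
    simp only [Bool.or_eq_true] at h
    rcases h with (h | h)
    · exact Ep5 6 (by norm_num) h
    · exact Ep6 6 (by norm_num) h
  have T7 : (b5 || b6) = true → decide (R' (ζ + M * 7)) = true := by
    intro h
    simp only [Bool.or_eq_true] at h
    rcases h with (h | h)
    · exact Ep6 7 (by norm_num) h
    · exact Ep7 7 (by norm_num) h
  have T8 : (b6) = true → decide (R' (ζ + M * 8)) = true := by
    intro h
    exact Ep7 8 (by norm_num) h
  have u0 : g3 10 3 7 (b0) (b2 || b3) (b6) ≤ G (tabE K M) K (4 * M) R' (ζ) := by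
    rw [r0, show ζ + 4 * M = ζ + M * 4 by ring, show ζ + 2 * (4 * M) = ζ + M * 8 by ring]
    have T0' := T0; rw [show ζ + M * 0 = ζ by ring] at T0'
    exact g3_mono (by norm_num) (by norm_num) (by norm_num) T0' T4 T8
  have u1 : g2 10 6 6 (b0 || b1) (b3 || b4) ≤ G (tabE K M) K (4 * M) R' (ζ + M * 1) := by
    rw [r1, show ζ + M * 1 + 4 * M = ζ + M * 5 by ring]
    exact g2_mono (by norm_num) (by norm_num) (by norm_num) (by norm_num) T1 T5
  have u2 : g2 10 6 6 (b1) (b4 || b5) ≤ G (tabE K M) K (4 * M) R' (ζ + M * 2) := by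
    rw [r2, show ζ + M * 2 + 4 * M = ζ + M * 6 by ring]
    exact g2_mono (by norm_num) (by norm_num) (by norm_num) (by norm_num) T2 T6
  have u3 : g2 10 6 6 (b2) (b5 || b6) ≤ G (tabE K M) K (4 * M) R' (ζ + M * 3) := by
    rw [r3, show ζ + M * 3 + 4 * M = ζ + M * 7 by ring]
    exact g2_mono (by norm_num) (by norm_num) (by norm_num) (by norm_num) T3 T7
  have key : ∀ b0 b1 b2 b3 b4 b5 b6 : Bool, KeyIneq 4 4 3 10 (g2 10 6 6 b0 b1) (g2 10 6 6 b2 b3) (g3 10 3 7 b4 b5 b6)
      (g3 10 3 7 (b0) (b2 || b3) (b6) + g2 10 6 6 (b0 || b1) (b3 || b4) + g2 10 6 6 (b1) (b4 || b5) + g2 10 6 6 (b2) (b5 || b6)) := by decide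
  have key := key b0 b1 b2 b3 b4 b5 b6
  unfold KeyIneq at key
  refine ⟨by linarith [key.1], fun h h' => ?_⟩
  have := key.2 h h'
  linarith

/-- lifts (0, 1) (3, 4) (6, 7), 9 target lifts -/
lemma we_leaf4 {K M ζ em e0 e1 : ℤ} {R R' : ℤ → Prop} (hM : 0 < M) (hs : StepRel K M R R')
    (hem : em = 0 ∨ em = 1) (he0 : e0 = 0 ∨ e0 = 1) (he1 : e1 = 0 ∨ e1 = 1)
    (hx1 : -K ≤ 3 * ζ) (hx2 : 3 * (ζ - M) < -K)
    (am1 : -K ≤ 3 * (4 * ζ + K + em))
    (am2 : 3 * (4 * ζ + K + em - 4 * M) < -K)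
    (az1 : -K ≤ 3 * (4 * ζ + e0 + 4 * M * 3))
    (az2 : 3 * (4 * ζ + e0 + 4 * M * 3 - 4 * M) < -K)
    (ap1 : -K ≤ 3 * (4 * ζ - K + e1 + 4 * M * 6))
    (ap2 : 3 * (4 * ζ - K + e1 + 4 * M * 6 - 4 * M) < -K)
    (cm0 : ¬ 3 * (4 * ζ + K + em + 8 * M) ≤ K + 4 * M - 1)
    (cz0 : ¬ 3 * (4 * ζ + e0 + 4 * M * 3 + 8 * M) ≤ K + 4 * M - 1)
    (cp0 : ¬ 3 * (4 * ζ - K + e1 + 4 * M * 6 + 8 * M) ≤ K + 4 * M - 1)
    (t00 : 3 * (ζ + 8 * M) ≤ K + 4 * M - 1)
    (t10 : ¬ 3 * (ζ + M * 1 + 8 * M) ≤ K + 4 * M - 1)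
    (t20 : ¬ 3 * (ζ + M * 2 + 8 * M) ≤ K + 4 * M - 1)
    (t30 : ¬ 3 * (ζ + M * 3 + 8 * M) ≤ K + 4 * M - 1) :
    Ineq 4 4 3 10 (tabE K M) K M R R' ζ em e0 e1 := by
  classical
  have hN : 0 < 4 * M := by linarith
  have qm := G_eq (tab := tabE K M) (K := K) (N := 4 * M) (R := R) (z := 4 * ζ + K + em) (w := 4 * ζ + K + em) hN (by linarith) (by linarith)
    ⟨0, by ring⟩
  have qz := G_eq (tab := tabE K M) (K := K) (N := 4 * M) (R := R) (z := 4 * ζ + e0) (w := 4 * ζ + e0 + 4 * M * 3) hN (by linarith) (by linarith)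
    ⟨3, by ring⟩
  have qp := G_eq (tab := tabE K M) (K := K) (N := 4 * M) (R := R) (z := 4 * ζ - K + e1) (w := 4 * ζ - K + e1 + 4 * M * 6) hN (by linarith) (by linarith)
    ⟨6, by ring⟩
  have r0 := G_eq (tab := tabE K M) (K := K) (N := 4 * M) (R := R') (z := ζ) (w := ζ) hN (by linarith) (by linarith)
    ⟨0, by ring⟩
  have r1 := G_eq (tab := tabE K M) (K := K) (N := 4 * M) (R := R') (z := ζ + M * 1) (w := ζ + M * 1) hN (by linarith) (by linarith)
    ⟨0, by ring⟩
  have r2 := G_eq (tab := tabE K M) (K := K) (N := 4 * M) (R := R') (z := ζ + M * 2) (w := ζ + M * 2) hN (by linarith) (by linarith)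
    ⟨0, by ring⟩
  have r3 := G_eq (tab := tabE K M) (K := K) (N := 4 * M) (R := R') (z := ζ + M * 3) (w := ζ + M * 3) hN (by linarith) (by linarith)
    ⟨0, by ring⟩
  rw [tabE, if_neg cm0] at qm
  rw [tabE, if_neg cz0] at qz
  rw [tabE, if_neg cp0] at qp
  rw [tabE, if_pos t00] at r0
  rw [tabE, if_neg t10] at r1
  rw [tabE, if_neg t20] at r2
  rw [tabE, if_neg t30] at r3
  have Em0 : ∀ n : ℤ, (n = 0 ∨ n = 0 + 1) → decide (R (4 * ζ + K + em)) = true → decide (R' (ζ + M * n)) = true := by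
    intro n hn h
    have h := of_decide_eq_true h
    rcases hn with rfl | rfl
    · exact decide_eq_true (hs.d0 (a := -1) (e := em) (m := 0) (by simp) (by assumption) (by ring) h rfl)
    · exact decide_eq_true (hs.d1 (a := -1) (e := em) (m := 0) (by simp) (by assumption) (by ring) h rfl)
  have Em1 : ∀ n : ℤ, (n = 1 ∨ n = 1 + 1) → decide (R (4 * ζ + K + em + 4 * M)) = true → decide (R' (ζ + M * n)) = true := by
    intro n hn h
    have h := of_decide_eq_true h
    rcases hn with rfl | rfl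
    · exact decide_eq_true (hs.d0 (a := -1) (e := em) (m := 1) (by simp) (by assumption) (by ring) h rfl)
    · exact decide_eq_true (hs.d1 (a := -1) (e := em) (m := 1) (by simp) (by assumption) (by ring) h rfl)
  have Ez3 : ∀ n : ℤ, (n = 3 ∨ n = 3 + 1) → decide (R (4 * ζ + e0 + 4 * M * 3)) = true → decide (R' (ζ + M * n)) = true := by
    intro n hn h
    have h := of_decide_eq_true h
    rcases hn with rfl | rfl
    · exact decide_eq_true (hs.d0 (a := 0) (e := e0) (m := 3) (by simp) (by assumption) (by ring) h rfl)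
    · exact decide_eq_true (hs.d1 (a := 0) (e := e0) (m := 3) (by simp) (by assumption) (by ring) h rfl)
  have Ez4 : ∀ n : ℤ, (n = 4 ∨ n = 4 + 1) → decide (R (4 * ζ + e0 + 4 * M * 3 + 4 * M)) = true → decide (R' (ζ + M * n)) = true := by
    intro n hn h
    have h := of_decide_eq_true h
    rcases hn with rfl | rfl
    · exact decide_eq_true (hs.d0 (a := 0) (e := e0) (m := 4) (by simp) (by assumption) (by ring) h rfl)
    · exact decide_eq_true (hs.d1 (a := 0) (e := e0) (m := 4) (by simp) (by assumption) (by ring) h rfl)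
  have Ep6 : ∀ n : ℤ, (n = 6 ∨ n = 6 + 1) → decide (R (4 * ζ - K + e1 + 4 * M * 6)) = true → decide (R' (ζ + M * n)) = true := by
    intro n hn h
    have h := of_decide_eq_true h
    rcases hn with rfl | rfl
    · exact decide_eq_true (hs.d0 (a := 1) (e := e1) (m := 6) (by simp) (by assumption) (by ring) h rfl)
    · exact decide_eq_true (hs.d1 (a := 1) (e := e1) (m := 6) (by simp) (by assumption) (by ring) h rfl)
  have Ep7 : ∀ n : ℤ, (n = 7 ∨ n = 7 + 1) → decide (R (4 * ζ - K + e1 + 4 * M * 6 + 4 * M)) = true → decide (R' (ζ + M * n)) = true := by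
    intro n hn h
    have h := of_decide_eq_true h
    rcases hn with rfl | rfl
    · exact decide_eq_true (hs.d0 (a := 1) (e := e1) (m := 7) (by simp) (by assumption) (by ring) h rfl)
    · exact decide_eq_true (hs.d1 (a := 1) (e := e1) (m := 7) (by simp) (by assumption) (by ring) h rfl)
  unfold Ineq
  rw [qm, qz, qp]
  generalize decide (R (4 * ζ + K + em)) = b0 at Em0 ⊢
  generalize decide (R (4 * ζ + K + em + 4 * M)) = b1 at Em1 ⊢
  generalize decide (R (4 * ζ + e0 + 4 * M * 3)) = b2 at Ez3 ⊢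
  generalize decide (R (4 * ζ + e0 + 4 * M * 3 + 4 * M)) = b3 at Ez4 ⊢
  generalize decide (R (4 * ζ - K + e1 + 4 * M * 6)) = b4 at Ep6 ⊢
  generalize decide (R (4 * ζ - K + e1 + 4 * M * 6 + 4 * M)) = b5 at Ep7 ⊢
  have T0 : (b0) = true → decide (R' (ζ + M * 0)) = true := by
    intro h
    exact Em0 0 (by norm_num) h
  have T1 : (b0 || b1) = true → decide (R' (ζ + M * 1)) = true := by
    intro h
    simp only [Bool.or_eq_true] at h
    rcases h with (h | h)
    · exact Em0 1 (by norm_num) h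
    · exact Em1 1 (by norm_num) h
  have T2 : (b1) = true → decide (R' (ζ + M * 2)) = true := by
    intro h
    exact Em1 2 (by norm_num) h
  have T3 : (b2) = true → decide (R' (ζ + M * 3)) = true := by
    intro h
    exact Ez3 3 (by norm_num) h
  have T4 : (b2 || b3) = true → decide (R' (ζ + M * 4)) = true := by
    intro h
    simp only [Bool.or_eq_true] at h
    rcases h with (h | h)
    · exact Ez3 4 (by norm_num) h
    · exact Ez4 4 (by norm_num) h
  have T5 : (b3) = true → decide (R' (ζ + M * 5)) = true := by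
    intro h
    exact Ez4 5 (by norm_num) h
  have T6 : (b4) = true → decide (R' (ζ + M * 6)) = true := by
    intro h
    exact Ep6 6 (by norm_num) h
  have T7 : (b4 || b5) = true → decide (R' (ζ + M * 7)) = true := by
    intro h
    simp only [Bool.or_eq_true] at h
    rcases h with (h | h)
    · exact Ep6 7 (by norm_num) h
    · exact Ep7 7 (by norm_num) h
  have T8 : (b5) = true → decide (R' (ζ + M * 8)) = true := by
    intro h
    exact Ep7 8 (by norm_num) h
  have u0 : g3 10 3 7 (b0) (b2 || b3) (b5) ≤ G (tabE K M) K (4 * M) R' (ζ) := by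
    rw [r0, show ζ + 4 * M = ζ + M * 4 by ring, show ζ + 2 * (4 * M) = ζ + M * 8 by ring]
    have T0' := T0; rw [show ζ + M * 0 = ζ by ring] at T0'
    exact g3_mono (by norm_num) (by norm_num) (by norm_num) T0' T4 T8
  have u1 : g2 10 6 6 (b0 || b1) (b3) ≤ G (tabE K M) K (4 * M) R' (ζ + M * 1) := by
    rw [r1, show ζ + M * 1 + 4 * M = ζ + M * 5 by ring]
    exact g2_mono (by norm_num) (by norm_num) (by norm_num) (by norm_num) T1 T5
  have u2 : g2 10 6 6 (b1) (b4) ≤ G (tabE K M) K (4 * M) R' (ζ + M * 2) := by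
    rw [r2, show ζ + M * 2 + 4 * M = ζ + M * 6 by ring]
    exact g2_mono (by norm_num) (by norm_num) (by norm_num) (by norm_num) T2 T6
  have u3 : g2 10 6 6 (b2) (b4 || b5) ≤ G (tabE K M) K (4 * M) R' (ζ + M * 3) := by
    rw [r3, show ζ + M * 3 + 4 * M = ζ + M * 7 by ring]
    exact g2_mono (by norm_num) (by norm_num) (by norm_num) (by norm_num) T3 T7
  have key : ∀ b0 b1 b2 b3 b4 b5 : Bool, KeyIneq 4 4 3 10 (g2 10 6 6 b0 b1) (g2 10 6 6 b2 b3) (g2 10 6 6 b4 b5)
      (g3 10 3 7 (b0) (b2 || b3) (b5) + g2 10 6 6 (b0 || b1) (b3) + g2 10 6 6 (b1) (b4) + g2 10 6 6 (b2) (b4 || b5)) := by decide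
  have key := key b0 b1 b2 b3 b4 b5
  unfold KeyIneq at key
  refine ⟨by linarith [key.1], fun h h' => ?_⟩
  have := key.2 h h'
  linarith

/-- lifts (0, 1, 2) (3, 4, 5) (6, 7), 9 target lifts -/
lemma we_leaf5 {K M ζ em e0 e1 : ℤ} {R R' : ℤ → Prop} (hM : 0 < M) (hs : StepRel K M R R')
    (hem : em = 0 ∨ em = 1) (he0 : e0 = 0 ∨ e0 = 1) (he1 : e1 = 0 ∨ e1 = 1)
    (hx1 : -K ≤ 3 * ζ) (hx2 : 3 * (ζ - M) < -K)
    (am1 : -K ≤ 3 * (4 * ζ + K + em))
    (am2 : 3 * (4 * ζ + K + em - 4 * M) < -K)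
    (az1 : -K ≤ 3 * (4 * ζ + e0 + 4 * M * 3))
    (az2 : 3 * (4 * ζ + e0 + 4 * M * 3 - 4 * M) < -K)
    (ap1 : -K ≤ 3 * (4 * ζ - K + e1 + 4 * M * 6))
    (ap2 : 3 * (4 * ζ - K + e1 + 4 * M * 6 - 4 * M) < -K)
    (cm0 : 3 * (4 * ζ + K + em + 8 * M) ≤ K + 4 * M - 1)
    (cz0 : 3 * (4 * ζ + e0 + 4 * M * 3 + 8 * M) ≤ K + 4 * M - 1)
    (cp0 : ¬ 3 * (4 * ζ - K + e1 + 4 * M * 6 + 8 * M) ≤ K + 4 * M - 1)
    (t00 : 3 * (ζ + 8 * M) ≤ K + 4 * M - 1)
    (t10 : ¬ 3 * (ζ + M * 1 + 8 * M) ≤ K + 4 * M - 1)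
    (t20 : ¬ 3 * (ζ + M * 2 + 8 * M) ≤ K + 4 * M - 1)
    (t30 : ¬ 3 * (ζ + M * 3 + 8 * M) ≤ K + 4 * M - 1) :
    Ineq 4 4 3 10 (tabE K M) K M R R' ζ em e0 e1 := by
  classical
  have hN : 0 < 4 * M := by linarith
  have qm := G_eq (tab := tabE K M) (K := K) (N := 4 * M) (R := R) (z := 4 * ζ + K + em) (w := 4 * ζ + K + em) hN (by linarith) (by linarith)
    ⟨0, by ring⟩
  have qz := G_eq (tab := tabE K M) (K := K) (N := 4 * M) (R := R) (z := 4 * ζ + e0) (w := 4 * ζ + e0 + 4 * M * 3) hN (by linarith) (by linarith)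
    ⟨3, by ring⟩
  have qp := G_eq (tab := tabE K M) (K := K) (N := 4 * M) (R := R) (z := 4 * ζ - K + e1) (w := 4 * ζ - K + e1 + 4 * M * 6) hN (by linarith) (by linarith)
    ⟨6, by ring⟩
  have r0 := G_eq (tab := tabE K M) (K := K) (N := 4 * M) (R := R') (z := ζ) (w := ζ) hN (by linarith) (by linarith)
    ⟨0, by ring⟩
  have r1 := G_eq (tab := tabE K M) (K := K) (N := 4 * M) (R := R') (z := ζ + M * 1) (w := ζ + M * 1) hN (by linarith) (by linarith)
    ⟨0, by ring⟩
  have r2 := G_eq (tab := tabE K M) (K := K) (N := 4 * M) (R := R') (z := ζ + M * 2) (w := ζ + M * 2) hN (by linarith) (by linarith)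
    ⟨0, by ring⟩
  have r3 := G_eq (tab := tabE K M) (K := K) (N := 4 * M) (R := R') (z := ζ + M * 3) (w := ζ + M * 3) hN (by linarith) (by linarith)
    ⟨0, by ring⟩
  rw [tabE, if_pos cm0] at qm
  rw [tabE, if_pos cz0] at qz
  rw [tabE, if_neg cp0] at qp
  rw [tabE, if_pos t00] at r0
  rw [tabE, if_neg t10] at r1
  rw [tabE, if_neg t20] at r2
  rw [tabE, if_neg t30] at r3
  have Em0 : ∀ n : ℤ, (n = 0 ∨ n = 0 + 1) → decide (R (4 * ζ + K + em)) = true → decide (R' (ζ + M * n)) = true := by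
    intro n hn h
    have h := of_decide_eq_true h
    rcases hn with rfl | rfl
    · exact decide_eq_true (hs.d0 (a := -1) (e := em) (m := 0) (by simp) (by assumption) (by ring) h rfl)
    · exact decide_eq_true (hs.d1 (a := -1) (e := em) (m := 0) (by simp) (by assumption) (by ring) h rfl)
  have Em1 : ∀ n : ℤ, (n = 1 ∨ n = 1 + 1) → decide (R (4 * ζ + K + em + 4 * M)) = true → decide (R' (ζ + M * n)) = true := by
    intro n hn h
    have h := of_decide_eq_true h
    rcases hn with rfl | rfl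
    · exact decide_eq_true (hs.d0 (a := -1) (e := em) (m := 1) (by simp) (by assumption) (by ring) h rfl)
    · exact decide_eq_true (hs.d1 (a := -1) (e := em) (m := 1) (by simp) (by assumption) (by ring) h rfl)
  have Em2 : ∀ n : ℤ, (n = 2 ∨ n = 2 + 1) → decide (R (4 * ζ + K + em + 2 * (4 * M))) = true → decide (R' (ζ + M * n)) = true := by
    intro n hn h
    have h := of_decide_eq_true h
    rcases hn with rfl | rfl
    · exact decide_eq_true (hs.d0 (a := -1) (e := em) (m := 2) (by simp) (by assumption) (by ring) h rfl)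
    · exact decide_eq_true (hs.d1 (a := -1) (e := em) (m := 2) (by simp) (by assumption) (by ring) h rfl)
  have Ez3 : ∀ n : ℤ, (n = 3 ∨ n = 3 + 1) → decide (R (4 * ζ + e0 + 4 * M * 3)) = true → decide (R' (ζ + M * n)) = true := by
    intro n hn h
    have h := of_decide_eq_true h
    rcases hn with rfl | rfl
    · exact decide_eq_true (hs.d0 (a := 0) (e := e0) (m := 3) (by simp) (by assumption) (by ring) h rfl)
    · exact decide_eq_true (hs.d1 (a := 0) (e := e0) (m := 3) (by simp) (by assumption) (by ring) h rfl)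
  have Ez4 : ∀ n : ℤ, (n = 4 ∨ n = 4 + 1) → decide (R (4 * ζ + e0 + 4 * M * 3 + 4 * M)) = true → decide (R' (ζ + M * n)) = true := by
    intro n hn h
    have h := of_decide_eq_true h
    rcases hn with rfl | rfl
    · exact decide_eq_true (hs.d0 (a := 0) (e := e0) (m := 4) (by simp) (by assumption) (by ring) h rfl)
    · exact decide_eq_true (hs.d1 (a := 0) (e := e0) (m := 4) (by simp) (by assumption) (by ring) h rfl)
  have Ez5 : ∀ n : ℤ, (n = 5 ∨ n = 5 + 1) → decide (R (4 * ζ + e0 + 4 * M * 3 + 2 * (4 * M))) = true → decide (R' (ζ + M * n)) = true := by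
    intro n hn h
    have h := of_decide_eq_true h
    rcases hn with rfl | rfl
    · exact decide_eq_true (hs.d0 (a := 0) (e := e0) (m := 5) (by simp) (by assumption) (by ring) h rfl)
    · exact decide_eq_true (hs.d1 (a := 0) (e := e0) (m := 5) (by simp) (by assumption) (by ring) h rfl)
  have Ep6 : ∀ n : ℤ, (n = 6 ∨ n = 6 + 1) → decide (R (4 * ζ - K + e1 + 4 * M * 6)) = true → decide (R' (ζ + M * n)) = true := by
    intro n hn h
    have h := of_decide_eq_true h
    rcases hn with rfl | rfl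
    · exact decide_eq_true (hs.d0 (a := 1) (e := e1) (m := 6) (by simp) (by assumption) (by ring) h rfl)
    · exact decide_eq_true (hs.d1 (a := 1) (e := e1) (m := 6) (by simp) (by assumption) (by ring) h rfl)
  have Ep7 : ∀ n : ℤ, (n = 7 ∨ n = 7 + 1) → decide (R (4 * ζ - K + e1 + 4 * M * 6 + 4 * M)) = true → decide (R' (ζ + M * n)) = true := by
    intro n hn h
    have h := of_decide_eq_true h
    rcases hn with rfl | rfl
    · exact decide_eq_true (hs.d0 (a := 1) (e := e1) (m := 7) (by simp) (by assumption) (by ring) h rfl)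
    · exact decide_eq_true (hs.d1 (a := 1) (e := e1) (m := 7) (by simp) (by assumption) (by ring) h rfl)
  unfold Ineq
  rw [qm, qz, qp]
  generalize decide (R (4 * ζ + K + em)) = b0 at Em0 ⊢
  generalize decide (R (4 * ζ + K + em + 4 * M)) = b1 at Em1 ⊢
  generalize decide (R (4 * ζ + K + em + 2 * (4 * M))) = b2 at Em2 ⊢
  generalize decide (R (4 * ζ + e0 + 4 * M * 3)) = b3 at Ez3 ⊢
  generalize decide (R (4 * ζ + e0 + 4 * M * 3 + 4 * M)) = b4 at Ez4 ⊢
  generalize decide (R (4 * ζ + e0 + 4 * M * 3 + 2 * (4 * M))) = b5 at Ez5 ⊢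
  generalize decide (R (4 * ζ - K + e1 + 4 * M * 6)) = b6 at Ep6 ⊢
  generalize decide (R (4 * ζ - K + e1 + 4 * M * 6 + 4 * M)) = b7 at Ep7 ⊢
  have T0 : (b0) = true → decide (R' (ζ + M * 0)) = true := by
    intro h
    exact Em0 0 (by norm_num) h
  have T1 : (b0 || b1) = true → decide (R' (ζ + M * 1)) = true := by
    intro h
    simp only [Bool.or_eq_true] at h
    rcases h with (h | h)
    · exact Em0 1 (by norm_num) h
    · exact Em1 1 (by norm_num) h
  have T2 : (b1 || b2) = true → decide (R' (ζ + M * 2)) = true := by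
    intro h
    simp only [Bool.or_eq_true] at h
    rcases h with (h | h)
    · exact Em1 2 (by norm_num) h
    · exact Em2 2 (by norm_num) h
  have T3 : (b2 || b3) = true → decide (R' (ζ + M * 3)) = true := by
    intro h
    simp only [Bool.or_eq_true] at h
    rcases h with (h | h)
    · exact Em2 3 (by norm_num) h
    · exact Ez3 3 (by norm_num) h
  have T4 : (b3 || b4) = true → decide (R' (ζ + M * 4)) = true := by
    intro h
    simp only [Bool.or_eq_true] at h
    rcases h with (h | h)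
    · exact Ez3 4 (by norm_num) h
    · exact Ez4 4 (by norm_num) h
  have T5 : (b4 || b5) = true → decide (R' (ζ + M * 5)) = true := by
    intro h
    simp only [Bool.or_eq_true] at h
    rcases h with (h | h)
    · exact Ez4 5 (by norm_num) h
    · exact Ez5 5 (by norm_num) h
  have T6 : (b5 || b6) = true → decide (R' (ζ + M * 6)) = true := by
    intro h
    simp only [Bool.or_eq_true] at h
    rcases h with (h | h)
    · exact Ez5 6 (by norm_num) h
    · exact Ep6 6 (by norm_num) h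
  have T7 : (b6 || b7) = true → decide (R' (ζ + M * 7)) = true := by
    intro h
    simp only [Bool.or_eq_true] at h
    rcases h with (h | h)
    · exact Ep6 7 (by norm_num) h
    · exact Ep7 7 (by norm_num) h
  have T8 : (b7) = true → decide (R' (ζ + M * 8)) = true := by
    intro h
    exact Ep7 8 (by norm_num) h
  have u0 : g3 10 3 7 (b0) (b3 || b4) (b7) ≤ G (tabE K M) K (4 * M) R' (ζ) := by
    rw [r0, show ζ + 4 * M = ζ + M * 4 by ring, show ζ + 2 * (4 * M) = ζ + M * 8 by ring]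
    have T0' := T0; rw [show ζ + M * 0 = ζ by ring] at T0'
    exact g3_mono (by norm_num) (by norm_num) (by norm_num) T0' T4 T8
  have u1 : g2 10 6 6 (b0 || b1) (b4 || b5) ≤ G (tabE K M) K (4 * M) R' (ζ + M * 1) := by
    rw [r1, show ζ + M * 1 + 4 * M = ζ + M * 5 by ring]
    exact g2_mono (by norm_num) (by norm_num) (by norm_num) (by norm_num) T1 T5
  have u2 : g2 10 6 6 (b1 || b2) (b5 || b6) ≤ G (tabE K M) K (4 * M) R' (ζ + M * 2) := by
    rw [r2, show ζ + M * 2 + 4 * M = ζ + M * 6 by ring]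
    exact g2_mono (by norm_num) (by norm_num) (by norm_num) (by norm_num) T2 T6
  have u3 : g2 10 6 6 (b2 || b3) (b6 || b7) ≤ G (tabE K M) K (4 * M) R' (ζ + M * 3) := by
    rw [r3, show ζ + M * 3 + 4 * M = ζ + M * 7 by ring]
    exact g2_mono (by norm_num) (by norm_num) (by norm_num) (by norm_num) T3 T7
  have key : ∀ b0 b1 b2 b3 b4 b5 b6 b7 : Bool, KeyIneq 4 4 3 10 (g3 10 3 7 b0 b1 b2) (g3 10 3 7 b3 b4 b5) (g2 10 6 6 b6 b7)
      (g3 10 3 7 (b0) (b3 || b4) (b7) + g2 10 6 6 (b0 || b1) (b4 || b5) + g2 10 6 6 (b1 || b2) (b5 || b6) + g2 10 6 6 (b2 || b3) (b6 || b7)) := by decide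
  have key := key b0 b1 b2 b3 b4 b5 b6 b7
  unfold KeyIneq at key
  refine ⟨by linarith [key.1], fun h h' => ?_⟩
  have := key.2 h h'
  linarith

/-- lifts (0, 1) (2, 3, 4) (5, 6, 7), 9 target lifts -/
lemma we_leaf6 {K M ζ em e0 e1 : ℤ} {R R' : ℤ → Prop} (hM : 0 < M) (hs : StepRel K M R R')
    (hem : em = 0 ∨ em = 1) (he0 : e0 = 0 ∨ e0 = 1) (he1 : e1 = 0 ∨ e1 = 1)
    (hx1 : -K ≤ 3 * ζ) (hx2 : 3 * (ζ - M) < -K)
    (am1 : -K ≤ 3 * (4 * ζ + K + em))
    (am2 : 3 * (4 * ζ + K + em - 4 * M) < -K)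
    (az1 : -K ≤ 3 * (4 * ζ + e0 + 4 * M * 2))
    (az2 : 3 * (4 * ζ + e0 + 4 * M * 2 - 4 * M) < -K)
    (ap1 : -K ≤ 3 * (4 * ζ - K + e1 + 4 * M * 5))
    (ap2 : 3 * (4 * ζ - K + e1 + 4 * M * 5 - 4 * M) < -K)
    (cm0 : ¬ 3 * (4 * ζ + K + em + 8 * M) ≤ K + 4 * M - 1)
    (cz0 : 3 * (4 * ζ + e0 + 4 * M * 2 + 8 * M) ≤ K + 4 * M - 1)
    (cp0 : 3 * (4 * ζ - K + e1 + 4 * M * 5 + 8 * M) ≤ K + 4 * M - 1)
    (t00 : 3 * (ζ + 8 * M) ≤ K + 4 * M - 1)
    (t10 : ¬ 3 * (ζ + M * 1 + 8 * M) ≤ K + 4 * M - 1)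
    (t20 : ¬ 3 * (ζ + M * 2 + 8 * M) ≤ K + 4 * M - 1)
    (t30 : ¬ 3 * (ζ + M * 3 + 8 * M) ≤ K + 4 * M - 1) :
    Ineq 4 4 3 10 (tabE K M) K M R R' ζ em e0 e1 := by
  classical
  have hN : 0 < 4 * M := by linarith
  have qm := G_eq (tab := tabE K M) (K := K) (N := 4 * M) (R := R) (z := 4 * ζ + K + em) (w := 4 * ζ + K + em) hN (by linarith) (by linarith)
    ⟨0, by ring⟩
  have qz := G_eq (tab := tabE K M) (K := K) (N := 4 * M) (R := R) (z := 4 * ζ + e0) (w := 4 * ζ + e0 + 4 * M * 2) hN (by linarith) (by linarith)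
    ⟨2, by ring⟩
  have qp := G_eq (tab := tabE K M) (K := K) (N := 4 * M) (R := R) (z := 4 * ζ - K + e1) (w := 4 * ζ - K + e1 + 4 * M * 5) hN (by linarith) (by linarith)
    ⟨5, by ring⟩
  have r0 := G_eq (tab := tabE K M) (K := K) (N := 4 * M) (R := R') (z := ζ) (w := ζ) hN (by linarith) (by linarith)
    ⟨0, by ring⟩
  have r1 := G_eq (tab := tabE K M) (K := K) (N := 4 * M) (R := R') (z := ζ + M * 1) (w := ζ + M * 1) hN (by linarith) (by linarith)
    ⟨0, by ring⟩
  have r2 := G_eq (tab := tabE K M) (K := K) (N := 4 * M) (R := R') (z := ζ + M * 2) (w := ζ + M * 2) hN (by linarith) (by linarith)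
    ⟨0, by ring⟩
  have r3 := G_eq (tab := tabE K M) (K := K) (N := 4 * M) (R := R') (z := ζ + M * 3) (w := ζ + M * 3) hN (by linarith) (by linarith)
    ⟨0, by ring⟩
  rw [tabE, if_neg cm0] at qm
  rw [tabE, if_pos cz0] at qz
  rw [tabE, if_pos cp0] at qp
  rw [tabE, if_pos t00] at r0
  rw [tabE, if_neg t10] at r1
  rw [tabE, if_neg t20] at r2
  rw [tabE, if_neg t30] at r3
  have Em0 : ∀ n : ℤ, (n = 0 ∨ n = 0 + 1) → decide (R (4 * ζ + K + em)) = true → decide (R' (ζ + M * n)) = true := by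
    intro n hn h
    have h := of_decide_eq_true h
    rcases hn with rfl | rfl
    · exact decide_eq_true (hs.d0 (a := -1) (e := em) (m := 0) (by simp) (by assumption) (by ring) h rfl)
    · exact decide_eq_true (hs.d1 (a := -1) (e := em) (m := 0) (by simp) (by assumption) (by ring) h rfl)
  have Em1 : ∀ n : ℤ, (n = 1 ∨ n = 1 + 1) → decide (R (4 * ζ + K + em + 4 * M)) = true → decide (R' (ζ + M * n)) = true := by
    intro n hn h
    have h := of_decide_eq_true h
    rcases hn with rfl | rfl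
    · exact decide_eq_true (hs.d0 (a := -1) (e := em) (m := 1) (by simp) (by assumption) (by ring) h rfl)
    · exact decide_eq_true (hs.d1 (a := -1) (e := em) (m := 1) (by simp) (by assumption) (by ring) h rfl)
  have Ez2 : ∀ n : ℤ, (n = 2 ∨ n = 2 + 1) → decide (R (4 * ζ + e0 + 4 * M * 2)) = true → decide (R' (ζ + M * n)) = true := by
    intro n hn h
    have h := of_decide_eq_true h
    rcases hn with rfl | rfl
    · exact decide_eq_true (hs.d0 (a := 0) (e := e0) (m := 2) (by simp) (by assumption) (by ring) h rfl)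
    · exact decide_eq_true (hs.d1 (a := 0) (e := e0) (m := 2) (by simp) (by assumption) (by ring) h rfl)
  have Ez3 : ∀ n : ℤ, (n = 3 ∨ n = 3 + 1) → decide (R (4 * ζ + e0 + 4 * M * 2 + 4 * M)) = true → decide (R' (ζ + M * n)) = true := by
    intro n hn h
    have h := of_decide_eq_true h
    rcases hn with rfl | rfl
    · exact decide_eq_true (hs.d0 (a := 0) (e := e0) (m := 3) (by simp) (by assumption) (by ring) h rfl)
    · exact decide_eq_true (hs.d1 (a := 0) (e := e0) (m := 3) (by simp) (by assumption) (by ring) h rfl)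
  have Ez4 : ∀ n : ℤ, (n = 4 ∨ n = 4 + 1) → decide (R (4 * ζ + e0 + 4 * M * 2 + 2 * (4 * M))) = true → decide (R' (ζ + M * n)) = true := by
    intro n hn h
    have h := of_decide_eq_true h
    rcases hn with rfl | rfl
    · exact decide_eq_true (hs.d0 (a := 0) (e := e0) (m := 4) (by simp) (by assumption) (by ring) h rfl)
    · exact decide_eq_true (hs.d1 (a := 0) (e := e0) (m := 4) (by simp) (by assumption) (by ring) h rfl)
  have Ep5 : ∀ n : ℤ, (n = 5 ∨ n = 5 + 1) → decide (R (4 * ζ - K + e1 + 4 * M * 5)) = true → decide (R' (ζ + M * n)) = true := by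
    intro n hn h
    have h := of_decide_eq_true h
    rcases hn with rfl | rfl
    · exact decide_eq_true (hs.d0 (a := 1) (e := e1) (m := 5) (by simp) (by assumption) (by ring) h rfl)
    · exact decide_eq_true (hs.d1 (a := 1) (e := e1) (m := 5) (by simp) (by assumption) (by ring) h rfl)
  have Ep6 : ∀ n : ℤ, (n = 6 ∨ n = 6 + 1) → decide (R (4 * ζ - K + e1 + 4 * M * 5 + 4 * M)) = true → decide (R' (ζ + M * n)) = true := by
    intro n hn h
    have h := of_decide_eq_true h
    rcases hn with rfl | rfl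
    · exact decide_eq_true (hs.d0 (a := 1) (e := e1) (m := 6) (by simp) (by assumption) (by ring) h rfl)
    · exact decide_eq_true (hs.d1 (a := 1) (e := e1) (m := 6) (by simp) (by assumption) (by ring) h rfl)
  have Ep7 : ∀ n : ℤ, (n = 7 ∨ n = 7 + 1) → decide (R (4 * ζ - K + e1 + 4 * M * 5 + 2 * (4 * M))) = true → decide (R' (ζ + M * n)) = true := by
    intro n hn h
    have h := of_decide_eq_true h
    rcases hn with rfl | rfl
    · exact decide_eq_true (hs.d0 (a := 1) (e := e1) (m := 7) (by simp) (by assumption) (by ring) h rfl)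
    · exact decide_eq_true (hs.d1 (a := 1) (e := e1) (m := 7) (by simp) (by assumption) (by ring) h rfl)
  unfold Ineq
  rw [qm, qz, qp]
  generalize decide (R (4 * ζ + K + em)) = b0 at Em0 ⊢
  generalize decide (R (4 * ζ + K + em + 4 * M)) = b1 at Em1 ⊢
  generalize decide (R (4 * ζ + e0 + 4 * M * 2)) = b2 at Ez2 ⊢
  generalize decide (R (4 * ζ + e0 + 4 * M * 2 + 4 * M)) = b3 at Ez3 ⊢
  generalize decide (R (4 * ζ + e0 + 4 * M * 2 + 2 * (4 * M))) = b4 at Ez4 ⊢
  generalize decide (R (4 * ζ - K + e1 + 4 * M * 5)) = b5 at Ep5 ⊢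
  generalize decide (R (4 * ζ - K + e1 + 4 * M * 5 + 4 * M)) = b6 at Ep6 ⊢
  generalize decide (R (4 * ζ - K + e1 + 4 * M * 5 + 2 * (4 * M))) = b7 at Ep7 ⊢
  have T0 : (b0) = true → decide (R' (ζ + M * 0)) = true := by
    intro h
    exact Em0 0 (by norm_num) h
  have T1 : (b0 || b1) = true → decide (R' (ζ + M * 1)) = true := by
    intro h
    simp only [Bool.or_eq_true] at h
    rcases h with (h | h)
    · exact Em0 1 (by norm_num) h
    · exact Em1 1 (by norm_num) h
  have T2 : (b1 || b2) = true → decide (R' (ζ + M * 2)) = true := by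
    intro h
    simp only [Bool.or_eq_true] at h
    rcases h with (h | h)
    · exact Em1 2 (by norm_num) h
    · exact Ez2 2 (by norm_num) h
  have T3 : (b2 || b3) = true → decide (R' (ζ + M * 3)) = true := by
    intro h
    simp only [Bool.or_eq_true] at h
    rcases h with (h | h)
    · exact Ez2 3 (by norm_num) h
    · exact Ez3 3 (by norm_num) h
  have T4 : (b3 || b4) = true → decide (R' (ζ + M * 4)) = true := by
    intro h
    simp only [Bool.or_eq_true] at h
    rcases h with (h | h)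
    · exact Ez3 4 (by norm_num) h
    · exact Ez4 4 (by norm_num) h
  have T5 : (b4 || b5) = true → decide (R' (ζ + M * 5)) = true := by
    intro h
    simp only [Bool.or_eq_true] at h
    rcases h with (h | h)
    · exact Ez4 5 (by norm_num) h
    · exact Ep5 5 (by norm_num) h
  have T6 : (b5 || b6) = true → decide (R' (ζ + M * 6)) = true := by
    intro h
    simp only [Bool.or_eq_true] at h
    rcases h with (h | h)
    · exact Ep5 6 (by norm_num) h
    · exact Ep6 6 (by norm_num) h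
  have T7 : (b6 || b7) = true → decide (R' (ζ + M * 7)) = true := by
    intro h
    simp only [Bool.or_eq_true] at h
    rcases h with (h | h)
    · exact Ep6 7 (by norm_num) h
    · exact Ep7 7 (by norm_num) h
  have T8 : (b7) = true → decide (R' (ζ + M * 8)) = true := by
    intro h
    exact Ep7 8 (by norm_num) h
  have u0 : g3 10 3 7 (b0) (b3 || b4) (b7) ≤ G (tabE K M) K (4 * M) R' (ζ) := by
    rw [r0, show ζ + 4 * M = ζ + M * 4 by ring, show ζ + 2 * (4 * M) = ζ + M * 8 by ring]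
    have T0' := T0; rw [show ζ + M * 0 = ζ by ring] at T0'
    exact g3_mono (by norm_num) (by norm_num) (by norm_num) T0' T4 T8
  have u1 : g2 10 6 6 (b0 || b1) (b4 || b5) ≤ G (tabE K M) K (4 * M) R' (ζ + M * 1) := by
    rw [r1, show ζ + M * 1 + 4 * M = ζ + M * 5 by ring]
    exact g2_mono (by norm_num) (by norm_num) (by norm_num) (by norm_num) T1 T5
  have u2 : g2 10 6 6 (b1 || b2) (b5 || b6) ≤ G (tabE K M) K (4 * M) R' (ζ + M * 2) := by
    rw [r2, show ζ + M * 2 + 4 * M = ζ + M * 6 by ring]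
    exact g2_mono (by norm_num) (by norm_num) (by norm_num) (by norm_num) T2 T6
  have u3 : g2 10 6 6 (b2 || b3) (b6 || b7) ≤ G (tabE K M) K (4 * M) R' (ζ + M * 3) := by
    rw [r3, show ζ + M * 3 + 4 * M = ζ + M * 7 by ring]
    exact g2_mono (by norm_num) (by norm_num) (by norm_num) (by norm_num) T3 T7
  have key : ∀ b0 b1 b2 b3 b4 b5 b6 b7 : Bool, KeyIneq 4 4 3 10 (g2 10 6 6 b0 b1) (g3 10 3 7 b2 b3 b4) (g3 10 3 7 b5 b6 b7)
      (g3 10 3 7 (b0) (b3 || b4) (b7) + g2 10 6 6 (b0 || b1) (b4 || b5) + g2 10 6 6 (b1 || b2) (b5 || b6) + g2 10 6 6 (b2 || b3) (b6 || b7)) := by decide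
  have key := key b0 b1 b2 b3 b4 b5 b6 b7
  unfold KeyIneq at key
  refine ⟨by linarith [key.1], fun h h' => ?_⟩
  have := key.2 h h'
  linarith

/-- lifts (0, 1) (2, 3, 4) (5, 6), 8 target lifts -/
lemma we_leaf7 {K M ζ em e0 e1 : ℤ} {R R' : ℤ → Prop} (hM : 0 < M) (hs : StepRel K M R R')
    (hem : em = 0 ∨ em = 1) (he0 : e0 = 0 ∨ e0 = 1) (he1 : e1 = 0 ∨ e1 = 1)
    (hx1 : -K ≤ 3 * ζ) (hx2 : 3 * (ζ - M) < -K)
    (am1 : -K ≤ 3 * (4 * ζ + K + em))
    (am2 : 3 * (4 * ζ + K + em - 4 * M) < -K)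
    (az1 : -K ≤ 3 * (4 * ζ + e0 + 4 * M * 2))
    (az2 : 3 * (4 * ζ + e0 + 4 * M * 2 - 4 * M) < -K)
    (ap1 : -K ≤ 3 * (4 * ζ - K + e1 + 4 * M * 5))
    (ap2 : 3 * (4 * ζ - K + e1 + 4 * M * 5 - 4 * M) < -K)
    (cm0 : ¬ 3 * (4 * ζ + K + em + 8 * M) ≤ K + 4 * M - 1)
    (cz0 : 3 * (4 * ζ + e0 + 4 * M * 2 + 8 * M) ≤ K + 4 * M - 1)
    (cp0 : ¬ 3 * (4 * ζ - K + e1 + 4 * M * 5 + 8 * M) ≤ K + 4 * M - 1)
    (t00 : ¬ 3 * (ζ + 8 * M) ≤ K + 4 * M - 1)
    (t10 : ¬ 3 * (ζ + M * 1 + 8 * M) ≤ K + 4 * M - 1)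
    (t20 : ¬ 3 * (ζ + M * 2 + 8 * M) ≤ K + 4 * M - 1)
    (t30 : ¬ 3 * (ζ + M * 3 + 8 * M) ≤ K + 4 * M - 1) :
    Ineq 4 4 3 10 (tabE K M) K M R R' ζ em e0 e1 := by
  classical
  have hN : 0 < 4 * M := by linarith
  have qm := G_eq (tab := tabE K M) (K := K) (N := 4 * M) (R := R) (z := 4 * ζ + K + em) (w := 4 * ζ + K + em) hN (by linarith) (by linarith)
    ⟨0, by ring⟩
  have qz := G_eq (tab := tabE K M) (K := K) (N := 4 * M) (R := R) (z := 4 * ζ + e0) (w := 4 * ζ + e0 + 4 * M * 2) hN (by linarith) (by linarith)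
    ⟨2, by ring⟩
  have qp := G_eq (tab := tabE K M) (K := K) (N := 4 * M) (R := R) (z := 4 * ζ - K + e1) (w := 4 * ζ - K + e1 + 4 * M * 5) hN (by linarith) (by linarith)
    ⟨5, by ring⟩
  have r0 := G_eq (tab := tabE K M) (K := K) (N := 4 * M) (R := R') (z := ζ) (w := ζ) hN (by linarith) (by linarith)
    ⟨0, by ring⟩
  have r1 := G_eq (tab := tabE K M) (K := K) (N := 4 * M) (R := R') (z := ζ + M * 1) (w := ζ + M * 1) hN (by linarith) (by linarith)
    ⟨0, by ring⟩
  have r2 := G_eq (tab := tabE K M) (K := K) (N := 4 * M) (R := R') (z := ζ + M * 2) (w := ζ + M * 2) hN (by linarith) (by linarith)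
    ⟨0, by ring⟩
  have r3 := G_eq (tab := tabE K M) (K := K) (N := 4 * M) (R := R') (z := ζ + M * 3) (w := ζ + M * 3) hN (by linarith) (by linarith)
    ⟨0, by ring⟩
  rw [tabE, if_neg cm0] at qm
  rw [tabE, if_pos cz0] at qz
  rw [tabE, if_neg cp0] at qp
  rw [tabE, if_neg t00] at r0
  rw [tabE, if_neg t10] at r1
  rw [tabE, if_neg t20] at r2
  rw [tabE, if_neg t30] at r3
  have Em0 : ∀ n : ℤ, (n = 0 ∨ n = 0 + 1) → decide (R (4 * ζ + K + em)) = true → decide (R' (ζ + M * n)) = true := by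
    intro n hn h
    have h := of_decide_eq_true h
    rcases hn with rfl | rfl
    · exact decide_eq_true (hs.d0 (a := -1) (e := em) (m := 0) (by simp) (by assumption) (by ring) h rfl)
    · exact decide_eq_true (hs.d1 (a := -1) (e := em) (m := 0) (by simp) (by assumption) (by ring) h rfl)
  have Em1 : ∀ n : ℤ, (n = 1 ∨ n = 1 + 1) → decide (R (4 * ζ + K + em + 4 * M)) = true → decide (R' (ζ + M * n)) = true := by
    intro n hn h
    have h := of_decide_eq_true h
    rcases hn with rfl | rfl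
    · exact decide_eq_true (hs.d0 (a := -1) (e := em) (m := 1) (by simp) (by assumption) (by ring) h rfl)
    · exact decide_eq_true (hs.d1 (a := -1) (e := em) (m := 1) (by simp) (by assumption) (by ring) h rfl)
  have Ez2 : ∀ n : ℤ, (n = 2 ∨ n = 2 + 1) → decide (R (4 * ζ + e0 + 4 * M * 2)) = true → decide (R' (ζ + M * n)) = true := by
    intro n hn h
    have h := of_decide_eq_true h
    rcases hn with rfl | rfl
    · exact decide_eq_true (hs.d0 (a := 0) (e := e0) (m := 2) (by simp) (by assumption) (by ring) h rfl)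
    · exact decide_eq_true (hs.d1 (a := 0) (e := e0) (m := 2) (by simp) (by assumption) (by ring) h rfl)
  have Ez3 : ∀ n : ℤ, (n = 3 ∨ n = 3 + 1) → decide (R (4 * ζ + e0 + 4 * M * 2 + 4 * M)) = true → decide (R' (ζ + M * n)) = true := by
    intro n hn h
    have h := of_decide_eq_true h
    rcases hn with rfl | rfl
    · exact decide_eq_true (hs.d0 (a := 0) (e := e0) (m := 3) (by simp) (by assumption) (by ring) h rfl)
    · exact decide_eq_true (hs.d1 (a := 0) (e := e0) (m := 3) (by simp) (by assumption) (by ring) h rfl)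
  have Ez4 : ∀ n : ℤ, (n = 4 ∨ n = 4 + 1) → decide (R (4 * ζ + e0 + 4 * M * 2 + 2 * (4 * M))) = true → decide (R' (ζ + M * n)) = true := by
    intro n hn h
    have h := of_decide_eq_true h
    rcases hn with rfl | rfl
    · exact decide_eq_true (hs.d0 (a := 0) (e := e0) (m := 4) (by simp) (by assumption) (by ring) h rfl)
    · exact decide_eq_true (hs.d1 (a := 0) (e := e0) (m := 4) (by simp) (by assumption) (by ring) h rfl)
  have Ep5 : ∀ n : ℤ, (n = 5 ∨ n = 5 + 1) → decide (R (4 * ζ - K + e1 + 4 * M * 5)) = true → decide (R' (ζ + M * n)) = true := by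
    intro n hn h
    have h := of_decide_eq_true h
    rcases hn with rfl | rfl
    · exact decide_eq_true (hs.d0 (a := 1) (e := e1) (m := 5) (by simp) (by assumption) (by ring) h rfl)
    · exact decide_eq_true (hs.d1 (a := 1) (e := e1) (m := 5) (by simp) (by assumption) (by ring) h rfl)
  have Ep6 : ∀ n : ℤ, (n = 6 ∨ n = 6 + 1) → decide (R (4 * ζ - K + e1 + 4 * M * 5 + 4 * M)) = true → decide (R' (ζ + M * n)) = true := by
    intro n hn h
    have h := of_decide_eq_true h
    rcases hn with rfl | rfl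
    · exact decide_eq_true (hs.d0 (a := 1) (e := e1) (m := 6) (by simp) (by assumption) (by ring) h rfl)
    · exact decide_eq_true (hs.d1 (a := 1) (e := e1) (m := 6) (by simp) (by assumption) (by ring) h rfl)
  unfold Ineq
  rw [qm, qz, qp]
  generalize decide (R (4 * ζ + K + em)) = b0 at Em0 ⊢
  generalize decide (R (4 * ζ + K + em + 4 * M)) = b1 at Em1 ⊢
  generalize decide (R (4 * ζ + e0 + 4 * M * 2)) = b2 at Ez2 ⊢
  generalize decide (R (4 * ζ + e0 + 4 * M * 2 + 4 * M)) = b3 at Ez3 ⊢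
  generalize decide (R (4 * ζ + e0 + 4 * M * 2 + 2 * (4 * M))) = b4 at Ez4 ⊢
  generalize decide (R (4 * ζ - K + e1 + 4 * M * 5)) = b5 at Ep5 ⊢
  generalize decide (R (4 * ζ - K + e1 + 4 * M * 5 + 4 * M)) = b6 at Ep6 ⊢
  have T0 : (b0) = true → decide (R' (ζ + M * 0)) = true := by
    intro h
    exact Em0 0 (by norm_num) h
  have T1 : (b0 || b1) = true → decide (R' (ζ + M * 1)) = true := by
    intro h
    simp only [Bool.or_eq_true] at h
    rcases h with (h | h)
    · exact Em0 1 (by norm_num) h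
    · exact Em1 1 (by norm_num) h
  have T2 : (b1 || b2) = true → decide (R' (ζ + M * 2)) = true := by
    intro h
    simp only [Bool.or_eq_true] at h
    rcases h with (h | h)
    · exact Em1 2 (by norm_num) h
    · exact Ez2 2 (by norm_num) h
  have T3 : (b2 || b3) = true → decide (R' (ζ + M * 3)) = true := by
    intro h
    simp only [Bool.or_eq_true] at h
    rcases h with (h | h)
    · exact Ez2 3 (by norm_num) h
    · exact Ez3 3 (by norm_num) h
  have T4 : (b3 || b4) = true → decide (R' (ζ + M * 4)) = true := by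
    intro h
    simp only [Bool.or_eq_true] at h
    rcases h with (h | h)
    · exact Ez3 4 (by norm_num) h
    · exact Ez4 4 (by norm_num) h
  have T5 : (b4 || b5) = true → decide (R' (ζ + M * 5)) = true := by
    intro h
    simp only [Bool.or_eq_true] at h
    rcases h with (h | h)
    · exact Ez4 5 (by norm_num) h
    · exact Ep5 5 (by norm_num) h
  have T6 : (b5 || b6) = true → decide (R' (ζ + M * 6)) = true := by
    intro h
    simp only [Bool.or_eq_true] at h
    rcases h with (h | h)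
    · exact Ep5 6 (by norm_num) h
    · exact Ep6 6 (by norm_num) h
  have T7 : (b6) = true → decide (R' (ζ + M * 7)) = true := by
    intro h
    exact Ep6 7 (by norm_num) h
  have u0 : g2 10 6 6 (b0) (b3 || b4) ≤ G (tabE K M) K (4 * M) R' (ζ) := by
    rw [r0, show ζ + 4 * M = ζ + M * 4 by ring]
    have T0' := T0; rw [show ζ + M * 0 = ζ by ring] at T0'
    exact g2_mono (by norm_num) (by norm_num) (by norm_num) (by norm_num) T0' T4
  have u1 : g2 10 6 6 (b0 || b1) (b4 || b5) ≤ G (tabE K M) K (4 * M) R' (ζ + M * 1) := by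
    rw [r1, show ζ + M * 1 + 4 * M = ζ + M * 5 by ring]
    exact g2_mono (by norm_num) (by norm_num) (by norm_num) (by norm_num) T1 T5
  have u2 : g2 10 6 6 (b1 || b2) (b5 || b6) ≤ G (tabE K M) K (4 * M) R' (ζ + M * 2) := by
    rw [r2, show ζ + M * 2 + 4 * M = ζ + M * 6 by ring]
    exact g2_mono (by norm_num) (by norm_num) (by norm_num) (by norm_num) T2 T6
  have u3 : g2 10 6 6 (b2 || b3) (b6) ≤ G (tabE K M) K (4 * M) R' (ζ + M * 3) := by
    rw [r3, show ζ + M * 3 + 4 * M = ζ + M * 7 by ring]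
    exact g2_mono (by norm_num) (by norm_num) (by norm_num) (by norm_num) T3 T7
  have key : ∀ b0 b1 b2 b3 b4 b5 b6 : Bool, KeyIneq 4 4 3 10 (g2 10 6 6 b0 b1) (g3 10 3 7 b2 b3 b4) (g2 10 6 6 b5 b6)
      (g2 10 6 6 (b0) (b3 || b4) + g2 10 6 6 (b0 || b1) (b4 || b5) + g2 10 6 6 (b1 || b2) (b5 || b6) + g2 10 6 6 (b2 || b3) (b6)) := by decide
  have key := key b0 b1 b2 b3 b4 b5 b6
  unfold KeyIneq at key
  refine ⟨by linarith [key.1], fun h h' => ?_⟩
  have := key.2 h h'
  linarith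

/-- lifts (0, 1, 2) (3, 4, 5) (6, 7, 8), 10 target lifts -/
lemma we_leaf8 {K M ζ em e0 e1 : ℤ} {R R' : ℤ → Prop} (hM : 0 < M) (hs : StepRel K M R R')
    (hem : em = 0 ∨ em = 1) (he0 : e0 = 0 ∨ e0 = 1) (he1 : e1 = 0 ∨ e1 = 1)
    (hx1 : -K ≤ 3 * ζ) (hx2 : 3 * (ζ - M) < -K)
    (am1 : -K ≤ 3 * (4 * ζ + K + em))
    (am2 : 3 * (4 * ζ + K + em - 4 * M) < -K)
    (az1 : -K ≤ 3 * (4 * ζ + e0 + 4 * M * 3))
    (az2 : 3 * (4 * ζ + e0 + 4 * M * 3 - 4 * M) < -K)
    (ap1 : -K ≤ 3 * (4 * ζ - K + e1 + 4 * M * 6))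
    (ap2 : 3 * (4 * ζ - K + e1 + 4 * M * 6 - 4 * M) < -K)
    (cm0 : 3 * (4 * ζ + K + em + 8 * M) ≤ K + 4 * M - 1)
    (cz0 : 3 * (4 * ζ + e0 + 4 * M * 3 + 8 * M) ≤ K + 4 * M - 1)
    (cp0 : 3 * (4 * ζ - K + e1 + 4 * M * 6 + 8 * M) ≤ K + 4 * M - 1)
    (t00 : 3 * (ζ + 8 * M) ≤ K + 4 * M - 1)
    (t10 : 3 * (ζ + M * 1 + 8 * M) ≤ K + 4 * M - 1)
    (t20 : ¬ 3 * (ζ + M * 2 + 8 * M) ≤ K + 4 * M - 1)
    (t30 : ¬ 3 * (ζ + M * 3 + 8 * M) ≤ K + 4 * M - 1) :
    Ineq 4 4 3 10 (tabE K M) K M R R' ζ em e0 e1 := by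
  classical
  have hN : 0 < 4 * M := by linarith
  have qm := G_eq (tab := tabE K M) (K := K) (N := 4 * M) (R := R) (z := 4 * ζ + K + em) (w := 4 * ζ + K + em) hN (by linarith) (by linarith)
    ⟨0, by ring⟩
  have qz := G_eq (tab := tabE K M) (K := K) (N := 4 * M) (R := R) (z := 4 * ζ + e0) (w := 4 * ζ + e0 + 4 * M * 3) hN (by linarith) (by linarith)
    ⟨3, by ring⟩
  have qp := G_eq (tab := tabE K M) (K := K) (N := 4 * M) (R := R) (z := 4 * ζ - K + e1) (w := 4 * ζ - K + e1 + 4 * M * 6) hN (by linarith) (by linarith)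
    ⟨6, by ring⟩
  have r0 := G_eq (tab := tabE K M) (K := K) (N := 4 * M) (R := R') (z := ζ) (w := ζ) hN (by linarith) (by linarith)
    ⟨0, by ring⟩
  have r1 := G_eq (tab := tabE K M) (K := K) (N := 4 * M) (R := R') (z := ζ + M * 1) (w := ζ + M * 1) hN (by linarith) (by linarith)
    ⟨0, by ring⟩
  have r2 := G_eq (tab := tabE K M) (K := K) (N := 4 * M) (R := R') (z := ζ + M * 2) (w := ζ + M * 2) hN (by linarith) (by linarith)
    ⟨0, by ring⟩
  have r3 := G_eq (tab := tabE K M) (K := K) (N := 4 * M) (R := R') (z := ζ + M * 3) (w := ζ + M * 3) hN (by linarith) (by linarith)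
    ⟨0, by ring⟩
  rw [tabE, if_pos cm0] at qm
  rw [tabE, if_pos cz0] at qz
  rw [tabE, if_pos cp0] at qp
  rw [tabE, if_pos t00] at r0
  rw [tabE, if_pos t10] at r1
  rw [tabE, if_neg t20] at r2
  rw [tabE, if_neg t30] at r3
  have Em0 : ∀ n : ℤ, (n = 0 ∨ n = 0 + 1) → decide (R (4 * ζ + K + em)) = true → decide (R' (ζ + M * n)) = true := by
    intro n hn h
    have h := of_decide_eq_true h
    rcases hn with rfl | rfl
    · exact decide_eq_true (hs.d0 (a := -1) (e := em) (m := 0) (by simp) (by assumption) (by ring) h rfl)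
    · exact decide_eq_true (hs.d1 (a := -1) (e := em) (m := 0) (by simp) (by assumption) (by ring) h rfl)
  have Em1 : ∀ n : ℤ, (n = 1 ∨ n = 1 + 1) → decide (R (4 * ζ + K + em + 4 * M)) = true → decide (R' (ζ + M * n)) = true := by
    intro n hn h
    have h := of_decide_eq_true h
    rcases hn with rfl | rfl
    · exact decide_eq_true (hs.d0 (a := -1) (e := em) (m := 1) (by simp) (by assumption) (by ring) h rfl)
    · exact decide_eq_true (hs.d1 (a := -1) (e := em) (m := 1) (by simp) (by assumption) (by ring) h rfl)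
  have Em2 : ∀ n : ℤ, (n = 2 ∨ n = 2 + 1) → decide (R (4 * ζ + K + em + 2 * (4 * M))) = true → decide (R' (ζ + M * n)) = true := by
    intro n hn h
    have h := of_decide_eq_true h
    rcases hn with rfl | rfl
    · exact decide_eq_true (hs.d0 (a := -1) (e := em) (m := 2) (by simp) (by assumption) (by ring) h rfl)
    · exact decide_eq_true (hs.d1 (a := -1) (e := em) (m := 2) (by simp) (by assumption) (by ring) h rfl)
  have Ez3 : ∀ n : ℤ, (n = 3 ∨ n = 3 + 1) → decide (R (4 * ζ + e0 + 4 * M * 3)) = true → decide (R' (ζ + M * n)) = true := by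
    intro n hn h
    have h := of_decide_eq_true h
    rcases hn with rfl | rfl
    · exact decide_eq_true (hs.d0 (a := 0) (e := e0) (m := 3) (by simp) (by assumption) (by ring) h rfl)
    · exact decide_eq_true (hs.d1 (a := 0) (e := e0) (m := 3) (by simp) (by assumption) (by ring) h rfl)
  have Ez4 : ∀ n : ℤ, (n = 4 ∨ n = 4 + 1) → decide (R (4 * ζ + e0 + 4 * M * 3 + 4 * M)) = true → decide (R' (ζ + M * n)) = true := by
    intro n hn h
    have h := of_decide_eq_true h
    rcases hn with rfl | rfl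
    · exact decide_eq_true (hs.d0 (a := 0) (e := e0) (m := 4) (by simp) (by assumption) (by ring) h rfl)
    · exact decide_eq_true (hs.d1 (a := 0) (e := e0) (m := 4) (by simp) (by assumption) (by ring) h rfl)
  have Ez5 : ∀ n : ℤ, (n = 5 ∨ n = 5 + 1) → decide (R (4 * ζ + e0 + 4 * M * 3 + 2 * (4 * M))) = true → decide (R' (ζ + M * n)) = true := by
    intro n hn h
    have h := of_decide_eq_true h
    rcases hn with rfl | rfl
    · exact decide_eq_true (hs.d0 (a := 0) (e := e0) (m := 5) (by simp) (by assumption) (by ring) h rfl)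
    · exact decide_eq_true (hs.d1 (a := 0) (e := e0) (m := 5) (by simp) (by assumption) (by ring) h rfl)
  have Ep6 : ∀ n : ℤ, (n = 6 ∨ n = 6 + 1) → decide (R (4 * ζ - K + e1 + 4 * M * 6)) = true → decide (R' (ζ + M * n)) = true := by
    intro n hn h
    have h := of_decide_eq_true h
    rcases hn with rfl | rfl
    · exact decide_eq_true (hs.d0 (a := 1) (e := e1) (m := 6) (by simp) (by assumption) (by ring) h rfl)
    · exact decide_eq_true (hs.d1 (a := 1) (e := e1) (m := 6) (by simp) (by assumption) (by ring) h rfl)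
  have Ep7 : ∀ n : ℤ, (n = 7 ∨ n = 7 + 1) → decide (R (4 * ζ - K + e1 + 4 * M * 6 + 4 * M)) = true → decide (R' (ζ + M * n)) = true := by
    intro n hn h
    have h := of_decide_eq_true h
    rcases hn with rfl | rfl
    · exact decide_eq_true (hs.d0 (a := 1) (e := e1) (m := 7) (by simp) (by assumption) (by ring) h rfl)
    · exact decide_eq_true (hs.d1 (a := 1) (e := e1) (m := 7) (by simp) (by assumption) (by ring) h rfl)
  have Ep8 : ∀ n : ℤ, (n = 8 ∨ n = 8 + 1) → decide (R (4 * ζ - K + e1 + 4 * M * 6 + 2 * (4 * M))) = true → decide (R' (ζ + M * n)) = true := by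
    intro n hn h
    have h := of_decide_eq_true h
    rcases hn with rfl | rfl
    · exact decide_eq_true (hs.d0 (a := 1) (e := e1) (m := 8) (by simp) (by assumption) (by ring) h rfl)
    · exact decide_eq_true (hs.d1 (a := 1) (e := e1) (m := 8) (by simp) (by assumption) (by ring) h rfl)
  unfold Ineq
  rw [qm, qz, qp]
  generalize decide (R (4 * ζ + K + em)) = b0 at Em0 ⊢
  generalize decide (R (4 * ζ + K + em + 4 * M)) = b1 at Em1 ⊢
  generalize decide (R (4 * ζ + K + em + 2 * (4 * M))) = b2 at Em2 ⊢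
  generalize decide (R (4 * ζ + e0 + 4 * M * 3)) = b3 at Ez3 ⊢
  generalize decide (R (4 * ζ + e0 + 4 * M * 3 + 4 * M)) = b4 at Ez4 ⊢
  generalize decide (R (4 * ζ + e0 + 4 * M * 3 + 2 * (4 * M))) = b5 at Ez5 ⊢
  generalize decide (R (4 * ζ - K + e1 + 4 * M * 6)) = b6 at Ep6 ⊢
  generalize decide (R (4 * ζ - K + e1 + 4 * M * 6 + 4 * M)) = b7 at Ep7 ⊢
  generalize decide (R (4 * ζ - K + e1 + 4 * M * 6 + 2 * (4 * M))) = b8 at Ep8 ⊢
  have T0 : (b0) = true → decide (R' (ζ + M * 0)) = true := by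
    intro h
    exact Em0 0 (by norm_num) h
  have T1 : (b0 || b1) = true → decide (R' (ζ + M * 1)) = true := by
    intro h
    simp only [Bool.or_eq_true] at h
    rcases h with (h | h)
    · exact Em0 1 (by norm_num) h
    · exact Em1 1 (by norm_num) h
  have T2 : (b1 || b2) = true → decide (R' (ζ + M * 2)) = true := by
    intro h
    simp only [Bool.or_eq_true] at h
    rcases h with (h | h)
    · exact Em1 2 (by norm_num) h
    · exact Em2 2 (by norm_num) h
  have T3 : (b2 || b3) = true → decide (R' (ζ + M * 3)) = true := by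
    intro h
    simp only [Bool.or_eq_true] at h
    rcases h with (h | h)
    · exact Em2 3 (by norm_num) h
    · exact Ez3 3 (by norm_num) h
  have T4 : (b3 || b4) = true → decide (R' (ζ + M * 4)) = true := by
    intro h
    simp only [Bool.or_eq_true] at h
    rcases h with (h | h)
    · exact Ez3 4 (by norm_num) h
    · exact Ez4 4 (by norm_num) h
  have T5 : (b4 || b5) = true → decide (R' (ζ + M * 5)) = true := by
    intro h
    simp only [Bool.or_eq_true] at h
    rcases h with (h | h)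
    · exact Ez4 5 (by norm_num) h
    · exact Ez5 5 (by norm_num) h
  have T6 : (b5 || b6) = true → decide (R' (ζ + M * 6)) = true := by
    intro h
    simp only [Bool.or_eq_true] at h
    rcases h with (h | h)
    · exact Ez5 6 (by norm_num) h
    · exact Ep6 6 (by norm_num) h
  have T7 : (b6 || b7) = true → decide (R' (ζ + M * 7)) = true := by
    intro h
    simp only [Bool.or_eq_true] at h
    rcases h with (h | h)
    · exact Ep6 7 (by norm_num) h
    · exact Ep7 7 (by norm_num) h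
  have T8 : (b7 || b8) = true → decide (R' (ζ + M * 8)) = true := by
    intro h
    simp only [Bool.or_eq_true] at h
    rcases h with (h | h)
    · exact Ep7 8 (by norm_num) h
    · exact Ep8 8 (by norm_num) h
  have T9 : (b8) = true → decide (R' (ζ + M * 9)) = true := by
    intro h
    exact Ep8 9 (by norm_num) h
  have u0 : g3 10 3 7 (b0) (b3 || b4) (b7 || b8) ≤ G (tabE K M) K (4 * M) R' (ζ) := by
    rw [r0, show ζ + 4 * M = ζ + M * 4 by ring, show ζ + 2 * (4 * M) = ζ + M * 8 by ring]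
    have T0' := T0; rw [show ζ + M * 0 = ζ by ring] at T0'
    exact g3_mono (by norm_num) (by norm_num) (by norm_num) T0' T4 T8
  have u1 : g3 10 3 7 (b0 || b1) (b4 || b5) (b8) ≤ G (tabE K M) K (4 * M) R' (ζ + M * 1) := by
    rw [r1, show ζ + M * 1 + 4 * M = ζ + M * 5 by ring, show ζ + M * 1 + 2 * (4 * M) = ζ + M * 9 by ring]
    exact g3_mono (by norm_num) (by norm_num) (by norm_num) T1 T5 T9
  have u2 : g2 10 6 6 (b1 || b2) (b5 || b6) ≤ G (tabE K M) K (4 * M) R' (ζ + M * 2) := by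
    rw [r2, show ζ + M * 2 + 4 * M = ζ + M * 6 by ring]
    exact g2_mono (by norm_num) (by norm_num) (by norm_num) (by norm_num) T2 T6
  have u3 : g2 10 6 6 (b2 || b3) (b6 || b7) ≤ G (tabE K M) K (4 * M) R' (ζ + M * 3) := by
    rw [r3, show ζ + M * 3 + 4 * M = ζ + M * 7 by ring]
    exact g2_mono (by norm_num) (by norm_num) (by norm_num) (by norm_num) T3 T7
  have key : ∀ b0 b1 b2 b3 b4 b5 b6 b7 b8 : Bool, KeyIneq 4 4 3 10 (g3 10 3 7 b0 b1 b2) (g3 10 3 7 b3 b4 b5) (g3 10 3 7 b6 b7 b8)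
      (g3 10 3 7 (b0) (b3 || b4) (b7 || b8) + g3 10 3 7 (b0 || b1) (b4 || b5) (b8) + g2 10 6 6 (b1 || b2) (b5 || b6) + g2 10 6 6 (b2 || b3) (b6 || b7)) := by decide
  have key := key b0 b1 b2 b3 b4 b5 b6 b7 b8
  unfold KeyIneq at key
  refine ⟨by linarith [key.1], fun h h' => ?_⟩
  have := key.2 h h'
  linarith

theorem we_core {K M ζ em e0 e1 : ℤ} {R R' : ℤ → Prop} (hM : 0 < M) (hs : StepRel K M R R')
    (hem : em = 0 ∨ em = 1) (he0 : e0 = 0 ∨ e0 = 1) (he1 : e1 = 0 ∨ e1 = 1)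
    (hx1 : -K ≤ 3 * ζ) (hx2 : 3 * (ζ - M) < -K) (hM4 : 4 ≤ M) (hM3 : M % 3 = 1) (hK1 : 10 * M < K) (hK2 : K < 12 * M) :
    Ineq 4 4 3 10 (tabE K M) K M R R' ζ em e0 e1 := by
  by_cases hlop5 : -K ≤ 3 * (4 * ζ - K + e1 + 4 * M * 5)
  · by_cases hcp50 : 3 * (4 * ζ - K + e1 + 4 * M * 5 + 8 * M) ≤ K + 4 * M - 1
    · by_cases hloz2 : -K ≤ 3 * (4 * ζ + e0 + 4 * M * 2)
      · exact we_leaf6 hM hs hem he0 he1 hx1 hx2 (by omega) (by omega) (by omega) (by omega) (by omega) (by omega) (by omega) (by omega) (by omega) (by omega) (by omega) (by omega) (by omega)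
      · exact we_leaf3 hM hs hem he0 he1 hx1 hx2 (by omega) (by omega) (by omega) (by omega) (by omega) (by omega) (by omega) (by omega) (by omega) (by omega) (by omega) (by omega) (by omega)
    · by_cases hloz2 : -K ≤ 3 * (4 * ζ + e0 + 4 * M * 2)
      · by_cases hcz20 : 3 * (4 * ζ + e0 + 4 * M * 2 + 8 * M) ≤ K + 4 * M - 1
        · exact we_leaf7 hM hs hem he0 he1 hx1 hx2 (by omega) (by omega) (by omega) (by omega) (by omega) (by omega) (by omega) (by omega) (by omega) (by omega) (by omega) (by omega) (by omega)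
        · exact we_leaf1 hM hs hem he0 he1 hx1 hx2 (by omega) (by omega) (by omega) (by omega) (by omega) (by omega) (by omega) (by omega) (by omega) (by omega) (by omega) (by omega) (by omega)
      · exact we_leaf0 hM hs hem he0 he1 hx1 hx2 (by omega) (by omega) (by omega) (by omega) (by omega) (by omega) (by omega) (by omega) (by omega) (by omega) (by omega) (by omega) (by omega)
  · by_cases hcz30 : 3 * (4 * ζ + e0 + 4 * M * 3 + 8 * M) ≤ K + 4 * M - 1
    · by_cases hT10 : 3 * (ζ + M * 1 + 8 * M) ≤ K + 4 * M - 1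
      · exact we_leaf8 hM hs hem he0 he1 hx1 hx2 (by omega) (by omega) (by omega) (by omega) (by omega) (by omega) (by omega) (by omega) (by omega) (by omega) (by omega) (by omega) (by omega)
      · exact we_leaf5 hM hs hem he0 he1 hx1 hx2 (by omega) (by omega) (by omega) (by omega) (by omega) (by omega) (by omega) (by omega) (by omega) (by omega) (by omega) (by omega) (by omega)
    · by_cases hcm00 : 3 * (4 * ζ + K + em + 8 * M) ≤ K + 4 * M - 1
      · exact we_leaf2 hM hs hem he0 he1 hx1 hx2 (by omega) (by omega) (by omega) (by omega) (by omega) (by omega) (by omega) (by omega) (by omega) (by omega) (by omega) (by omega) (by omega)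
      · exact we_leaf4 hM hs hem he0 he1 hx1 hx2 (by omega) (by omega) (by omega) (by omega) (by omega) (by omega) (by omega) (by omega) (by omega) (by omega) (by omega) (by omega) (by omega)

end Pool.Agent.H62.LV
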