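import Pool.Agent.H62.LV.WinAB
import Pool.Agent.H62.LV.WinC
import Pool.Agent.H62.LV.WinE

/-! The windows `17 · 4^t < 8 |k|`, `|k| < 3 · 4^t`. -/

namespace Pool.Agent.H62.LV

open Pool.Agent.H6.LvdP2 Pool.Agent.H98.LvdP Finset

theorem good_C {K : ℤ} {u : ℕ} (hu : 1 ≤ u) (h1 : 17 * 4 ^ u < 2 * K) (h2 : K < 10 * 4 ^ u) :
    Good K u (1 / 160) := by
  have hM4 : (4 : ℤ) ≤ 4 ^ u := by
    calc (4 : ℤ) = 4 ^ 1 := by norm_num
      _ ≤ 4 ^ u := pow_le_pow_right₀ (by norm_num) hu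
  have h := good_of_ineq (A := 6) (B := 8) (C := 5) (top := 16) (tab := tabC K (4 ^ u))
    (K := K) (u := u) (by norm_num) (by norm_num) (by norm_num) (by norm_num) (by norm_num)
    (by linarith) (by linarith) ?_ ?_ ?_ ?_ ?_ ?_ ?_
  · norm_num at h ⊢
    exact h
  · intro w b0 b1 b2; unfold tabC; split_ifs <;> cases b0 <;> cases b1 <;> simp [g1, g2]
  · intro w b0 b1 b2; unfold tabC; split_ifs <;> cases b0 <;> cases b1 <;> simp [g1, g2]
  · intro w b0 b1 b2; unfold tabC; split_ifs <;> cases b0 <;> cases b1 <;> simp [g1, g2]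
  · intro w b1 b2; unfold tabC; split_ifs <;> cases b1 <;> simp [g1, g2]
  · intro w b1 b2; unfold tabC; split_ifs <;> cases b1 <;> simp [g1, g2]
  · intro w b0 b2 hw; unfold tabC; rw [if_pos hw]; split_ifs <;> cases b0 <;> simp [g2]
  · intro R R' hs ζ em e0 e1 hem he0 he1 hx1 hx2
    exact wc_core (by linarith) hs hem he0 he1 hx1 hx2 hM4 (four_pow_mod u) h1 h2

theorem good_E {K : ℤ} {u : ℕ} (hu : 1 ≤ u) (h1 : 10 * 4 ^ u < K) (h2 : K < 12 * 4 ^ u) :
    Good K u (1 / 60) := by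
  have hM4 : (4 : ℤ) ≤ 4 ^ u := by
    calc (4 : ℤ) = 4 ^ 1 := by norm_num
      _ ≤ 4 ^ u := pow_le_pow_right₀ (by norm_num) hu
  have h := good_of_ineq (A := 4) (B := 4) (C := 3) (top := 10) (tab := tabE K (4 ^ u))
    (K := K) (u := u) (by norm_num) (by norm_num) (by norm_num) (by norm_num) (by norm_num)
    (by linarith) (by linarith) ?_ ?_ ?_ ?_ ?_ ?_ ?_
  · norm_num at h ⊢
    exact h
  · intro w b0 b1 b2; unfold tabE; split_ifs <;> cases b0 <;> cases b1 <;> cases b2 <;>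
      simp [g3, g2]
  · intro w b0 b1 b2; unfold tabE; split_ifs <;> cases b0 <;> cases b1 <;> cases b2 <;>
      simp [g3, g2]
  · intro w b0 b1 b2; unfold tabE; split_ifs <;> cases b0 <;> cases b1 <;> cases b2 <;>
      simp [g3, g2]
  · intro w b1 b2; unfold tabE; split_ifs <;> cases b1 <;> cases b2 <;> simp [g3, g2]
  · intro w b1 b2; unfold tabE; split_ifs <;> cases b1 <;> cases b2 <;> simp [g3, g2]
  · intro w b0 b2 hw; unfold tabE; split_ifs <;> cases b0 <;> cases b2 <;> simp [g3, g2]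
  · intro R R' hs ζ em e0 e1 hem he0 he1 hx1 hx2
    exact we_core (by linarith) hs hem he0 he1 hx1 hx2 hM4 (four_pow_mod u) h1 h2

theorem bound_window2 {k : ℤ} (hk : Odd k) {t : ℕ} (ht : 2 ≤ t) (h1 : 17 * 4 ^ t < 8 * |k|)
    (h2 : |k| ≤ 3 * 4 ^ t) :
    ∃ m : ℤ, IsMultiplier k m ∧ (m : ℝ) ≤ |(k : ℝ)| ^ (806 * Real.log (Real.log |(k : ℝ)|)) := by
  obtain ⟨u, rfl⟩ : ∃ u, t = u + 1 := ⟨t - 1, by omega⟩
  have hu : 1 ≤ u := by omega
  have h4 : (4 : ℤ) ^ (u + 1) = 4 * 4 ^ u := by ring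
  have hM4 : (4 : ℤ) ≤ 4 ^ u := by
    calc (4 : ℤ) = 4 ^ 1 := by norm_num
      _ ≤ 4 ^ u := pow_le_pow_right₀ (by norm_num) hu
  have hko : |k| % 2 = 1 := by
    have := (odd_abs (α := ℤ)).2 hk
    exact Int.odd_iff.1 this
  rw [h4] at h1 h2
  rcases le_or_gt (10 * 4 ^ u) |k| with h | h
  · have hg := good_E (K := |k|) hu (by omega) (by omega)
    obtain ⟨m, hm, hb⟩ := bound_of_good hk hu (by rw [h4]; omega) hg (by norm_num)
      (by norm_num)
    refine ⟨m, hm, bound_mono (by linarith) ?_ hb⟩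
    norm_num
  · have hg := good_C (K := |k|) hu (by omega) (by omega)
    obtain ⟨m, hm, hb⟩ := bound_of_good hk hu (by rw [h4]; omega) hg (by norm_num)
      (by norm_num)
    refine ⟨m, hm, bound_mono (by linarith) ?_ hb⟩
    norm_num

end Pool.Agent.H62.LV
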