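import Pool.Agent.H62.LV.WinAB
import Pool.Agent.H62.LV.WinCE
import Pool.Agent.H6.LvdP3.Union

/-! Team RP (helper62): the two windows in the form `Win`. -/

set_option autoImplicit false

namespace Pool.Agent.H62.LV

open Pool.Agent.H98.LvdP Pool.Agent.H6.LvdP3

lemma to_pow {c : ℕ} {k m : ℤ} {t : ℕ} (ht : 2 ≤ t) (h1 : (4 : ℤ) ^ t ≤ |k|)
    (h2 : |k| ≤ 4 ^ (t + 1))
    (hm : (m : ℝ) ≤ |(k : ℝ)| ^ ((c : ℝ) * Real.log (Real.log |(k : ℝ)|))) :
    m ≤ 4 ^ ((5 * c) * t ^ 2) := by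
  have hk1 : (16 : ℝ) ≤ |(k : ℝ)| := by
    have h3 : (16 : ℤ) ≤ 4 ^ t := by
      calc (16 : ℤ) = 4 ^ 2 := by norm_num
        _ ≤ 4 ^ t := pow_le_pow_right₀ (by norm_num) ht
    have h4 : (16 : ℤ) ≤ |k| := h3.trans h1
    have : ((16 : ℤ) : ℝ) ≤ ((|k| : ℤ) : ℝ) := by exact_mod_cast h4
    rwa [Int.cast_abs] at this
  have hk2 : |(k : ℝ)| ≤ (4 : ℝ) ^ (t + 1) := by
    have : ((|k| : ℤ) : ℝ) ≤ ((4 ^ (t + 1) : ℤ) : ℝ) := by exact_mod_cast h2
    rw [Int.cast_abs] at this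
    exact_mod_cast this
  generalize |(k : ℝ)| = x at hk1 hk2 hm
  have hx0 : 0 < x := by linarith
  have hlog1 : 1 ≤ Real.log x := by
    rw [Real.le_log_iff_exp_le hx0]
    have := Real.exp_one_lt_d9
    linarith
  have hL0 : 0 ≤ Real.log (Real.log x) := Real.log_nonneg hlog1
  have hlog42 : Real.log 4 ≤ 2 := by
    have h2 : Real.log 4 = 2 * Real.log 2 := by
      rw [show (4 : ℝ) = 2 ^ (2 : ℕ) by norm_num, Real.log_pow]; norm_num
    have := Real.log_two_lt_d9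
    rw [h2]; linarith
  have hlog2 : Real.log x ≤ 2 * (t + 1) := by
    have h3 : Real.log x ≤ Real.log ((4 : ℝ) ^ (t + 1)) := Real.log_le_log hx0 hk2
    rw [Real.log_pow] at h3
    push_cast at h3
    have : (0 : ℝ) ≤ (t : ℝ) + 1 := by positivity
    nlinarith
  have hL : Real.log (Real.log x) ≤ 2 * (t + 1) := by
    have := Real.log_le_sub_one_of_pos (show 0 < Real.log x by linarith)
    linarith
  have htR : (2 : ℝ) ≤ t := by exact_mod_cast ht
  have hc0 : (0 : ℝ) ≤ c := Nat.cast_nonneg c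
  have h5 : x ^ ((c : ℝ) * Real.log (Real.log x)) ≤ (4 : ℝ) ^ ((5 * c) * t ^ 2) := by
    calc x ^ ((c : ℝ) * Real.log (Real.log x)) ≤
          ((4 : ℝ) ^ (t + 1)) ^ ((c : ℝ) * Real.log (Real.log x)) :=
          Real.rpow_le_rpow hx0.le hk2 (by positivity)
      _ = (4 : ℝ) ^ (((t + 1 : ℕ) : ℝ) * ((c : ℝ) * Real.log (Real.log x))) := by
          rw [← Real.rpow_natCast 4 (t + 1), ← Real.rpow_mul (by norm_num)]
      _ ≤ (4 : ℝ) ^ ((((5 * c) * t ^ 2 : ℕ)) : ℝ) := by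
          apply Real.rpow_le_rpow_of_exponent_le (by norm_num)
          push_cast
          have h6 : (c : ℝ) * Real.log (Real.log x) ≤ c * (2 * (t + 1)) :=
            mul_le_mul_of_nonneg_left hL hc0
          have h7 : ((t : ℝ) + 1) * ((c : ℝ) * Real.log (Real.log x)) ≤
              ((t : ℝ) + 1) * (c * (2 * (t + 1))) :=
            mul_le_mul_of_nonneg_left h6 (by positivity)
          have h8 : 2 * ((t : ℝ) + 1) * (t + 1) ≤ 5 * t ^ 2 := by nlinarith
          nlinarith [mul_le_mul_of_nonneg_left h8 hc0]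
      _ = _ := by rw [Real.rpow_natCast]
  have h9 : (m : ℝ) ≤ (4 : ℝ) ^ ((5 * c) * t ^ 2) := hm.trans h5
  exact_mod_cast h9

/-- the window `1 ≤ |k| / 4^t ≤ 7/4` -/
theorem win_AB : Win 2830 2 2 1 1 7 4 := by
  intro k hk t ht h1 h2
  have h3 : (4 : ℤ) ^ t < |k| := by
    have hodd : Odd |k| := by
      rcases abs_choice k with h | h <;> rw [h]
      · exact hk
      · exact hk.neg
    obtain ⟨j, hj⟩ := hodd
    obtain ⟨r, rfl⟩ : ∃ r, t = r + 1 := ⟨t - 1, by omega⟩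
    have e : (4 : ℤ) ^ (r + 1) = 4 * 4 ^ r := by ring
    rw [e] at h1 ⊢
    omega
  obtain ⟨m, hm, hb⟩ := bound_window hk ht h3 h2
  refine ⟨m, hm, ?_⟩
  have h4 : (0 : ℤ) < 4 ^ t := by positivity
  have := to_pow (c := 566) (k := k) (m := m) (t := t) ht h3.le (by rw [pow_succ]; linarith)
    (by push_cast; exact hb)
  simpa using this

/-- the window `17/8 ≤ |k| / 4^t ≤ 3` -/
theorem win_CE : Win 4030 2 2 17 8 3 1 := by
  intro k hk t ht h1 h2
  have h3 : 17 * (4 : ℤ) ^ t < 8 * |k| := by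
    have hodd : Odd |k| := by
      rcases abs_choice k with h | h <;> rw [h]
      · exact hk
      · exact hk.neg
    obtain ⟨j, hj⟩ := hodd
    obtain ⟨r, rfl⟩ : ∃ r, t = r + 2 := ⟨t - 2, by omega⟩
    have e : (4 : ℤ) ^ (r + 2) = 16 * 4 ^ r := by ring
    rw [e] at h1 ⊢
    omega
  obtain ⟨m, hm, hb⟩ := bound_window2 hk ht h3 (by linarith)
  refine ⟨m, hm, ?_⟩
  have h4 : (0 : ℤ) < 4 ^ t := by positivity
  have := to_pow (c := 806) (k := k) (m := m) (t := t) ht (by linarith)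
    (by rw [pow_succ]; linarith) (by push_cast; exact hb)
  simpa using this

end Pool.Agent.H62.LV
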