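import Pool.Agent.H62.LV.Strict

/-! Blocks of `t = u+1` steps without loss at the start. -/

namespace Pool.Agent.H62.LV

open Pool.Agent.H6.LvdP2 Finset

section pointwise

variable {p ε : ℝ}

lemma first_up (hp : 0 ≤ p) (hp' : p ≤ 1 / 2) (hε : 0 < ε) (hε1 : ε < 1) {x y z w : ℝ}
    (hx : 0 ≤ x) (hy : 0 ≤ y) (hz : 0 ≤ z)
    (h : p * x + (1 - 2 * p) * y + p * z ≤ w)
    (hs : ¬ (x = 0 ∧ y = 0 ∧ z = 0) → ¬ (x = 1 ∧ y = 1 ∧ z = 1) →
      p * x + (1 - 2 * p) * y + p * z + ε ≤ w) :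
    p * x + (1 - 2 * p) * y + p * z ≤ w ^ (1 / (1 - ε)) := by
  have hm0 : 0 ≤ p * x + (1 - 2 * p) * y + p * z := by
    have := mul_nonneg hp hx
    have := mul_nonneg (show 0 ≤ 1 - 2 * p by linarith) hy
    have := mul_nonneg hp hz
    linarith
  have hε' : 0 < 1 - ε := by linarith
  have hr : 0 < 1 / (1 - ε) := by positivity
  by_cases h0 : x = 0 ∧ y = 0 ∧ z = 0
  · obtain ⟨rfl, rfl, rfl⟩ := h0
    have hw : 0 ≤ w := hm0.trans h
    have := Real.rpow_nonneg hw (1 / (1 - ε))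
    linarith
  · by_cases h1 : x = 1 ∧ y = 1 ∧ z = 1
    · obtain ⟨rfl, rfl, rfl⟩ := h1
      have hw : 1 ≤ w := by linarith
      have := Real.one_le_rpow hw hr.le
      linarith
    · have hs' := hs h0 h1
      set m := p * x + (1 - 2 * p) * y + p * z with hm
      refine (bern_up hε.le hε1 hm0).trans ?_
      apply Real.rpow_le_rpow
      · have := mul_nonneg hε'.le hm0
        linarith
      · nlinarith
      · exact hr.le

lemma first_down (hp : 0 ≤ p) (hp' : p ≤ 1 / 2) (hε : 0 < ε) {x y z w : ℝ}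
    (hx : 0 ≤ x) (hx1 : x ≤ 1) (hy : 0 ≤ y) (hy1 : y ≤ 1) (hz : 0 ≤ z) (hz1 : z ≤ 1) (hw1 : w ≤ 1)
    (h : p * x + (1 - 2 * p) * y + p * z ≤ w)
    (hs : ¬ (x = 0 ∧ y = 0 ∧ z = 0) → ¬ (x = 1 ∧ y = 1 ∧ z = 1) →
      p * x + (1 - 2 * p) * y + p * z + ε ≤ w) :
    (1 - w) ^ (1 / (1 + ε)) ≤ 1 - (p * x + (1 - 2 * p) * y + p * z) := by
  have hε' : 0 < 1 + ε := by linarith
  have hρ : 0 < 1 / (1 + ε) := by positivity
  have hm0 : 0 ≤ p * x + (1 - 2 * p) * y + p * z := by
    have := mul_nonneg hp hx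
    have := mul_nonneg (show 0 ≤ 1 - 2 * p by linarith) hy
    have := mul_nonneg hp hz
    linarith
  have hm1 : p * x + (1 - 2 * p) * y + p * z ≤ 1 := by
    have := mul_le_mul_of_nonneg_left hx1 hp
    have := mul_le_mul_of_nonneg_left hy1 (show 0 ≤ 1 - 2 * p by linarith)
    have := mul_le_mul_of_nonneg_left hz1 hp
    linarith
  by_cases h0 : x = 0 ∧ y = 0 ∧ z = 0
  · obtain ⟨rfl, rfl, rfl⟩ := h0
    have := Real.rpow_le_one (show 0 ≤ 1 - w by linarith) (by linarith) hρ.le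
    linarith
  · by_cases h1 : x = 1 ∧ y = 1 ∧ z = 1
    · obtain ⟨rfl, rfl, rfl⟩ := h1
      have hw : w = 1 := le_antisymm hw1 (by linarith)
      subst hw
      rw [sub_self, Real.zero_rpow hρ.ne']
      linarith
    · have hs' := hs h0 h1
      set m := p * x + (1 - 2 * p) * y + p * z with hm
      have hV : 0 ≤ 1 - m := by linarith
      calc (1 - w) ^ (1 / (1 + ε)) ≤ ((1 - m) ^ (1 + ε)) ^ (1 / (1 + ε)) := by
            apply Real.rpow_le_rpow (by linarith) _ hρ.le
            have := bern_down (ε := ε) hε.le hV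
            nlinarith
        _ = 1 - m := by
            rw [← Real.rpow_mul hV, mul_one_div_cancel hε'.ne', Real.rpow_one]

end pointwise

lemma lev_one_apply (u : ℕ) (G : ℤ → ℝ) (z : ℤ) : lev u 1 G z =
    (G z + G (z + 4 ^ u) + G (z + 2 * 4 ^ u) + G (z + 3 * 4 ^ u)) / 4 := by
  unfold lev
  simp only [pow_one, Finset.sum_range_succ, Finset.sum_range_zero]
  push_cast
  ring_nf

variable {p ε α : ℝ} {k q : ℤ} {u : ℕ} {F : ℕ → ℤ → ℝ}

lemma mean_first_up (h : StrictChain p ε α k u F) (hk : k = 4 * q + 1) (hp4 : 1 / 4 ≤ p)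
    (hp' : p ≤ 1 / 2) (hε : 0 < ε) (hε1 : ε < 1) (n : ℕ) :
    mean (u + 1) (F n) ≤ mean u (fun z => lev u 1 (F (n + 1)) z ^ (1 / (1 - ε))) := by
  refine mean_step hk (β := p - 1 / 4) (γ := p - 1 / 4) (h.per n) ?_
  intro z
  obtain ⟨em, hem, hm, hm'⟩ := exists_max (F n) (4 * z + k)
  obtain ⟨e0, he0, h0, h0'⟩ := exists_max (F n) (4 * z)
  obtain ⟨e1, he1, h1, h1'⟩ := exists_max (F n) (4 * z - k)
  have key := first_up (p := p) (ε := ε) (by linarith) hp' hε hε1 (h.nonneg n _) (h.nonneg n _)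
    (h.nonneg n _) (h.step n em e0 e1 hem he0 he1 z) (h.strict n em e0 e1 hem he0 he1 z)
  show _ ≤ _
  rw [lev_one_apply]
  refine le_trans ?_ key
  have b1 := mul_le_mul_of_nonneg_left hm (show (0 : ℝ) ≤ p - 1 / 4 by linarith)
  have b2 := mul_le_mul_of_nonneg_left hm' (show (0 : ℝ) ≤ 1 / 4 by norm_num)
  have b3 := mul_le_mul_of_nonneg_left h0 (show (0 : ℝ) ≤ 1 / 4 - (p - 1 / 4) by linarith)
  have b4 := mul_le_mul_of_nonneg_left h0' (show (0 : ℝ) ≤ 1 / 4 - (p - 1 / 4) by linarith)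
  have b5 := mul_le_mul_of_nonneg_left h1 (show (0 : ℝ) ≤ 1 / 4 by norm_num)
  have b6 := mul_le_mul_of_nonneg_left h1' (show (0 : ℝ) ≤ p - 1 / 4 by linarith)
  linarith

lemma mean_first_down (h : StrictChain p ε α k u F) (hk : k = 4 * q + 1) (hp4 : 1 / 4 ≤ p)
    (hp' : p ≤ 1 / 2) (hε : 0 < ε) (n : ℕ) :
    mean u (fun z => (1 - lev u 1 (F (n + 1)) z) ^ (1 / (1 + ε))) ≤
      mean (u + 1) (fun z => 1 - F n z) := by
  have hneg : ∀ (s : ℕ) (g : ℤ → ℝ), mean s (fun z => - g z) = - mean s g := by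
    intro s g
    simp [mean, neg_div]
  rw [← neg_le_neg_iff, ← hneg, ← hneg]
  refine mean_step hk (β := p - 1 / 4) (γ := p - 1 / 4) ?_ ?_
  · intro x
    simp only [h.per n x]
  intro z
  obtain ⟨em, hem, hm, hm'⟩ := exists_max (F n) (4 * z + k)
  obtain ⟨e0, he0, h0, h0'⟩ := exists_max (F n) (4 * z)
  obtain ⟨e1, he1, h1, h1'⟩ := exists_max (F n) (4 * z - k)
  have hw1 : (F (n + 1) z + F (n + 1) (z + 4 ^ u) + F (n + 1) (z + 2 * 4 ^ u) +
      F (n + 1) (z + 3 * 4 ^ u)) / 4 ≤ 1 := by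
    have := h.le_one (n + 1) z
    have := h.le_one (n + 1) (z + 4 ^ u)
    have := h.le_one (n + 1) (z + 2 * 4 ^ u)
    have := h.le_one (n + 1) (z + 3 * 4 ^ u)
    linarith
  have key := first_down (p := p) (ε := ε) (by linarith) hp' hε (h.nonneg n _) (h.le_one n _)
    (h.nonneg n _) (h.le_one n _) (h.nonneg n _) (h.le_one n _) hw1
    (h.step n em e0 e1 hem he0 he1 z) (h.strict n em e0 e1 hem he0 he1 z)
  show _ ≤ _
  rw [lev_one_apply]
  have b1 := mul_le_mul_of_nonneg_left hm (show (0 : ℝ) ≤ p - 1 / 4 by linarith)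
  have b2 := mul_le_mul_of_nonneg_left hm' (show (0 : ℝ) ≤ 1 / 4 by norm_num)
  have b3 := mul_le_mul_of_nonneg_left h0 (show (0 : ℝ) ≤ 1 / 4 - (p - 1 / 4) by linarith)
  have b4 := mul_le_mul_of_nonneg_left h0' (show (0 : ℝ) ≤ 1 / 4 - (p - 1 / 4) by linarith)
  have b5 := mul_le_mul_of_nonneg_left h1 (show (0 : ℝ) ≤ 1 / 4 by norm_num)
  have b6 := mul_le_mul_of_nonneg_left h1' (show (0 : ℝ) ≤ p - 1 / 4 by linarith)
  linarith

theorem dens_up (h : StrictChain p ε α k u F) (hk : k = 4 * q + 1) (hp4 : 1 / 4 ≤ p)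
    (hp' : p ≤ 1 / 2) (hε : 0 < ε) (hε1 : ε < 1) (n : ℕ) :
    mean (u + 1) (F n) ^ (1 - ε) ≤ mean (u + 1) (F (n + (u + 1))) := by
  have hε' : 0 < 1 - ε := by linarith
  have hr : 0 ≤ 1 / (1 - ε) := by positivity
  have hC := h.chain (by linarith) hp' hε.le
  have main : ∀ i s : ℕ, s + i = u →
      mean (u + 1) (F n) ≤ mean s (fun z => lev s (i + 1) (F (n + (i + 1))) z ^ (1 / (1 - ε))) := by
    intro i
    induction i with
    | zero =>
      intro s hs
      have : s = u := by omega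
      subst this
      exact mean_first_up h hk hp4 hp' hε hε1 n
    | succ i ih =>
      intro s hs
      refine (ih (s + 1) (by omega)).trans ?_
      have hu : s + (i + 1) = u := by omega
      refine mean_step hk (β := p - 1 / 4) (γ := p - 1 / 4) ?_ ?_
      · intro x
        rw [lev_periodic]
        intro y
        rw [show s + 1 + (i + 1) = u + 1 by omega]
        exact hC.per _ _
      · refine level_up (PS_up (by linarith) hp' hε hε1) hr (by linarith) (by linarith)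
          (by linarith) (by linarith) (fun z => lev_nonneg (hC.nonneg _) z) ?_
        intro v hv em e0 e1 hem he0 he1 z
        refine lev_step ?_ z
        intro ζ
        rw [hu]
        exact hC.step (n + (i + 1)) v hv em e0 e1 hem he0 he1 ζ
  have hmain := main u 0 (by omega)
  rw [mean_zero, lev_top] at hmain
  have hD0 : 0 ≤ mean (u + 1) (F n) :=
    div_nonneg (Finset.sum_nonneg fun _ _ => h.nonneg _ _) (by positivity)
  have hD1 : 0 ≤ mean (u + 1) (F (n + (u + 1))) :=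
    div_nonneg (Finset.sum_nonneg fun _ _ => h.nonneg _ _) (by positivity)
  calc mean (u + 1) (F n) ^ (1 - ε)
      ≤ (mean (u + 1) (F (n + (u + 1))) ^ (1 / (1 - ε))) ^ (1 - ε) :=
        Real.rpow_le_rpow hD0 hmain hε'.le
    _ = mean (u + 1) (F (n + (u + 1))) := by
        rw [← Real.rpow_mul hD1, one_div_mul_cancel hε'.ne', Real.rpow_one]

theorem dens_down (h : StrictChain p ε α k u F) (hk : k = 4 * q + 1) (hp4 : 1 / 4 ≤ p)
    (hp' : p ≤ 1 / 2) (hε : 0 < ε) (n : ℕ) :
    1 - mean (u + 1) (F (n + (u + 1))) ≤ (1 - mean (u + 1) (F n)) ^ (1 + ε) := by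
  have hε' : 0 < 1 + ε := by linarith
  have hr : 0 ≤ 1 / (1 + ε) := by positivity
  have hC := h.chain (by linarith) hp' hε.le
  have hneg : ∀ (s : ℕ) (g : ℤ → ℝ), mean s (fun z => - g z) = - mean s g := by
    intro s g
    simp [mean, neg_div]
  have main : ∀ i s : ℕ, s + i = u →
      mean s (fun z => (1 - lev s (i + 1) (F (n + (i + 1))) z) ^ (1 / (1 + ε))) ≤
        mean (u + 1) (fun z => 1 - F n z) := by
    intro i
    induction i with
    | zero =>
      intro s hs
      have : s = u := by omega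
      subst this
      exact mean_first_down h hk hp4 hp' hε n
    | succ i ih =>
      intro s hs
      refine le_trans ?_ (ih (s + 1) (by omega))
      have hu : s + (i + 1) = u := by omega
      rw [← neg_le_neg_iff, ← hneg, ← hneg]
      refine mean_step hk (β := p - 1 / 4) (γ := p - 1 / 4) ?_ ?_
      · intro x
        rw [lev_periodic]
        intro y
        rw [show s + 1 + (i + 1) = u + 1 by omega]
        exact hC.per _ _
      · intro z
        have key := level_down (g := fun z => 1 - lev (s + 1) (i + 1) (F (n + (i + 1))) z)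
          (g' := fun z => 1 - lev s (i + 1 + 1) (F (n + (i + 1 + 1))) z) (k := k)
          (PS_down (by linarith) hp' hε) hr (by linarith) (by linarith) (by linarith)
          (by linarith)
          (fun z => by
            have := lev_le_one (s := s + 1) (i := i + 1) (hC.le_one (n + (i + 1))) z; linarith)
          (fun z => by
            have := lev_le_one (s := s) (i := i + 1 + 1) (hC.le_one (n + (i + 1 + 1))) z
            linarith)
          (by
            intro v hv em e0 e1 hem he0 he1 z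
            have hp1 := PS_sum v hv
            have h2 := lev_step (s := s) (i := i + 1) (k := k) (F := F (n + (i + 1)))
              (F' := F (n + (i + 1 + 1))) (pm := v.1) (p0 := v.2.1) (p1 := v.2.2) (em := em)
              (e0 := e0) (e1 := e1) (by
                intro ζ
                rw [hu]
                exact hC.step (n + (i + 1)) v hv em e0 e1 hem he0 he1 ζ) z
            nlinarith [h2, hp1]) z
        linarith [key]
  have hmain := main u 0 (by omega)
  rw [mean_zero, lev_top] at hmain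
  have e2 : mean (u + 1) (fun z => 1 - F n z) = 1 - mean (u + 1) (F n) := by
    unfold mean
    rw [Finset.sum_sub_distrib, sub_div]
    congr 1
    simp
  rw [e2] at hmain
  have hD1 : 0 ≤ 1 - mean (u + 1) (F (n + (u + 1))) := by
    have : mean (u + 1) (F (n + (u + 1))) ≤ 1 := by
      have := lev_le_one (s := 0) (i := u + 1) (h.le_one (n + (u + 1))) 0
      rwa [lev_top] at this
    linarith
  calc 1 - mean (u + 1) (F (n + (u + 1)))
      = ((1 - mean (u + 1) (F (n + (u + 1)))) ^ (1 / (1 + ε))) ^ (1 + ε) := by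
        rw [← Real.rpow_mul hD1, one_div_mul_cancel hε'.ne', Real.rpow_one]
    _ ≤ (1 - mean (u + 1) (F n)) ^ (1 + ε) :=
        Real.rpow_le_rpow (Real.rpow_nonneg hD1 _) hmain hε'.le

/-- full coverage -/
theorem StrictChain.full (h : StrictChain p ε α k u F) (hk : k = 4 * q + 1) (hp4 : 1 / 4 ≤ p)
    (hp' : p ≤ 1 / 2) (hε : 0 < ε) (hε1 : ε < 1) (hα : 1 / 16 ≤ α) {J1 J2 : ℕ}
    (hJ1 : ((u + 3 : ℕ) : ℝ) * (1 - ε) ^ J1 ≤ 1 / 2)
    (hJ2 : 2 * ((u + 3 : ℕ) : ℝ) < (1 + ε) ^ J2) (z : ℤ) :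
    F (J1 * (u + 1) + J2 * (u + 1)) z = 1 := by
  have hN : (0 : ℝ) < 4 ^ (u + 1) := by positivity
  have hnat : (0 : ℤ) < 4 ^ (u + 1) := by positivity
  have hmod : ∀ n x, F n (x % 4 ^ (u + 1)) = F n x := by
    intro n x
    have : ∀ c : ℤ, ∀ y, F n (y + c * 4 ^ (u + 1)) = F n y := by
      intro c
      induction c using Int.induction_on with
      | zero => intro y; simp
      | succ m ih =>
        intro y
        rw [show y + ((m : ℤ) + 1) * 4 ^ (u + 1) = (y + m * 4 ^ (u + 1)) + 4 ^ (u + 1) by ring,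
          h.per, ih]
      | pred m ih =>
        intro y
        rw [← ih y, ← h.per n (y + (-(m : ℤ) - 1) * 4 ^ (u + 1))]
        congr 1; ring
    have h1 := this (x / 4 ^ (u + 1)) (x % 4 ^ (u + 1))
    rw [← h1]
    congr 1
    have := Int.emod_add_mul_ediv x (4 ^ (u + 1))
    linarith
  have hD0 : ∀ n, 0 ≤ mean (u + 1) (F n) := fun n =>
    div_nonneg (Finset.sum_nonneg fun _ _ => h.nonneg _ _) (by positivity)
  have hD1 : ∀ n, mean (u + 1) (F n) ≤ 1 := by
    intro n
    have := lev_le_one (s := 0) (i := u + 1) (h.le_one n) 0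
    rwa [lev_top] at this
  -- start
  have hstart : (4 : ℝ) ^ (-((u + 3 : ℕ) : ℝ)) ≤ mean (u + 1) (F 0) := by
    obtain ⟨x, hx⟩ := h.start
    obtain ⟨y, hy⟩ : ∃ y : ℕ, (y : ℤ) = x % 4 ^ (u + 1) := ⟨(x % 4 ^ (u + 1)).toNat, by
      rw [Int.toNat_of_nonneg (Int.emod_nonneg _ hnat.ne')]⟩
    have hylt : y < 4 ^ (u + 1) := by
      have := Int.emod_lt_of_pos x hnat
      rw [← hy] at this
      exact_mod_cast this
    have h1 : α ≤ F 0 y := by rw [hy, hmod]; exact hx
    have h2 : F 0 y ≤ ∑ z ∈ range (4 ^ (u + 1)), F 0 z :=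
      Finset.single_le_sum (f := fun z : ℕ => F 0 z) (fun _ _ => h.nonneg _ _) (mem_range.2 hylt)
    have e : (4 : ℝ) ^ (-((u + 3 : ℕ) : ℝ)) = 1 / 16 / 4 ^ (u + 1) := by
      rw [Real.rpow_neg (by norm_num), Real.rpow_natCast, show u + 3 = (u + 1) + 2 by ring,
        pow_add]
      field_simp
      norm_num
    rw [e]
    unfold mean
    gcongr
    linarith
  have up : ∀ j : ℕ, (4 : ℝ) ^ (-((u + 3 : ℕ) : ℝ) * (1 - ε) ^ j) ≤
      mean (u + 1) (F (j * (u + 1))) := by
    intro j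
    induction j with
    | zero => simpa using hstart
    | succ j ih =>
      have h1 := dens_up h hk hp4 hp' hε hε1 (j * (u + 1))
      have e : j * (u + 1) + (u + 1) = (j + 1) * (u + 1) := by ring
      rw [e] at h1
      refine le_trans ?_ h1
      calc (4 : ℝ) ^ (-((u + 3 : ℕ) : ℝ) * (1 - ε) ^ (j + 1))
          = ((4 : ℝ) ^ (-((u + 3 : ℕ) : ℝ) * (1 - ε) ^ j)) ^ (1 - ε) := by
            rw [← Real.rpow_mul (by norm_num), pow_succ]; ring_nf
        _ ≤ _ := Real.rpow_le_rpow (Real.rpow_nonneg (by norm_num) _) ih (by linarith)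
  have hhalf : 1 / 2 ≤ mean (u + 1) (F (J1 * (u + 1))) := by
    refine le_trans ?_ (up J1)
    calc (1 / 2 : ℝ) = (4 : ℝ) ^ (-(1 / 2) : ℝ) := by
          rw [show (4 : ℝ) = 2 ^ (2 : ℝ) by norm_num, ← Real.rpow_mul (by norm_num)]
          norm_num
      _ ≤ (4 : ℝ) ^ (-((u + 3 : ℕ) : ℝ) * (1 - ε) ^ J1) :=
          Real.rpow_le_rpow_of_exponent_le (by norm_num) (by linarith)
  have down : ∀ j : ℕ, 1 - mean (u + 1) (F (J1 * (u + 1) + j * (u + 1))) ≤
      (1 / 2 : ℝ) ^ ((1 + ε) ^ j) := by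
    intro j
    induction j with
    | zero => simp only [zero_mul, add_zero, pow_zero, Real.rpow_one]; linarith
    | succ j ih =>
      have h1 := dens_down h hk hp4 hp' hε (J1 * (u + 1) + j * (u + 1))
      have e : J1 * (u + 1) + j * (u + 1) + (u + 1) = J1 * (u + 1) + (j + 1) * (u + 1) := by ring
      rw [e] at h1
      refine h1.trans ?_
      have h0 := hD1 (J1 * (u + 1) + j * (u + 1))
      calc (1 - mean (u + 1) (F (J1 * (u + 1) + j * (u + 1)))) ^ (1 + ε)
          ≤ ((1 / 2 : ℝ) ^ ((1 + ε) ^ j)) ^ (1 + ε) :=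
            Real.rpow_le_rpow (by linarith) ih (by linarith)
        _ = (1 / 2 : ℝ) ^ ((1 + ε) ^ (j + 1)) := by
            rw [← Real.rpow_mul (by norm_num), pow_succ]
  have hsmall : 1 - mean (u + 1) (F (J1 * (u + 1) + J2 * (u + 1))) < 1 / 16 / 4 ^ (u + 1) := by
    refine lt_of_le_of_lt (down J2) ?_
    calc (1 / 2 : ℝ) ^ ((1 + ε) ^ J2) < (1 / 2 : ℝ) ^ (2 * ((u + 3 : ℕ) : ℝ)) :=
          Real.rpow_lt_rpow_of_exponent_gt (by norm_num) (by norm_num) hJ2
      _ = 1 / 16 / 4 ^ (u + 1) := by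
          rw [Real.rpow_mul (by norm_num), Real.rpow_natCast,
            show ((1 / 2 : ℝ) ^ (2 : ℝ)) = 1 / 4 by norm_num, show u + 3 = (u + 1) + 2 by ring,
            pow_add (1 / 4 : ℝ) (u + 1) 2]
          rw [one_div, inv_pow, div_eq_mul_inv, mul_comm]
          norm_num
  rcases h.gap (J1 * (u + 1) + J2 * (u + 1)) z with h1 | h1
  · exact h1
  exfalso
  set n := J1 * (u + 1) + J2 * (u + 1) with hn
  obtain ⟨y, hy⟩ : ∃ y : ℕ, (y : ℤ) = z % 4 ^ (u + 1) := ⟨(z % 4 ^ (u + 1)).toNat, by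
    rw [Int.toNat_of_nonneg (Int.emod_nonneg _ hnat.ne')]⟩
  have hylt : y < 4 ^ (u + 1) := by
    have := Int.emod_lt_of_pos z hnat
    rw [← hy] at this
    exact_mod_cast this
  have h2 : 1 / 16 ≤ 1 - F n y := by
    rw [hy, hmod]
    linarith
  have h3 : 1 - F n y ≤ ∑ z ∈ range (4 ^ (u + 1)), (1 - F n z) :=
    Finset.single_le_sum (f := fun z : ℕ => 1 - F n z)
      (fun i _ => by have := h.le_one n i; linarith) (mem_range.2 hylt)
  have e2 : 1 - mean (u + 1) (F n) = (∑ z ∈ range (4 ^ (u + 1)), (1 - F n z)) / 4 ^ (u + 1) := by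
    unfold mean
    rw [Finset.sum_sub_distrib, sub_div]
    congr 1
    simp
  rw [e2, div_lt_div_iff_of_pos_right hN] at hsmall
  linarith

end Pool.Agent.H62.LV
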