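import Mathlib

/-! Functionals of residue classes mod `N` given by tables on the live lifts. -/

namespace Pool.Agent.H62.LV

/-- lowest live lift of the class of `z` mod `N` -/
def low (K N z : ℤ) : ℤ := -(K / 3) + (z + K / 3) % N

lemma low_eq {K N z w : ℤ} (hN : 0 < N) (h1 : -K ≤ 3 * w) (h2 : 3 * (w - N) < -K)
    (hd : N ∣ w - z) : low K N z = w := by
  obtain ⟨c, hc⟩ := hd
  have hz : z + K / 3 = (w + K / 3) + N * (-c) := by linarith
  have h3 : 0 ≤ w + K / 3 := by omega
  have h4 : w + K / 3 < N := by omega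
  unfold low
  rw [hz, Int.add_mul_emod_self_left, Int.emod_eq_of_lt h3 h4]
  ring

lemma low_add (K N z : ℤ) : low K N (z + N) = low K N z := by
  unfold low
  rw [show z + N + K / 3 = (z + K / 3) + N by ring, Int.add_emod_right]

/-- table functional -/
noncomputable def G (tab : ℤ → Bool → Bool → Bool → ℤ) (K N : ℤ) (R : ℤ → Prop) (z : ℤ) : ℤ :=
  open Classical in
  tab (low K N z) (decide (R (low K N z))) (decide (R (low K N z + N)))
    (decide (R (low K N z + 2 * N)))

lemma G_add (tab : ℤ → Bool → Bool → Bool → ℤ) (K N : ℤ) (R : ℤ → Prop) (z : ℤ) :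
    G tab K N R (z + N) = G tab K N R z := by
  unfold G; rw [low_add]

open Classical in
lemma G_eq {tab : ℤ → Bool → Bool → Bool → ℤ} {K N z w : ℤ} {R : ℤ → Prop} (hN : 0 < N)
    (h1 : -K ≤ 3 * w) (h2 : 3 * (w - N) < -K) (hd : N ∣ w - z) :
    G tab K N R z = tab w (decide (R w)) (decide (R (w + N))) (decide (R (w + 2 * N))) := by
  unfold G
  rw [low_eq hN h1 h2 hd]

/-- one lift -/
def g1 (top : ℤ) (b : Bool) : ℤ := match b with
  | true => top
  | false => 0

/-- two lifts -/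
def g2 (top a b : ℤ) (x y : Bool) : ℤ := match x, y with
  | true, true => top
  | true, false => a
  | false, true => b
  | false, false => 0

lemma g1_mono {top : ℤ} (h : 0 ≤ top) {x x' : Bool} (hx : x = true → x' = true) :
    g1 top x ≤ g1 top x' := by
  cases x <;> cases x' <;> simp_all [g1]

lemma g2_mono {top a b : ℤ} (ha : 0 ≤ a) (hb : 0 ≤ b) (ha' : a ≤ top) (hb' : b ≤ top)
    {x x' y y' : Bool} (hx : x = true → x' = true) (hy : y = true → y' = true) :
    g2 top a b x y ≤ g2 top a b x' y' := by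
  cases x <;> cases x' <;> cases y <;> cases y' <;> simp_all [g2] <;> omega

/-- at most two lifts; the value for a single reached lift is `v1` (outer) or `v2` (inner) -/
def tab2 (K N v1 v2 top : ℤ) (w : ℤ) (b0 b1 _b2 : Bool) : ℤ :=
  if 3 * (w + N) ≤ K + N - 1 then
    (if 3 * w < -N then g2 top v1 v2 b0 b1 else g2 top v2 v1 b0 b1)
  else g1 top b0

/-- one step of the window graph, `K = |k|`, `N = 4M` -/
def StepRel (K M : ℤ) (R R' : ℤ → Prop) : Prop :=
  ∀ w w' a d e : ℤ, R w → (a = -1 ∨ a = 0 ∨ a = 1) → (d = 0 ∨ d = 1) → (e = 0 ∨ e = 1) →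
    4 * w' = w + K * a + 4 * M * d - e → R' w'

lemma StepRel.d0 {K M : ℤ} {R R' : ℤ → Prop} (h : StepRel K M R R') {ζ a e m w w' : ℤ}
    (ha : a = -1 ∨ a = 0 ∨ a = 1) (he : e = 0 ∨ e = 1) (hw : w = 4 * ζ - K * a + e + 4 * M * m)
    (hR : R w) (hw' : w' = ζ + M * m) : R' w' :=
  h w w' a 0 e hR ha (by simp) he (by rw [hw, hw']; ring)

lemma StepRel.d1 {K M : ℤ} {R R' : ℤ → Prop} (h : StepRel K M R R') {ζ a e m w w' : ℤ}
    (ha : a = -1 ∨ a = 0 ∨ a = 1) (he : e = 0 ∨ e = 1) (hw : w = 4 * ζ - K * a + e + 4 * M * m)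
    (hR : R w) (hw' : w' = ζ + M * (m + 1)) : R' w' :=
  h w w' a 1 e hR ha (by simp) he (by rw [hw, hw']; ring)

end Pool.Agent.H62.LV
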