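import Pool.Agent.H62.LV.Inst

/-! From strict chains to multipliers of size `|k|^(C log log |k|)`. -/

namespace Pool.Agent.H62.LV

open Pool.Agent.H6.LvdP2 Pool.Agent.H98.LvdP Finset

/-- there is a strictly improving functional for `±k` -/
def Good (K : ℤ) (u : ℕ) (ε : ℝ) : Prop :=
  ∀ k : ℤ, |k| = K → k % 4 = 1 → ∃ (p : ℝ) (F : ℕ → ℤ → ℝ), 1 / 4 ≤ p ∧ p ≤ 1 / 2 ∧
    StrictChain p ε (1 / 16) k u F ∧ ∀ n, F n 0 = 1 → Reach k (u + 1) n 0

theorem multiplier_of_good {k : ℤ} (hk : Odd k) {u : ℕ} {ε : ℝ} (h : Good |k| u ε) (hε : 0 < ε)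
    (hε1 : ε < 1) {J1 J2 : ℕ} (hJ1 : ((u + 3 : ℕ) : ℝ) * (1 - ε) ^ J1 ≤ 1 / 2)
    (hJ2 : 2 * ((u + 3 : ℕ) : ℝ) < (1 + ε) ^ J2) :
    ∃ m : ℤ, IsMultiplier k m ∧ 3 * m ≤ 4 ^ ((J1 + J2) * (u + 1) + 1) - 1 := by
  obtain ⟨c, hc⟩ := hk
  rcases Int.emod_two_eq_zero_or_one c with h2 | h2
  · have hk' : k = 4 * (c / 2) + 1 := by omega
    obtain ⟨p, F, hp1, hp2, hF, hz⟩ := h k rfl (by omega)
    have hr := hz _ (hF.full hk' hp1 hp2 hε hε1 le_rfl hJ1 hJ2 0)
    obtain ⟨m, hm, hb⟩ := hr.multiplier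
    refine ⟨m, hm, ?_⟩
    rw [show (J1 + J2) * (u + 1) = J1 * (u + 1) + J2 * (u + 1) by ring]
    exact hb
  · have hk' : -k = 4 * (-(c + 1) / 2) + 1 := by omega
    obtain ⟨p, F, hp1, hp2, hF, hz⟩ := h (-k) (abs_neg k) (by omega)
    have hr := hz _ (hF.full hk' hp1 hp2 hε hε1 le_rfl hJ1 hJ2 0)
    obtain ⟨m, hm, hb⟩ := hr.multiplier
    refine ⟨m, ⟨hm.1, hm.2.1, ?_⟩, ?_⟩
    · have := L_neg hm.2.2
      simpa using this
    · rw [show (J1 + J2) * (u + 1) = J1 * (u + 1) + J2 * (u + 1) by ring]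
      exact hb

lemma exists_J1' {ε x : ℝ} (hε : 0 < ε) (hε1 : ε < 1) (hx : 1 ≤ x) :
    ∃ J : ℕ, x * (1 - ε) ^ J ≤ 1 / 2 ∧ (J : ℝ) ≤ 1 / ε * Real.log (2 * x) + 1 := by
  have hl : 0 ≤ Real.log (2 * x) := Real.log_nonneg (by linarith)
  refine ⟨⌈1 / ε * Real.log (2 * x)⌉₊, ?_, ?_⟩
  · have h1 : 1 / ε * Real.log (2 * x) ≤ ⌈1 / ε * Real.log (2 * x)⌉₊ := Nat.le_ceil _
    set J := ⌈1 / ε * Real.log (2 * x)⌉₊
    have h2 : (1 - ε) ^ J ≤ Real.exp (-(ε * J)) := by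
      have h3 : 1 - ε ≤ Real.exp (-ε) := by
        have := Real.add_one_le_exp (-ε)
        linarith
      calc (1 - ε) ^ J ≤ (Real.exp (-ε)) ^ J := pow_le_pow_left₀ (by linarith) h3 J
        _ = Real.exp (-(ε * J)) := by rw [← Real.exp_nat_mul]; ring_nf
    have h4 : Real.log (2 * x) ≤ ε * J := by
      have := mul_le_mul_of_nonneg_left h1 hε.le
      have e : ε * (1 / ε * Real.log (2 * x)) = Real.log (2 * x) := by field_simp
      linarith
    have h5 : Real.exp (-(ε * J)) ≤ 1 / (2 * x) := by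
      calc Real.exp (-(ε * J)) ≤ Real.exp (-Real.log (2 * x)) := Real.exp_le_exp.2 (by linarith)
        _ = 1 / (2 * x) := by rw [Real.exp_neg, Real.exp_log (by linarith), one_div]
    calc x * (1 - ε) ^ J ≤ x * (1 / (2 * x)) :=
          mul_le_mul_of_nonneg_left (h2.trans h5) (by linarith)
      _ = 1 / 2 := by field_simp
  · exact (Nat.ceil_lt_add_one (mul_nonneg (by positivity) hl)).le

lemma exists_J2' {ε x : ℝ} (hε : 0 < ε) (hx : 1 ≤ x) :
    ∃ J : ℕ, 2 * x < (1 + ε) ^ J ∧ (J : ℝ) ≤ (1 + 1 / ε) * Real.log (2 * x) + 1 := by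
  have hl : 0 ≤ Real.log (2 * x) := Real.log_nonneg (by linarith)
  have hlog : ε / (1 + ε) ≤ Real.log (1 + ε) := by
    have h := Real.one_sub_inv_le_log_of_pos (show 0 < 1 + ε by linarith)
    have e : 1 - (1 + ε)⁻¹ = ε / (1 + ε) := by field_simp; ring
    linarith
  have hpos : 0 < Real.log (1 + ε) := Real.log_pos (by linarith)
  refine ⟨⌊Real.log (2 * x) / Real.log (1 + ε)⌋₊ + 1, ?_, ?_⟩
  · have h1 := Nat.lt_floor_add_one (Real.log (2 * x) / Real.log (1 + ε))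
    set J := ⌊Real.log (2 * x) / Real.log (1 + ε)⌋₊
    rw [div_lt_iff₀ hpos] at h1
    have h1' : Real.log (2 * x) < ((J + 1 : ℕ) : ℝ) * Real.log (1 + ε) := by push_cast; exact h1
    rw [← Real.log_pow] at h1'
    exact (Real.log_lt_log_iff (by linarith) (by positivity)).1 h1'
  · have h1 := Nat.floor_le (div_nonneg hl hpos.le)
    have h2 : Real.log (2 * x) / Real.log (1 + ε) ≤ (1 + 1 / ε) * Real.log (2 * x) := by
      rw [div_le_iff₀ hpos]
      have h3 : 1 ≤ (1 + 1 / ε) * Real.log (1 + ε) := by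
        have := mul_le_mul_of_nonneg_left hlog (show 0 ≤ 1 + 1 / ε by positivity)
        have e : (1 + 1 / ε) * (ε / (1 + ε)) = 1 := by field_simp; ring
        linarith
      nlinarith
    push_cast
    linarith

theorem bound_of_good {k : ℤ} (hk : Odd k) {u : ℕ} (hu : 1 ≤ u) (hku : 4 ^ (u + 1) ≤ |k|) {ε : ℝ}
    (h : Good |k| u ε) (hε : 0 < ε) (hε1 : ε < 1) :
    ∃ m : ℤ, IsMultiplier k m ∧
      (m : ℝ) ≤ |(k : ℝ)| ^ ((5 / ε + 6) * Real.log (Real.log |(k : ℝ)|)) := by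
  obtain ⟨t, rfl⟩ : ∃ t, u = t := ⟨u, rfl⟩
  have hx : (1 : ℝ) ≤ ((u + 3 : ℕ) : ℝ) := by push_cast; linarith [Nat.cast_nonneg (α := ℝ) u]
  obtain ⟨J1, hJ1, bJ1⟩ := exists_J1' hε hε1 hx
  obtain ⟨J2, hJ2, bJ2⟩ := exists_J2' hε hx
  obtain ⟨m, hm, hb⟩ := multiplier_of_good hk h hε hε1 hJ1 hJ2
  refine ⟨m, hm, ?_⟩
  obtain ⟨t, ht⟩ : ∃ t : ℝ, t = (u : ℝ) + 1 := ⟨_, rfl⟩
  have htR : (2 : ℝ) ≤ t := by
    have : (1 : ℝ) ≤ u := by exact_mod_cast hu
    linarith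
  have hm0 : (0 : ℝ) < m := by exact_mod_cast hm.1
  have hm1 : (m : ℝ) ≤ 4 ^ ((J1 + J2) * (u + 1) + 1) := by
    have : m ≤ 4 ^ ((J1 + J2) * (u + 1) + 1) := by
      have := hm.1
      linarith
    exact_mod_cast this
  have hkR : (4 : ℝ) ^ (u + 1) ≤ |(k : ℝ)| := by exact_mod_cast hku
  have hk0 : (0 : ℝ) < |(k : ℝ)| := lt_of_lt_of_le (by positivity) hkR
  have l4 : (1386 : ℝ) / 1000 ≤ Real.log 4 := by
    have := Real.log_two_gt_d9
    rw [show (4 : ℝ) = 2 ^ 2 by norm_num, Real.log_pow]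
    push_cast
    linarith
  have hlk : t * Real.log 4 ≤ Real.log |(k : ℝ)| := by
    have h1 : Real.log ((4 : ℝ) ^ (u + 1)) ≤ Real.log |(k : ℝ)| :=
      Real.log_le_log (by positivity) hkR
    rw [Real.log_pow] at h1
    rw [ht]
    push_cast at h1
    exact h1
  have ht0 : 0 < t := by linarith
  have hll : Real.log t + 278 / 1000 ≤ Real.log (Real.log |(k : ℝ)|) := by
    have h1 : Real.log (t * Real.log 4) ≤ Real.log (Real.log |(k : ℝ)|) :=
      Real.log_le_log (by positivity) hlk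
    rw [Real.log_mul (by positivity) (by positivity)] at h1
    have h2 := Real.one_sub_inv_le_log_of_pos (show 0 < Real.log 4 by positivity)
    have h3 : (Real.log 4)⁻¹ ≤ 1000 / 1386 := by
      rw [inv_le_comm₀ (by positivity) (by norm_num)]
      norm_num
      linarith
    norm_num at h3
    linarith
  have hlt : (69 : ℝ) / 100 ≤ Real.log t := by
    have h1 : Real.log 2 ≤ Real.log t := Real.log_le_log (by norm_num) htR
    have := Real.log_two_gt_d9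
    linarith
  have hl2t : Real.log (2 * ((u + 3 : ℕ) : ℝ)) ≤ Real.log t + 1388 / 1000 := by
    have e : (2 * ((u + 3 : ℕ) : ℝ)) ≤ 4 * t := by
      rw [ht] at htR ⊢
      push_cast
      linarith
    have h1 : Real.log (2 * ((u + 3 : ℕ) : ℝ)) ≤ Real.log (4 * t) :=
      Real.log_le_log (by positivity) e
    have h2 : Real.log (4 * t) = 2 * Real.log 2 + Real.log t := by
      rw [Real.log_mul (by norm_num) (by positivity), show (4 : ℝ) = 2 ^ 2 by norm_num,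
        Real.log_pow]
      push_cast
      ring
    have := Real.log_two_lt_d9
    linarith
  have hl0 : 0 ≤ Real.log (2 * ((u + 3 : ℕ) : ℝ)) := Real.log_nonneg (by linarith)
  set Λ := Real.log (Real.log |(k : ℝ)|)
  have hΛ : 96 / 100 ≤ Λ := by linarith
  have hinv : 0 < 1 / ε := by positivity
  have hinv1 : 1 ≤ 1 / ε := by rw [le_div_iff₀ hε]; linarith
  have key : ((((J1 + J2) * (u + 1) + 1 : ℕ) : ℝ)) * Real.log 4 ≤
      (5 / ε + 6) * Λ * Real.log |(k : ℝ)| := by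
    have h1 : (((J1 + J2) * (u + 1) + 1 : ℕ) : ℝ) ≤ (5 / ε + 6) * Λ * t := by
      push_cast
      rw [← ht]
      have h2 : ((J1 : ℝ) + J2) * t + 1 ≤
          ((1 + 2 * (1 / ε)) * Real.log (2 * ((u + 3 : ℕ) : ℝ)) + 2 + 1 / 2) * t := by
        have : ((J1 : ℝ) + J2) * t ≤
            ((1 + 2 * (1 / ε)) * Real.log (2 * ((u + 3 : ℕ) : ℝ)) + 2) * t := by
          apply mul_le_mul_of_nonneg_right _ (by linarith)
          linarith
        linarith
      refine h2.trans (mul_le_mul_of_nonneg_right ?_ (by linarith))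
      have h3 : Real.log (2 * ((u + 3 : ℕ) : ℝ)) ≤ (22 / 10) * Λ := by linarith
      have h4 : (1 + 2 * (1 / ε)) * Real.log (2 * ((u + 3 : ℕ) : ℝ)) ≤
          (1 + 2 * (1 / ε)) * ((22 / 10) * Λ) := mul_le_mul_of_nonneg_left h3 (by linarith)
      have e5 : 5 / ε = 5 * (1 / ε) := by ring
      rw [e5]
      nlinarith
    calc ((((J1 + J2) * (u + 1) + 1 : ℕ) : ℝ)) * Real.log 4
        ≤ (5 / ε + 6) * Λ * t * Real.log 4 :=
          mul_le_mul_of_nonneg_right h1 (by positivity)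
      _ = (5 / ε + 6) * Λ * (t * Real.log 4) := by ring
      _ ≤ (5 / ε + 6) * Λ * Real.log |(k : ℝ)| := by
          apply mul_le_mul_of_nonneg_left hlk
          have : 0 < 5 / ε := by positivity
          have : 0 < Λ := by linarith
          positivity
  calc (m : ℝ) ≤ 4 ^ ((J1 + J2) * (u + 1) + 1) := hm1
    _ = Real.exp ((((J1 + J2) * (u + 1) + 1 : ℕ) : ℝ) * Real.log 4) := by
        rw [← Real.log_pow, Real.exp_log (by positivity)]
    _ ≤ Real.exp ((5 / ε + 6) * Λ * Real.log |(k : ℝ)|) :=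
        Real.exp_le_exp.2 key
    _ = |(k : ℝ)| ^ ((5 / ε + 6) * Λ) := by
        rw [Real.rpow_def_of_pos hk0, mul_comm]

end Pool.Agent.H62.LV
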