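import Pool.Agent.H62.LV.Func

/-! The one-step inequality for table functionals (integer form). -/

namespace Pool.Agent.H62.LV

/-- finite inequality between source values `X, Y, Z` and the target sum `S` -/
abbrev KeyIneq (A B C top X Y Z S : ℤ) : Prop :=
  (A * X + B * Y + A * Z ≤ C * S) ∧
    (¬ (X = 0 ∧ Y = 0 ∧ Z = 0) → ¬ (X = top ∧ Y = top ∧ Z = top) →
      A * X + B * Y + A * Z + 2 ≤ C * S)

/-- the inequality at `ζ` -/
def Ineq (A B C top : ℤ) (tab : ℤ → Bool → Bool → Bool → ℤ) (K M : ℤ) (R R' : ℤ → Prop)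
    (ζ em e0 e1 : ℤ) : Prop :=
  KeyIneq A B C top (G tab K (4 * M) R (4 * ζ + K + em)) (G tab K (4 * M) R (4 * ζ + e0))
    (G tab K (4 * M) R (4 * ζ - K + e1))
    (G tab K (4 * M) R' ζ + G tab K (4 * M) R' (ζ + M * 1) + G tab K (4 * M) R' (ζ + M * 2) +
      G tab K (4 * M) R' (ζ + M * 3))

/-- at most two lifts, constant value for a single reached lift of two -/
def tab2c (K N v top : ℤ) (w : ℤ) (b0 b1 _b2 : Bool) : ℤ :=
  if 3 * (w + N) ≤ K + N - 1 then g2 top v v b0 b1 else g1 top b0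

/-- three lifts, values by the number of reached lifts -/
def g3 (top v1 v2 : ℤ) (x y z : Bool) : ℤ := match x, y, z with
  | true, true, true => top
  | true, true, false => v2
  | true, false, true => v2
  | false, true, true => v2
  | true, false, false => v1
  | false, true, false => v1
  | false, false, true => v1
  | false, false, false => 0

lemma g3_mono {top v1 v2 : ℤ} (h1 : 0 ≤ v1) (h2 : v1 ≤ v2) (h3 : v2 ≤ top)
    {x x' y y' z z' : Bool} (hx : x = true → x' = true) (hy : y = true → y' = true)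
    (hz : z = true → z' = true) : g3 top v1 v2 x y z ≤ g3 top v1 v2 x' y' z' := by
  cases x <;> cases x' <;> cases y <;> cases y' <;> cases z <;> cases z' <;>
    simp_all [g3] <;> omega

/-- table for `17/8 ≤ κ < 5/2` -/
def tabC (K M : ℤ) (w : ℤ) (b0 b1 _b2 : Bool) : ℤ :=
  if 3 * (w + 4 * M) ≤ K + 4 * M - 1 then
    (if -K ≤ 3 * (w - 3 * M) then g2 16 13 10 b0 b1 else
      (if 3 * (w + 7 * M) ≤ K + 4 * M - 1 then g2 16 10 13 b0 b1 else g2 16 10 10 b0 b1))
  else g1 16 b0

/-- table for `5/2 < κ < 3` -/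
def tabE (K M : ℤ) (w : ℤ) (b0 b1 b2 : Bool) : ℤ :=
  if 3 * (w + 8 * M) ≤ K + 4 * M - 1 then g3 10 3 7 b0 b1 b2 else g2 10 6 6 b0 b1

end Pool.Agent.H62.LV
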