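import Pool.Agent.H6.LvdP2.Graph
import Pool.Agent.H62.LV.Blocks
import Pool.Agent.H62.LV.Ineq

/-! From the integer one-step inequality for a table functional to a strict chain. -/

namespace Pool.Agent.H62.LV

open Pool.Agent.H6.LvdP2 Pool.Agent.H98.LvdP Finset

lemma stepRel_reach {k : ℤ} {u n : ℕ} :
    StepRel |k| (4 ^ u) (Reach k (u + 1) n) (Reach k (u + 1) (n + 1)) := by
  intro w w' a d e hw ha hd he h
  rcases le_or_gt 0 k with hk | hk
  · rw [abs_of_nonneg hk] at h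
    exact ⟨w, hw, a, d, e, ha, hd, he, by rw [h, pow_succ]; ring⟩
  · rw [abs_of_neg hk] at h
    exact ⟨w, hw, -a, d, e, by omega, hd, he, by rw [h, pow_succ]; ring⟩

/-- the functional along the reachable sets -/
noncomputable def FF (tab : ℤ → Bool → Bool → Bool → ℤ) (top k : ℤ) (u n : ℕ) (z : ℤ) : ℝ :=
  (G tab |k| (4 * 4 ^ u) (Reach k (u + 1) n) z : ℝ) / top

lemma G_per {tab : ℤ → Bool → Bool → Bool → ℤ} {K N : ℤ} {R : ℤ → Prop} (c z : ℤ) :
    G tab K N R (z + N * c) = G tab K N R z := by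
  induction c using Int.induction_on with
  | zero => simp
  | succ m ih =>
    rw [show z + N * ((m : ℤ) + 1) = (z + N * m) + N by ring, G_add, ih]
  | pred m ih =>
    rw [← ih, ← G_add tab K N R (z + N * (-(m : ℤ) - 1))]
    congr 1; ring

/-- the inequality holds at every `ζ`, not only at the normalised ones -/
lemma ineq_all {A B C top : ℤ} {tab : ℤ → Bool → Bool → Bool → ℤ} {K M : ℤ} {R R' : ℤ → Prop}
    (hM : 0 < M)
    (H : ∀ ζ em e0 e1 : ℤ, (em = 0 ∨ em = 1) → (e0 = 0 ∨ e0 = 1) → (e1 = 0 ∨ e1 = 1) →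
      -K ≤ 3 * ζ → 3 * (ζ - M) < -K → Ineq A B C top tab K M R R' ζ em e0 e1)
    (ζ em e0 e1 : ℤ) (hem : em = 0 ∨ em = 1) (he0 : e0 = 0 ∨ e0 = 1) (he1 : e1 = 0 ∨ e1 = 1) :
    Ineq A B C top tab K M R R' ζ em e0 e1 := by
  -- normalise
  set z' : ℤ := -(K / 3) + (ζ + K / 3) % M with hz'
  have h1 : -K ≤ 3 * z' := by
    have := Int.emod_nonneg (ζ + K / 3) hM.ne'
    omega
  have h2 : 3 * (z' - M) < -K := by
    have := Int.emod_lt_of_pos (ζ + K / 3) hM
    omega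
  have h3 : ζ = z' + M * ((ζ + K / 3) / M) := by
    have := Int.emod_add_mul_ediv (ζ + K / 3) M
    linarith
  set c := (ζ + K / 3) / M
  have key := H z' em e0 e1 hem he0 he1 h1 h2
  unfold Ineq at key ⊢
  have s1 : ∀ x : ℤ, G tab K (4 * M) R (4 * ζ + x) = G tab K (4 * M) R (4 * z' + x) := by
    intro x
    rw [show 4 * ζ + x = (4 * z' + x) + 4 * M * c by rw [h3]; ring, G_per]
  have s2 : ∀ x : ℤ, G tab K (4 * M) R (4 * ζ + K + x) = G tab K (4 * M) R (4 * z' + K + x) := by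
    intro x
    rw [show 4 * ζ + K + x = (4 * z' + K + x) + 4 * M * c by rw [h3]; ring, G_per]
  have s3 : ∀ x : ℤ, G tab K (4 * M) R (4 * ζ - K + x) = G tab K (4 * M) R (4 * z' - K + x) := by
    intro x
    rw [show 4 * ζ - K + x = (4 * z' - K + x) + 4 * M * c by rw [h3]; ring, G_per]
  rw [s1, s2, s3]
  have s4 : G tab K (4 * M) R' ζ + G tab K (4 * M) R' (ζ + M * 1) + G tab K (4 * M) R' (ζ + M * 2) +
      G tab K (4 * M) R' (ζ + M * 3) = G tab K (4 * M) R' z' + G tab K (4 * M) R' (z' + M * 1) +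
      G tab K (4 * M) R' (z' + M * 2) + G tab K (4 * M) R' (z' + M * 3) := by
    have e : ∀ j : ℤ, ζ + M * j = z' + M * (c + j) := by intro j; rw [h3]; ring
    have e' : ∀ j r q : ℤ, c + j = r + 4 * q → G tab K (4 * M) R' (ζ + M * j) =
        G tab K (4 * M) R' (z' + M * r) := by
      intro j r q hq
      rw [e j, hq, show z' + M * (r + 4 * q) = (z' + M * r) + 4 * M * q by ring, G_per]
    have hc : c % 4 = 0 ∨ c % 4 = 1 ∨ c % 4 = 2 ∨ c % 4 = 3 := by omega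
    have z0 : ∀ x : ℤ, G tab K (4 * M) R' x = G tab K (4 * M) R' (x + M * 0) := by
      intro x; simp
    rw [z0 ζ, z0 z']
    rcases hc with h | h | h | h
    · rw [e' 0 0 (c / 4) (by omega), e' 1 1 (c / 4) (by omega), e' 2 2 (c / 4) (by omega),
        e' 3 3 (c / 4) (by omega)]
    · rw [e' 0 1 (c / 4) (by omega), e' 1 2 (c / 4) (by omega), e' 2 3 (c / 4) (by omega),
        e' 3 0 (c / 4 + 1) (by omega)]
      ring
    · rw [e' 0 2 (c / 4) (by omega), e' 1 3 (c / 4) (by omega), e' 2 0 (c / 4 + 1) (by omega),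
        e' 3 1 (c / 4 + 1) (by omega)]
      ring
    · rw [e' 0 3 (c / 4) (by omega), e' 1 0 (c / 4 + 1) (by omega),
        e' 2 1 (c / 4 + 1) (by omega), e' 3 2 (c / 4 + 1) (by omega)]
      ring
  rw [s4]
  exact key

theorem strictChain_of_ineq {A B C top : ℤ} {tab : ℤ → Bool → Bool → Bool → ℤ} {k : ℤ} {u : ℕ}
    {α : ℝ} (hA : 2 * A + B = 4 * C) (hC : 0 < C) (htop : 0 < top)
    (hnn : ∀ w b0 b1 b2, 0 ≤ tab w b0 b1 b2) (hle : ∀ w b0 b1 b2, tab w b0 b1 b2 ≤ top)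
    (hgap : ∀ w b0 b1 b2, tab w b0 b1 b2 = top ∨ (tab w b0 b1 b2 : ℝ) / top ≤ 1 - α)
    (hstart : ∃ x, α ≤ FF tab top k u 0 x)
    (H : ∀ R R' : ℤ → Prop, StepRel |k| (4 ^ u) R R' → ∀ ζ em e0 e1 : ℤ, (em = 0 ∨ em = 1) →
      (e0 = 0 ∨ e0 = 1) → (e1 = 0 ∨ e1 = 1) → -|k| ≤ 3 * ζ → 3 * (ζ - 4 ^ u) < -|k| →
        Ineq A B C top tab |k| (4 ^ u) R R' ζ em e0 e1) :
    StrictChain ((A : ℝ) / (4 * C)) (1 / (2 * C * top)) α k u (FF tab top k u) := by
  have hCR : (0 : ℝ) < C := by exact_mod_cast hC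
  have htR : (0 : ℝ) < top := by exact_mod_cast htop
  have hM : (0 : ℤ) < 4 ^ u := by positivity
  -- the inequality with the order given by `k`
  have key : ∀ n : ℕ, ∀ em e0 e1 : ℤ, (em = 0 ∨ em = 1) → (e0 = 0 ∨ e0 = 1) →
      (e1 = 0 ∨ e1 = 1) → ∀ ζ : ℤ,
      KeyIneq A B C top (G tab |k| (4 * 4 ^ u) (Reach k (u + 1) n) (4 * ζ + k + em))
        (G tab |k| (4 * 4 ^ u) (Reach k (u + 1) n) (4 * ζ + e0))
        (G tab |k| (4 * 4 ^ u) (Reach k (u + 1) n) (4 * ζ - k + e1))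
        (G tab |k| (4 * 4 ^ u) (Reach k (u + 1) (n + 1)) ζ +
          G tab |k| (4 * 4 ^ u) (Reach k (u + 1) (n + 1)) (ζ + 4 ^ u * 1) +
          G tab |k| (4 * 4 ^ u) (Reach k (u + 1) (n + 1)) (ζ + 4 ^ u * 2) +
          G tab |k| (4 * 4 ^ u) (Reach k (u + 1) (n + 1)) (ζ + 4 ^ u * 3)) := by
    intro n em e0 e1 hem he0 he1 ζ
    rcases le_or_gt 0 k with hk | hk
    · have h := ineq_all hM (H _ _ (stepRel_reach (k := k) (u := u) (n := n))) ζ em e0 e1 hem he0
        he1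
      unfold Ineq at h
      have e : k = |k| := (abs_of_nonneg hk).symm
      have e1' : 4 * ζ + k + em = 4 * ζ + |k| + em := by rw [← e]
      have e2' : 4 * ζ - k + e1 = 4 * ζ - |k| + e1 := by rw [← e]
      rw [e1', e2']
      exact h
    · have h := ineq_all hM (H _ _ (stepRel_reach (k := k) (u := u) (n := n))) ζ e1 e0 em he1 he0
        hem
      unfold Ineq at h
      have e : -k = |k| := (abs_of_neg hk).symm
      have e1' : 4 * ζ + k + em = 4 * ζ - |k| + em := by rw [← e]; ring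
      have e2' : 4 * ζ - k + e1 = 4 * ζ + |k| + e1 := by rw [← e]; ring
      rw [e1', e2']
      refine ⟨by linarith [h.1], fun h1 h2 => ?_⟩
      have := h.2 (fun h3 => h1 ⟨h3.2.2, h3.2.1, h3.1⟩) (fun h3 => h2 ⟨h3.2.2, h3.2.1, h3.1⟩)
      linarith
  have hAR : 2 * (A : ℝ) + B = 4 * C := by exact_mod_cast hA
  have conv : ∀ X Y Z : ℤ, (A : ℝ) / (4 * C) * ((X : ℝ) / top) +
      (1 - 2 * ((A : ℝ) / (4 * C))) * ((Y : ℝ) / top) + (A : ℝ) / (4 * C) * ((Z : ℝ) / top) =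
      ((A * X + B * Y + A * Z : ℤ) : ℝ) / (4 * C * top) := by
    intro X Y Z
    have : (B : ℝ) = 4 * C - 2 * A := by linarith
    push_cast
    rw [this]
    field_simp
  have conv2 : ∀ S1 S2 S3 S4 : ℤ, ((S1 : ℝ) / top + (S2 : ℝ) / top + (S3 : ℝ) / top +
      (S4 : ℝ) / top) / 4 = ((C * (S1 + S2 + S3 + S4) : ℤ) : ℝ) / (4 * C * top) := by
    intro S1 S2 S3 S4
    push_cast
    field_simp
  refine ⟨?_, ?_, ?_, ?_, hstart, ?_, ?_⟩
  · intro n x
    unfold FF
    rw [show (4 : ℤ) ^ (u + 1) = 4 * 4 ^ u by ring, G_add]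
  · intro n x
    unfold FF G
    exact div_nonneg (by exact_mod_cast hnn _ _ _ _) htR.le
  · intro n x
    unfold FF G
    rw [div_le_one htR]
    exact_mod_cast hle _ _ _ _
  · intro n x
    unfold FF G
    rcases hgap (low |k| (4 * 4 ^ u) x) _ _ _ with h | h
    · left
      rw [h, div_self htR.ne']
    · right
      exact h
  · intro n em e0 e1 hem he0 he1 ζ
    have h := (key n em e0 e1 hem he0 he1 ζ).1
    unfold FF
    rw [conv, show ζ + 4 ^ u = ζ + 4 ^ u * 1 by ring, show ζ + 2 * 4 ^ u = ζ + 4 ^ u * 2 by ring,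
      show ζ + 3 * 4 ^ u = ζ + 4 ^ u * 3 by ring, conv2]
    apply div_le_div_of_nonneg_right _ (by positivity)
    exact_mod_cast h
  · intro n em e0 e1 hem he0 he1 ζ h0 h1
    have h := (key n em e0 e1 hem he0 he1 ζ).2
      (by
        rintro ⟨a, b, c⟩
        apply h0
        unfold FF
        rw [a, b, c]; simp)
      (by
        rintro ⟨a, b, c⟩
        apply h1
        unfold FF
        rw [a, b, c, div_self htR.ne']; simp)
    unfold FF
    rw [conv, show ζ + 4 ^ u = ζ + 4 ^ u * 1 by ring, show ζ + 2 * 4 ^ u = ζ + 4 ^ u * 2 by ring,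
      show ζ + 3 * 4 ^ u = ζ + 4 ^ u * 3 by ring, conv2]
    have h' := (Int.cast_le (R := ℝ)).2 h
    have e3 : (1 : ℝ) / (2 * C * top) = 2 / (4 * C * top) := by field_simp; norm_num
    rw [e3, ← add_div]
    apply div_le_div_of_nonneg_right _ (by positivity)
    push_cast at h' ⊢
    linarith

end Pool.Agent.H62.LV
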