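import Pool.Agent.H6.LvdP2.Scalar

/-! Strict one-step inequalities for a functional on residue classes give full coverage after
`O(t log t)` steps; independent of the range of `k`. -/

namespace Pool.Agent.H62.LV

open Pool.Agent.H6.LvdP2 Finset

/-- the six perturbations of `(p, 1-2p, p)` -/
def PS (p ε : ℝ) : Set (ℝ × ℝ × ℝ) :=
  {((1 - ε) * p + ε, (1 - ε) * (1 - 2 * p), (1 - ε) * p),
   ((1 - ε) * p, (1 - ε) * (1 - 2 * p) + ε, (1 - ε) * p),
   ((1 - ε) * p, (1 - ε) * (1 - 2 * p), (1 - ε) * p + ε),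
   ((1 + ε) * p - ε, (1 + ε) * (1 - 2 * p), (1 + ε) * p),
   ((1 + ε) * p, (1 + ε) * (1 - 2 * p) - ε, (1 + ε) * p),
   ((1 + ε) * p, (1 + ε) * (1 - 2 * p), (1 + ε) * p - ε)}

lemma PS_sum {p ε : ℝ} : ∀ v ∈ PS p ε, v.1 + v.2.1 + v.2.2 = 1 := by
  intro v hv
  simp only [PS, Set.mem_insert_iff, Set.mem_singleton_iff] at hv
  rcases hv with rfl | rfl | rfl | rfl | rfl | rfl <;> ring

lemma max3_cases (x y z : ℝ) : ∃ M, x ≤ M ∧ y ≤ M ∧ z ≤ M ∧ (M = x ∨ M = y ∨ M = z) := by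
  refine ⟨max x (max y z), le_max_left _ _, (le_max_left _ _).trans (le_max_right _ _),
    (le_max_right _ _).trans (le_max_right _ _), ?_⟩
  rcases max_choice x (max y z) with h | h
  · exact Or.inl h
  · rcases max_choice y z with h' | h'
    · exact Or.inr (Or.inl (h.trans h'))
    · exact Or.inr (Or.inr (h.trans h'))

/-- `(1+(1-ε)s)^(1/(1-ε)) ≥ 1+s` -/
lemma bern_up {ε μ : ℝ} (hε : 0 ≤ ε) (hε1 : ε < 1) (hμ : 0 ≤ μ) :
    μ ≤ ((1 - ε) * μ + ε) ^ (1 / (1 - ε)) := by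
  have h1 : 0 < 1 - ε := by linarith
  have hr : 1 ≤ 1 / (1 - ε) := by
    rw [le_div_iff₀ h1]; linarith
  have h := one_add_mul_self_le_rpow_one_add (s := (1 - ε) * (μ - 1)) (by nlinarith)
    (p := 1 / (1 - ε)) hr
  have e1 : 1 + (1 - ε) * (μ - 1) = (1 - ε) * μ + ε := by ring
  have e2 : 1 + 1 / (1 - ε) * ((1 - ε) * (μ - 1)) = μ := by field_simp; ring
  rw [e1, e2] at h
  exact h

/-- `1+(1+ε)s ≤ (1+s)^(1+ε)` -/
lemma bern_down {ε μ : ℝ} (hε : 0 ≤ ε) (hμ : 0 ≤ μ) :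
    (1 + ε) * μ - ε ≤ μ ^ (1 + ε) := by
  have h := one_add_mul_self_le_rpow_one_add (s := μ - 1) (by linarith) (p := 1 + ε) (by linarith)
  have e1 : 1 + (μ - 1) = μ := by ring
  rw [e1] at h
  linarith

theorem PS_up {p ε : ℝ} (hp : 0 ≤ p) (hp' : p ≤ 1 / 2) (hε : 0 < ε) (hε1 : ε < 1) :
    ScalarUp (PS p ε) (p - 1 / 4) (p - 1 / 4) (1 / (1 - ε)) := by
  intro xm x0 x1 y hm h0 h1 H
  have a1 := H ((1 - ε) * p + ε, (1 - ε) * (1 - 2 * p), (1 - ε) * p) (by simp [PS])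
  have a2 := H ((1 - ε) * p, (1 - ε) * (1 - 2 * p) + ε, (1 - ε) * p) (by simp [PS])
  have a3 := H ((1 - ε) * p, (1 - ε) * (1 - 2 * p), (1 - ε) * p + ε) (by simp [PS])
  simp only at a1 a2 a3
  have hε' : 0 < 1 - ε := by linarith
  have hr : 1 < 1 / (1 - ε) := by rw [lt_div_iff₀ hε']; linarith
  obtain ⟨M, b1, b2, b3, hM⟩ := max3_cases xm x0 x1
  have hM0 : 0 ≤ M := hm.trans b1
  set m := p * xm + (1 - 2 * p) * x0 + p * x1 with hmdef
  have hy : (1 - ε) * m + ε * M ≤ y := by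
    rcases hM with rfl | rfl | rfl
    · rw [hmdef]; linarith
    · rw [hmdef]; linarith
    · rw [hmdef]; linarith
  have hm0 : 0 ≤ m := by
    rw [hmdef]
    have := mul_nonneg hp hm
    have := mul_nonneg (show 0 ≤ 1 - 2 * p by linarith) h0
    have := mul_nonneg hp h1
    linarith
  have e0 : (1 / 4 + (p - 1 / 4)) = p := by ring
  have e1 : (1 / 2 - (p - 1 / 4) - (p - 1 / 4)) = 1 - 2 * p := by ring
  rw [e0, e1]
  rcases hM0.eq_or_lt with hz | hpos
  · subst hz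
    have z1 : xm = 0 := le_antisymm b1 hm
    have z2 : x0 = 0 := le_antisymm b2 h0
    have z3 : x1 = 0 := le_antisymm b3 h1
    subst z1; subst z2; subst z3
    rw [Real.zero_rpow (by linarith)]
    have hy0 : 0 ≤ y := by
      have : (1 - ε) * m + ε * 0 = (1 - ε) * m := by ring
      rw [this] at hy
      exact (mul_nonneg hε'.le hm0).trans hy
    have := Real.rpow_nonneg hy0 (1 / (1 - ε))
    simpa using this
  · have c1 := mul_le_mul_of_nonneg_left (rpow_le_mul hm b1 hr) hp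
    have c2 := mul_le_mul_of_nonneg_left (rpow_le_mul h0 b2 hr) (show 0 ≤ 1 - 2 * p by linarith)
    have c3 := mul_le_mul_of_nonneg_left (rpow_le_mul h1 b3 hr) hp
    have key := bern_up hε.le hε1 (div_nonneg hm0 hpos.le)
    have hMr : M ^ (1 / (1 - ε)) = M * M ^ (1 / (1 - ε) - 1) := by
      rw [← Real.rpow_one_add' hM0 (by linarith)]; congr 1; ring
    have h5 : (M * ((1 - ε) * (m / M) + ε)) ^ (1 / (1 - ε)) ≤ y ^ (1 / (1 - ε)) := by
      apply Real.rpow_le_rpow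
      · have := div_nonneg hm0 hpos.le
        have := mul_nonneg hε'.le this
        exact mul_nonneg hM0 (by linarith)
      · have : M * ((1 - ε) * (m / M) + ε) = (1 - ε) * m + ε * M := by field_simp
        rw [this]; exact hy
      · linarith
    rw [Real.mul_rpow hM0 (by
      have := div_nonneg hm0 hpos.le
      have := mul_nonneg hε'.le this
      linarith)] at h5
    have h6 : M ^ (1 / (1 - ε)) * (m / M) ≤
        M ^ (1 / (1 - ε)) * ((1 - ε) * (m / M) + ε) ^ (1 / (1 - ε)) :=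
      mul_le_mul_of_nonneg_left key (Real.rpow_nonneg hM0 _)
    have h7 : M ^ (1 / (1 - ε)) * (m / M) = m * M ^ (1 / (1 - ε) - 1) := by
      rw [hMr]; field_simp
    calc p * xm ^ (1 / (1 - ε)) + (1 - 2 * p) * x0 ^ (1 / (1 - ε)) +
          (p) * x1 ^ (1 / (1 - ε))
        ≤ m * M ^ (1 / (1 - ε) - 1) := by rw [hmdef]; linarith [c1, c2, c3]
      _ = M ^ (1 / (1 - ε)) * (m / M) := h7.symm
      _ ≤ _ := h6
      _ ≤ _ := h5

theorem PS_down {p ε : ℝ} (hp : 0 ≤ p) (hp' : p ≤ 1 / 2) (hε : 0 < ε) :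
    ScalarDown (PS p ε) (p - 1 / 4) (p - 1 / 4) (1 / (1 + ε)) := by
  intro xm x0 x1 y hm h0 h1 hy0 H
  have a1 := H ((1 + ε) * p - ε, (1 + ε) * (1 - 2 * p), (1 + ε) * p) (by simp [PS])
  have a2 := H ((1 + ε) * p, (1 + ε) * (1 - 2 * p) - ε, (1 + ε) * p) (by simp [PS])
  have a3 := H ((1 + ε) * p, (1 + ε) * (1 - 2 * p), (1 + ε) * p - ε) (by simp [PS])
  simp only at a1 a2 a3
  have hε' : 0 < 1 + ε := by linarith
  have hρ0 : 0 < 1 / (1 + ε) := by positivity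
  have hρ : 1 / (1 + ε) < 1 := by rw [div_lt_iff₀ hε']; linarith
  obtain ⟨M, b1, b2, b3, hM⟩ := max3_cases xm x0 x1
  have hM0 : 0 ≤ M := hm.trans b1
  set m := p * xm + (1 - 2 * p) * x0 + p * x1 with hmdef
  have hy : y ≤ (1 + ε) * m - ε * M := by
    rcases hM with rfl | rfl | rfl
    · rw [hmdef]; linarith
    · rw [hmdef]; linarith
    · rw [hmdef]; linarith
  have hm0 : 0 ≤ m := by
    rw [hmdef]
    have := mul_nonneg hp hm
    have := mul_nonneg (show 0 ≤ 1 - 2 * p by linarith) h0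
    have := mul_nonneg hp h1
    linarith
  have e0 : (1 / 4 + (p - 1 / 4)) = p := by ring
  have e1 : (1 / 2 - (p - 1 / 4) - (p - 1 / 4)) = 1 - 2 * p := by ring
  rw [e0, e1]
  rcases hM0.eq_or_lt with hz | hpos
  · subst hz
    have z1 : xm = 0 := le_antisymm b1 hm
    have z2 : x0 = 0 := le_antisymm b2 h0
    have z3 : x1 = 0 := le_antisymm b3 h1
    have hm00 : m = 0 := by rw [hmdef, z1, z2, z3]; ring
    have : y = 0 := by
      rw [hm00] at hy
      linarith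
    subst this
    rw [z1, z2, z3, Real.zero_rpow hρ0.ne']
    simp
  · have c1 := mul_le_mul_of_nonneg_left (mul_le_rpow hm b1 hρ0 hρ) hp
    have c2 := mul_le_mul_of_nonneg_left (mul_le_rpow h0 b2 hρ0 hρ)
      (show 0 ≤ 1 - 2 * p by linarith)
    have c3 := mul_le_mul_of_nonneg_left (mul_le_rpow h1 b3 hρ0 hρ) hp
    have hμ := div_nonneg hm0 hpos.le
    have key := bern_down hε.le hμ
    have hMr : M ^ (1 / (1 + ε)) = M * M ^ (1 / (1 + ε) - 1) := by
      rw [← Real.rpow_one_add' hM0 (by linarith)]; congr 1; ring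
    have h5 : y ≤ M * (m / M) ^ (1 + ε) := by
      calc y ≤ (1 + ε) * m - ε * M := hy
        _ = M * ((1 + ε) * (m / M) - ε) := by field_simp
        _ ≤ _ := mul_le_mul_of_nonneg_left key hM0
    have h6 : y ^ (1 / (1 + ε)) ≤ M ^ (1 / (1 + ε)) * (m / M) := by
      calc y ^ (1 / (1 + ε)) ≤ (M * (m / M) ^ (1 + ε)) ^ (1 / (1 + ε)) :=
            Real.rpow_le_rpow hy0 h5 hρ0.le
        _ = M ^ (1 / (1 + ε)) * (m / M) := by
            rw [Real.mul_rpow hM0 (Real.rpow_nonneg hμ _), ← Real.rpow_mul hμ,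
              mul_one_div_cancel hε'.ne', Real.rpow_one]
    have h7 : M ^ (1 / (1 + ε)) * (m / M) = m * M ^ (1 / (1 + ε) - 1) := by
      rw [hMr]; field_simp
    calc y ^ (1 / (1 + ε)) ≤ M ^ (1 / (1 + ε)) * (m / M) := h6
      _ = m * M ^ (1 / (1 + ε) - 1) := h7
      _ ≤ _ := by rw [hmdef]; linarith [c1, c2, c3]

/-- a functional on residue classes with a strict one-step inequality -/
structure StrictChain (p ε α : ℝ) (k : ℤ) (u : ℕ) (F : ℕ → ℤ → ℝ) : Prop where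
  per : ∀ n x, F n (x + 4 ^ (u + 1)) = F n x
  nonneg : ∀ n x, 0 ≤ F n x
  le_one : ∀ n x, F n x ≤ 1
  gap : ∀ n x, F n x = 1 ∨ F n x ≤ 1 - α
  start : ∃ x, α ≤ F 0 x
  step : ∀ n, ∀ em e0 e1 : ℤ, (em = 0 ∨ em = 1) → (e0 = 0 ∨ e0 = 1) →
    (e1 = 0 ∨ e1 = 1) → ∀ ζ : ℤ,
      p * F n (4 * ζ + k + em) + (1 - 2 * p) * F n (4 * ζ + e0) + p * F n (4 * ζ - k + e1) ≤
      (F (n + 1) ζ + F (n + 1) (ζ + 4 ^ u) + F (n + 1) (ζ + 2 * 4 ^ u) +
        F (n + 1) (ζ + 3 * 4 ^ u)) / 4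
  strict : ∀ n, ∀ em e0 e1 : ℤ, (em = 0 ∨ em = 1) → (e0 = 0 ∨ e0 = 1) →
    (e1 = 0 ∨ e1 = 1) → ∀ ζ : ℤ,
    ¬ (F n (4 * ζ + k + em) = 0 ∧ F n (4 * ζ + e0) = 0 ∧ F n (4 * ζ - k + e1) = 0) →
    ¬ (F n (4 * ζ + k + em) = 1 ∧ F n (4 * ζ + e0) = 1 ∧ F n (4 * ζ - k + e1) = 1) →
      p * F n (4 * ζ + k + em) + (1 - 2 * p) * F n (4 * ζ + e0) + p * F n (4 * ζ - k + e1) + ε ≤
      (F (n + 1) ζ + F (n + 1) (ζ + 4 ^ u) + F (n + 1) (ζ + 2 * 4 ^ u) +
        F (n + 1) (ζ + 3 * 4 ^ u)) / 4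

/-- elementary: the strict inequality dominates all perturbed ones -/
lemma pert {p ε : ℝ} (hp : 0 ≤ p) (hp' : p ≤ 1 / 2) (hε : 0 ≤ ε) {x y z w : ℝ}
    (hx : 0 ≤ x) (hx1 : x ≤ 1) (hy : 0 ≤ y) (hy1 : y ≤ 1) (hz : 0 ≤ z) (hz1 : z ≤ 1)
    (h : p * x + (1 - 2 * p) * y + p * z ≤ w)
    (hs : ¬ (x = 0 ∧ y = 0 ∧ z = 0) → ¬ (x = 1 ∧ y = 1 ∧ z = 1) →
      p * x + (1 - 2 * p) * y + p * z + ε ≤ w) :
    ∀ v ∈ PS p ε, v.1 * x + v.2.1 * y + v.2.2 * z ≤ w := by
  intro v hv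
  have hm0 : 0 ≤ p * x + (1 - 2 * p) * y + p * z := by
    have := mul_nonneg hp hx
    have := mul_nonneg (show 0 ≤ 1 - 2 * p by linarith) hy
    have := mul_nonneg hp hz
    linarith
  have hm1 : p * x + (1 - 2 * p) * y + p * z ≤ 1 := by
    have := mul_le_mul_of_nonneg_left hx1 hp
    have := mul_le_mul_of_nonneg_left hy1 (show 0 ≤ 1 - 2 * p by linarith)
    have := mul_le_mul_of_nonneg_left hz1 hp
    linarith
  simp only [PS, Set.mem_insert_iff, Set.mem_singleton_iff] at hv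
  by_cases h0 : x = 0 ∧ y = 0 ∧ z = 0
  · obtain ⟨rfl, rfl, rfl⟩ := h0
    rcases hv with rfl | rfl | rfl | rfl | rfl | rfl <;> simp only <;> linarith
  · by_cases h1 : x = 1 ∧ y = 1 ∧ z = 1
    · obtain ⟨rfl, rfl, rfl⟩ := h1
      rcases hv with rfl | rfl | rfl | rfl | rfl | rfl <;> simp only <;> linarith
    · have hs' := hs h0 h1
      set m := p * x + (1 - 2 * p) * y + p * z with hm
      have g1 : ε * (x - m) ≤ ε := by nlinarith
      have g2 : ε * (y - m) ≤ ε := by nlinarith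
      have g3 : ε * (z - m) ≤ ε := by nlinarith
      have g4 : ε * (m - x) ≤ ε := by nlinarith
      have g5 : ε * (m - y) ≤ ε := by nlinarith
      have g6 : ε * (m - z) ≤ ε := by nlinarith
      rcases hv with rfl | rfl | rfl | rfl | rfl | rfl <;> simp only
      · have : ((1 - ε) * p + ε) * x + (1 - ε) * (1 - 2 * p) * y + (1 - ε) * p * z =
          m + ε * (x - m) := by rw [hm]; ring
        linarith
      · have : (1 - ε) * p * x + ((1 - ε) * (1 - 2 * p) + ε) * y + (1 - ε) * p * z =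
          m + ε * (y - m) := by rw [hm]; ring
        linarith
      · have : (1 - ε) * p * x + (1 - ε) * (1 - 2 * p) * y + ((1 - ε) * p + ε) * z =
          m + ε * (z - m) := by rw [hm]; ring
        linarith
      · have : ((1 + ε) * p - ε) * x + (1 + ε) * (1 - 2 * p) * y + (1 + ε) * p * z =
          m + ε * (m - x) := by rw [hm]; ring
        linarith
      · have : (1 + ε) * p * x + ((1 + ε) * (1 - 2 * p) - ε) * y + (1 + ε) * p * z =
          m + ε * (m - y) := by rw [hm]; ring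
        linarith
      · have : (1 + ε) * p * x + (1 + ε) * (1 - 2 * p) * y + ((1 + ε) * p - ε) * z =
          m + ε * (m - z) := by rw [hm]; ring
        linarith

theorem StrictChain.chain {p ε α : ℝ} {k : ℤ} {u : ℕ} {F : ℕ → ℤ → ℝ}
    (h : StrictChain p ε α k u F) (hp : 0 ≤ p) (hp' : p ≤ 1 / 2) (hε : 0 ≤ ε) :
    Chain (PS p ε) k u F where
  per := h.per
  nonneg := h.nonneg
  le_one := h.le_one
  step n v hv em e0 e1 hem he0 he1 ζ :=
    pert hp hp' hε (h.nonneg _ _) (h.le_one _ _) (h.nonneg _ _) (h.le_one _ _) (h.nonneg _ _)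
      (h.le_one _ _) (h.step n em e0 e1 hem he0 he1 ζ) (h.strict n em e0 e1 hem he0 he1 ζ) v hv

end Pool.Agent.H62.LV
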