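import Pool.Agent.H62.LV.Ineq

/-! window 4M < K, 5K + 2 <= 32M (generated case analysis) -/

set_option linter.unusedVariables false
set_option maxRecDepth 4000

namespace Pool.Agent.H62.LV

/-- type (0,) (1,) (2,) 4 () -/
lemma wa_leaf0 {K M ζ em e0 e1 : ℤ} {R R' : ℤ → Prop} (hM : 0 < M) (hs : StepRel K M R R')
    (hem : em = 0 ∨ em = 1) (he0 : e0 = 0 ∨ e0 = 1) (he1 : e1 = 0 ∨ e1 = 1)
    (hx1 : -K ≤ 3 * ζ) (hx2 : 3 * (ζ - M) < -K)
    (am1 : -K ≤ 3 * (4 * ζ + K + em))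
    (am2 : 3 * (4 * ζ + K + em - 4 * M) < -K)
    (am3 : 3 * (4 * ζ + K + em) ≤ K + 4 * M - 1)
    (am4 : ¬ 3 * (4 * ζ + K + em + 4 * M) ≤ K + 4 * M - 1)
    (az1 : -K ≤ 3 * (4 * ζ + e0 + 4 * M * 1))
    (az2 : 3 * (4 * ζ + e0 + 4 * M * 1 - 4 * M) < -K)
    (az3 : 3 * (4 * ζ + e0 + 4 * M * 1) ≤ K + 4 * M - 1)
    (az4 : ¬ 3 * (4 * ζ + e0 + 4 * M * 1 + 4 * M) ≤ K + 4 * M - 1)
    (ap1 : -K ≤ 3 * (4 * ζ - K + e1 + 4 * M * 2))
    (ap2 : 3 * (4 * ζ - K + e1 + 4 * M * 2 - 4 * M) < -K)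
    (ap3 : 3 * (4 * ζ - K + e1 + 4 * M * 2) ≤ K + 4 * M - 1)
    (ap4 : ¬ 3 * (4 * ζ - K + e1 + 4 * M * 2 + 4 * M) ≤ K + 4 * M - 1)
    (t0 : ¬ 3 * (ζ + 4 * M) ≤ K + 4 * M - 1)
    (t1 : ¬ 3 * (ζ + M * 1 + 4 * M) ≤ K + 4 * M - 1)
    (t2 : ¬ 3 * (ζ + M * 2 + 4 * M) ≤ K + 4 * M - 1)
    (t3 : ¬ 3 * (ζ + M * 3 + 4 * M) ≤ K + 4 * M - 1) :
    Ineq 5 6 4 14 (tab2 K (4 * M) 8 11 14) K M R R' ζ em e0 e1 := by
  classical
  have hN : 0 < 4 * M := by linarith
  have qm := G_eq (tab := tab2 K (4 * M) 8 11 14) (K := K) (N := 4 * M) (R := R) (z := 4 * ζ + K + em) (w := 4 * ζ + K + em) hN (by linarith) (by linarith)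
    ⟨0, by ring⟩
  have qz := G_eq (tab := tab2 K (4 * M) 8 11 14) (K := K) (N := 4 * M) (R := R) (z := 4 * ζ + e0) (w := 4 * ζ + e0 + 4 * M * 1) hN (by linarith) (by linarith)
    ⟨1, by ring⟩
  have qp := G_eq (tab := tab2 K (4 * M) 8 11 14) (K := K) (N := 4 * M) (R := R) (z := 4 * ζ - K + e1) (w := 4 * ζ - K + e1 + 4 * M * 2) hN (by linarith) (by linarith)
    ⟨2, by ring⟩
  have r0 := G_eq (tab := tab2 K (4 * M) 8 11 14) (K := K) (N := 4 * M) (R := R') (z := ζ) (w := ζ) hN (by linarith) (by linarith)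
    ⟨0, by ring⟩
  have r1 := G_eq (tab := tab2 K (4 * M) 8 11 14) (K := K) (N := 4 * M) (R := R') (z := ζ + M * 1) (w := ζ + M * 1) hN (by linarith) (by linarith)
    ⟨0, by ring⟩
  have r2 := G_eq (tab := tab2 K (4 * M) 8 11 14) (K := K) (N := 4 * M) (R := R') (z := ζ + M * 2) (w := ζ + M * 2) hN (by linarith) (by linarith)
    ⟨0, by ring⟩
  have r3 := G_eq (tab := tab2 K (4 * M) 8 11 14) (K := K) (N := 4 * M) (R := R') (z := ζ + M * 3) (w := ζ + M * 3) hN (by linarith) (by linarith)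
    ⟨0, by ring⟩
  rw [tab2, if_neg am4] at qm
  rw [tab2, if_neg az4] at qz
  rw [tab2, if_neg ap4] at qp
  rw [tab2, if_neg t0] at r0
  rw [tab2, if_neg t1] at r1
  rw [tab2, if_neg t2] at r2
  rw [tab2, if_neg t3] at r3
  have Em0 : ∀ n : ℤ, (n = 0 ∨ n = 0 + 1) → decide (R (4 * ζ + K + em)) = true → decide (R' (ζ + M * n)) = true := by
    intro n hn h
    have h := of_decide_eq_true h
    rcases hn with rfl | rfl
    · exact decide_eq_true (hs.d0 (a := -1) (e := em) (m := 0) (by simp) (by assumption) (by ring) h rfl)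
    · exact decide_eq_true (hs.d1 (a := -1) (e := em) (m := 0) (by simp) (by assumption) (by ring) h rfl)
  have Ez1 : ∀ n : ℤ, (n = 1 ∨ n = 1 + 1) → decide (R (4 * ζ + e0 + 4 * M * 1)) = true → decide (R' (ζ + M * n)) = true := by
    intro n hn h
    have h := of_decide_eq_true h
    rcases hn with rfl | rfl
    · exact decide_eq_true (hs.d0 (a := 0) (e := e0) (m := 1) (by simp) (by assumption) (by ring) h rfl)
    · exact decide_eq_true (hs.d1 (a := 0) (e := e0) (m := 1) (by simp) (by assumption) (by ring) h rfl)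
  have Ep2 : ∀ n : ℤ, (n = 2 ∨ n = 2 + 1) → decide (R (4 * ζ - K + e1 + 4 * M * 2)) = true → decide (R' (ζ + M * n)) = true := by
    intro n hn h
    have h := of_decide_eq_true h
    rcases hn with rfl | rfl
    · exact decide_eq_true (hs.d0 (a := 1) (e := e1) (m := 2) (by simp) (by assumption) (by ring) h rfl)
    · exact decide_eq_true (hs.d1 (a := 1) (e := e1) (m := 2) (by simp) (by assumption) (by ring) h rfl)
  unfold Ineq
  rw [qm, qz, qp]
  generalize decide (R (4 * ζ + K + em)) = b0 at Em0 ⊢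
  generalize decide (R (4 * ζ + e0 + 4 * M * 1)) = b1 at Ez1 ⊢
  generalize decide (R (4 * ζ - K + e1 + 4 * M * 2)) = b2 at Ep2 ⊢
  have T0 : (b0) = true → decide (R' (ζ + M * 0)) = true := by
    intro h
    exact Em0 0 (by norm_num) h
  have T1 : (b0 || b1) = true → decide (R' (ζ + M * 1)) = true := by
    intro h
    simp only [Bool.or_eq_true] at h
    rcases h with (h | h)
    · exact Em0 1 (by norm_num) h
    · exact Ez1 1 (by norm_num) h
  have T2 : (b1 || b2) = true → decide (R' (ζ + M * 2)) = true := by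
    intro h
    simp only [Bool.or_eq_true] at h
    rcases h with (h | h)
    · exact Ez1 2 (by norm_num) h
    · exact Ep2 2 (by norm_num) h
  have T3 : (b2) = true → decide (R' (ζ + M * 3)) = true := by
    intro h
    exact Ep2 3 (by norm_num) h
  have u0 : g1 14 (b0) ≤ G (tab2 K (4 * M) 8 11 14) K (4 * M) R' (ζ) := by
    rw [r0]
    have T0' := T0; rw [show ζ + M * 0 = ζ by ring] at T0'
    exact g1_mono (by norm_num) T0'
  have u1 : g1 14 (b0 || b1) ≤ G (tab2 K (4 * M) 8 11 14) K (4 * M) R' (ζ + M * 1) := by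
    rw [r1]
    exact g1_mono (by norm_num) T1
  have u2 : g1 14 (b1 || b2) ≤ G (tab2 K (4 * M) 8 11 14) K (4 * M) R' (ζ + M * 2) := by
    rw [r2]
    exact g1_mono (by norm_num) T2
  have u3 : g1 14 (b2) ≤ G (tab2 K (4 * M) 8 11 14) K (4 * M) R' (ζ + M * 3) := by
    rw [r3]
    exact g1_mono (by norm_num) T3
  have key : ∀ b0 b1 b2 : Bool, KeyIneq 5 6 4 14 (g1 14 b0) (g1 14 b1) (g1 14 b2)
      (g1 14 (b0) + g1 14 (b0 || b1) + g1 14 (b1 || b2) + g1 14 (b2)) := by decide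
  have key := key b0 b1 b2
  unfold KeyIneq at key
  refine ⟨by linarith [key.1], fun h h' => ?_⟩
  have := key.2 h h'
  linarith

/-- type (0, 1) (2,) (3,) 5 (('m', 0, True), ('T', 0, True)) -/
lemma wa_leaf1 {K M ζ em e0 e1 : ℤ} {R R' : ℤ → Prop} (hM : 0 < M) (hs : StepRel K M R R')
    (hem : em = 0 ∨ em = 1) (he0 : e0 = 0 ∨ e0 = 1) (he1 : e1 = 0 ∨ e1 = 1)
    (hx1 : -K ≤ 3 * ζ) (hx2 : 3 * (ζ - M) < -K)
    (am1 : -K ≤ 3 * (4 * ζ + K + em))
    (am2 : 3 * (4 * ζ + K + em - 4 * M) < -K)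
    (am3 : 3 * (4 * ζ + K + em + 4 * M * 1) ≤ K + 4 * M - 1)
    (az1 : -K ≤ 3 * (4 * ζ + e0 + 4 * M * 2))
    (az2 : 3 * (4 * ζ + e0 + 4 * M * 2 - 4 * M) < -K)
    (az3 : 3 * (4 * ζ + e0 + 4 * M * 2) ≤ K + 4 * M - 1)
    (az4 : ¬ 3 * (4 * ζ + e0 + 4 * M * 2 + 4 * M) ≤ K + 4 * M - 1)
    (ap1 : -K ≤ 3 * (4 * ζ - K + e1 + 4 * M * 3))
    (ap2 : 3 * (4 * ζ - K + e1 + 4 * M * 3 - 4 * M) < -K)
    (ap3 : 3 * (4 * ζ - K + e1 + 4 * M * 3) ≤ K + 4 * M - 1)
    (ap4 : ¬ 3 * (4 * ζ - K + e1 + 4 * M * 3 + 4 * M) ≤ K + 4 * M - 1)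
    (t0 : 3 * (ζ + 4 * M) ≤ K + 4 * M - 1)
    (t1 : ¬ 3 * (ζ + M * 1 + 4 * M) ≤ K + 4 * M - 1)
    (t2 : ¬ 3 * (ζ + M * 2 + 4 * M) ≤ K + 4 * M - 1)
    (t3 : ¬ 3 * (ζ + M * 3 + 4 * M) ≤ K + 4 * M - 1)
    (om0 : 3 * (4 * ζ + K + em) < -(4 * M))
    (oT0 : 3 * (ζ) < -(4 * M)) :
    Ineq 5 6 4 14 (tab2 K (4 * M) 8 11 14) K M R R' ζ em e0 e1 := by
  classical
  have hN : 0 < 4 * M := by linarith
  have qm := G_eq (tab := tab2 K (4 * M) 8 11 14) (K := K) (N := 4 * M) (R := R) (z := 4 * ζ + K + em) (w := 4 * ζ + K + em) hN (by linarith) (by linarith)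
    ⟨0, by ring⟩
  have qz := G_eq (tab := tab2 K (4 * M) 8 11 14) (K := K) (N := 4 * M) (R := R) (z := 4 * ζ + e0) (w := 4 * ζ + e0 + 4 * M * 2) hN (by linarith) (by linarith)
    ⟨2, by ring⟩
  have qp := G_eq (tab := tab2 K (4 * M) 8 11 14) (K := K) (N := 4 * M) (R := R) (z := 4 * ζ - K + e1) (w := 4 * ζ - K + e1 + 4 * M * 3) hN (by linarith) (by linarith)
    ⟨3, by ring⟩
  have r0 := G_eq (tab := tab2 K (4 * M) 8 11 14) (K := K) (N := 4 * M) (R := R') (z := ζ) (w := ζ) hN (by linarith) (by linarith)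
    ⟨0, by ring⟩
  have r1 := G_eq (tab := tab2 K (4 * M) 8 11 14) (K := K) (N := 4 * M) (R := R') (z := ζ + M * 1) (w := ζ + M * 1) hN (by linarith) (by linarith)
    ⟨0, by ring⟩
  have r2 := G_eq (tab := tab2 K (4 * M) 8 11 14) (K := K) (N := 4 * M) (R := R') (z := ζ + M * 2) (w := ζ + M * 2) hN (by linarith) (by linarith)
    ⟨0, by ring⟩
  have r3 := G_eq (tab := tab2 K (4 * M) 8 11 14) (K := K) (N := 4 * M) (R := R') (z := ζ + M * 3) (w := ζ + M * 3) hN (by linarith) (by linarith)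
    ⟨0, by ring⟩
  have cm : 3 * (4 * ζ + K + em + 4 * M) ≤ K + 4 * M - 1 := by linarith
  rw [tab2, if_pos cm, if_pos om0] at qm
  rw [tab2, if_neg az4] at qz
  rw [tab2, if_neg ap4] at qp
  rw [tab2, if_pos t0, if_pos oT0] at r0
  rw [tab2, if_neg t1] at r1
  rw [tab2, if_neg t2] at r2
  rw [tab2, if_neg t3] at r3
  have Em0 : ∀ n : ℤ, (n = 0 ∨ n = 0 + 1) → decide (R (4 * ζ + K + em)) = true → decide (R' (ζ + M * n)) = true := by
    intro n hn h
    have h := of_decide_eq_true h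
    rcases hn with rfl | rfl
    · exact decide_eq_true (hs.d0 (a := -1) (e := em) (m := 0) (by simp) (by assumption) (by ring) h rfl)
    · exact decide_eq_true (hs.d1 (a := -1) (e := em) (m := 0) (by simp) (by assumption) (by ring) h rfl)
  have Em1 : ∀ n : ℤ, (n = 1 ∨ n = 1 + 1) → decide (R (4 * ζ + K + em + 4 * M)) = true → decide (R' (ζ + M * n)) = true := by
    intro n hn h
    have h := of_decide_eq_true h
    rcases hn with rfl | rfl
    · exact decide_eq_true (hs.d0 (a := -1) (e := em) (m := 1) (by simp) (by assumption) (by ring) h rfl)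
    · exact decide_eq_true (hs.d1 (a := -1) (e := em) (m := 1) (by simp) (by assumption) (by ring) h rfl)
  have Ez2 : ∀ n : ℤ, (n = 2 ∨ n = 2 + 1) → decide (R (4 * ζ + e0 + 4 * M * 2)) = true → decide (R' (ζ + M * n)) = true := by
    intro n hn h
    have h := of_decide_eq_true h
    rcases hn with rfl | rfl
    · exact decide_eq_true (hs.d0 (a := 0) (e := e0) (m := 2) (by simp) (by assumption) (by ring) h rfl)
    · exact decide_eq_true (hs.d1 (a := 0) (e := e0) (m := 2) (by simp) (by assumption) (by ring) h rfl)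
  have Ep3 : ∀ n : ℤ, (n = 3 ∨ n = 3 + 1) → decide (R (4 * ζ - K + e1 + 4 * M * 3)) = true → decide (R' (ζ + M * n)) = true := by
    intro n hn h
    have h := of_decide_eq_true h
    rcases hn with rfl | rfl
    · exact decide_eq_true (hs.d0 (a := 1) (e := e1) (m := 3) (by simp) (by assumption) (by ring) h rfl)
    · exact decide_eq_true (hs.d1 (a := 1) (e := e1) (m := 3) (by simp) (by assumption) (by ring) h rfl)
  unfold Ineq
  rw [qm, qz, qp]
  generalize decide (R (4 * ζ + K + em)) = b0 at Em0 ⊢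
  generalize decide (R (4 * ζ + K + em + 4 * M)) = b1 at Em1 ⊢
  generalize decide (R (4 * ζ + e0 + 4 * M * 2)) = b2 at Ez2 ⊢
  generalize decide (R (4 * ζ - K + e1 + 4 * M * 3)) = b3 at Ep3 ⊢
  have T0 : (b0) = true → decide (R' (ζ + M * 0)) = true := by
    intro h
    exact Em0 0 (by norm_num) h
  have T4 : (b3) = true → decide (R' (ζ + M * 4)) = true := by
    intro h
    exact Ep3 4 (by norm_num) h
  have T1 : (b0 || b1) = true → decide (R' (ζ + M * 1)) = true := by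
    intro h
    simp only [Bool.or_eq_true] at h
    rcases h with (h | h)
    · exact Em0 1 (by norm_num) h
    · exact Em1 1 (by norm_num) h
  have T2 : (b1 || b2) = true → decide (R' (ζ + M * 2)) = true := by
    intro h
    simp only [Bool.or_eq_true] at h
    rcases h with (h | h)
    · exact Em1 2 (by norm_num) h
    · exact Ez2 2 (by norm_num) h
  have T3 : (b2 || b3) = true → decide (R' (ζ + M * 3)) = true := by
    intro h
    simp only [Bool.or_eq_true] at h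
    rcases h with (h | h)
    · exact Ez2 3 (by norm_num) h
    · exact Ep3 3 (by norm_num) h
  have u0 : g2 14 8 11 (b0) (b3) ≤ G (tab2 K (4 * M) 8 11 14) K (4 * M) R' (ζ) := by
    rw [r0, show ζ + 4 * M = ζ + M * 4 by ring]
    have T0' := T0; rw [show ζ + M * 0 = ζ by ring] at T0'
    exact g2_mono (by norm_num) (by norm_num) (by norm_num) (by norm_num) T0' T4
  have u1 : g1 14 (b0 || b1) ≤ G (tab2 K (4 * M) 8 11 14) K (4 * M) R' (ζ + M * 1) := by
    rw [r1]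
    exact g1_mono (by norm_num) T1
  have u2 : g1 14 (b1 || b2) ≤ G (tab2 K (4 * M) 8 11 14) K (4 * M) R' (ζ + M * 2) := by
    rw [r2]
    exact g1_mono (by norm_num) T2
  have u3 : g1 14 (b2 || b3) ≤ G (tab2 K (4 * M) 8 11 14) K (4 * M) R' (ζ + M * 3) := by
    rw [r3]
    exact g1_mono (by norm_num) T3
  have key : ∀ b0 b1 b2 b3 : Bool, KeyIneq 5 6 4 14 (g2 14 8 11 b0 b1) (g1 14 b2) (g1 14 b3)
      (g2 14 8 11 (b0) (b3) + g1 14 (b0 || b1) + g1 14 (b1 || b2) + g1 14 (b2 || b3)) := by decide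
  have key := key b0 b1 b2 b3
  unfold KeyIneq at key
  refine ⟨by linarith [key.1], fun h h' => ?_⟩
  have := key.2 h h'
  linarith

/-- type (0, 1) (2,) (3,) 5 (('m', 0, False), ('T', 0, True)) -/
lemma wa_leaf2 {K M ζ em e0 e1 : ℤ} {R R' : ℤ → Prop} (hM : 0 < M) (hs : StepRel K M R R')
    (hem : em = 0 ∨ em = 1) (he0 : e0 = 0 ∨ e0 = 1) (he1 : e1 = 0 ∨ e1 = 1)
    (hx1 : -K ≤ 3 * ζ) (hx2 : 3 * (ζ - M) < -K)
    (am1 : -K ≤ 3 * (4 * ζ + K + em))
    (am2 : 3 * (4 * ζ + K + em - 4 * M) < -K)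
    (am3 : 3 * (4 * ζ + K + em + 4 * M * 1) ≤ K + 4 * M - 1)
    (az1 : -K ≤ 3 * (4 * ζ + e0 + 4 * M * 2))
    (az2 : 3 * (4 * ζ + e0 + 4 * M * 2 - 4 * M) < -K)
    (az3 : 3 * (4 * ζ + e0 + 4 * M * 2) ≤ K + 4 * M - 1)
    (az4 : ¬ 3 * (4 * ζ + e0 + 4 * M * 2 + 4 * M) ≤ K + 4 * M - 1)
    (ap1 : -K ≤ 3 * (4 * ζ - K + e1 + 4 * M * 3))
    (ap2 : 3 * (4 * ζ - K + e1 + 4 * M * 3 - 4 * M) < -K)
    (ap3 : 3 * (4 * ζ - K + e1 + 4 * M * 3) ≤ K + 4 * M - 1)
    (ap4 : ¬ 3 * (4 * ζ - K + e1 + 4 * M * 3 + 4 * M) ≤ K + 4 * M - 1)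
    (t0 : 3 * (ζ + 4 * M) ≤ K + 4 * M - 1)
    (t1 : ¬ 3 * (ζ + M * 1 + 4 * M) ≤ K + 4 * M - 1)
    (t2 : ¬ 3 * (ζ + M * 2 + 4 * M) ≤ K + 4 * M - 1)
    (t3 : ¬ 3 * (ζ + M * 3 + 4 * M) ≤ K + 4 * M - 1)
    (om0 : ¬ 3 * (4 * ζ + K + em) < -(4 * M))
    (oT0 : 3 * (ζ) < -(4 * M)) :
    Ineq 5 6 4 14 (tab2 K (4 * M) 8 11 14) K M R R' ζ em e0 e1 := by
  classical
  have hN : 0 < 4 * M := by linarith
  have qm := G_eq (tab := tab2 K (4 * M) 8 11 14) (K := K) (N := 4 * M) (R := R) (z := 4 * ζ + K + em) (w := 4 * ζ + K + em) hN (by linarith) (by linarith)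
    ⟨0, by ring⟩
  have qz := G_eq (tab := tab2 K (4 * M) 8 11 14) (K := K) (N := 4 * M) (R := R) (z := 4 * ζ + e0) (w := 4 * ζ + e0 + 4 * M * 2) hN (by linarith) (by linarith)
    ⟨2, by ring⟩
  have qp := G_eq (tab := tab2 K (4 * M) 8 11 14) (K := K) (N := 4 * M) (R := R) (z := 4 * ζ - K + e1) (w := 4 * ζ - K + e1 + 4 * M * 3) hN (by linarith) (by linarith)
    ⟨3, by ring⟩
  have r0 := G_eq (tab := tab2 K (4 * M) 8 11 14) (K := K) (N := 4 * M) (R := R') (z := ζ) (w := ζ) hN (by linarith) (by linarith)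
    ⟨0, by ring⟩
  have r1 := G_eq (tab := tab2 K (4 * M) 8 11 14) (K := K) (N := 4 * M) (R := R') (z := ζ + M * 1) (w := ζ + M * 1) hN (by linarith) (by linarith)
    ⟨0, by ring⟩
  have r2 := G_eq (tab := tab2 K (4 * M) 8 11 14) (K := K) (N := 4 * M) (R := R') (z := ζ + M * 2) (w := ζ + M * 2) hN (by linarith) (by linarith)
    ⟨0, by ring⟩
  have r3 := G_eq (tab := tab2 K (4 * M) 8 11 14) (K := K) (N := 4 * M) (R := R') (z := ζ + M * 3) (w := ζ + M * 3) hN (by linarith) (by linarith)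
    ⟨0, by ring⟩
  have cm : 3 * (4 * ζ + K + em + 4 * M) ≤ K + 4 * M - 1 := by linarith
  rw [tab2, if_pos cm, if_neg om0] at qm
  rw [tab2, if_neg az4] at qz
  rw [tab2, if_neg ap4] at qp
  rw [tab2, if_pos t0, if_pos oT0] at r0
  rw [tab2, if_neg t1] at r1
  rw [tab2, if_neg t2] at r2
  rw [tab2, if_neg t3] at r3
  have Em0 : ∀ n : ℤ, (n = 0 ∨ n = 0 + 1) → decide (R (4 * ζ + K + em)) = true → decide (R' (ζ + M * n)) = true := by
    intro n hn h
    have h := of_decide_eq_true h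
    rcases hn with rfl | rfl
    · exact decide_eq_true (hs.d0 (a := -1) (e := em) (m := 0) (by simp) (by assumption) (by ring) h rfl)
    · exact decide_eq_true (hs.d1 (a := -1) (e := em) (m := 0) (by simp) (by assumption) (by ring) h rfl)
  have Em1 : ∀ n : ℤ, (n = 1 ∨ n = 1 + 1) → decide (R (4 * ζ + K + em + 4 * M)) = true → decide (R' (ζ + M * n)) = true := by
    intro n hn h
    have h := of_decide_eq_true h
    rcases hn with rfl | rfl
    · exact decide_eq_true (hs.d0 (a := -1) (e := em) (m := 1) (by simp) (by assumption) (by ring) h rfl)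
    · exact decide_eq_true (hs.d1 (a := -1) (e := em) (m := 1) (by simp) (by assumption) (by ring) h rfl)
  have Ez2 : ∀ n : ℤ, (n = 2 ∨ n = 2 + 1) → decide (R (4 * ζ + e0 + 4 * M * 2)) = true → decide (R' (ζ + M * n)) = true := by
    intro n hn h
    have h := of_decide_eq_true h
    rcases hn with rfl | rfl
    · exact decide_eq_true (hs.d0 (a := 0) (e := e0) (m := 2) (by simp) (by assumption) (by ring) h rfl)
    · exact decide_eq_true (hs.d1 (a := 0) (e := e0) (m := 2) (by simp) (by assumption) (by ring) h rfl)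
  have Ep3 : ∀ n : ℤ, (n = 3 ∨ n = 3 + 1) → decide (R (4 * ζ - K + e1 + 4 * M * 3)) = true → decide (R' (ζ + M * n)) = true := by
    intro n hn h
    have h := of_decide_eq_true h
    rcases hn with rfl | rfl
    · exact decide_eq_true (hs.d0 (a := 1) (e := e1) (m := 3) (by simp) (by assumption) (by ring) h rfl)
    · exact decide_eq_true (hs.d1 (a := 1) (e := e1) (m := 3) (by simp) (by assumption) (by ring) h rfl)
  unfold Ineq
  rw [qm, qz, qp]
  generalize decide (R (4 * ζ + K + em)) = b0 at Em0 ⊢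
  generalize decide (R (4 * ζ + K + em + 4 * M)) = b1 at Em1 ⊢
  generalize decide (R (4 * ζ + e0 + 4 * M * 2)) = b2 at Ez2 ⊢
  generalize decide (R (4 * ζ - K + e1 + 4 * M * 3)) = b3 at Ep3 ⊢
  have T0 : (b0) = true → decide (R' (ζ + M * 0)) = true := by
    intro h
    exact Em0 0 (by norm_num) h
  have T4 : (b3) = true → decide (R' (ζ + M * 4)) = true := by
    intro h
    exact Ep3 4 (by norm_num) h
  have T1 : (b0 || b1) = true → decide (R' (ζ + M * 1)) = true := by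
    intro h
    simp only [Bool.or_eq_true] at h
    rcases h with (h | h)
    · exact Em0 1 (by norm_num) h
    · exact Em1 1 (by norm_num) h
  have T2 : (b1 || b2) = true → decide (R' (ζ + M * 2)) = true := by
    intro h
    simp only [Bool.or_eq_true] at h
    rcases h with (h | h)
    · exact Em1 2 (by norm_num) h
    · exact Ez2 2 (by norm_num) h
  have T3 : (b2 || b3) = true → decide (R' (ζ + M * 3)) = true := by
    intro h
    simp only [Bool.or_eq_true] at h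
    rcases h with (h | h)
    · exact Ez2 3 (by norm_num) h
    · exact Ep3 3 (by norm_num) h
  have u0 : g2 14 8 11 (b0) (b3) ≤ G (tab2 K (4 * M) 8 11 14) K (4 * M) R' (ζ) := by
    rw [r0, show ζ + 4 * M = ζ + M * 4 by ring]
    have T0' := T0; rw [show ζ + M * 0 = ζ by ring] at T0'
    exact g2_mono (by norm_num) (by norm_num) (by norm_num) (by norm_num) T0' T4
  have u1 : g1 14 (b0 || b1) ≤ G (tab2 K (4 * M) 8 11 14) K (4 * M) R' (ζ + M * 1) := by
    rw [r1]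
    exact g1_mono (by norm_num) T1
  have u2 : g1 14 (b1 || b2) ≤ G (tab2 K (4 * M) 8 11 14) K (4 * M) R' (ζ + M * 2) := by
    rw [r2]
    exact g1_mono (by norm_num) T2
  have u3 : g1 14 (b2 || b3) ≤ G (tab2 K (4 * M) 8 11 14) K (4 * M) R' (ζ + M * 3) := by
    rw [r3]
    exact g1_mono (by norm_num) T3
  have key : ∀ b0 b1 b2 b3 : Bool, KeyIneq 5 6 4 14 (g2 14 11 8 b0 b1) (g1 14 b2) (g1 14 b3)
      (g2 14 8 11 (b0) (b3) + g1 14 (b0 || b1) + g1 14 (b1 || b2) + g1 14 (b2 || b3)) := by decide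
  have key := key b0 b1 b2 b3
  unfold KeyIneq at key
  refine ⟨by linarith [key.1], fun h h' => ?_⟩
  have := key.2 h h'
  linarith

/-- type (0,) (1,) (2, 3) 5 (('p', 2, True), ('T', 0, False)) -/
lemma wa_leaf3 {K M ζ em e0 e1 : ℤ} {R R' : ℤ → Prop} (hM : 0 < M) (hs : StepRel K M R R')
    (hem : em = 0 ∨ em = 1) (he0 : e0 = 0 ∨ e0 = 1) (he1 : e1 = 0 ∨ e1 = 1)
    (hx1 : -K ≤ 3 * ζ) (hx2 : 3 * (ζ - M) < -K)
    (am1 : -K ≤ 3 * (4 * ζ + K + em))
    (am2 : 3 * (4 * ζ + K + em - 4 * M) < -K)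
    (am3 : 3 * (4 * ζ + K + em) ≤ K + 4 * M - 1)
    (am4 : ¬ 3 * (4 * ζ + K + em + 4 * M) ≤ K + 4 * M - 1)
    (az1 : -K ≤ 3 * (4 * ζ + e0 + 4 * M * 1))
    (az2 : 3 * (4 * ζ + e0 + 4 * M * 1 - 4 * M) < -K)
    (az3 : 3 * (4 * ζ + e0 + 4 * M * 1) ≤ K + 4 * M - 1)
    (az4 : ¬ 3 * (4 * ζ + e0 + 4 * M * 1 + 4 * M) ≤ K + 4 * M - 1)
    (ap1 : -K ≤ 3 * (4 * ζ - K + e1 + 4 * M * 2))
    (ap2 : 3 * (4 * ζ - K + e1 + 4 * M * 2 - 4 * M) < -K)
    (ap3 : 3 * (4 * ζ - K + e1 + 4 * M * 3) ≤ K + 4 * M - 1)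
    (t0 : 3 * (ζ + 4 * M) ≤ K + 4 * M - 1)
    (t1 : ¬ 3 * (ζ + M * 1 + 4 * M) ≤ K + 4 * M - 1)
    (t2 : ¬ 3 * (ζ + M * 2 + 4 * M) ≤ K + 4 * M - 1)
    (t3 : ¬ 3 * (ζ + M * 3 + 4 * M) ≤ K + 4 * M - 1)
    (op2 : 3 * (4 * ζ - K + e1 + 4 * M * 2) < -(4 * M))
    (oT0 : ¬ 3 * (ζ) < -(4 * M)) :
    Ineq 5 6 4 14 (tab2 K (4 * M) 8 11 14) K M R R' ζ em e0 e1 := by
  classical
  have hN : 0 < 4 * M := by linarith
  have qm := G_eq (tab := tab2 K (4 * M) 8 11 14) (K := K) (N := 4 * M) (R := R) (z := 4 * ζ + K + em) (w := 4 * ζ + K + em) hN (by linarith) (by linarith)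
    ⟨0, by ring⟩
  have qz := G_eq (tab := tab2 K (4 * M) 8 11 14) (K := K) (N := 4 * M) (R := R) (z := 4 * ζ + e0) (w := 4 * ζ + e0 + 4 * M * 1) hN (by linarith) (by linarith)
    ⟨1, by ring⟩
  have qp := G_eq (tab := tab2 K (4 * M) 8 11 14) (K := K) (N := 4 * M) (R := R) (z := 4 * ζ - K + e1) (w := 4 * ζ - K + e1 + 4 * M * 2) hN (by linarith) (by linarith)
    ⟨2, by ring⟩
  have r0 := G_eq (tab := tab2 K (4 * M) 8 11 14) (K := K) (N := 4 * M) (R := R') (z := ζ) (w := ζ) hN (by linarith) (by linarith)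
    ⟨0, by ring⟩
  have r1 := G_eq (tab := tab2 K (4 * M) 8 11 14) (K := K) (N := 4 * M) (R := R') (z := ζ + M * 1) (w := ζ + M * 1) hN (by linarith) (by linarith)
    ⟨0, by ring⟩
  have r2 := G_eq (tab := tab2 K (4 * M) 8 11 14) (K := K) (N := 4 * M) (R := R') (z := ζ + M * 2) (w := ζ + M * 2) hN (by linarith) (by linarith)
    ⟨0, by ring⟩
  have r3 := G_eq (tab := tab2 K (4 * M) 8 11 14) (K := K) (N := 4 * M) (R := R') (z := ζ + M * 3) (w := ζ + M * 3) hN (by linarith) (by linarith)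
    ⟨0, by ring⟩
  rw [tab2, if_neg am4] at qm
  rw [tab2, if_neg az4] at qz
  have cp : 3 * (4 * ζ - K + e1 + 4 * M * 2 + 4 * M) ≤ K + 4 * M - 1 := by linarith
  rw [tab2, if_pos cp, if_pos op2] at qp
  rw [tab2, if_pos t0, if_neg oT0] at r0
  rw [tab2, if_neg t1] at r1
  rw [tab2, if_neg t2] at r2
  rw [tab2, if_neg t3] at r3
  have Em0 : ∀ n : ℤ, (n = 0 ∨ n = 0 + 1) → decide (R (4 * ζ + K + em)) = true → decide (R' (ζ + M * n)) = true := by
    intro n hn h
    have h := of_decide_eq_true h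
    rcases hn with rfl | rfl
    · exact decide_eq_true (hs.d0 (a := -1) (e := em) (m := 0) (by simp) (by assumption) (by ring) h rfl)
    · exact decide_eq_true (hs.d1 (a := -1) (e := em) (m := 0) (by simp) (by assumption) (by ring) h rfl)
  have Ez1 : ∀ n : ℤ, (n = 1 ∨ n = 1 + 1) → decide (R (4 * ζ + e0 + 4 * M * 1)) = true → decide (R' (ζ + M * n)) = true := by
    intro n hn h
    have h := of_decide_eq_true h
    rcases hn with rfl | rfl
    · exact decide_eq_true (hs.d0 (a := 0) (e := e0) (m := 1) (by simp) (by assumption) (by ring) h rfl)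
    · exact decide_eq_true (hs.d1 (a := 0) (e := e0) (m := 1) (by simp) (by assumption) (by ring) h rfl)
  have Ep2 : ∀ n : ℤ, (n = 2 ∨ n = 2 + 1) → decide (R (4 * ζ - K + e1 + 4 * M * 2)) = true → decide (R' (ζ + M * n)) = true := by
    intro n hn h
    have h := of_decide_eq_true h
    rcases hn with rfl | rfl
    · exact decide_eq_true (hs.d0 (a := 1) (e := e1) (m := 2) (by simp) (by assumption) (by ring) h rfl)
    · exact decide_eq_true (hs.d1 (a := 1) (e := e1) (m := 2) (by simp) (by assumption) (by ring) h rfl)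
  have Ep3 : ∀ n : ℤ, (n = 3 ∨ n = 3 + 1) → decide (R (4 * ζ - K + e1 + 4 * M * 2 + 4 * M)) = true → decide (R' (ζ + M * n)) = true := by
    intro n hn h
    have h := of_decide_eq_true h
    rcases hn with rfl | rfl
    · exact decide_eq_true (hs.d0 (a := 1) (e := e1) (m := 3) (by simp) (by assumption) (by ring) h rfl)
    · exact decide_eq_true (hs.d1 (a := 1) (e := e1) (m := 3) (by simp) (by assumption) (by ring) h rfl)
  unfold Ineq
  rw [qm, qz, qp]
  generalize decide (R (4 * ζ + K + em)) = b0 at Em0 ⊢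
  generalize decide (R (4 * ζ + e0 + 4 * M * 1)) = b1 at Ez1 ⊢
  generalize decide (R (4 * ζ - K + e1 + 4 * M * 2)) = b2 at Ep2 ⊢
  generalize decide (R (4 * ζ - K + e1 + 4 * M * 2 + 4 * M)) = b3 at Ep3 ⊢
  have T0 : (b0) = true → decide (R' (ζ + M * 0)) = true := by
    intro h
    exact Em0 0 (by norm_num) h
  have T4 : (b3) = true → decide (R' (ζ + M * 4)) = true := by
    intro h
    exact Ep3 4 (by norm_num) h
  have T1 : (b0 || b1) = true → decide (R' (ζ + M * 1)) = true := by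
    intro h
    simp only [Bool.or_eq_true] at h
    rcases h with (h | h)
    · exact Em0 1 (by norm_num) h
    · exact Ez1 1 (by norm_num) h
  have T2 : (b1 || b2) = true → decide (R' (ζ + M * 2)) = true := by
    intro h
    simp only [Bool.or_eq_true] at h
    rcases h with (h | h)
    · exact Ez1 2 (by norm_num) h
    · exact Ep2 2 (by norm_num) h
  have T3 : (b2 || b3) = true → decide (R' (ζ + M * 3)) = true := by
    intro h
    simp only [Bool.or_eq_true] at h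
    rcases h with (h | h)
    · exact Ep2 3 (by norm_num) h
    · exact Ep3 3 (by norm_num) h
  have u0 : g2 14 11 8 (b0) (b3) ≤ G (tab2 K (4 * M) 8 11 14) K (4 * M) R' (ζ) := by
    rw [r0, show ζ + 4 * M = ζ + M * 4 by ring]
    have T0' := T0; rw [show ζ + M * 0 = ζ by ring] at T0'
    exact g2_mono (by norm_num) (by norm_num) (by norm_num) (by norm_num) T0' T4
  have u1 : g1 14 (b0 || b1) ≤ G (tab2 K (4 * M) 8 11 14) K (4 * M) R' (ζ + M * 1) := by
    rw [r1]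
    exact g1_mono (by norm_num) T1
  have u2 : g1 14 (b1 || b2) ≤ G (tab2 K (4 * M) 8 11 14) K (4 * M) R' (ζ + M * 2) := by
    rw [r2]
    exact g1_mono (by norm_num) T2
  have u3 : g1 14 (b2 || b3) ≤ G (tab2 K (4 * M) 8 11 14) K (4 * M) R' (ζ + M * 3) := by
    rw [r3]
    exact g1_mono (by norm_num) T3
  have key : ∀ b0 b1 b2 b3 : Bool, KeyIneq 5 6 4 14 (g1 14 b0) (g1 14 b1) (g2 14 8 11 b2 b3)
      (g2 14 11 8 (b0) (b3) + g1 14 (b0 || b1) + g1 14 (b1 || b2) + g1 14 (b2 || b3)) := by decide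
  have key := key b0 b1 b2 b3
  unfold KeyIneq at key
  refine ⟨by linarith [key.1], fun h h' => ?_⟩
  have := key.2 h h'
  linarith

/-- type (0,) (1,) (2, 3) 5 (('p', 2, False), ('T', 0, False)) -/
lemma wa_leaf4 {K M ζ em e0 e1 : ℤ} {R R' : ℤ → Prop} (hM : 0 < M) (hs : StepRel K M R R')
    (hem : em = 0 ∨ em = 1) (he0 : e0 = 0 ∨ e0 = 1) (he1 : e1 = 0 ∨ e1 = 1)
    (hx1 : -K ≤ 3 * ζ) (hx2 : 3 * (ζ - M) < -K)
    (am1 : -K ≤ 3 * (4 * ζ + K + em))
    (am2 : 3 * (4 * ζ + K + em - 4 * M) < -K)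
    (am3 : 3 * (4 * ζ + K + em) ≤ K + 4 * M - 1)
    (am4 : ¬ 3 * (4 * ζ + K + em + 4 * M) ≤ K + 4 * M - 1)
    (az1 : -K ≤ 3 * (4 * ζ + e0 + 4 * M * 1))
    (az2 : 3 * (4 * ζ + e0 + 4 * M * 1 - 4 * M) < -K)
    (az3 : 3 * (4 * ζ + e0 + 4 * M * 1) ≤ K + 4 * M - 1)
    (az4 : ¬ 3 * (4 * ζ + e0 + 4 * M * 1 + 4 * M) ≤ K + 4 * M - 1)
    (ap1 : -K ≤ 3 * (4 * ζ - K + e1 + 4 * M * 2))
    (ap2 : 3 * (4 * ζ - K + e1 + 4 * M * 2 - 4 * M) < -K)
    (ap3 : 3 * (4 * ζ - K + e1 + 4 * M * 3) ≤ K + 4 * M - 1)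
    (t0 : 3 * (ζ + 4 * M) ≤ K + 4 * M - 1)
    (t1 : ¬ 3 * (ζ + M * 1 + 4 * M) ≤ K + 4 * M - 1)
    (t2 : ¬ 3 * (ζ + M * 2 + 4 * M) ≤ K + 4 * M - 1)
    (t3 : ¬ 3 * (ζ + M * 3 + 4 * M) ≤ K + 4 * M - 1)
    (op2 : ¬ 3 * (4 * ζ - K + e1 + 4 * M * 2) < -(4 * M))
    (oT0 : ¬ 3 * (ζ) < -(4 * M)) :
    Ineq 5 6 4 14 (tab2 K (4 * M) 8 11 14) K M R R' ζ em e0 e1 := by
  classical
  have hN : 0 < 4 * M := by linarith
  have qm := G_eq (tab := tab2 K (4 * M) 8 11 14) (K := K) (N := 4 * M) (R := R) (z := 4 * ζ + K + em) (w := 4 * ζ + K + em) hN (by linarith) (by linarith)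
    ⟨0, by ring⟩
  have qz := G_eq (tab := tab2 K (4 * M) 8 11 14) (K := K) (N := 4 * M) (R := R) (z := 4 * ζ + e0) (w := 4 * ζ + e0 + 4 * M * 1) hN (by linarith) (by linarith)
    ⟨1, by ring⟩
  have qp := G_eq (tab := tab2 K (4 * M) 8 11 14) (K := K) (N := 4 * M) (R := R) (z := 4 * ζ - K + e1) (w := 4 * ζ - K + e1 + 4 * M * 2) hN (by linarith) (by linarith)
    ⟨2, by ring⟩
  have r0 := G_eq (tab := tab2 K (4 * M) 8 11 14) (K := K) (N := 4 * M) (R := R') (z := ζ) (w := ζ) hN (by linarith) (by linarith)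
    ⟨0, by ring⟩
  have r1 := G_eq (tab := tab2 K (4 * M) 8 11 14) (K := K) (N := 4 * M) (R := R') (z := ζ + M * 1) (w := ζ + M * 1) hN (by linarith) (by linarith)
    ⟨0, by ring⟩
  have r2 := G_eq (tab := tab2 K (4 * M) 8 11 14) (K := K) (N := 4 * M) (R := R') (z := ζ + M * 2) (w := ζ + M * 2) hN (by linarith) (by linarith)
    ⟨0, by ring⟩
  have r3 := G_eq (tab := tab2 K (4 * M) 8 11 14) (K := K) (N := 4 * M) (R := R') (z := ζ + M * 3) (w := ζ + M * 3) hN (by linarith) (by linarith)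
    ⟨0, by ring⟩
  rw [tab2, if_neg am4] at qm
  rw [tab2, if_neg az4] at qz
  have cp : 3 * (4 * ζ - K + e1 + 4 * M * 2 + 4 * M) ≤ K + 4 * M - 1 := by linarith
  rw [tab2, if_pos cp, if_neg op2] at qp
  rw [tab2, if_pos t0, if_neg oT0] at r0
  rw [tab2, if_neg t1] at r1
  rw [tab2, if_neg t2] at r2
  rw [tab2, if_neg t3] at r3
  have Em0 : ∀ n : ℤ, (n = 0 ∨ n = 0 + 1) → decide (R (4 * ζ + K + em)) = true → decide (R' (ζ + M * n)) = true := by
    intro n hn h
    have h := of_decide_eq_true h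
    rcases hn with rfl | rfl
    · exact decide_eq_true (hs.d0 (a := -1) (e := em) (m := 0) (by simp) (by assumption) (by ring) h rfl)
    · exact decide_eq_true (hs.d1 (a := -1) (e := em) (m := 0) (by simp) (by assumption) (by ring) h rfl)
  have Ez1 : ∀ n : ℤ, (n = 1 ∨ n = 1 + 1) → decide (R (4 * ζ + e0 + 4 * M * 1)) = true → decide (R' (ζ + M * n)) = true := by
    intro n hn h
    have h := of_decide_eq_true h
    rcases hn with rfl | rfl
    · exact decide_eq_true (hs.d0 (a := 0) (e := e0) (m := 1) (by simp) (by assumption) (by ring) h rfl)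
    · exact decide_eq_true (hs.d1 (a := 0) (e := e0) (m := 1) (by simp) (by assumption) (by ring) h rfl)
  have Ep2 : ∀ n : ℤ, (n = 2 ∨ n = 2 + 1) → decide (R (4 * ζ - K + e1 + 4 * M * 2)) = true → decide (R' (ζ + M * n)) = true := by
    intro n hn h
    have h := of_decide_eq_true h
    rcases hn with rfl | rfl
    · exact decide_eq_true (hs.d0 (a := 1) (e := e1) (m := 2) (by simp) (by assumption) (by ring) h rfl)
    · exact decide_eq_true (hs.d1 (a := 1) (e := e1) (m := 2) (by simp) (by assumption) (by ring) h rfl)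
  have Ep3 : ∀ n : ℤ, (n = 3 ∨ n = 3 + 1) → decide (R (4 * ζ - K + e1 + 4 * M * 2 + 4 * M)) = true → decide (R' (ζ + M * n)) = true := by
    intro n hn h
    have h := of_decide_eq_true h
    rcases hn with rfl | rfl
    · exact decide_eq_true (hs.d0 (a := 1) (e := e1) (m := 3) (by simp) (by assumption) (by ring) h rfl)
    · exact decide_eq_true (hs.d1 (a := 1) (e := e1) (m := 3) (by simp) (by assumption) (by ring) h rfl)
  unfold Ineq
  rw [qm, qz, qp]
  generalize decide (R (4 * ζ + K + em)) = b0 at Em0 ⊢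
  generalize decide (R (4 * ζ + e0 + 4 * M * 1)) = b1 at Ez1 ⊢
  generalize decide (R (4 * ζ - K + e1 + 4 * M * 2)) = b2 at Ep2 ⊢
  generalize decide (R (4 * ζ - K + e1 + 4 * M * 2 + 4 * M)) = b3 at Ep3 ⊢
  have T0 : (b0) = true → decide (R' (ζ + M * 0)) = true := by
    intro h
    exact Em0 0 (by norm_num) h
  have T4 : (b3) = true → decide (R' (ζ + M * 4)) = true := by
    intro h
    exact Ep3 4 (by norm_num) h
  have T1 : (b0 || b1) = true → decide (R' (ζ + M * 1)) = true := by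
    intro h
    simp only [Bool.or_eq_true] at h
    rcases h with (h | h)
    · exact Em0 1 (by norm_num) h
    · exact Ez1 1 (by norm_num) h
  have T2 : (b1 || b2) = true → decide (R' (ζ + M * 2)) = true := by
    intro h
    simp only [Bool.or_eq_true] at h
    rcases h with (h | h)
    · exact Ez1 2 (by norm_num) h
    · exact Ep2 2 (by norm_num) h
  have T3 : (b2 || b3) = true → decide (R' (ζ + M * 3)) = true := by
    intro h
    simp only [Bool.or_eq_true] at h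
    rcases h with (h | h)
    · exact Ep2 3 (by norm_num) h
    · exact Ep3 3 (by norm_num) h
  have u0 : g2 14 11 8 (b0) (b3) ≤ G (tab2 K (4 * M) 8 11 14) K (4 * M) R' (ζ) := by
    rw [r0, show ζ + 4 * M = ζ + M * 4 by ring]
    have T0' := T0; rw [show ζ + M * 0 = ζ by ring] at T0'
    exact g2_mono (by norm_num) (by norm_num) (by norm_num) (by norm_num) T0' T4
  have u1 : g1 14 (b0 || b1) ≤ G (tab2 K (4 * M) 8 11 14) K (4 * M) R' (ζ + M * 1) := by
    rw [r1]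
    exact g1_mono (by norm_num) T1
  have u2 : g1 14 (b1 || b2) ≤ G (tab2 K (4 * M) 8 11 14) K (4 * M) R' (ζ + M * 2) := by
    rw [r2]
    exact g1_mono (by norm_num) T2
  have u3 : g1 14 (b2 || b3) ≤ G (tab2 K (4 * M) 8 11 14) K (4 * M) R' (ζ + M * 3) := by
    rw [r3]
    exact g1_mono (by norm_num) T3
  have key : ∀ b0 b1 b2 b3 : Bool, KeyIneq 5 6 4 14 (g1 14 b0) (g1 14 b1) (g2 14 11 8 b2 b3)
      (g2 14 11 8 (b0) (b3) + g1 14 (b0 || b1) + g1 14 (b1 || b2) + g1 14 (b2 || b3)) := by decide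
  have key := key b0 b1 b2 b3
  unfold KeyIneq at key
  refine ⟨by linarith [key.1], fun h h' => ?_⟩
  have := key.2 h h'
  linarith

/-- type (0,) (2,) (3,) 5 (('T', 0, True),) -/
lemma wa_leaf5 {K M ζ em e0 e1 : ℤ} {R R' : ℤ → Prop} (hM : 0 < M) (hs : StepRel K M R R')
    (hem : em = 0 ∨ em = 1) (he0 : e0 = 0 ∨ e0 = 1) (he1 : e1 = 0 ∨ e1 = 1)
    (hx1 : -K ≤ 3 * ζ) (hx2 : 3 * (ζ - M) < -K)
    (am1 : -K ≤ 3 * (4 * ζ + K + em))
    (am2 : 3 * (4 * ζ + K + em - 4 * M) < -K)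
    (am3 : 3 * (4 * ζ + K + em) ≤ K + 4 * M - 1)
    (am4 : ¬ 3 * (4 * ζ + K + em + 4 * M) ≤ K + 4 * M - 1)
    (az1 : -K ≤ 3 * (4 * ζ + e0 + 4 * M * 2))
    (az2 : 3 * (4 * ζ + e0 + 4 * M * 2 - 4 * M) < -K)
    (az3 : 3 * (4 * ζ + e0 + 4 * M * 2) ≤ K + 4 * M - 1)
    (az4 : ¬ 3 * (4 * ζ + e0 + 4 * M * 2 + 4 * M) ≤ K + 4 * M - 1)
    (ap1 : -K ≤ 3 * (4 * ζ - K + e1 + 4 * M * 3))
    (ap2 : 3 * (4 * ζ - K + e1 + 4 * M * 3 - 4 * M) < -K)
    (ap3 : 3 * (4 * ζ - K + e1 + 4 * M * 3) ≤ K + 4 * M - 1)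
    (ap4 : ¬ 3 * (4 * ζ - K + e1 + 4 * M * 3 + 4 * M) ≤ K + 4 * M - 1)
    (t0 : 3 * (ζ + 4 * M) ≤ K + 4 * M - 1)
    (t1 : ¬ 3 * (ζ + M * 1 + 4 * M) ≤ K + 4 * M - 1)
    (t2 : ¬ 3 * (ζ + M * 2 + 4 * M) ≤ K + 4 * M - 1)
    (t3 : ¬ 3 * (ζ + M * 3 + 4 * M) ≤ K + 4 * M - 1)
    (oT0 : 3 * (ζ) < -(4 * M)) :
    Ineq 5 6 4 14 (tab2 K (4 * M) 8 11 14) K M R R' ζ em e0 e1 := by
  classical
  have hN : 0 < 4 * M := by linarith
  have qm := G_eq (tab := tab2 K (4 * M) 8 11 14) (K := K) (N := 4 * M) (R := R) (z := 4 * ζ + K + em) (w := 4 * ζ + K + em) hN (by linarith) (by linarith)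
    ⟨0, by ring⟩
  have qz := G_eq (tab := tab2 K (4 * M) 8 11 14) (K := K) (N := 4 * M) (R := R) (z := 4 * ζ + e0) (w := 4 * ζ + e0 + 4 * M * 2) hN (by linarith) (by linarith)
    ⟨2, by ring⟩
  have qp := G_eq (tab := tab2 K (4 * M) 8 11 14) (K := K) (N := 4 * M) (R := R) (z := 4 * ζ - K + e1) (w := 4 * ζ - K + e1 + 4 * M * 3) hN (by linarith) (by linarith)
    ⟨3, by ring⟩
  have r0 := G_eq (tab := tab2 K (4 * M) 8 11 14) (K := K) (N := 4 * M) (R := R') (z := ζ) (w := ζ) hN (by linarith) (by linarith)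
    ⟨0, by ring⟩
  have r1 := G_eq (tab := tab2 K (4 * M) 8 11 14) (K := K) (N := 4 * M) (R := R') (z := ζ + M * 1) (w := ζ + M * 1) hN (by linarith) (by linarith)
    ⟨0, by ring⟩
  have r2 := G_eq (tab := tab2 K (4 * M) 8 11 14) (K := K) (N := 4 * M) (R := R') (z := ζ + M * 2) (w := ζ + M * 2) hN (by linarith) (by linarith)
    ⟨0, by ring⟩
  have r3 := G_eq (tab := tab2 K (4 * M) 8 11 14) (K := K) (N := 4 * M) (R := R') (z := ζ + M * 3) (w := ζ + M * 3) hN (by linarith) (by linarith)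
    ⟨0, by ring⟩
  rw [tab2, if_neg am4] at qm
  rw [tab2, if_neg az4] at qz
  rw [tab2, if_neg ap4] at qp
  rw [tab2, if_pos t0, if_pos oT0] at r0
  rw [tab2, if_neg t1] at r1
  rw [tab2, if_neg t2] at r2
  rw [tab2, if_neg t3] at r3
  have Em0 : ∀ n : ℤ, (n = 0 ∨ n = 0 + 1) → decide (R (4 * ζ + K + em)) = true → decide (R' (ζ + M * n)) = true := by
    intro n hn h
    have h := of_decide_eq_true h
    rcases hn with rfl | rfl
    · exact decide_eq_true (hs.d0 (a := -1) (e := em) (m := 0) (by simp) (by assumption) (by ring) h rfl)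
    · exact decide_eq_true (hs.d1 (a := -1) (e := em) (m := 0) (by simp) (by assumption) (by ring) h rfl)
  have Ez2 : ∀ n : ℤ, (n = 2 ∨ n = 2 + 1) → decide (R (4 * ζ + e0 + 4 * M * 2)) = true → decide (R' (ζ + M * n)) = true := by
    intro n hn h
    have h := of_decide_eq_true h
    rcases hn with rfl | rfl
    · exact decide_eq_true (hs.d0 (a := 0) (e := e0) (m := 2) (by simp) (by assumption) (by ring) h rfl)
    · exact decide_eq_true (hs.d1 (a := 0) (e := e0) (m := 2) (by simp) (by assumption) (by ring) h rfl)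
  have Ep3 : ∀ n : ℤ, (n = 3 ∨ n = 3 + 1) → decide (R (4 * ζ - K + e1 + 4 * M * 3)) = true → decide (R' (ζ + M * n)) = true := by
    intro n hn h
    have h := of_decide_eq_true h
    rcases hn with rfl | rfl
    · exact decide_eq_true (hs.d0 (a := 1) (e := e1) (m := 3) (by simp) (by assumption) (by ring) h rfl)
    · exact decide_eq_true (hs.d1 (a := 1) (e := e1) (m := 3) (by simp) (by assumption) (by ring) h rfl)
  unfold Ineq
  rw [qm, qz, qp]
  generalize decide (R (4 * ζ + K + em)) = b0 at Em0 ⊢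
  generalize decide (R (4 * ζ + e0 + 4 * M * 2)) = b1 at Ez2 ⊢
  generalize decide (R (4 * ζ - K + e1 + 4 * M * 3)) = b2 at Ep3 ⊢
  have T0 : (b0) = true → decide (R' (ζ + M * 0)) = true := by
    intro h
    exact Em0 0 (by norm_num) h
  have T4 : (b2) = true → decide (R' (ζ + M * 4)) = true := by
    intro h
    exact Ep3 4 (by norm_num) h
  have T1 : (b0) = true → decide (R' (ζ + M * 1)) = true := by
    intro h
    exact Em0 1 (by norm_num) h
  have T2 : (b1) = true → decide (R' (ζ + M * 2)) = true := by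
    intro h
    exact Ez2 2 (by norm_num) h
  have T3 : (b1 || b2) = true → decide (R' (ζ + M * 3)) = true := by
    intro h
    simp only [Bool.or_eq_true] at h
    rcases h with (h | h)
    · exact Ez2 3 (by norm_num) h
    · exact Ep3 3 (by norm_num) h
  have u0 : g2 14 8 11 (b0) (b2) ≤ G (tab2 K (4 * M) 8 11 14) K (4 * M) R' (ζ) := by
    rw [r0, show ζ + 4 * M = ζ + M * 4 by ring]
    have T0' := T0; rw [show ζ + M * 0 = ζ by ring] at T0'
    exact g2_mono (by norm_num) (by norm_num) (by norm_num) (by norm_num) T0' T4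
  have u1 : g1 14 (b0) ≤ G (tab2 K (4 * M) 8 11 14) K (4 * M) R' (ζ + M * 1) := by
    rw [r1]
    exact g1_mono (by norm_num) T1
  have u2 : g1 14 (b1) ≤ G (tab2 K (4 * M) 8 11 14) K (4 * M) R' (ζ + M * 2) := by
    rw [r2]
    exact g1_mono (by norm_num) T2
  have u3 : g1 14 (b1 || b2) ≤ G (tab2 K (4 * M) 8 11 14) K (4 * M) R' (ζ + M * 3) := by
    rw [r3]
    exact g1_mono (by norm_num) T3
  have key : ∀ b0 b1 b2 : Bool, KeyIneq 5 6 4 14 (g1 14 b0) (g1 14 b1) (g1 14 b2)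
      (g2 14 8 11 (b0) (b2) + g1 14 (b0) + g1 14 (b1) + g1 14 (b1 || b2)) := by decide
  have key := key b0 b1 b2
  unfold KeyIneq at key
  refine ⟨by linarith [key.1], fun h h' => ?_⟩
  have := key.2 h h'
  linarith

/-- type (0,) (1,) (3,) 5 (('T', 0, False),) -/
lemma wa_leaf6 {K M ζ em e0 e1 : ℤ} {R R' : ℤ → Prop} (hM : 0 < M) (hs : StepRel K M R R')
    (hem : em = 0 ∨ em = 1) (he0 : e0 = 0 ∨ e0 = 1) (he1 : e1 = 0 ∨ e1 = 1)
    (hx1 : -K ≤ 3 * ζ) (hx2 : 3 * (ζ - M) < -K)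
    (am1 : -K ≤ 3 * (4 * ζ + K + em))
    (am2 : 3 * (4 * ζ + K + em - 4 * M) < -K)
    (am3 : 3 * (4 * ζ + K + em) ≤ K + 4 * M - 1)
    (am4 : ¬ 3 * (4 * ζ + K + em + 4 * M) ≤ K + 4 * M - 1)
    (az1 : -K ≤ 3 * (4 * ζ + e0 + 4 * M * 1))
    (az2 : 3 * (4 * ζ + e0 + 4 * M * 1 - 4 * M) < -K)
    (az3 : 3 * (4 * ζ + e0 + 4 * M * 1) ≤ K + 4 * M - 1)
    (az4 : ¬ 3 * (4 * ζ + e0 + 4 * M * 1 + 4 * M) ≤ K + 4 * M - 1)
    (ap1 : -K ≤ 3 * (4 * ζ - K + e1 + 4 * M * 3))
    (ap2 : 3 * (4 * ζ - K + e1 + 4 * M * 3 - 4 * M) < -K)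
    (ap3 : 3 * (4 * ζ - K + e1 + 4 * M * 3) ≤ K + 4 * M - 1)
    (ap4 : ¬ 3 * (4 * ζ - K + e1 + 4 * M * 3 + 4 * M) ≤ K + 4 * M - 1)
    (t0 : 3 * (ζ + 4 * M) ≤ K + 4 * M - 1)
    (t1 : ¬ 3 * (ζ + M * 1 + 4 * M) ≤ K + 4 * M - 1)
    (t2 : ¬ 3 * (ζ + M * 2 + 4 * M) ≤ K + 4 * M - 1)
    (t3 : ¬ 3 * (ζ + M * 3 + 4 * M) ≤ K + 4 * M - 1)
    (oT0 : ¬ 3 * (ζ) < -(4 * M)) :
    Ineq 5 6 4 14 (tab2 K (4 * M) 8 11 14) K M R R' ζ em e0 e1 := by
  classical
  have hN : 0 < 4 * M := by linarith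
  have qm := G_eq (tab := tab2 K (4 * M) 8 11 14) (K := K) (N := 4 * M) (R := R) (z := 4 * ζ + K + em) (w := 4 * ζ + K + em) hN (by linarith) (by linarith)
    ⟨0, by ring⟩
  have qz := G_eq (tab := tab2 K (4 * M) 8 11 14) (K := K) (N := 4 * M) (R := R) (z := 4 * ζ + e0) (w := 4 * ζ + e0 + 4 * M * 1) hN (by linarith) (by linarith)
    ⟨1, by ring⟩
  have qp := G_eq (tab := tab2 K (4 * M) 8 11 14) (K := K) (N := 4 * M) (R := R) (z := 4 * ζ - K + e1) (w := 4 * ζ - K + e1 + 4 * M * 3) hN (by linarith) (by linarith)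
    ⟨3, by ring⟩
  have r0 := G_eq (tab := tab2 K (4 * M) 8 11 14) (K := K) (N := 4 * M) (R := R') (z := ζ) (w := ζ) hN (by linarith) (by linarith)
    ⟨0, by ring⟩
  have r1 := G_eq (tab := tab2 K (4 * M) 8 11 14) (K := K) (N := 4 * M) (R := R') (z := ζ + M * 1) (w := ζ + M * 1) hN (by linarith) (by linarith)
    ⟨0, by ring⟩
  have r2 := G_eq (tab := tab2 K (4 * M) 8 11 14) (K := K) (N := 4 * M) (R := R') (z := ζ + M * 2) (w := ζ + M * 2) hN (by linarith) (by linarith)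
    ⟨0, by ring⟩
  have r3 := G_eq (tab := tab2 K (4 * M) 8 11 14) (K := K) (N := 4 * M) (R := R') (z := ζ + M * 3) (w := ζ + M * 3) hN (by linarith) (by linarith)
    ⟨0, by ring⟩
  rw [tab2, if_neg am4] at qm
  rw [tab2, if_neg az4] at qz
  rw [tab2, if_neg ap4] at qp
  rw [tab2, if_pos t0, if_neg oT0] at r0
  rw [tab2, if_neg t1] at r1
  rw [tab2, if_neg t2] at r2
  rw [tab2, if_neg t3] at r3
  have Em0 : ∀ n : ℤ, (n = 0 ∨ n = 0 + 1) → decide (R (4 * ζ + K + em)) = true → decide (R' (ζ + M * n)) = true := by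
    intro n hn h
    have h := of_decide_eq_true h
    rcases hn with rfl | rfl
    · exact decide_eq_true (hs.d0 (a := -1) (e := em) (m := 0) (by simp) (by assumption) (by ring) h rfl)
    · exact decide_eq_true (hs.d1 (a := -1) (e := em) (m := 0) (by simp) (by assumption) (by ring) h rfl)
  have Ez1 : ∀ n : ℤ, (n = 1 ∨ n = 1 + 1) → decide (R (4 * ζ + e0 + 4 * M * 1)) = true → decide (R' (ζ + M * n)) = true := by
    intro n hn h
    have h := of_decide_eq_true h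
    rcases hn with rfl | rfl
    · exact decide_eq_true (hs.d0 (a := 0) (e := e0) (m := 1) (by simp) (by assumption) (by ring) h rfl)
    · exact decide_eq_true (hs.d1 (a := 0) (e := e0) (m := 1) (by simp) (by assumption) (by ring) h rfl)
  have Ep3 : ∀ n : ℤ, (n = 3 ∨ n = 3 + 1) → decide (R (4 * ζ - K + e1 + 4 * M * 3)) = true → decide (R' (ζ + M * n)) = true := by
    intro n hn h
    have h := of_decide_eq_true h
    rcases hn with rfl | rfl
    · exact decide_eq_true (hs.d0 (a := 1) (e := e1) (m := 3) (by simp) (by assumption) (by ring) h rfl)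
    · exact decide_eq_true (hs.d1 (a := 1) (e := e1) (m := 3) (by simp) (by assumption) (by ring) h rfl)
  unfold Ineq
  rw [qm, qz, qp]
  generalize decide (R (4 * ζ + K + em)) = b0 at Em0 ⊢
  generalize decide (R (4 * ζ + e0 + 4 * M * 1)) = b1 at Ez1 ⊢
  generalize decide (R (4 * ζ - K + e1 + 4 * M * 3)) = b2 at Ep3 ⊢
  have T0 : (b0) = true → decide (R' (ζ + M * 0)) = true := by
    intro h
    exact Em0 0 (by norm_num) h
  have T4 : (b2) = true → decide (R' (ζ + M * 4)) = true := by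
    intro h
    exact Ep3 4 (by norm_num) h
  have T1 : (b0 || b1) = true → decide (R' (ζ + M * 1)) = true := by
    intro h
    simp only [Bool.or_eq_true] at h
    rcases h with (h | h)
    · exact Em0 1 (by norm_num) h
    · exact Ez1 1 (by norm_num) h
  have T2 : (b1) = true → decide (R' (ζ + M * 2)) = true := by
    intro h
    exact Ez1 2 (by norm_num) h
  have T3 : (b2) = true → decide (R' (ζ + M * 3)) = true := by
    intro h
    exact Ep3 3 (by norm_num) h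
  have u0 : g2 14 11 8 (b0) (b2) ≤ G (tab2 K (4 * M) 8 11 14) K (4 * M) R' (ζ) := by
    rw [r0, show ζ + 4 * M = ζ + M * 4 by ring]
    have T0' := T0; rw [show ζ + M * 0 = ζ by ring] at T0'
    exact g2_mono (by norm_num) (by norm_num) (by norm_num) (by norm_num) T0' T4
  have u1 : g1 14 (b0 || b1) ≤ G (tab2 K (4 * M) 8 11 14) K (4 * M) R' (ζ + M * 1) := by
    rw [r1]
    exact g1_mono (by norm_num) T1
  have u2 : g1 14 (b1) ≤ G (tab2 K (4 * M) 8 11 14) K (4 * M) R' (ζ + M * 2) := by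
    rw [r2]
    exact g1_mono (by norm_num) T2
  have u3 : g1 14 (b2) ≤ G (tab2 K (4 * M) 8 11 14) K (4 * M) R' (ζ + M * 3) := by
    rw [r3]
    exact g1_mono (by norm_num) T3
  have key : ∀ b0 b1 b2 : Bool, KeyIneq 5 6 4 14 (g1 14 b0) (g1 14 b1) (g1 14 b2)
      (g2 14 11 8 (b0) (b2) + g1 14 (b0 || b1) + g1 14 (b1) + g1 14 (b2)) := by decide
  have key := key b0 b1 b2
  unfold KeyIneq at key
  refine ⟨by linarith [key.1], fun h h' => ?_⟩
  have := key.2 h h'
  linarith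

/-- type (0,) (1, 2) (3,) 5 (('z', 1, True), ('T', 0, True)) -/
lemma wa_leaf7 {K M ζ em e0 e1 : ℤ} {R R' : ℤ → Prop} (hM : 0 < M) (hs : StepRel K M R R')
    (hem : em = 0 ∨ em = 1) (he0 : e0 = 0 ∨ e0 = 1) (he1 : e1 = 0 ∨ e1 = 1)
    (hx1 : -K ≤ 3 * ζ) (hx2 : 3 * (ζ - M) < -K)
    (am1 : -K ≤ 3 * (4 * ζ + K + em))
    (am2 : 3 * (4 * ζ + K + em - 4 * M) < -K)
    (am3 : 3 * (4 * ζ + K + em) ≤ K + 4 * M - 1)
    (am4 : ¬ 3 * (4 * ζ + K + em + 4 * M) ≤ K + 4 * M - 1)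
    (az1 : -K ≤ 3 * (4 * ζ + e0 + 4 * M * 1))
    (az2 : 3 * (4 * ζ + e0 + 4 * M * 1 - 4 * M) < -K)
    (az3 : 3 * (4 * ζ + e0 + 4 * M * 2) ≤ K + 4 * M - 1)
    (ap1 : -K ≤ 3 * (4 * ζ - K + e1 + 4 * M * 3))
    (ap2 : 3 * (4 * ζ - K + e1 + 4 * M * 3 - 4 * M) < -K)
    (ap3 : 3 * (4 * ζ - K + e1 + 4 * M * 3) ≤ K + 4 * M - 1)
    (ap4 : ¬ 3 * (4 * ζ - K + e1 + 4 * M * 3 + 4 * M) ≤ K + 4 * M - 1)
    (t0 : 3 * (ζ + 4 * M) ≤ K + 4 * M - 1)
    (t1 : ¬ 3 * (ζ + M * 1 + 4 * M) ≤ K + 4 * M - 1)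
    (t2 : ¬ 3 * (ζ + M * 2 + 4 * M) ≤ K + 4 * M - 1)
    (t3 : ¬ 3 * (ζ + M * 3 + 4 * M) ≤ K + 4 * M - 1)
    (oz1 : 3 * (4 * ζ + e0 + 4 * M * 1) < -(4 * M))
    (oT0 : 3 * (ζ) < -(4 * M)) :
    Ineq 5 6 4 14 (tab2 K (4 * M) 8 11 14) K M R R' ζ em e0 e1 := by
  classical
  have hN : 0 < 4 * M := by linarith
  have qm := G_eq (tab := tab2 K (4 * M) 8 11 14) (K := K) (N := 4 * M) (R := R) (z := 4 * ζ + K + em) (w := 4 * ζ + K + em) hN (by linarith) (by linarith)
    ⟨0, by ring⟩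
  have qz := G_eq (tab := tab2 K (4 * M) 8 11 14) (K := K) (N := 4 * M) (R := R) (z := 4 * ζ + e0) (w := 4 * ζ + e0 + 4 * M * 1) hN (by linarith) (by linarith)
    ⟨1, by ring⟩
  have qp := G_eq (tab := tab2 K (4 * M) 8 11 14) (K := K) (N := 4 * M) (R := R) (z := 4 * ζ - K + e1) (w := 4 * ζ - K + e1 + 4 * M * 3) hN (by linarith) (by linarith)
    ⟨3, by ring⟩
  have r0 := G_eq (tab := tab2 K (4 * M) 8 11 14) (K := K) (N := 4 * M) (R := R') (z := ζ) (w := ζ) hN (by linarith) (by linarith)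
    ⟨0, by ring⟩
  have r1 := G_eq (tab := tab2 K (4 * M) 8 11 14) (K := K) (N := 4 * M) (R := R') (z := ζ + M * 1) (w := ζ + M * 1) hN (by linarith) (by linarith)
    ⟨0, by ring⟩
  have r2 := G_eq (tab := tab2 K (4 * M) 8 11 14) (K := K) (N := 4 * M) (R := R') (z := ζ + M * 2) (w := ζ + M * 2) hN (by linarith) (by linarith)
    ⟨0, by ring⟩
  have r3 := G_eq (tab := tab2 K (4 * M) 8 11 14) (K := K) (N := 4 * M) (R := R') (z := ζ + M * 3) (w := ζ + M * 3) hN (by linarith) (by linarith)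
    ⟨0, by ring⟩
  rw [tab2, if_neg am4] at qm
  have cz : 3 * (4 * ζ + e0 + 4 * M * 1 + 4 * M) ≤ K + 4 * M - 1 := by linarith
  rw [tab2, if_pos cz, if_pos oz1] at qz
  rw [tab2, if_neg ap4] at qp
  rw [tab2, if_pos t0, if_pos oT0] at r0
  rw [tab2, if_neg t1] at r1
  rw [tab2, if_neg t2] at r2
  rw [tab2, if_neg t3] at r3
  have Em0 : ∀ n : ℤ, (n = 0 ∨ n = 0 + 1) → decide (R (4 * ζ + K + em)) = true → decide (R' (ζ + M * n)) = true := by
    intro n hn h
    have h := of_decide_eq_true h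
    rcases hn with rfl | rfl
    · exact decide_eq_true (hs.d0 (a := -1) (e := em) (m := 0) (by simp) (by assumption) (by ring) h rfl)
    · exact decide_eq_true (hs.d1 (a := -1) (e := em) (m := 0) (by simp) (by assumption) (by ring) h rfl)
  have Ez1 : ∀ n : ℤ, (n = 1 ∨ n = 1 + 1) → decide (R (4 * ζ + e0 + 4 * M * 1)) = true → decide (R' (ζ + M * n)) = true := by
    intro n hn h
    have h := of_decide_eq_true h
    rcases hn with rfl | rfl
    · exact decide_eq_true (hs.d0 (a := 0) (e := e0) (m := 1) (by simp) (by assumption) (by ring) h rfl)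
    · exact decide_eq_true (hs.d1 (a := 0) (e := e0) (m := 1) (by simp) (by assumption) (by ring) h rfl)
  have Ez2 : ∀ n : ℤ, (n = 2 ∨ n = 2 + 1) → decide (R (4 * ζ + e0 + 4 * M * 1 + 4 * M)) = true → decide (R' (ζ + M * n)) = true := by
    intro n hn h
    have h := of_decide_eq_true h
    rcases hn with rfl | rfl
    · exact decide_eq_true (hs.d0 (a := 0) (e := e0) (m := 2) (by simp) (by assumption) (by ring) h rfl)
    · exact decide_eq_true (hs.d1 (a := 0) (e := e0) (m := 2) (by simp) (by assumption) (by ring) h rfl)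
  have Ep3 : ∀ n : ℤ, (n = 3 ∨ n = 3 + 1) → decide (R (4 * ζ - K + e1 + 4 * M * 3)) = true → decide (R' (ζ + M * n)) = true := by
    intro n hn h
    have h := of_decide_eq_true h
    rcases hn with rfl | rfl
    · exact decide_eq_true (hs.d0 (a := 1) (e := e1) (m := 3) (by simp) (by assumption) (by ring) h rfl)
    · exact decide_eq_true (hs.d1 (a := 1) (e := e1) (m := 3) (by simp) (by assumption) (by ring) h rfl)
  unfold Ineq
  rw [qm, qz, qp]
  generalize decide (R (4 * ζ + K + em)) = b0 at Em0 ⊢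
  generalize decide (R (4 * ζ + e0 + 4 * M * 1)) = b1 at Ez1 ⊢
  generalize decide (R (4 * ζ + e0 + 4 * M * 1 + 4 * M)) = b2 at Ez2 ⊢
  generalize decide (R (4 * ζ - K + e1 + 4 * M * 3)) = b3 at Ep3 ⊢
  have T0 : (b0) = true → decide (R' (ζ + M * 0)) = true := by
    intro h
    exact Em0 0 (by norm_num) h
  have T4 : (b3) = true → decide (R' (ζ + M * 4)) = true := by
    intro h
    exact Ep3 4 (by norm_num) h
  have T1 : (b0 || b1) = true → decide (R' (ζ + M * 1)) = true := by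
    intro h
    simp only [Bool.or_eq_true] at h
    rcases h with (h | h)
    · exact Em0 1 (by norm_num) h
    · exact Ez1 1 (by norm_num) h
  have T2 : (b1 || b2) = true → decide (R' (ζ + M * 2)) = true := by
    intro h
    simp only [Bool.or_eq_true] at h
    rcases h with (h | h)
    · exact Ez1 2 (by norm_num) h
    · exact Ez2 2 (by norm_num) h
  have T3 : (b2 || b3) = true → decide (R' (ζ + M * 3)) = true := by
    intro h
    simp only [Bool.or_eq_true] at h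
    rcases h with (h | h)
    · exact Ez2 3 (by norm_num) h
    · exact Ep3 3 (by norm_num) h
  have u0 : g2 14 8 11 (b0) (b3) ≤ G (tab2 K (4 * M) 8 11 14) K (4 * M) R' (ζ) := by
    rw [r0, show ζ + 4 * M = ζ + M * 4 by ring]
    have T0' := T0; rw [show ζ + M * 0 = ζ by ring] at T0'
    exact g2_mono (by norm_num) (by norm_num) (by norm_num) (by norm_num) T0' T4
  have u1 : g1 14 (b0 || b1) ≤ G (tab2 K (4 * M) 8 11 14) K (4 * M) R' (ζ + M * 1) := by
    rw [r1]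
    exact g1_mono (by norm_num) T1
  have u2 : g1 14 (b1 || b2) ≤ G (tab2 K (4 * M) 8 11 14) K (4 * M) R' (ζ + M * 2) := by
    rw [r2]
    exact g1_mono (by norm_num) T2
  have u3 : g1 14 (b2 || b3) ≤ G (tab2 K (4 * M) 8 11 14) K (4 * M) R' (ζ + M * 3) := by
    rw [r3]
    exact g1_mono (by norm_num) T3
  have key : ∀ b0 b1 b2 b3 : Bool, KeyIneq 5 6 4 14 (g1 14 b0) (g2 14 8 11 b1 b2) (g1 14 b3)
      (g2 14 8 11 (b0) (b3) + g1 14 (b0 || b1) + g1 14 (b1 || b2) + g1 14 (b2 || b3)) := by decide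
  have key := key b0 b1 b2 b3
  unfold KeyIneq at key
  refine ⟨by linarith [key.1], fun h h' => ?_⟩
  have := key.2 h h'
  linarith

/-- type (0,) (1, 2) (3,) 5 (('z', 1, False), ('T', 0, False)) -/
lemma wa_leaf8 {K M ζ em e0 e1 : ℤ} {R R' : ℤ → Prop} (hM : 0 < M) (hs : StepRel K M R R')
    (hem : em = 0 ∨ em = 1) (he0 : e0 = 0 ∨ e0 = 1) (he1 : e1 = 0 ∨ e1 = 1)
    (hx1 : -K ≤ 3 * ζ) (hx2 : 3 * (ζ - M) < -K)
    (am1 : -K ≤ 3 * (4 * ζ + K + em))
    (am2 : 3 * (4 * ζ + K + em - 4 * M) < -K)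
    (am3 : 3 * (4 * ζ + K + em) ≤ K + 4 * M - 1)
    (am4 : ¬ 3 * (4 * ζ + K + em + 4 * M) ≤ K + 4 * M - 1)
    (az1 : -K ≤ 3 * (4 * ζ + e0 + 4 * M * 1))
    (az2 : 3 * (4 * ζ + e0 + 4 * M * 1 - 4 * M) < -K)
    (az3 : 3 * (4 * ζ + e0 + 4 * M * 2) ≤ K + 4 * M - 1)
    (ap1 : -K ≤ 3 * (4 * ζ - K + e1 + 4 * M * 3))
    (ap2 : 3 * (4 * ζ - K + e1 + 4 * M * 3 - 4 * M) < -K)
    (ap3 : 3 * (4 * ζ - K + e1 + 4 * M * 3) ≤ K + 4 * M - 1)
    (ap4 : ¬ 3 * (4 * ζ - K + e1 + 4 * M * 3 + 4 * M) ≤ K + 4 * M - 1)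
    (t0 : 3 * (ζ + 4 * M) ≤ K + 4 * M - 1)
    (t1 : ¬ 3 * (ζ + M * 1 + 4 * M) ≤ K + 4 * M - 1)
    (t2 : ¬ 3 * (ζ + M * 2 + 4 * M) ≤ K + 4 * M - 1)
    (t3 : ¬ 3 * (ζ + M * 3 + 4 * M) ≤ K + 4 * M - 1)
    (oz1 : ¬ 3 * (4 * ζ + e0 + 4 * M * 1) < -(4 * M))
    (oT0 : ¬ 3 * (ζ) < -(4 * M)) :
    Ineq 5 6 4 14 (tab2 K (4 * M) 8 11 14) K M R R' ζ em e0 e1 := by
  classical
  have hN : 0 < 4 * M := by linarith
  have qm := G_eq (tab := tab2 K (4 * M) 8 11 14) (K := K) (N := 4 * M) (R := R) (z := 4 * ζ + K + em) (w := 4 * ζ + K + em) hN (by linarith) (by linarith)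
    ⟨0, by ring⟩
  have qz := G_eq (tab := tab2 K (4 * M) 8 11 14) (K := K) (N := 4 * M) (R := R) (z := 4 * ζ + e0) (w := 4 * ζ + e0 + 4 * M * 1) hN (by linarith) (by linarith)
    ⟨1, by ring⟩
  have qp := G_eq (tab := tab2 K (4 * M) 8 11 14) (K := K) (N := 4 * M) (R := R) (z := 4 * ζ - K + e1) (w := 4 * ζ - K + e1 + 4 * M * 3) hN (by linarith) (by linarith)
    ⟨3, by ring⟩
  have r0 := G_eq (tab := tab2 K (4 * M) 8 11 14) (K := K) (N := 4 * M) (R := R') (z := ζ) (w := ζ) hN (by linarith) (by linarith)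
    ⟨0, by ring⟩
  have r1 := G_eq (tab := tab2 K (4 * M) 8 11 14) (K := K) (N := 4 * M) (R := R') (z := ζ + M * 1) (w := ζ + M * 1) hN (by linarith) (by linarith)
    ⟨0, by ring⟩
  have r2 := G_eq (tab := tab2 K (4 * M) 8 11 14) (K := K) (N := 4 * M) (R := R') (z := ζ + M * 2) (w := ζ + M * 2) hN (by linarith) (by linarith)
    ⟨0, by ring⟩
  have r3 := G_eq (tab := tab2 K (4 * M) 8 11 14) (K := K) (N := 4 * M) (R := R') (z := ζ + M * 3) (w := ζ + M * 3) hN (by linarith) (by linarith)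
    ⟨0, by ring⟩
  rw [tab2, if_neg am4] at qm
  have cz : 3 * (4 * ζ + e0 + 4 * M * 1 + 4 * M) ≤ K + 4 * M - 1 := by linarith
  rw [tab2, if_pos cz, if_neg oz1] at qz
  rw [tab2, if_neg ap4] at qp
  rw [tab2, if_pos t0, if_neg oT0] at r0
  rw [tab2, if_neg t1] at r1
  rw [tab2, if_neg t2] at r2
  rw [tab2, if_neg t3] at r3
  have Em0 : ∀ n : ℤ, (n = 0 ∨ n = 0 + 1) → decide (R (4 * ζ + K + em)) = true → decide (R' (ζ + M * n)) = true := by
    intro n hn h
    have h := of_decide_eq_true h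
    rcases hn with rfl | rfl
    · exact decide_eq_true (hs.d0 (a := -1) (e := em) (m := 0) (by simp) (by assumption) (by ring) h rfl)
    · exact decide_eq_true (hs.d1 (a := -1) (e := em) (m := 0) (by simp) (by assumption) (by ring) h rfl)
  have Ez1 : ∀ n : ℤ, (n = 1 ∨ n = 1 + 1) → decide (R (4 * ζ + e0 + 4 * M * 1)) = true → decide (R' (ζ + M * n)) = true := by
    intro n hn h
    have h := of_decide_eq_true h
    rcases hn with rfl | rfl
    · exact decide_eq_true (hs.d0 (a := 0) (e := e0) (m := 1) (by simp) (by assumption) (by ring) h rfl)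
    · exact decide_eq_true (hs.d1 (a := 0) (e := e0) (m := 1) (by simp) (by assumption) (by ring) h rfl)
  have Ez2 : ∀ n : ℤ, (n = 2 ∨ n = 2 + 1) → decide (R (4 * ζ + e0 + 4 * M * 1 + 4 * M)) = true → decide (R' (ζ + M * n)) = true := by
    intro n hn h
    have h := of_decide_eq_true h
    rcases hn with rfl | rfl
    · exact decide_eq_true (hs.d0 (a := 0) (e := e0) (m := 2) (by simp) (by assumption) (by ring) h rfl)
    · exact decide_eq_true (hs.d1 (a := 0) (e := e0) (m := 2) (by simp) (by assumption) (by ring) h rfl)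
  have Ep3 : ∀ n : ℤ, (n = 3 ∨ n = 3 + 1) → decide (R (4 * ζ - K + e1 + 4 * M * 3)) = true → decide (R' (ζ + M * n)) = true := by
    intro n hn h
    have h := of_decide_eq_true h
    rcases hn with rfl | rfl
    · exact decide_eq_true (hs.d0 (a := 1) (e := e1) (m := 3) (by simp) (by assumption) (by ring) h rfl)
    · exact decide_eq_true (hs.d1 (a := 1) (e := e1) (m := 3) (by simp) (by assumption) (by ring) h rfl)
  unfold Ineq
  rw [qm, qz, qp]
  generalize decide (R (4 * ζ + K + em)) = b0 at Em0 ⊢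
  generalize decide (R (4 * ζ + e0 + 4 * M * 1)) = b1 at Ez1 ⊢
  generalize decide (R (4 * ζ + e0 + 4 * M * 1 + 4 * M)) = b2 at Ez2 ⊢
  generalize decide (R (4 * ζ - K + e1 + 4 * M * 3)) = b3 at Ep3 ⊢
  have T0 : (b0) = true → decide (R' (ζ + M * 0)) = true := by
    intro h
    exact Em0 0 (by norm_num) h
  have T4 : (b3) = true → decide (R' (ζ + M * 4)) = true := by
    intro h
    exact Ep3 4 (by norm_num) h
  have T1 : (b0 || b1) = true → decide (R' (ζ + M * 1)) = true := by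
    intro h
    simp only [Bool.or_eq_true] at h
    rcases h with (h | h)
    · exact Em0 1 (by norm_num) h
    · exact Ez1 1 (by norm_num) h
  have T2 : (b1 || b2) = true → decide (R' (ζ + M * 2)) = true := by
    intro h
    simp only [Bool.or_eq_true] at h
    rcases h with (h | h)
    · exact Ez1 2 (by norm_num) h
    · exact Ez2 2 (by norm_num) h
  have T3 : (b2 || b3) = true → decide (R' (ζ + M * 3)) = true := by
    intro h
    simp only [Bool.or_eq_true] at h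
    rcases h with (h | h)
    · exact Ez2 3 (by norm_num) h
    · exact Ep3 3 (by norm_num) h
  have u0 : g2 14 11 8 (b0) (b3) ≤ G (tab2 K (4 * M) 8 11 14) K (4 * M) R' (ζ) := by
    rw [r0, show ζ + 4 * M = ζ + M * 4 by ring]
    have T0' := T0; rw [show ζ + M * 0 = ζ by ring] at T0'
    exact g2_mono (by norm_num) (by norm_num) (by norm_num) (by norm_num) T0' T4
  have u1 : g1 14 (b0 || b1) ≤ G (tab2 K (4 * M) 8 11 14) K (4 * M) R' (ζ + M * 1) := by
    rw [r1]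
    exact g1_mono (by norm_num) T1
  have u2 : g1 14 (b1 || b2) ≤ G (tab2 K (4 * M) 8 11 14) K (4 * M) R' (ζ + M * 2) := by
    rw [r2]
    exact g1_mono (by norm_num) T2
  have u3 : g1 14 (b2 || b3) ≤ G (tab2 K (4 * M) 8 11 14) K (4 * M) R' (ζ + M * 3) := by
    rw [r3]
    exact g1_mono (by norm_num) T3
  have key : ∀ b0 b1 b2 b3 : Bool, KeyIneq 5 6 4 14 (g1 14 b0) (g2 14 11 8 b1 b2) (g1 14 b3)
      (g2 14 11 8 (b0) (b3) + g1 14 (b0 || b1) + g1 14 (b1 || b2) + g1 14 (b2 || b3)) := by decide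
  have key := key b0 b1 b2 b3
  unfold KeyIneq at key
  refine ⟨by linarith [key.1], fun h h' => ?_⟩
  have := key.2 h h'
  linarith

/-- type (0, 1) (2,) (3, 4) 6 (('m', 0, True), ('p', 3, True), ('T', 0, True), ('T', 1, False)) -/
lemma wa_leaf9 {K M ζ em e0 e1 : ℤ} {R R' : ℤ → Prop} (hM : 0 < M) (hs : StepRel K M R R')
    (hem : em = 0 ∨ em = 1) (he0 : e0 = 0 ∨ e0 = 1) (he1 : e1 = 0 ∨ e1 = 1)
    (hx1 : -K ≤ 3 * ζ) (hx2 : 3 * (ζ - M) < -K)
    (am1 : -K ≤ 3 * (4 * ζ + K + em))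
    (am2 : 3 * (4 * ζ + K + em - 4 * M) < -K)
    (am3 : 3 * (4 * ζ + K + em + 4 * M * 1) ≤ K + 4 * M - 1)
    (az1 : -K ≤ 3 * (4 * ζ + e0 + 4 * M * 2))
    (az2 : 3 * (4 * ζ + e0 + 4 * M * 2 - 4 * M) < -K)
    (az3 : 3 * (4 * ζ + e0 + 4 * M * 2) ≤ K + 4 * M - 1)
    (az4 : ¬ 3 * (4 * ζ + e0 + 4 * M * 2 + 4 * M) ≤ K + 4 * M - 1)
    (ap1 : -K ≤ 3 * (4 * ζ - K + e1 + 4 * M * 3))
    (ap2 : 3 * (4 * ζ - K + e1 + 4 * M * 3 - 4 * M) < -K)
    (ap3 : 3 * (4 * ζ - K + e1 + 4 * M * 4) ≤ K + 4 * M - 1)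
    (t0 : 3 * (ζ + 4 * M) ≤ K + 4 * M - 1)
    (t1 : 3 * (ζ + M * 1 + 4 * M) ≤ K + 4 * M - 1)
    (t2 : ¬ 3 * (ζ + M * 2 + 4 * M) ≤ K + 4 * M - 1)
    (t3 : ¬ 3 * (ζ + M * 3 + 4 * M) ≤ K + 4 * M - 1)
    (om0 : 3 * (4 * ζ + K + em) < -(4 * M))
    (op3 : 3 * (4 * ζ - K + e1 + 4 * M * 3) < -(4 * M))
    (oT0 : 3 * (ζ) < -(4 * M))
    (oT1 : ¬ 3 * (ζ + M * 1) < -(4 * M)) :
    Ineq 5 6 4 14 (tab2 K (4 * M) 8 11 14) K M R R' ζ em e0 e1 := by
  classical
  have hN : 0 < 4 * M := by linarith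
  have qm := G_eq (tab := tab2 K (4 * M) 8 11 14) (K := K) (N := 4 * M) (R := R) (z := 4 * ζ + K + em) (w := 4 * ζ + K + em) hN (by linarith) (by linarith)
    ⟨0, by ring⟩
  have qz := G_eq (tab := tab2 K (4 * M) 8 11 14) (K := K) (N := 4 * M) (R := R) (z := 4 * ζ + e0) (w := 4 * ζ + e0 + 4 * M * 2) hN (by linarith) (by linarith)
    ⟨2, by ring⟩
  have qp := G_eq (tab := tab2 K (4 * M) 8 11 14) (K := K) (N := 4 * M) (R := R) (z := 4 * ζ - K + e1) (w := 4 * ζ - K + e1 + 4 * M * 3) hN (by linarith) (by linarith)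
    ⟨3, by ring⟩
  have r0 := G_eq (tab := tab2 K (4 * M) 8 11 14) (K := K) (N := 4 * M) (R := R') (z := ζ) (w := ζ) hN (by linarith) (by linarith)
    ⟨0, by ring⟩
  have r1 := G_eq (tab := tab2 K (4 * M) 8 11 14) (K := K) (N := 4 * M) (R := R') (z := ζ + M * 1) (w := ζ + M * 1) hN (by linarith) (by linarith)
    ⟨0, by ring⟩
  have r2 := G_eq (tab := tab2 K (4 * M) 8 11 14) (K := K) (N := 4 * M) (R := R') (z := ζ + M * 2) (w := ζ + M * 2) hN (by linarith) (by linarith)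
    ⟨0, by ring⟩
  have r3 := G_eq (tab := tab2 K (4 * M) 8 11 14) (K := K) (N := 4 * M) (R := R') (z := ζ + M * 3) (w := ζ + M * 3) hN (by linarith) (by linarith)
    ⟨0, by ring⟩
  have cm : 3 * (4 * ζ + K + em + 4 * M) ≤ K + 4 * M - 1 := by linarith
  rw [tab2, if_pos cm, if_pos om0] at qm
  rw [tab2, if_neg az4] at qz
  have cp : 3 * (4 * ζ - K + e1 + 4 * M * 3 + 4 * M) ≤ K + 4 * M - 1 := by linarith
  rw [tab2, if_pos cp, if_pos op3] at qp
  rw [tab2, if_pos t0, if_pos oT0] at r0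
  rw [tab2, if_pos t1, if_neg oT1] at r1
  rw [tab2, if_neg t2] at r2
  rw [tab2, if_neg t3] at r3
  have Em0 : ∀ n : ℤ, (n = 0 ∨ n = 0 + 1) → decide (R (4 * ζ + K + em)) = true → decide (R' (ζ + M * n)) = true := by
    intro n hn h
    have h := of_decide_eq_true h
    rcases hn with rfl | rfl
    · exact decide_eq_true (hs.d0 (a := -1) (e := em) (m := 0) (by simp) (by assumption) (by ring) h rfl)
    · exact decide_eq_true (hs.d1 (a := -1) (e := em) (m := 0) (by simp) (by assumption) (by ring) h rfl)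
  have Em1 : ∀ n : ℤ, (n = 1 ∨ n = 1 + 1) → decide (R (4 * ζ + K + em + 4 * M)) = true → decide (R' (ζ + M * n)) = true := by
    intro n hn h
    have h := of_decide_eq_true h
    rcases hn with rfl | rfl
    · exact decide_eq_true (hs.d0 (a := -1) (e := em) (m := 1) (by simp) (by assumption) (by ring) h rfl)
    · exact decide_eq_true (hs.d1 (a := -1) (e := em) (m := 1) (by simp) (by assumption) (by ring) h rfl)
  have Ez2 : ∀ n : ℤ, (n = 2 ∨ n = 2 + 1) → decide (R (4 * ζ + e0 + 4 * M * 2)) = true → decide (R' (ζ + M * n)) = true := by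
    intro n hn h
    have h := of_decide_eq_true h
    rcases hn with rfl | rfl
    · exact decide_eq_true (hs.d0 (a := 0) (e := e0) (m := 2) (by simp) (by assumption) (by ring) h rfl)
    · exact decide_eq_true (hs.d1 (a := 0) (e := e0) (m := 2) (by simp) (by assumption) (by ring) h rfl)
  have Ep3 : ∀ n : ℤ, (n = 3 ∨ n = 3 + 1) → decide (R (4 * ζ - K + e1 + 4 * M * 3)) = true → decide (R' (ζ + M * n)) = true := by
    intro n hn h
    have h := of_decide_eq_true h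
    rcases hn with rfl | rfl
    · exact decide_eq_true (hs.d0 (a := 1) (e := e1) (m := 3) (by simp) (by assumption) (by ring) h rfl)
    · exact decide_eq_true (hs.d1 (a := 1) (e := e1) (m := 3) (by simp) (by assumption) (by ring) h rfl)
  have Ep4 : ∀ n : ℤ, (n = 4 ∨ n = 4 + 1) → decide (R (4 * ζ - K + e1 + 4 * M * 3 + 4 * M)) = true → decide (R' (ζ + M * n)) = true := by
    intro n hn h
    have h := of_decide_eq_true h
    rcases hn with rfl | rfl
    · exact decide_eq_true (hs.d0 (a := 1) (e := e1) (m := 4) (by simp) (by assumption) (by ring) h rfl)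
    · exact decide_eq_true (hs.d1 (a := 1) (e := e1) (m := 4) (by simp) (by assumption) (by ring) h rfl)
  unfold Ineq
  rw [qm, qz, qp]
  generalize decide (R (4 * ζ + K + em)) = b0 at Em0 ⊢
  generalize decide (R (4 * ζ + K + em + 4 * M)) = b1 at Em1 ⊢
  generalize decide (R (4 * ζ + e0 + 4 * M * 2)) = b2 at Ez2 ⊢
  generalize decide (R (4 * ζ - K + e1 + 4 * M * 3)) = b3 at Ep3 ⊢
  generalize decide (R (4 * ζ - K + e1 + 4 * M * 3 + 4 * M)) = b4 at Ep4 ⊢
  have T0 : (b0) = true → decide (R' (ζ + M * 0)) = true := by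
    intro h
    exact Em0 0 (by norm_num) h
  have T4 : (b3 || b4) = true → decide (R' (ζ + M * 4)) = true := by
    intro h
    simp only [Bool.or_eq_true] at h
    rcases h with (h | h)
    · exact Ep3 4 (by norm_num) h
    · exact Ep4 4 (by norm_num) h
  have T1 : (b0 || b1) = true → decide (R' (ζ + M * 1)) = true := by
    intro h
    simp only [Bool.or_eq_true] at h
    rcases h with (h | h)
    · exact Em0 1 (by norm_num) h
    · exact Em1 1 (by norm_num) h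
  have T5 : (b4) = true → decide (R' (ζ + M * 5)) = true := by
    intro h
    exact Ep4 5 (by norm_num) h
  have T2 : (b1 || b2) = true → decide (R' (ζ + M * 2)) = true := by
    intro h
    simp only [Bool.or_eq_true] at h
    rcases h with (h | h)
    · exact Em1 2 (by norm_num) h
    · exact Ez2 2 (by norm_num) h
  have T3 : (b2 || b3) = true → decide (R' (ζ + M * 3)) = true := by
    intro h
    simp only [Bool.or_eq_true] at h
    rcases h with (h | h)
    · exact Ez2 3 (by norm_num) h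
    · exact Ep3 3 (by norm_num) h
  have u0 : g2 14 8 11 (b0) (b3 || b4) ≤ G (tab2 K (4 * M) 8 11 14) K (4 * M) R' (ζ) := by
    rw [r0, show ζ + 4 * M = ζ + M * 4 by ring]
    have T0' := T0; rw [show ζ + M * 0 = ζ by ring] at T0'
    exact g2_mono (by norm_num) (by norm_num) (by norm_num) (by norm_num) T0' T4
  have u1 : g2 14 11 8 (b0 || b1) (b4) ≤ G (tab2 K (4 * M) 8 11 14) K (4 * M) R' (ζ + M * 1) := by
    rw [r1, show ζ + M * 1 + 4 * M = ζ + M * 5 by ring]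
    exact g2_mono (by norm_num) (by norm_num) (by norm_num) (by norm_num) T1 T5
  have u2 : g1 14 (b1 || b2) ≤ G (tab2 K (4 * M) 8 11 14) K (4 * M) R' (ζ + M * 2) := by
    rw [r2]
    exact g1_mono (by norm_num) T2
  have u3 : g1 14 (b2 || b3) ≤ G (tab2 K (4 * M) 8 11 14) K (4 * M) R' (ζ + M * 3) := by
    rw [r3]
    exact g1_mono (by norm_num) T3
  have key : ∀ b0 b1 b2 b3 b4 : Bool, KeyIneq 5 6 4 14 (g2 14 8 11 b0 b1) (g1 14 b2) (g2 14 8 11 b3 b4)
      (g2 14 8 11 (b0) (b3 || b4) + g2 14 11 8 (b0 || b1) (b4) + g1 14 (b1 || b2) + g1 14 (b2 || b3)) := by decide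
  have key := key b0 b1 b2 b3 b4
  unfold KeyIneq at key
  refine ⟨by linarith [key.1], fun h h' => ?_⟩
  have := key.2 h h'
  linarith

/-- type (0, 1) (2,) (3, 4) 6 (('m', 0, False), ('p', 3, False), ('T', 0, True), ('T', 1, False)) -/
lemma wa_leaf10 {K M ζ em e0 e1 : ℤ} {R R' : ℤ → Prop} (hM : 0 < M) (hs : StepRel K M R R')
    (hem : em = 0 ∨ em = 1) (he0 : e0 = 0 ∨ e0 = 1) (he1 : e1 = 0 ∨ e1 = 1)
    (hx1 : -K ≤ 3 * ζ) (hx2 : 3 * (ζ - M) < -K)
    (am1 : -K ≤ 3 * (4 * ζ + K + em))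
    (am2 : 3 * (4 * ζ + K + em - 4 * M) < -K)
    (am3 : 3 * (4 * ζ + K + em + 4 * M * 1) ≤ K + 4 * M - 1)
    (az1 : -K ≤ 3 * (4 * ζ + e0 + 4 * M * 2))
    (az2 : 3 * (4 * ζ + e0 + 4 * M * 2 - 4 * M) < -K)
    (az3 : 3 * (4 * ζ + e0 + 4 * M * 2) ≤ K + 4 * M - 1)
    (az4 : ¬ 3 * (4 * ζ + e0 + 4 * M * 2 + 4 * M) ≤ K + 4 * M - 1)
    (ap1 : -K ≤ 3 * (4 * ζ - K + e1 + 4 * M * 3))
    (ap2 : 3 * (4 * ζ - K + e1 + 4 * M * 3 - 4 * M) < -K)
    (ap3 : 3 * (4 * ζ - K + e1 + 4 * M * 4) ≤ K + 4 * M - 1)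
    (t0 : 3 * (ζ + 4 * M) ≤ K + 4 * M - 1)
    (t1 : 3 * (ζ + M * 1 + 4 * M) ≤ K + 4 * M - 1)
    (t2 : ¬ 3 * (ζ + M * 2 + 4 * M) ≤ K + 4 * M - 1)
    (t3 : ¬ 3 * (ζ + M * 3 + 4 * M) ≤ K + 4 * M - 1)
    (om0 : ¬ 3 * (4 * ζ + K + em) < -(4 * M))
    (op3 : ¬ 3 * (4 * ζ - K + e1 + 4 * M * 3) < -(4 * M))
    (oT0 : 3 * (ζ) < -(4 * M))
    (oT1 : ¬ 3 * (ζ + M * 1) < -(4 * M)) :
    Ineq 5 6 4 14 (tab2 K (4 * M) 8 11 14) K M R R' ζ em e0 e1 := by
  classical
  have hN : 0 < 4 * M := by linarith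
  have qm := G_eq (tab := tab2 K (4 * M) 8 11 14) (K := K) (N := 4 * M) (R := R) (z := 4 * ζ + K + em) (w := 4 * ζ + K + em) hN (by linarith) (by linarith)
    ⟨0, by ring⟩
  have qz := G_eq (tab := tab2 K (4 * M) 8 11 14) (K := K) (N := 4 * M) (R := R) (z := 4 * ζ + e0) (w := 4 * ζ + e0 + 4 * M * 2) hN (by linarith) (by linarith)
    ⟨2, by ring⟩
  have qp := G_eq (tab := tab2 K (4 * M) 8 11 14) (K := K) (N := 4 * M) (R := R) (z := 4 * ζ - K + e1) (w := 4 * ζ - K + e1 + 4 * M * 3) hN (by linarith) (by linarith)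
    ⟨3, by ring⟩
  have r0 := G_eq (tab := tab2 K (4 * M) 8 11 14) (K := K) (N := 4 * M) (R := R') (z := ζ) (w := ζ) hN (by linarith) (by linarith)
    ⟨0, by ring⟩
  have r1 := G_eq (tab := tab2 K (4 * M) 8 11 14) (K := K) (N := 4 * M) (R := R') (z := ζ + M * 1) (w := ζ + M * 1) hN (by linarith) (by linarith)
    ⟨0, by ring⟩
  have r2 := G_eq (tab := tab2 K (4 * M) 8 11 14) (K := K) (N := 4 * M) (R := R') (z := ζ + M * 2) (w := ζ + M * 2) hN (by linarith) (by linarith)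
    ⟨0, by ring⟩
  have r3 := G_eq (tab := tab2 K (4 * M) 8 11 14) (K := K) (N := 4 * M) (R := R') (z := ζ + M * 3) (w := ζ + M * 3) hN (by linarith) (by linarith)
    ⟨0, by ring⟩
  have cm : 3 * (4 * ζ + K + em + 4 * M) ≤ K + 4 * M - 1 := by linarith
  rw [tab2, if_pos cm, if_neg om0] at qm
  rw [tab2, if_neg az4] at qz
  have cp : 3 * (4 * ζ - K + e1 + 4 * M * 3 + 4 * M) ≤ K + 4 * M - 1 := by linarith
  rw [tab2, if_pos cp, if_neg op3] at qp
  rw [tab2, if_pos t0, if_pos oT0] at r0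
  rw [tab2, if_pos t1, if_neg oT1] at r1
  rw [tab2, if_neg t2] at r2
  rw [tab2, if_neg t3] at r3
  have Em0 : ∀ n : ℤ, (n = 0 ∨ n = 0 + 1) → decide (R (4 * ζ + K + em)) = true → decide (R' (ζ + M * n)) = true := by
    intro n hn h
    have h := of_decide_eq_true h
    rcases hn with rfl | rfl
    · exact decide_eq_true (hs.d0 (a := -1) (e := em) (m := 0) (by simp) (by assumption) (by ring) h rfl)
    · exact decide_eq_true (hs.d1 (a := -1) (e := em) (m := 0) (by simp) (by assumption) (by ring) h rfl)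
  have Em1 : ∀ n : ℤ, (n = 1 ∨ n = 1 + 1) → decide (R (4 * ζ + K + em + 4 * M)) = true → decide (R' (ζ + M * n)) = true := by
    intro n hn h
    have h := of_decide_eq_true h
    rcases hn with rfl | rfl
    · exact decide_eq_true (hs.d0 (a := -1) (e := em) (m := 1) (by simp) (by assumption) (by ring) h rfl)
    · exact decide_eq_true (hs.d1 (a := -1) (e := em) (m := 1) (by simp) (by assumption) (by ring) h rfl)
  have Ez2 : ∀ n : ℤ, (n = 2 ∨ n = 2 + 1) → decide (R (4 * ζ + e0 + 4 * M * 2)) = true → decide (R' (ζ + M * n)) = true := by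
    intro n hn h
    have h := of_decide_eq_true h
    rcases hn with rfl | rfl
    · exact decide_eq_true (hs.d0 (a := 0) (e := e0) (m := 2) (by simp) (by assumption) (by ring) h rfl)
    · exact decide_eq_true (hs.d1 (a := 0) (e := e0) (m := 2) (by simp) (by assumption) (by ring) h rfl)
  have Ep3 : ∀ n : ℤ, (n = 3 ∨ n = 3 + 1) → decide (R (4 * ζ - K + e1 + 4 * M * 3)) = true → decide (R' (ζ + M * n)) = true := by
    intro n hn h
    have h := of_decide_eq_true h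
    rcases hn with rfl | rfl
    · exact decide_eq_true (hs.d0 (a := 1) (e := e1) (m := 3) (by simp) (by assumption) (by ring) h rfl)
    · exact decide_eq_true (hs.d1 (a := 1) (e := e1) (m := 3) (by simp) (by assumption) (by ring) h rfl)
  have Ep4 : ∀ n : ℤ, (n = 4 ∨ n = 4 + 1) → decide (R (4 * ζ - K + e1 + 4 * M * 3 + 4 * M)) = true → decide (R' (ζ + M * n)) = true := by
    intro n hn h
    have h := of_decide_eq_true h
    rcases hn with rfl | rfl
    · exact decide_eq_true (hs.d0 (a := 1) (e := e1) (m := 4) (by simp) (by assumption) (by ring) h rfl)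
    · exact decide_eq_true (hs.d1 (a := 1) (e := e1) (m := 4) (by simp) (by assumption) (by ring) h rfl)
  unfold Ineq
  rw [qm, qz, qp]
  generalize decide (R (4 * ζ + K + em)) = b0 at Em0 ⊢
  generalize decide (R (4 * ζ + K + em + 4 * M)) = b1 at Em1 ⊢
  generalize decide (R (4 * ζ + e0 + 4 * M * 2)) = b2 at Ez2 ⊢
  generalize decide (R (4 * ζ - K + e1 + 4 * M * 3)) = b3 at Ep3 ⊢
  generalize decide (R (4 * ζ - K + e1 + 4 * M * 3 + 4 * M)) = b4 at Ep4 ⊢
  have T0 : (b0) = true → decide (R' (ζ + M * 0)) = true := by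
    intro h
    exact Em0 0 (by norm_num) h
  have T4 : (b3 || b4) = true → decide (R' (ζ + M * 4)) = true := by
    intro h
    simp only [Bool.or_eq_true] at h
    rcases h with (h | h)
    · exact Ep3 4 (by norm_num) h
    · exact Ep4 4 (by norm_num) h
  have T1 : (b0 || b1) = true → decide (R' (ζ + M * 1)) = true := by
    intro h
    simp only [Bool.or_eq_true] at h
    rcases h with (h | h)
    · exact Em0 1 (by norm_num) h
    · exact Em1 1 (by norm_num) h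
  have T5 : (b4) = true → decide (R' (ζ + M * 5)) = true := by
    intro h
    exact Ep4 5 (by norm_num) h
  have T2 : (b1 || b2) = true → decide (R' (ζ + M * 2)) = true := by
    intro h
    simp only [Bool.or_eq_true] at h
    rcases h with (h | h)
    · exact Em1 2 (by norm_num) h
    · exact Ez2 2 (by norm_num) h
  have T3 : (b2 || b3) = true → decide (R' (ζ + M * 3)) = true := by
    intro h
    simp only [Bool.or_eq_true] at h
    rcases h with (h | h)
    · exact Ez2 3 (by norm_num) h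
    · exact Ep3 3 (by norm_num) h
  have u0 : g2 14 8 11 (b0) (b3 || b4) ≤ G (tab2 K (4 * M) 8 11 14) K (4 * M) R' (ζ) := by
    rw [r0, show ζ + 4 * M = ζ + M * 4 by ring]
    have T0' := T0; rw [show ζ + M * 0 = ζ by ring] at T0'
    exact g2_mono (by norm_num) (by norm_num) (by norm_num) (by norm_num) T0' T4
  have u1 : g2 14 11 8 (b0 || b1) (b4) ≤ G (tab2 K (4 * M) 8 11 14) K (4 * M) R' (ζ + M * 1) := by
    rw [r1, show ζ + M * 1 + 4 * M = ζ + M * 5 by ring]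
    exact g2_mono (by norm_num) (by norm_num) (by norm_num) (by norm_num) T1 T5
  have u2 : g1 14 (b1 || b2) ≤ G (tab2 K (4 * M) 8 11 14) K (4 * M) R' (ζ + M * 2) := by
    rw [r2]
    exact g1_mono (by norm_num) T2
  have u3 : g1 14 (b2 || b3) ≤ G (tab2 K (4 * M) 8 11 14) K (4 * M) R' (ζ + M * 3) := by
    rw [r3]
    exact g1_mono (by norm_num) T3
  have key : ∀ b0 b1 b2 b3 b4 : Bool, KeyIneq 5 6 4 14 (g2 14 11 8 b0 b1) (g1 14 b2) (g2 14 11 8 b3 b4)
      (g2 14 8 11 (b0) (b3 || b4) + g2 14 11 8 (b0 || b1) (b4) + g1 14 (b1 || b2) + g1 14 (b2 || b3)) := by decide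
  have key := key b0 b1 b2 b3 b4
  unfold KeyIneq at key
  refine ⟨by linarith [key.1], fun h h' => ?_⟩
  have := key.2 h h'
  linarith

/-- type (0, 1) (2,) (4,) 6 (('m', 0, True), ('T', 0, True), ('T', 1, False)) -/
lemma wa_leaf11 {K M ζ em e0 e1 : ℤ} {R R' : ℤ → Prop} (hM : 0 < M) (hs : StepRel K M R R')
    (hem : em = 0 ∨ em = 1) (he0 : e0 = 0 ∨ e0 = 1) (he1 : e1 = 0 ∨ e1 = 1)
    (hx1 : -K ≤ 3 * ζ) (hx2 : 3 * (ζ - M) < -K)
    (am1 : -K ≤ 3 * (4 * ζ + K + em))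
    (am2 : 3 * (4 * ζ + K + em - 4 * M) < -K)
    (am3 : 3 * (4 * ζ + K + em + 4 * M * 1) ≤ K + 4 * M - 1)
    (az1 : -K ≤ 3 * (4 * ζ + e0 + 4 * M * 2))
    (az2 : 3 * (4 * ζ + e0 + 4 * M * 2 - 4 * M) < -K)
    (az3 : 3 * (4 * ζ + e0 + 4 * M * 2) ≤ K + 4 * M - 1)
    (az4 : ¬ 3 * (4 * ζ + e0 + 4 * M * 2 + 4 * M) ≤ K + 4 * M - 1)
    (ap1 : -K ≤ 3 * (4 * ζ - K + e1 + 4 * M * 4))
    (ap2 : 3 * (4 * ζ - K + e1 + 4 * M * 4 - 4 * M) < -K)
    (ap3 : 3 * (4 * ζ - K + e1 + 4 * M * 4) ≤ K + 4 * M - 1)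
    (ap4 : ¬ 3 * (4 * ζ - K + e1 + 4 * M * 4 + 4 * M) ≤ K + 4 * M - 1)
    (t0 : 3 * (ζ + 4 * M) ≤ K + 4 * M - 1)
    (t1 : 3 * (ζ + M * 1 + 4 * M) ≤ K + 4 * M - 1)
    (t2 : ¬ 3 * (ζ + M * 2 + 4 * M) ≤ K + 4 * M - 1)
    (t3 : ¬ 3 * (ζ + M * 3 + 4 * M) ≤ K + 4 * M - 1)
    (om0 : 3 * (4 * ζ + K + em) < -(4 * M))
    (oT0 : 3 * (ζ) < -(4 * M))
    (oT1 : ¬ 3 * (ζ + M * 1) < -(4 * M)) :
    Ineq 5 6 4 14 (tab2 K (4 * M) 8 11 14) K M R R' ζ em e0 e1 := by
  classical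
  have hN : 0 < 4 * M := by linarith
  have qm := G_eq (tab := tab2 K (4 * M) 8 11 14) (K := K) (N := 4 * M) (R := R) (z := 4 * ζ + K + em) (w := 4 * ζ + K + em) hN (by linarith) (by linarith)
    ⟨0, by ring⟩
  have qz := G_eq (tab := tab2 K (4 * M) 8 11 14) (K := K) (N := 4 * M) (R := R) (z := 4 * ζ + e0) (w := 4 * ζ + e0 + 4 * M * 2) hN (by linarith) (by linarith)
    ⟨2, by ring⟩
  have qp := G_eq (tab := tab2 K (4 * M) 8 11 14) (K := K) (N := 4 * M) (R := R) (z := 4 * ζ - K + e1) (w := 4 * ζ - K + e1 + 4 * M * 4) hN (by linarith) (by linarith)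
    ⟨4, by ring⟩
  have r0 := G_eq (tab := tab2 K (4 * M) 8 11 14) (K := K) (N := 4 * M) (R := R') (z := ζ) (w := ζ) hN (by linarith) (by linarith)
    ⟨0, by ring⟩
  have r1 := G_eq (tab := tab2 K (4 * M) 8 11 14) (K := K) (N := 4 * M) (R := R') (z := ζ + M * 1) (w := ζ + M * 1) hN (by linarith) (by linarith)
    ⟨0, by ring⟩
  have r2 := G_eq (tab := tab2 K (4 * M) 8 11 14) (K := K) (N := 4 * M) (R := R') (z := ζ + M * 2) (w := ζ + M * 2) hN (by linarith) (by linarith)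
    ⟨0, by ring⟩
  have r3 := G_eq (tab := tab2 K (4 * M) 8 11 14) (K := K) (N := 4 * M) (R := R') (z := ζ + M * 3) (w := ζ + M * 3) hN (by linarith) (by linarith)
    ⟨0, by ring⟩
  have cm : 3 * (4 * ζ + K + em + 4 * M) ≤ K + 4 * M - 1 := by linarith
  rw [tab2, if_pos cm, if_pos om0] at qm
  rw [tab2, if_neg az4] at qz
  rw [tab2, if_neg ap4] at qp
  rw [tab2, if_pos t0, if_pos oT0] at r0
  rw [tab2, if_pos t1, if_neg oT1] at r1
  rw [tab2, if_neg t2] at r2
  rw [tab2, if_neg t3] at r3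
  have Em0 : ∀ n : ℤ, (n = 0 ∨ n = 0 + 1) → decide (R (4 * ζ + K + em)) = true → decide (R' (ζ + M * n)) = true := by
    intro n hn h
    have h := of_decide_eq_true h
    rcases hn with rfl | rfl
    · exact decide_eq_true (hs.d0 (a := -1) (e := em) (m := 0) (by simp) (by assumption) (by ring) h rfl)
    · exact decide_eq_true (hs.d1 (a := -1) (e := em) (m := 0) (by simp) (by assumption) (by ring) h rfl)
  have Em1 : ∀ n : ℤ, (n = 1 ∨ n = 1 + 1) → decide (R (4 * ζ + K + em + 4 * M)) = true → decide (R' (ζ + M * n)) = true := by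
    intro n hn h
    have h := of_decide_eq_true h
    rcases hn with rfl | rfl
    · exact decide_eq_true (hs.d0 (a := -1) (e := em) (m := 1) (by simp) (by assumption) (by ring) h rfl)
    · exact decide_eq_true (hs.d1 (a := -1) (e := em) (m := 1) (by simp) (by assumption) (by ring) h rfl)
  have Ez2 : ∀ n : ℤ, (n = 2 ∨ n = 2 + 1) → decide (R (4 * ζ + e0 + 4 * M * 2)) = true → decide (R' (ζ + M * n)) = true := by
    intro n hn h
    have h := of_decide_eq_true h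
    rcases hn with rfl | rfl
    · exact decide_eq_true (hs.d0 (a := 0) (e := e0) (m := 2) (by simp) (by assumption) (by ring) h rfl)
    · exact decide_eq_true (hs.d1 (a := 0) (e := e0) (m := 2) (by simp) (by assumption) (by ring) h rfl)
  have Ep4 : ∀ n : ℤ, (n = 4 ∨ n = 4 + 1) → decide (R (4 * ζ - K + e1 + 4 * M * 4)) = true → decide (R' (ζ + M * n)) = true := by
    intro n hn h
    have h := of_decide_eq_true h
    rcases hn with rfl | rfl
    · exact decide_eq_true (hs.d0 (a := 1) (e := e1) (m := 4) (by simp) (by assumption) (by ring) h rfl)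
    · exact decide_eq_true (hs.d1 (a := 1) (e := e1) (m := 4) (by simp) (by assumption) (by ring) h rfl)
  unfold Ineq
  rw [qm, qz, qp]
  generalize decide (R (4 * ζ + K + em)) = b0 at Em0 ⊢
  generalize decide (R (4 * ζ + K + em + 4 * M)) = b1 at Em1 ⊢
  generalize decide (R (4 * ζ + e0 + 4 * M * 2)) = b2 at Ez2 ⊢
  generalize decide (R (4 * ζ - K + e1 + 4 * M * 4)) = b3 at Ep4 ⊢
  have T0 : (b0) = true → decide (R' (ζ + M * 0)) = true := by
    intro h
    exact Em0 0 (by norm_num) h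
  have T4 : (b3) = true → decide (R' (ζ + M * 4)) = true := by
    intro h
    exact Ep4 4 (by norm_num) h
  have T1 : (b0 || b1) = true → decide (R' (ζ + M * 1)) = true := by
    intro h
    simp only [Bool.or_eq_true] at h
    rcases h with (h | h)
    · exact Em0 1 (by norm_num) h
    · exact Em1 1 (by norm_num) h
  have T5 : (b3) = true → decide (R' (ζ + M * 5)) = true := by
    intro h
    exact Ep4 5 (by norm_num) h
  have T2 : (b1 || b2) = true → decide (R' (ζ + M * 2)) = true := by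
    intro h
    simp only [Bool.or_eq_true] at h
    rcases h with (h | h)
    · exact Em1 2 (by norm_num) h
    · exact Ez2 2 (by norm_num) h
  have T3 : (b2) = true → decide (R' (ζ + M * 3)) = true := by
    intro h
    exact Ez2 3 (by norm_num) h
  have u0 : g2 14 8 11 (b0) (b3) ≤ G (tab2 K (4 * M) 8 11 14) K (4 * M) R' (ζ) := by
    rw [r0, show ζ + 4 * M = ζ + M * 4 by ring]
    have T0' := T0; rw [show ζ + M * 0 = ζ by ring] at T0'
    exact g2_mono (by norm_num) (by norm_num) (by norm_num) (by norm_num) T0' T4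
  have u1 : g2 14 11 8 (b0 || b1) (b3) ≤ G (tab2 K (4 * M) 8 11 14) K (4 * M) R' (ζ + M * 1) := by
    rw [r1, show ζ + M * 1 + 4 * M = ζ + M * 5 by ring]
    exact g2_mono (by norm_num) (by norm_num) (by norm_num) (by norm_num) T1 T5
  have u2 : g1 14 (b1 || b2) ≤ G (tab2 K (4 * M) 8 11 14) K (4 * M) R' (ζ + M * 2) := by
    rw [r2]
    exact g1_mono (by norm_num) T2
  have u3 : g1 14 (b2) ≤ G (tab2 K (4 * M) 8 11 14) K (4 * M) R' (ζ + M * 3) := by
    rw [r3]
    exact g1_mono (by norm_num) T3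
  have key : ∀ b0 b1 b2 b3 : Bool, KeyIneq 5 6 4 14 (g2 14 8 11 b0 b1) (g1 14 b2) (g1 14 b3)
      (g2 14 8 11 (b0) (b3) + g2 14 11 8 (b0 || b1) (b3) + g1 14 (b1 || b2) + g1 14 (b2)) := by decide
  have key := key b0 b1 b2 b3
  unfold KeyIneq at key
  refine ⟨by linarith [key.1], fun h h' => ?_⟩
  have := key.2 h h'
  linarith

/-- type (0,) (2,) (3, 4) 6 (('p', 3, False), ('T', 0, True), ('T', 1, False)) -/
lemma wa_leaf12 {K M ζ em e0 e1 : ℤ} {R R' : ℤ → Prop} (hM : 0 < M) (hs : StepRel K M R R')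
    (hem : em = 0 ∨ em = 1) (he0 : e0 = 0 ∨ e0 = 1) (he1 : e1 = 0 ∨ e1 = 1)
    (hx1 : -K ≤ 3 * ζ) (hx2 : 3 * (ζ - M) < -K)
    (am1 : -K ≤ 3 * (4 * ζ + K + em))
    (am2 : 3 * (4 * ζ + K + em - 4 * M) < -K)
    (am3 : 3 * (4 * ζ + K + em) ≤ K + 4 * M - 1)
    (am4 : ¬ 3 * (4 * ζ + K + em + 4 * M) ≤ K + 4 * M - 1)
    (az1 : -K ≤ 3 * (4 * ζ + e0 + 4 * M * 2))
    (az2 : 3 * (4 * ζ + e0 + 4 * M * 2 - 4 * M) < -K)
    (az3 : 3 * (4 * ζ + e0 + 4 * M * 2) ≤ K + 4 * M - 1)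
    (az4 : ¬ 3 * (4 * ζ + e0 + 4 * M * 2 + 4 * M) ≤ K + 4 * M - 1)
    (ap1 : -K ≤ 3 * (4 * ζ - K + e1 + 4 * M * 3))
    (ap2 : 3 * (4 * ζ - K + e1 + 4 * M * 3 - 4 * M) < -K)
    (ap3 : 3 * (4 * ζ - K + e1 + 4 * M * 4) ≤ K + 4 * M - 1)
    (t0 : 3 * (ζ + 4 * M) ≤ K + 4 * M - 1)
    (t1 : 3 * (ζ + M * 1 + 4 * M) ≤ K + 4 * M - 1)
    (t2 : ¬ 3 * (ζ + M * 2 + 4 * M) ≤ K + 4 * M - 1)
    (t3 : ¬ 3 * (ζ + M * 3 + 4 * M) ≤ K + 4 * M - 1)
    (op3 : ¬ 3 * (4 * ζ - K + e1 + 4 * M * 3) < -(4 * M))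
    (oT0 : 3 * (ζ) < -(4 * M))
    (oT1 : ¬ 3 * (ζ + M * 1) < -(4 * M)) :
    Ineq 5 6 4 14 (tab2 K (4 * M) 8 11 14) K M R R' ζ em e0 e1 := by
  classical
  have hN : 0 < 4 * M := by linarith
  have qm := G_eq (tab := tab2 K (4 * M) 8 11 14) (K := K) (N := 4 * M) (R := R) (z := 4 * ζ + K + em) (w := 4 * ζ + K + em) hN (by linarith) (by linarith)
    ⟨0, by ring⟩
  have qz := G_eq (tab := tab2 K (4 * M) 8 11 14) (K := K) (N := 4 * M) (R := R) (z := 4 * ζ + e0) (w := 4 * ζ + e0 + 4 * M * 2) hN (by linarith) (by linarith)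
    ⟨2, by ring⟩
  have qp := G_eq (tab := tab2 K (4 * M) 8 11 14) (K := K) (N := 4 * M) (R := R) (z := 4 * ζ - K + e1) (w := 4 * ζ - K + e1 + 4 * M * 3) hN (by linarith) (by linarith)
    ⟨3, by ring⟩
  have r0 := G_eq (tab := tab2 K (4 * M) 8 11 14) (K := K) (N := 4 * M) (R := R') (z := ζ) (w := ζ) hN (by linarith) (by linarith)
    ⟨0, by ring⟩
  have r1 := G_eq (tab := tab2 K (4 * M) 8 11 14) (K := K) (N := 4 * M) (R := R') (z := ζ + M * 1) (w := ζ + M * 1) hN (by linarith) (by linarith)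
    ⟨0, by ring⟩
  have r2 := G_eq (tab := tab2 K (4 * M) 8 11 14) (K := K) (N := 4 * M) (R := R') (z := ζ + M * 2) (w := ζ + M * 2) hN (by linarith) (by linarith)
    ⟨0, by ring⟩
  have r3 := G_eq (tab := tab2 K (4 * M) 8 11 14) (K := K) (N := 4 * M) (R := R') (z := ζ + M * 3) (w := ζ + M * 3) hN (by linarith) (by linarith)
    ⟨0, by ring⟩
  rw [tab2, if_neg am4] at qm
  rw [tab2, if_neg az4] at qz
  have cp : 3 * (4 * ζ - K + e1 + 4 * M * 3 + 4 * M) ≤ K + 4 * M - 1 := by linarith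
  rw [tab2, if_pos cp, if_neg op3] at qp
  rw [tab2, if_pos t0, if_pos oT0] at r0
  rw [tab2, if_pos t1, if_neg oT1] at r1
  rw [tab2, if_neg t2] at r2
  rw [tab2, if_neg t3] at r3
  have Em0 : ∀ n : ℤ, (n = 0 ∨ n = 0 + 1) → decide (R (4 * ζ + K + em)) = true → decide (R' (ζ + M * n)) = true := by
    intro n hn h
    have h := of_decide_eq_true h
    rcases hn with rfl | rfl
    · exact decide_eq_true (hs.d0 (a := -1) (e := em) (m := 0) (by simp) (by assumption) (by ring) h rfl)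
    · exact decide_eq_true (hs.d1 (a := -1) (e := em) (m := 0) (by simp) (by assumption) (by ring) h rfl)
  have Ez2 : ∀ n : ℤ, (n = 2 ∨ n = 2 + 1) → decide (R (4 * ζ + e0 + 4 * M * 2)) = true → decide (R' (ζ + M * n)) = true := by
    intro n hn h
    have h := of_decide_eq_true h
    rcases hn with rfl | rfl
    · exact decide_eq_true (hs.d0 (a := 0) (e := e0) (m := 2) (by simp) (by assumption) (by ring) h rfl)
    · exact decide_eq_true (hs.d1 (a := 0) (e := e0) (m := 2) (by simp) (by assumption) (by ring) h rfl)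
  have Ep3 : ∀ n : ℤ, (n = 3 ∨ n = 3 + 1) → decide (R (4 * ζ - K + e1 + 4 * M * 3)) = true → decide (R' (ζ + M * n)) = true := by
    intro n hn h
    have h := of_decide_eq_true h
    rcases hn with rfl | rfl
    · exact decide_eq_true (hs.d0 (a := 1) (e := e1) (m := 3) (by simp) (by assumption) (by ring) h rfl)
    · exact decide_eq_true (hs.d1 (a := 1) (e := e1) (m := 3) (by simp) (by assumption) (by ring) h rfl)
  have Ep4 : ∀ n : ℤ, (n = 4 ∨ n = 4 + 1) → decide (R (4 * ζ - K + e1 + 4 * M * 3 + 4 * M)) = true → decide (R' (ζ + M * n)) = true := by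
    intro n hn h
    have h := of_decide_eq_true h
    rcases hn with rfl | rfl
    · exact decide_eq_true (hs.d0 (a := 1) (e := e1) (m := 4) (by simp) (by assumption) (by ring) h rfl)
    · exact decide_eq_true (hs.d1 (a := 1) (e := e1) (m := 4) (by simp) (by assumption) (by ring) h rfl)
  unfold Ineq
  rw [qm, qz, qp]
  generalize decide (R (4 * ζ + K + em)) = b0 at Em0 ⊢
  generalize decide (R (4 * ζ + e0 + 4 * M * 2)) = b1 at Ez2 ⊢
  generalize decide (R (4 * ζ - K + e1 + 4 * M * 3)) = b2 at Ep3 ⊢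
  generalize decide (R (4 * ζ - K + e1 + 4 * M * 3 + 4 * M)) = b3 at Ep4 ⊢
  have T0 : (b0) = true → decide (R' (ζ + M * 0)) = true := by
    intro h
    exact Em0 0 (by norm_num) h
  have T4 : (b2 || b3) = true → decide (R' (ζ + M * 4)) = true := by
    intro h
    simp only [Bool.or_eq_true] at h
    rcases h with (h | h)
    · exact Ep3 4 (by norm_num) h
    · exact Ep4 4 (by norm_num) h
  have T1 : (b0) = true → decide (R' (ζ + M * 1)) = true := by
    intro h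
    exact Em0 1 (by norm_num) h
  have T5 : (b3) = true → decide (R' (ζ + M * 5)) = true := by
    intro h
    exact Ep4 5 (by norm_num) h
  have T2 : (b1) = true → decide (R' (ζ + M * 2)) = true := by
    intro h
    exact Ez2 2 (by norm_num) h
  have T3 : (b1 || b2) = true → decide (R' (ζ + M * 3)) = true := by
    intro h
    simp only [Bool.or_eq_true] at h
    rcases h with (h | h)
    · exact Ez2 3 (by norm_num) h
    · exact Ep3 3 (by norm_num) h
  have u0 : g2 14 8 11 (b0) (b2 || b3) ≤ G (tab2 K (4 * M) 8 11 14) K (4 * M) R' (ζ) := by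
    rw [r0, show ζ + 4 * M = ζ + M * 4 by ring]
    have T0' := T0; rw [show ζ + M * 0 = ζ by ring] at T0'
    exact g2_mono (by norm_num) (by norm_num) (by norm_num) (by norm_num) T0' T4
  have u1 : g2 14 11 8 (b0) (b3) ≤ G (tab2 K (4 * M) 8 11 14) K (4 * M) R' (ζ + M * 1) := by
    rw [r1, show ζ + M * 1 + 4 * M = ζ + M * 5 by ring]
    exact g2_mono (by norm_num) (by norm_num) (by norm_num) (by norm_num) T1 T5
  have u2 : g1 14 (b1) ≤ G (tab2 K (4 * M) 8 11 14) K (4 * M) R' (ζ + M * 2) := by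
    rw [r2]
    exact g1_mono (by norm_num) T2
  have u3 : g1 14 (b1 || b2) ≤ G (tab2 K (4 * M) 8 11 14) K (4 * M) R' (ζ + M * 3) := by
    rw [r3]
    exact g1_mono (by norm_num) T3
  have key : ∀ b0 b1 b2 b3 : Bool, KeyIneq 5 6 4 14 (g1 14 b0) (g1 14 b1) (g2 14 11 8 b2 b3)
      (g2 14 8 11 (b0) (b2 || b3) + g2 14 11 8 (b0) (b3) + g1 14 (b1) + g1 14 (b1 || b2)) := by decide
  have key := key b0 b1 b2 b3
  unfold KeyIneq at key
  refine ⟨by linarith [key.1], fun h h' => ?_⟩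
  have := key.2 h h'
  linarith

/-- type (0, 1) (2,) (3, 4) 6 (('m', 0, True), ('p', 3, False), ('T', 0, True), ('T', 1, False)) -/
lemma wa_leaf13 {K M ζ em e0 e1 : ℤ} {R R' : ℤ → Prop} (hM : 0 < M) (hs : StepRel K M R R')
    (hem : em = 0 ∨ em = 1) (he0 : e0 = 0 ∨ e0 = 1) (he1 : e1 = 0 ∨ e1 = 1)
    (hx1 : -K ≤ 3 * ζ) (hx2 : 3 * (ζ - M) < -K)
    (am1 : -K ≤ 3 * (4 * ζ + K + em))
    (am2 : 3 * (4 * ζ + K + em - 4 * M) < -K)
    (am3 : 3 * (4 * ζ + K + em + 4 * M * 1) ≤ K + 4 * M - 1)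
    (az1 : -K ≤ 3 * (4 * ζ + e0 + 4 * M * 2))
    (az2 : 3 * (4 * ζ + e0 + 4 * M * 2 - 4 * M) < -K)
    (az3 : 3 * (4 * ζ + e0 + 4 * M * 2) ≤ K + 4 * M - 1)
    (az4 : ¬ 3 * (4 * ζ + e0 + 4 * M * 2 + 4 * M) ≤ K + 4 * M - 1)
    (ap1 : -K ≤ 3 * (4 * ζ - K + e1 + 4 * M * 3))
    (ap2 : 3 * (4 * ζ - K + e1 + 4 * M * 3 - 4 * M) < -K)
    (ap3 : 3 * (4 * ζ - K + e1 + 4 * M * 4) ≤ K + 4 * M - 1)
    (t0 : 3 * (ζ + 4 * M) ≤ K + 4 * M - 1)
    (t1 : 3 * (ζ + M * 1 + 4 * M) ≤ K + 4 * M - 1)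
    (t2 : ¬ 3 * (ζ + M * 2 + 4 * M) ≤ K + 4 * M - 1)
    (t3 : ¬ 3 * (ζ + M * 3 + 4 * M) ≤ K + 4 * M - 1)
    (om0 : 3 * (4 * ζ + K + em) < -(4 * M))
    (op3 : ¬ 3 * (4 * ζ - K + e1 + 4 * M * 3) < -(4 * M))
    (oT0 : 3 * (ζ) < -(4 * M))
    (oT1 : ¬ 3 * (ζ + M * 1) < -(4 * M)) :
    Ineq 5 6 4 14 (tab2 K (4 * M) 8 11 14) K M R R' ζ em e0 e1 := by
  classical
  have hN : 0 < 4 * M := by linarith
  have qm := G_eq (tab := tab2 K (4 * M) 8 11 14) (K := K) (N := 4 * M) (R := R) (z := 4 * ζ + K + em) (w := 4 * ζ + K + em) hN (by linarith) (by linarith)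
    ⟨0, by ring⟩
  have qz := G_eq (tab := tab2 K (4 * M) 8 11 14) (K := K) (N := 4 * M) (R := R) (z := 4 * ζ + e0) (w := 4 * ζ + e0 + 4 * M * 2) hN (by linarith) (by linarith)
    ⟨2, by ring⟩
  have qp := G_eq (tab := tab2 K (4 * M) 8 11 14) (K := K) (N := 4 * M) (R := R) (z := 4 * ζ - K + e1) (w := 4 * ζ - K + e1 + 4 * M * 3) hN (by linarith) (by linarith)
    ⟨3, by ring⟩
  have r0 := G_eq (tab := tab2 K (4 * M) 8 11 14) (K := K) (N := 4 * M) (R := R') (z := ζ) (w := ζ) hN (by linarith) (by linarith)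
    ⟨0, by ring⟩
  have r1 := G_eq (tab := tab2 K (4 * M) 8 11 14) (K := K) (N := 4 * M) (R := R') (z := ζ + M * 1) (w := ζ + M * 1) hN (by linarith) (by linarith)
    ⟨0, by ring⟩
  have r2 := G_eq (tab := tab2 K (4 * M) 8 11 14) (K := K) (N := 4 * M) (R := R') (z := ζ + M * 2) (w := ζ + M * 2) hN (by linarith) (by linarith)
    ⟨0, by ring⟩
  have r3 := G_eq (tab := tab2 K (4 * M) 8 11 14) (K := K) (N := 4 * M) (R := R') (z := ζ + M * 3) (w := ζ + M * 3) hN (by linarith) (by linarith)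
    ⟨0, by ring⟩
  have cm : 3 * (4 * ζ + K + em + 4 * M) ≤ K + 4 * M - 1 := by linarith
  rw [tab2, if_pos cm, if_pos om0] at qm
  rw [tab2, if_neg az4] at qz
  have cp : 3 * (4 * ζ - K + e1 + 4 * M * 3 + 4 * M) ≤ K + 4 * M - 1 := by linarith
  rw [tab2, if_pos cp, if_neg op3] at qp
  rw [tab2, if_pos t0, if_pos oT0] at r0
  rw [tab2, if_pos t1, if_neg oT1] at r1
  rw [tab2, if_neg t2] at r2
  rw [tab2, if_neg t3] at r3
  have Em0 : ∀ n : ℤ, (n = 0 ∨ n = 0 + 1) → decide (R (4 * ζ + K + em)) = true → decide (R' (ζ + M * n)) = true := by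
    intro n hn h
    have h := of_decide_eq_true h
    rcases hn with rfl | rfl
    · exact decide_eq_true (hs.d0 (a := -1) (e := em) (m := 0) (by simp) (by assumption) (by ring) h rfl)
    · exact decide_eq_true (hs.d1 (a := -1) (e := em) (m := 0) (by simp) (by assumption) (by ring) h rfl)
  have Em1 : ∀ n : ℤ, (n = 1 ∨ n = 1 + 1) → decide (R (4 * ζ + K + em + 4 * M)) = true → decide (R' (ζ + M * n)) = true := by
    intro n hn h
    have h := of_decide_eq_true h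
    rcases hn with rfl | rfl
    · exact decide_eq_true (hs.d0 (a := -1) (e := em) (m := 1) (by simp) (by assumption) (by ring) h rfl)
    · exact decide_eq_true (hs.d1 (a := -1) (e := em) (m := 1) (by simp) (by assumption) (by ring) h rfl)
  have Ez2 : ∀ n : ℤ, (n = 2 ∨ n = 2 + 1) → decide (R (4 * ζ + e0 + 4 * M * 2)) = true → decide (R' (ζ + M * n)) = true := by
    intro n hn h
    have h := of_decide_eq_true h
    rcases hn with rfl | rfl
    · exact decide_eq_true (hs.d0 (a := 0) (e := e0) (m := 2) (by simp) (by assumption) (by ring) h rfl)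
    · exact decide_eq_true (hs.d1 (a := 0) (e := e0) (m := 2) (by simp) (by assumption) (by ring) h rfl)
  have Ep3 : ∀ n : ℤ, (n = 3 ∨ n = 3 + 1) → decide (R (4 * ζ - K + e1 + 4 * M * 3)) = true → decide (R' (ζ + M * n)) = true := by
    intro n hn h
    have h := of_decide_eq_true h
    rcases hn with rfl | rfl
    · exact decide_eq_true (hs.d0 (a := 1) (e := e1) (m := 3) (by simp) (by assumption) (by ring) h rfl)
    · exact decide_eq_true (hs.d1 (a := 1) (e := e1) (m := 3) (by simp) (by assumption) (by ring) h rfl)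
  have Ep4 : ∀ n : ℤ, (n = 4 ∨ n = 4 + 1) → decide (R (4 * ζ - K + e1 + 4 * M * 3 + 4 * M)) = true → decide (R' (ζ + M * n)) = true := by
    intro n hn h
    have h := of_decide_eq_true h
    rcases hn with rfl | rfl
    · exact decide_eq_true (hs.d0 (a := 1) (e := e1) (m := 4) (by simp) (by assumption) (by ring) h rfl)
    · exact decide_eq_true (hs.d1 (a := 1) (e := e1) (m := 4) (by simp) (by assumption) (by ring) h rfl)
  unfold Ineq
  rw [qm, qz, qp]
  generalize decide (R (4 * ζ + K + em)) = b0 at Em0 ⊢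
  generalize decide (R (4 * ζ + K + em + 4 * M)) = b1 at Em1 ⊢
  generalize decide (R (4 * ζ + e0 + 4 * M * 2)) = b2 at Ez2 ⊢
  generalize decide (R (4 * ζ - K + e1 + 4 * M * 3)) = b3 at Ep3 ⊢
  generalize decide (R (4 * ζ - K + e1 + 4 * M * 3 + 4 * M)) = b4 at Ep4 ⊢
  have T0 : (b0) = true → decide (R' (ζ + M * 0)) = true := by
    intro h
    exact Em0 0 (by norm_num) h
  have T4 : (b3 || b4) = true → decide (R' (ζ + M * 4)) = true := by
    intro h
    simp only [Bool.or_eq_true] at h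
    rcases h with (h | h)
    · exact Ep3 4 (by norm_num) h
    · exact Ep4 4 (by norm_num) h
  have T1 : (b0 || b1) = true → decide (R' (ζ + M * 1)) = true := by
    intro h
    simp only [Bool.or_eq_true] at h
    rcases h with (h | h)
    · exact Em0 1 (by norm_num) h
    · exact Em1 1 (by norm_num) h
  have T5 : (b4) = true → decide (R' (ζ + M * 5)) = true := by
    intro h
    exact Ep4 5 (by norm_num) h
  have T2 : (b1 || b2) = true → decide (R' (ζ + M * 2)) = true := by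
    intro h
    simp only [Bool.or_eq_true] at h
    rcases h with (h | h)
    · exact Em1 2 (by norm_num) h
    · exact Ez2 2 (by norm_num) h
  have T3 : (b2 || b3) = true → decide (R' (ζ + M * 3)) = true := by
    intro h
    simp only [Bool.or_eq_true] at h
    rcases h with (h | h)
    · exact Ez2 3 (by norm_num) h
    · exact Ep3 3 (by norm_num) h
  have u0 : g2 14 8 11 (b0) (b3 || b4) ≤ G (tab2 K (4 * M) 8 11 14) K (4 * M) R' (ζ) := by
    rw [r0, show ζ + 4 * M = ζ + M * 4 by ring]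
    have T0' := T0; rw [show ζ + M * 0 = ζ by ring] at T0'
    exact g2_mono (by norm_num) (by norm_num) (by norm_num) (by norm_num) T0' T4
  have u1 : g2 14 11 8 (b0 || b1) (b4) ≤ G (tab2 K (4 * M) 8 11 14) K (4 * M) R' (ζ + M * 1) := by
    rw [r1, show ζ + M * 1 + 4 * M = ζ + M * 5 by ring]
    exact g2_mono (by norm_num) (by norm_num) (by norm_num) (by norm_num) T1 T5
  have u2 : g1 14 (b1 || b2) ≤ G (tab2 K (4 * M) 8 11 14) K (4 * M) R' (ζ + M * 2) := by
    rw [r2]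
    exact g1_mono (by norm_num) T2
  have u3 : g1 14 (b2 || b3) ≤ G (tab2 K (4 * M) 8 11 14) K (4 * M) R' (ζ + M * 3) := by
    rw [r3]
    exact g1_mono (by norm_num) T3
  have key : ∀ b0 b1 b2 b3 b4 : Bool, KeyIneq 5 6 4 14 (g2 14 8 11 b0 b1) (g1 14 b2) (g2 14 11 8 b3 b4)
      (g2 14 8 11 (b0) (b3 || b4) + g2 14 11 8 (b0 || b1) (b4) + g1 14 (b1 || b2) + g1 14 (b2 || b3)) := by decide
  have key := key b0 b1 b2 b3 b4
  unfold KeyIneq at key
  refine ⟨by linarith [key.1], fun h h' => ?_⟩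
  have := key.2 h h'
  linarith

/-- type (0, 1) (2,) (3, 4) 6 (('m', 0, False), ('p', 3, True), ('T', 0, True), ('T', 1, False)) -/
lemma wa_leaf14 {K M ζ em e0 e1 : ℤ} {R R' : ℤ → Prop} (hM : 0 < M) (hs : StepRel K M R R')
    (hem : em = 0 ∨ em = 1) (he0 : e0 = 0 ∨ e0 = 1) (he1 : e1 = 0 ∨ e1 = 1)
    (hx1 : -K ≤ 3 * ζ) (hx2 : 3 * (ζ - M) < -K)
    (am1 : -K ≤ 3 * (4 * ζ + K + em))
    (am2 : 3 * (4 * ζ + K + em - 4 * M) < -K)
    (am3 : 3 * (4 * ζ + K + em + 4 * M * 1) ≤ K + 4 * M - 1)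
    (az1 : -K ≤ 3 * (4 * ζ + e0 + 4 * M * 2))
    (az2 : 3 * (4 * ζ + e0 + 4 * M * 2 - 4 * M) < -K)
    (az3 : 3 * (4 * ζ + e0 + 4 * M * 2) ≤ K + 4 * M - 1)
    (az4 : ¬ 3 * (4 * ζ + e0 + 4 * M * 2 + 4 * M) ≤ K + 4 * M - 1)
    (ap1 : -K ≤ 3 * (4 * ζ - K + e1 + 4 * M * 3))
    (ap2 : 3 * (4 * ζ - K + e1 + 4 * M * 3 - 4 * M) < -K)
    (ap3 : 3 * (4 * ζ - K + e1 + 4 * M * 4) ≤ K + 4 * M - 1)
    (t0 : 3 * (ζ + 4 * M) ≤ K + 4 * M - 1)
    (t1 : 3 * (ζ + M * 1 + 4 * M) ≤ K + 4 * M - 1)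
    (t2 : ¬ 3 * (ζ + M * 2 + 4 * M) ≤ K + 4 * M - 1)
    (t3 : ¬ 3 * (ζ + M * 3 + 4 * M) ≤ K + 4 * M - 1)
    (om0 : ¬ 3 * (4 * ζ + K + em) < -(4 * M))
    (op3 : 3 * (4 * ζ - K + e1 + 4 * M * 3) < -(4 * M))
    (oT0 : 3 * (ζ) < -(4 * M))
    (oT1 : ¬ 3 * (ζ + M * 1) < -(4 * M)) :
    Ineq 5 6 4 14 (tab2 K (4 * M) 8 11 14) K M R R' ζ em e0 e1 := by
  classical
  have hN : 0 < 4 * M := by linarith
  have qm := G_eq (tab := tab2 K (4 * M) 8 11 14) (K := K) (N := 4 * M) (R := R) (z := 4 * ζ + K + em) (w := 4 * ζ + K + em) hN (by linarith) (by linarith)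
    ⟨0, by ring⟩
  have qz := G_eq (tab := tab2 K (4 * M) 8 11 14) (K := K) (N := 4 * M) (R := R) (z := 4 * ζ + e0) (w := 4 * ζ + e0 + 4 * M * 2) hN (by linarith) (by linarith)
    ⟨2, by ring⟩
  have qp := G_eq (tab := tab2 K (4 * M) 8 11 14) (K := K) (N := 4 * M) (R := R) (z := 4 * ζ - K + e1) (w := 4 * ζ - K + e1 + 4 * M * 3) hN (by linarith) (by linarith)
    ⟨3, by ring⟩
  have r0 := G_eq (tab := tab2 K (4 * M) 8 11 14) (K := K) (N := 4 * M) (R := R') (z := ζ) (w := ζ) hN (by linarith) (by linarith)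
    ⟨0, by ring⟩
  have r1 := G_eq (tab := tab2 K (4 * M) 8 11 14) (K := K) (N := 4 * M) (R := R') (z := ζ + M * 1) (w := ζ + M * 1) hN (by linarith) (by linarith)
    ⟨0, by ring⟩
  have r2 := G_eq (tab := tab2 K (4 * M) 8 11 14) (K := K) (N := 4 * M) (R := R') (z := ζ + M * 2) (w := ζ + M * 2) hN (by linarith) (by linarith)
    ⟨0, by ring⟩
  have r3 := G_eq (tab := tab2 K (4 * M) 8 11 14) (K := K) (N := 4 * M) (R := R') (z := ζ + M * 3) (w := ζ + M * 3) hN (by linarith) (by linarith)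
    ⟨0, by ring⟩
  have cm : 3 * (4 * ζ + K + em + 4 * M) ≤ K + 4 * M - 1 := by linarith
  rw [tab2, if_pos cm, if_neg om0] at qm
  rw [tab2, if_neg az4] at qz
  have cp : 3 * (4 * ζ - K + e1 + 4 * M * 3 + 4 * M) ≤ K + 4 * M - 1 := by linarith
  rw [tab2, if_pos cp, if_pos op3] at qp
  rw [tab2, if_pos t0, if_pos oT0] at r0
  rw [tab2, if_pos t1, if_neg oT1] at r1
  rw [tab2, if_neg t2] at r2
  rw [tab2, if_neg t3] at r3
  have Em0 : ∀ n : ℤ, (n = 0 ∨ n = 0 + 1) → decide (R (4 * ζ + K + em)) = true → decide (R' (ζ + M * n)) = true := by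
    intro n hn h
    have h := of_decide_eq_true h
    rcases hn with rfl | rfl
    · exact decide_eq_true (hs.d0 (a := -1) (e := em) (m := 0) (by simp) (by assumption) (by ring) h rfl)
    · exact decide_eq_true (hs.d1 (a := -1) (e := em) (m := 0) (by simp) (by assumption) (by ring) h rfl)
  have Em1 : ∀ n : ℤ, (n = 1 ∨ n = 1 + 1) → decide (R (4 * ζ + K + em + 4 * M)) = true → decide (R' (ζ + M * n)) = true := by
    intro n hn h
    have h := of_decide_eq_true h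
    rcases hn with rfl | rfl
    · exact decide_eq_true (hs.d0 (a := -1) (e := em) (m := 1) (by simp) (by assumption) (by ring) h rfl)
    · exact decide_eq_true (hs.d1 (a := -1) (e := em) (m := 1) (by simp) (by assumption) (by ring) h rfl)
  have Ez2 : ∀ n : ℤ, (n = 2 ∨ n = 2 + 1) → decide (R (4 * ζ + e0 + 4 * M * 2)) = true → decide (R' (ζ + M * n)) = true := by
    intro n hn h
    have h := of_decide_eq_true h
    rcases hn with rfl | rfl
    · exact decide_eq_true (hs.d0 (a := 0) (e := e0) (m := 2) (by simp) (by assumption) (by ring) h rfl)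
    · exact decide_eq_true (hs.d1 (a := 0) (e := e0) (m := 2) (by simp) (by assumption) (by ring) h rfl)
  have Ep3 : ∀ n : ℤ, (n = 3 ∨ n = 3 + 1) → decide (R (4 * ζ - K + e1 + 4 * M * 3)) = true → decide (R' (ζ + M * n)) = true := by
    intro n hn h
    have h := of_decide_eq_true h
    rcases hn with rfl | rfl
    · exact decide_eq_true (hs.d0 (a := 1) (e := e1) (m := 3) (by simp) (by assumption) (by ring) h rfl)
    · exact decide_eq_true (hs.d1 (a := 1) (e := e1) (m := 3) (by simp) (by assumption) (by ring) h rfl)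
  have Ep4 : ∀ n : ℤ, (n = 4 ∨ n = 4 + 1) → decide (R (4 * ζ - K + e1 + 4 * M * 3 + 4 * M)) = true → decide (R' (ζ + M * n)) = true := by
    intro n hn h
    have h := of_decide_eq_true h
    rcases hn with rfl | rfl
    · exact decide_eq_true (hs.d0 (a := 1) (e := e1) (m := 4) (by simp) (by assumption) (by ring) h rfl)
    · exact decide_eq_true (hs.d1 (a := 1) (e := e1) (m := 4) (by simp) (by assumption) (by ring) h rfl)
  unfold Ineq
  rw [qm, qz, qp]
  generalize decide (R (4 * ζ + K + em)) = b0 at Em0 ⊢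
  generalize decide (R (4 * ζ + K + em + 4 * M)) = b1 at Em1 ⊢
  generalize decide (R (4 * ζ + e0 + 4 * M * 2)) = b2 at Ez2 ⊢
  generalize decide (R (4 * ζ - K + e1 + 4 * M * 3)) = b3 at Ep3 ⊢
  generalize decide (R (4 * ζ - K + e1 + 4 * M * 3 + 4 * M)) = b4 at Ep4 ⊢
  have T0 : (b0) = true → decide (R' (ζ + M * 0)) = true := by
    intro h
    exact Em0 0 (by norm_num) h
  have T4 : (b3 || b4) = true → decide (R' (ζ + M * 4)) = true := by
    intro h
    simp only [Bool.or_eq_true] at h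
    rcases h with (h | h)
    · exact Ep3 4 (by norm_num) h
    · exact Ep4 4 (by norm_num) h
  have T1 : (b0 || b1) = true → decide (R' (ζ + M * 1)) = true := by
    intro h
    simp only [Bool.or_eq_true] at h
    rcases h with (h | h)
    · exact Em0 1 (by norm_num) h
    · exact Em1 1 (by norm_num) h
  have T5 : (b4) = true → decide (R' (ζ + M * 5)) = true := by
    intro h
    exact Ep4 5 (by norm_num) h
  have T2 : (b1 || b2) = true → decide (R' (ζ + M * 2)) = true := by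
    intro h
    simp only [Bool.or_eq_true] at h
    rcases h with (h | h)
    · exact Em1 2 (by norm_num) h
    · exact Ez2 2 (by norm_num) h
  have T3 : (b2 || b3) = true → decide (R' (ζ + M * 3)) = true := by
    intro h
    simp only [Bool.or_eq_true] at h
    rcases h with (h | h)
    · exact Ez2 3 (by norm_num) h
    · exact Ep3 3 (by norm_num) h
  have u0 : g2 14 8 11 (b0) (b3 || b4) ≤ G (tab2 K (4 * M) 8 11 14) K (4 * M) R' (ζ) := by
    rw [r0, show ζ + 4 * M = ζ + M * 4 by ring]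
    have T0' := T0; rw [show ζ + M * 0 = ζ by ring] at T0'
    exact g2_mono (by norm_num) (by norm_num) (by norm_num) (by norm_num) T0' T4
  have u1 : g2 14 11 8 (b0 || b1) (b4) ≤ G (tab2 K (4 * M) 8 11 14) K (4 * M) R' (ζ + M * 1) := by
    rw [r1, show ζ + M * 1 + 4 * M = ζ + M * 5 by ring]
    exact g2_mono (by norm_num) (by norm_num) (by norm_num) (by norm_num) T1 T5
  have u2 : g1 14 (b1 || b2) ≤ G (tab2 K (4 * M) 8 11 14) K (4 * M) R' (ζ + M * 2) := by
    rw [r2]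
    exact g1_mono (by norm_num) T2
  have u3 : g1 14 (b2 || b3) ≤ G (tab2 K (4 * M) 8 11 14) K (4 * M) R' (ζ + M * 3) := by
    rw [r3]
    exact g1_mono (by norm_num) T3
  have key : ∀ b0 b1 b2 b3 b4 : Bool, KeyIneq 5 6 4 14 (g2 14 11 8 b0 b1) (g1 14 b2) (g2 14 8 11 b3 b4)
      (g2 14 8 11 (b0) (b3 || b4) + g2 14 11 8 (b0 || b1) (b4) + g1 14 (b1 || b2) + g1 14 (b2 || b3)) := by decide
  have key := key b0 b1 b2 b3 b4
  unfold KeyIneq at key
  refine ⟨by linarith [key.1], fun h h' => ?_⟩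
  have := key.2 h h'
  linarith

theorem wa_core {K M ζ em e0 e1 : ℤ} {R R' : ℤ → Prop} (hM : 0 < M) (hs : StepRel K M R R')
    (hem : em = 0 ∨ em = 1) (he0 : e0 = 0 ∨ e0 = 1) (he1 : e1 = 0 ∨ e1 = 1)
    (hx1 : -K ≤ 3 * ζ) (hx2 : 3 * (ζ - M) < -K) (hM4 : 4 ≤ M) (hM3 : M % 3 = 1) (hK1 : 4 * M < K) (hK2 : 5 * K + 2 ≤ 32 * M) :
    Ineq 5 6 4 14 (tab2 K (4 * M) 8 11 14) K M R R' ζ em e0 e1 := by
  by_cases hhim1 : 3 * (4 * ζ + K + em + 4 * M * 1) ≤ K + 4 * M - 1
  · by_cases houtm0 : 3 * (4 * ζ + K + em) < -(4 * M)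
    · by_cases houtp3 : 3 * (4 * ζ - K + e1 + 4 * M * 3) < -(4 * M)
      · by_cases hlop3 : -K ≤ 3 * (4 * ζ - K + e1 + 4 * M * 3)
        · exact wa_leaf9 hM hs hem he0 he1 hx1 hx2 (by omega) (by omega) (by omega) (by omega) (by omega) (by omega) (by omega) (by omega) (by omega) (by omega) (by omega) (by omega) (by omega) (by omega) (by omega) (by omega) (by omega) (by omega)
        · exact wa_leaf11 hM hs hem he0 he1 hx1 hx2 (by omega) (by omega) (by omega) (by omega) (by omega) (by omega) (by omega) (by omega) (by omega) (by omega) (by omega) (by omega) (by omega) (by omega) (by omega) (by omega) (by omega) (by omega)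
      · by_cases hhip4 : 3 * (4 * ζ - K + e1 + 4 * M * 4) ≤ K + 4 * M - 1
        · exact wa_leaf13 hM hs hem he0 he1 hx1 hx2 (by omega) (by omega) (by omega) (by omega) (by omega) (by omega) (by omega) (by omega) (by omega) (by omega) (by omega) (by omega) (by omega) (by omega) (by omega) (by omega) (by omega) (by omega)
        · exact wa_leaf1 hM hs hem he0 he1 hx1 hx2 (by omega) (by omega) (by omega) (by omega) (by omega) (by omega) (by omega) (by omega) (by omega) (by omega) (by omega) (by omega) (by omega) (by omega) (by omega) (by omega) (by omega)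
    · by_cases hhip4 : 3 * (4 * ζ - K + e1 + 4 * M * 4) ≤ K + 4 * M - 1
      · by_cases houtp3 : 3 * (4 * ζ - K + e1 + 4 * M * 3) < -(4 * M)
        · exact wa_leaf14 hM hs hem he0 he1 hx1 hx2 (by omega) (by omega) (by omega) (by omega) (by omega) (by omega) (by omega) (by omega) (by omega) (by omega) (by omega) (by omega) (by omega) (by omega) (by omega) (by omega) (by omega) (by omega)
        · exact wa_leaf10 hM hs hem he0 he1 hx1 hx2 (by omega) (by omega) (by omega) (by omega) (by omega) (by omega) (by omega) (by omega) (by omega) (by omega) (by omega) (by omega) (by omega) (by omega) (by omega) (by omega) (by omega) (by omega)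
      · exact wa_leaf2 hM hs hem he0 he1 hx1 hx2 (by omega) (by omega) (by omega) (by omega) (by omega) (by omega) (by omega) (by omega) (by omega) (by omega) (by omega) (by omega) (by omega) (by omega) (by omega) (by omega) (by omega)
  · by_cases hhiz2 : 3 * (4 * ζ + e0 + 4 * M * 2) ≤ K + 4 * M - 1
    · by_cases hloz1 : -K ≤ 3 * (4 * ζ + e0 + 4 * M * 1)
      · by_cases houtT0 : 3 * (ζ) < -(4 * M)
        · exact wa_leaf7 hM hs hem he0 he1 hx1 hx2 (by omega) (by omega) (by omega) (by omega) (by omega) (by omega) (by omega) (by omega) (by omega) (by omega) (by omega) (by omega) (by omega) (by omega) (by omega) (by omega) (by omega)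
        · exact wa_leaf8 hM hs hem he0 he1 hx1 hx2 (by omega) (by omega) (by omega) (by omega) (by omega) (by omega) (by omega) (by omega) (by omega) (by omega) (by omega) (by omega) (by omega) (by omega) (by omega) (by omega) (by omega)
      · by_cases hhip4 : 3 * (4 * ζ - K + e1 + 4 * M * 4) ≤ K + 4 * M - 1
        · exact wa_leaf12 hM hs hem he0 he1 hx1 hx2 (by omega) (by omega) (by omega) (by omega) (by omega) (by omega) (by omega) (by omega) (by omega) (by omega) (by omega) (by omega) (by omega) (by omega) (by omega) (by omega) (by omega) (by omega)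
        · exact wa_leaf5 hM hs hem he0 he1 hx1 hx2 (by omega) (by omega) (by omega) (by omega) (by omega) (by omega) (by omega) (by omega) (by omega) (by omega) (by omega) (by omega) (by omega) (by omega) (by omega) (by omega) (by omega)
    · by_cases houtp2 : 3 * (4 * ζ - K + e1 + 4 * M * 2) < -(4 * M)
      · by_cases hlop2 : -K ≤ 3 * (4 * ζ - K + e1 + 4 * M * 2)
        · exact wa_leaf3 hM hs hem he0 he1 hx1 hx2 (by omega) (by omega) (by omega) (by omega) (by omega) (by omega) (by omega) (by omega) (by omega) (by omega) (by omega) (by omega) (by omega) (by omega) (by omega) (by omega) (by omega)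
        · exact wa_leaf6 hM hs hem he0 he1 hx1 hx2 (by omega) (by omega) (by omega) (by omega) (by omega) (by omega) (by omega) (by omega) (by omega) (by omega) (by omega) (by omega) (by omega) (by omega) (by omega) (by omega) (by omega)
      · by_cases hhip3 : 3 * (4 * ζ - K + e1 + 4 * M * 3) ≤ K + 4 * M - 1
        · exact wa_leaf4 hM hs hem he0 he1 hx1 hx2 (by omega) (by omega) (by omega) (by omega) (by omega) (by omega) (by omega) (by omega) (by omega) (by omega) (by omega) (by omega) (by omega) (by omega) (by omega) (by omega) (by omega)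
        · exact wa_leaf0 hM hs hem he0 he1 hx1 hx2 (by omega) (by omega) (by omega) (by omega) (by omega) (by omega) (by omega) (by omega) (by omega) (by omega) (by omega) (by omega) (by omega) (by omega) (by omega) (by omega)

end Pool.Agent.H62.LV
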