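import Pool.Agent.H62.LV.Good
import Pool.Agent.H62.LV.WinA
import Pool.Agent.H62.LV.WinB

/-! The windows `4^t < |k|`, `4 |k| ≤ 7 · 4^t`. -/

namespace Pool.Agent.H62.LV

open Pool.Agent.H6.LvdP2 Pool.Agent.H98.LvdP Finset

lemma G_zero {tab : ℤ → Bool → Bool → Bool → ℤ} {K N top : ℤ} {R : ℤ → Prop} (hN : 0 < N)
    (hK : 0 ≤ K) (hK3 : K < 3 * N) (htab : ∀ w b1 b2, tab w false b1 b2 ≠ top)
    (h : G tab K N R 0 = top) : R 0 := by
  classical
  rw [G_eq (w := 0) hN (by linarith) (by linarith) (by simp)] at h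
  by_contra h0
  rw [decide_eq_false h0] at h
  exact htab _ _ _ h

lemma G_start {tab : ℤ → Bool → Bool → Bool → ℤ} {K N v k w : ℤ} {R : ℤ → Prop} (hN : 0 < N)
    (hk : |k| = K) (hK1 : 3 ≤ K) (hK3 : K < 3 * N) (hw : 4 * w = k - 1) (hR : R w)
    (htab0 : ∀ w b1 b2, v ≤ tab w true b1 b2)
    (htab1 : ∀ w b0 b2, 3 * (w + N) ≤ K + N - 1 → v ≤ tab w b0 true b2) :
    v ≤ G tab K N R w := by
  classical
  have h1 := le_abs_self k
  have h2 := neg_abs_le k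
  rw [hk] at h1 h2
  by_cases hc : 3 * (w - N) < -K
  · rw [G_eq (w := w) hN (by linarith) hc (by simp), decide_eq_true hR]
    exact htab0 _ _ _
  · have e : R (w - N + N) := by simpa using hR
    rw [G_eq (w := w - N) hN (by linarith) (by linarith) ⟨-1, by ring⟩, decide_eq_true e]
    apply htab1
    linarith

lemma good_of_ineq {A B C top : ℤ} {tab : ℤ → Bool → Bool → Bool → ℤ} {K : ℤ} {u : ℕ}
    (hA : 2 * A + B = 4 * C) (hC : 0 < C) (htop : 0 < top) (hAC : C ≤ A) (hAC' : A ≤ 2 * C)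
    (hK1 : 3 ≤ K) (hK3 : K < 3 * (4 * 4 ^ u))
    (hnn : ∀ w b0 b1 b2, 0 ≤ tab w b0 b1 b2) (hle : ∀ w b0 b1 b2, tab w b0 b1 b2 ≤ top)
    (hgap : ∀ w b0 b1 b2, tab w b0 b1 b2 = top ∨ 16 * tab w b0 b1 b2 ≤ 15 * top)
    (htabf : ∀ w b1 b2, tab w false b1 b2 ≠ top)
    (htab0 : ∀ w b1 b2, top ≤ 16 * tab w true b1 b2)
    (htab1 : ∀ w b0 b2, 3 * (w + 4 * 4 ^ u) ≤ K + 4 * 4 ^ u - 1 → top ≤ 16 * tab w b0 true b2)
    (H : ∀ R R' : ℤ → Prop, StepRel K (4 ^ u) R R' → ∀ ζ em e0 e1 : ℤ, (em = 0 ∨ em = 1) →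
      (e0 = 0 ∨ e0 = 1) → (e1 = 0 ∨ e1 = 1) → -K ≤ 3 * ζ → 3 * (ζ - 4 ^ u) < -K →
        Ineq A B C top tab K (4 ^ u) R R' ζ em e0 e1) :
    Good K u (1 / (2 * C * top)) := by
  intro k hk hk4
  subst hk
  have hCR : (0 : ℝ) < C := by exact_mod_cast hC
  have htR : (0 : ℝ) < top := by exact_mod_cast htop
  have hN : (0 : ℤ) < 4 * 4 ^ u := by positivity
  refine ⟨(A : ℝ) / (4 * C), FF tab top k u, ?_, ?_, ?_, ?_⟩
  · rw [le_div_iff₀ (by positivity)]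
    have : (C : ℝ) ≤ A := by exact_mod_cast hAC
    linarith
  · rw [div_le_iff₀ (by positivity)]
    have : (A : ℝ) ≤ 2 * C := by exact_mod_cast hAC'
    linarith
  · refine strictChain_of_ineq hA hC htop hnn hle ?_ ?_ H
    · intro w b0 b1 b2
      rcases hgap w b0 b1 b2 with h | h
      · exact Or.inl h
      · right
        rw [div_le_iff₀ htR]
        have : (16 : ℝ) * tab w b0 b1 b2 ≤ 15 * top := by exact_mod_cast h
        linarith
    · obtain ⟨w, hw⟩ : ∃ w : ℤ, 4 * w = k - 1 := ⟨(k - 1) / 4, by omega⟩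
      refine ⟨w, ?_⟩
      have hs : top ≤ 16 * G tab |k| (4 * 4 ^ u) (Reach k (u + 1) 0) w := by
        have := G_start (tab := fun w b0 b1 b2 => 16 * tab w b0 b1 b2) (N := 4 * 4 ^ u)
          (R := Reach k (u + 1) 0) hN rfl hK1 hK3 hw (by simpa [Reach] using hw)
          (fun w b1 b2 => htab0 w b1 b2) (fun w b0 b2 => htab1 w b0 b2)
        exact this
      unfold FF
      rw [le_div_iff₀ htR]
      have : (top : ℝ) ≤ 16 * G tab |k| (4 * 4 ^ u) (Reach k (u + 1) 0) w := by exact_mod_cast hs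
      linarith
  · intro n hn
    unfold FF at hn
    rw [div_eq_one_iff_eq htR.ne'] at hn
    exact G_zero hN (abs_nonneg k) hK3 htabf (by exact_mod_cast hn)

lemma four_pow_mod (u : ℕ) : (4 : ℤ) ^ u % 3 = 1 := by
  induction u with
  | zero => norm_num
  | succ u ih => rw [pow_succ]; omega

lemma four_pow_mod5 (u : ℕ) : (4 : ℤ) ^ u % 5 = 1 ∨ (4 : ℤ) ^ u % 5 = 4 := by
  induction u with
  | zero => norm_num
  | succ u ih => rw [pow_succ]; omega

theorem good_A {K : ℤ} {u : ℕ} (hu : 1 ≤ u) (h1 : 4 * 4 ^ u < K) (h2 : 5 * K + 2 ≤ 32 * 4 ^ u) :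
    Good K u (1 / 112) := by
  have hM4 : (4 : ℤ) ≤ 4 ^ u := by
    calc (4 : ℤ) = 4 ^ 1 := by norm_num
      _ ≤ 4 ^ u := pow_le_pow_right₀ (by norm_num) hu
  have h := good_of_ineq (A := 5) (B := 6) (C := 4) (top := 14) (tab := tab2 K (4 * 4 ^ u) 8 11 14)
    (K := K) (u := u) (by norm_num) (by norm_num) (by norm_num) (by norm_num) (by norm_num)
    (by linarith) (by linarith) ?_ ?_ ?_ ?_ ?_ ?_ ?_
  · norm_num at h ⊢
    exact h
  · intro w b0 b1 b2; unfold tab2; split_ifs <;> cases b0 <;> cases b1 <;> simp [g1, g2]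
  · intro w b0 b1 b2; unfold tab2; split_ifs <;> cases b0 <;> cases b1 <;> simp [g1, g2]
  · intro w b0 b1 b2; unfold tab2; split_ifs <;> cases b0 <;> cases b1 <;> simp [g1, g2]
  · intro w b1 b2; unfold tab2; split_ifs <;> cases b1 <;> simp [g1, g2]
  · intro w b1 b2; unfold tab2; split_ifs <;> cases b1 <;> simp [g1, g2]
  · intro w b0 b2 hw; unfold tab2; rw [if_pos hw]; split_ifs <;> cases b0 <;> simp [g2]
  · intro R R' hs ζ em e0 e1 hem he0 he1 hx1 hx2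
    exact wa_core (by linarith) hs hem he0 he1 hx1 hx2 hM4 (four_pow_mod u) h1 h2

theorem good_B {K : ℤ} {u : ℕ} (hu : 1 ≤ u) (h1 : 32 * 4 ^ u + 2 ≤ 5 * K) (h2 : K < 7 * 4 ^ u) :
    Good K u (1 / 80) := by
  have hM4 : (4 : ℤ) ≤ 4 ^ u := by
    calc (4 : ℤ) = 4 ^ 1 := by norm_num
      _ ≤ 4 ^ u := pow_le_pow_right₀ (by norm_num) hu
  have h := good_of_ineq (A := 6) (B := 8) (C := 5) (top := 8) (tab := tab2c K (4 * 4 ^ u) 5 8)
    (K := K) (u := u) (by norm_num) (by norm_num) (by norm_num) (by norm_num) (by norm_num)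
    (by linarith) (by linarith) ?_ ?_ ?_ ?_ ?_ ?_ ?_
  · norm_num at h ⊢
    exact h
  · intro w b0 b1 b2; unfold tab2c; split_ifs <;> cases b0 <;> cases b1 <;> simp [g1, g2]
  · intro w b0 b1 b2; unfold tab2c; split_ifs <;> cases b0 <;> cases b1 <;> simp [g1, g2]
  · intro w b0 b1 b2; unfold tab2c; split_ifs <;> cases b0 <;> cases b1 <;> simp [g1, g2]
  · intro w b1 b2; unfold tab2c; split_ifs <;> cases b1 <;> simp [g1, g2]
  · intro w b1 b2; unfold tab2c; split_ifs <;> cases b1 <;> simp [g1, g2]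
  · intro w b0 b2 hw; unfold tab2c; rw [if_pos hw]; cases b0 <;> simp [g2]
  · intro R R' hs ζ em e0 e1 hem he0 he1 hx1 hx2
    exact wb_core (by linarith) hs hem he0 he1 hx1 hx2 hM4 (four_pow_mod u) h1 h2

/-- monotonicity of the bound in the constant -/
lemma bound_mono {k m : ℤ} {c c' : ℝ} (hk : 16 ≤ |k|) (hc : c ≤ c')
    (h : (m : ℝ) ≤ |(k : ℝ)| ^ (c * Real.log (Real.log |(k : ℝ)|))) :
    (m : ℝ) ≤ |(k : ℝ)| ^ (c' * Real.log (Real.log |(k : ℝ)|)) := by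
  have hkR : (16 : ℝ) ≤ |(k : ℝ)| := by exact_mod_cast hk
  have h1 : 1 ≤ Real.log |(k : ℝ)| := by
    have h2 : Real.log (2 ^ 4) ≤ Real.log |(k : ℝ)| := Real.log_le_log (by norm_num) (by linarith)
    rw [Real.log_pow] at h2
    have := Real.log_two_gt_d9
    push_cast at h2
    linarith
  have h2 : 0 ≤ Real.log (Real.log |(k : ℝ)|) := Real.log_nonneg h1
  refine h.trans (Real.rpow_le_rpow_of_exponent_le (by linarith) ?_)
  exact mul_le_mul_of_nonneg_right hc h2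

theorem bound_window {k : ℤ} (hk : Odd k) {t : ℕ} (ht : 2 ≤ t) (h1 : 4 ^ t < |k|)
    (h2 : 4 * |k| ≤ 7 * 4 ^ t) :
    ∃ m : ℤ, IsMultiplier k m ∧ (m : ℝ) ≤ |(k : ℝ)| ^ (566 * Real.log (Real.log |(k : ℝ)|)) := by
  obtain ⟨u, rfl⟩ : ∃ u, t = u + 1 := ⟨t - 1, by omega⟩
  have hu : 1 ≤ u := by omega
  have h4 : (4 : ℤ) ^ (u + 1) = 4 * 4 ^ u := by ring
  have hM4 : (4 : ℤ) ≤ 4 ^ u := by
    calc (4 : ℤ) = 4 ^ 1 := by norm_num
      _ ≤ 4 ^ u := pow_le_pow_right₀ (by norm_num) hu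
  have hM2 : (4 : ℤ) ^ u % 2 = 0 := by
    obtain ⟨v, rfl⟩ : ∃ v, u = v + 1 := ⟨u - 1, by omega⟩
    rw [pow_succ]; omega
  have hko : |k| % 2 = 1 := by
    have := (odd_abs (α := ℤ)).2 hk
    exact Int.odd_iff.1 this
  rw [h4] at h1 h2
  rcases le_or_gt (5 * |k| + 2) (32 * 4 ^ u) with h | h
  · have hg := good_A hu h1 h
    obtain ⟨m, hm, hb⟩ := bound_of_good hk hu (by rw [h4]; exact h1.le) hg (by norm_num)
      (by norm_num)
    refine ⟨m, hm, bound_mono (by linarith) ?_ hb⟩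
    norm_num
  · have h5 := four_pow_mod5 u
    have hg := good_B (K := |k|) hu (by omega) (by omega)
    obtain ⟨m, hm, hb⟩ := bound_of_good hk hu (by rw [h4]; exact h1.le) hg (by norm_num)
      (by norm_num)
    refine ⟨m, hm, bound_mono (by linarith) ?_ hb⟩
    norm_num

end Pool.Agent.H62.LV
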